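import Pool.Agent.W624.StzH

/-!
# Products with shifted cochains

`shf K m` shifts the slots by `m`; `inK K` includes the cobar complex into the polynomial rings with
coefficient coordinates.  For a cocycle `Z` of degree `s` the maps `f ↦ Z ^ (2 ^ j) * shf K s f` commute
with the differentials, the reductions and the prism homotopy.
-/

set_option autoImplicit false
set_option linter.unusedSectionVars false

namespace Pool.Agent.H59K

open Finset MvPolynomial Pool.Agent.W624.Stz

section shift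

variable {M Y : Type*} [Monoid M]

/-- shift of points -/
def spt (m : ℕ) (z : (ℕ → M) × Y) : (ℕ → M) × Y := (fun a => z.1 (a + m), z.2)

theorem spt_fc_low {ac : M → Y → Y} {s r j : ℕ} (hj : j ≤ s) (z : (ℕ → M) × Y) :
    Agr r (spt s (fc ac (s + r) j z)) (spt (s + 1) z) := by
  rcases Nat.eq_zero_or_pos j with rfl | hj0
  · rw [fc_zero]
    refine ⟨fun a _ => ?_, rfl⟩
    simp only [spt]
    rw [show a + s + 1 = a + (s + 1) by omega]
  · obtain ⟨j, rfl⟩ : ∃ k, j = k + 1 := ⟨j - 1, by omega⟩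
    rw [fc_mid _ (by omega)]
    refine ⟨fun a _ => ?_, rfl⟩
    simp only [spt]
    rw [mrg_gt (by omega), show a + s + 1 = a + (s + 1) by omega]

theorem spt_fc_high {ac : M → Y → Y} {s r j : ℕ} (hj : j ≤ r) (z : (ℕ → M) × Y) :
    Agr r (spt s (fc ac (s + r) (s + 1 + j) z)) (fc ac r (j + 1) (spt s z)) := by
  rcases Nat.lt_or_ge j r with h | h
  · rw [show s + 1 + j = (s + j) + 1 by omega, fc_mid _ (by omega), fc_mid _ h]
    refine ⟨fun a _ => ?_, rfl⟩
    simp only [spt]
    rcases lt_trichotomy a j with h1 | h1 | h1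
    · rw [mrg_lt h1, mrg_lt (by omega)]
    · subst h1
      rw [mrg_eq, show a + s = s + a by omega, mrg_eq, show a + 1 + s = s + a + 1 by omega]
    · rw [mrg_gt h1, mrg_gt (by omega), show a + s + 1 = a + 1 + s by omega]
  · rw [fc_last _ (by omega), fc_last _ (by omega)]
    refine ⟨fun a _ => rfl, ?_⟩
    simp only [spt]
    rw [show r + s = s + r by omega]

theorem fc_high_fst {ac : M → Y → Y} {s r j : ℕ} (hj : j ≤ r) (z : (ℕ → M) × Y) {a : ℕ}
    (ha : a < s) : (fc ac (s + r) (s + 1 + j) z).1 a = z.1 a := by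
  rcases Nat.lt_or_ge j r with h | h
  · rw [show s + 1 + j = (s + j) + 1 by omega, fc_mid _ (by omega)]
    exact mrg_lt (by omega) _
  · rw [fc_last _ (by omega)]

theorem fc_zero_spt {ac : M → Y → Y} (s r : ℕ) (z : (ℕ → M) × Y) :
    fc ac r 0 (spt s z) = spt (s + 1) z := by
  rw [fc_zero]
  refine Prod.ext ?_ rfl
  funext a
  simp only [spt]
  rw [show a + 1 + s = a + (s + 1) by omega]

/-- the first component of a low face does not depend on the level -/
theorem fc_low_fst {ac : M → Y → Y} {Y' : Type*} {ac' : M → Y' → Y'} {s r j : ℕ} (hj : j ≤ s)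
    (z : (ℕ → M) × Y) (y' : Y') :
    (fc ac (s + r) j z).1 = (fc ac' s j (z.1, y')).1 := by
  rcases Nat.eq_zero_or_pos j with rfl | hj0
  · rw [fc_zero, fc_zero]
  · obtain ⟨j, rfl⟩ : ∃ k, j = k + 1 := ⟨j - 1, by omega⟩
    rw [fc_mid _ (by omega), fc_mid _ (by omega)]

end shift

section inc

variable {A : Type*} [CommRing A] [Algebra (ZMod 2) A] {K L : Type}

/-- shift of slots -/
noncomputable def shf (K : Type) (m : ℕ) : RR K →ₐ[ZMod 2] RR K :=
  aeval (fun v => match v with
    | .x a n => X (.x (a + m) n)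
    | .s a n => X (.s (a + m) n)
    | .y c n => X (.y c n))

theorem shf_x (m a n : ℕ) : shf K m (X (.x a n)) = X (.x (a + m) n) := aeval_X _ _
theorem shf_s (m a n : ℕ) : shf K m (X (.s a n)) = X (.s (a + m) n) := aeval_X _ _
theorem shf_y (m : ℕ) (c : K) (n : ℕ) : shf K m (X (.y c n)) = X (.y c n) := aeval_X _ _

/-- inclusion of the cobar complex -/
noncomputable def inK (K : Type) : RR Empty →ₐ[ZMod 2] RR K :=
  aeval (fun v => match v with
    | .x a n => X (.x a n)
    | .s a n => X (.s a n)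
    | .y c _ => c.elim)

theorem inK_x (a n : ℕ) : inK K (X (.x a n)) = X (.x a n) := aeval_X _ _
theorem inK_s (a n : ℕ) : inK K (X (.s a n)) = X (.s a n) := aeval_X _ _

theorem ev_shf (m : ℕ) (z : Pt K A) (f : RR K) : ev z (shf K m f) = ev (spt m z) f := by
  have : (ev z).comp (shf K m) = ev (spt m z) := by
    apply algHom_ext
    intro v
    rw [AlgHom.comp_apply, ev_X]
    cases v with
    | x a n => rw [shf_x, ev_X]; rfl
    | s a n => rw [shf_s, ev_X]; rfl
    | y c n => rw [shf_y, ev_X]; rfl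
  exact DFunLike.congr_fun this f

/-- points without coefficients -/
def fst0 (γ : ℕ → Tg A) : Pt Empty A := (γ, fun c => c.elim)

theorem ev_inK (z : Pt K A) (f : RR Empty) : ev z (inK K f) = ev (fst0 z.1) f := by
  have : (ev z).comp (inK K) = ev (fst0 z.1) := by
    apply algHom_ext
    intro v
    rw [AlgHom.comp_apply, ev_X]
    cases v with
    | x a n => rw [inK_x, ev_X]; rfl
    | s a n => rw [inK_s, ev_X]; rfl
    | y c n => exact c.elim
  exact DFunLike.congr_fun this f

theorem fst0_eq (z : Pt Empty A) : z = fst0 z.1 := Prod.ext rfl (funext fun c => c.elim)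

/-- cocycle condition on faces -/
theorem faces_cocycle {s : ℕ} {Z : RR Empty} (hd : dd kun s Z = 0)
    (γ : ℕ → Tg A) :
    ∑ j ∈ range (s + 1), ev (fst0 (fc (act (A := A) (kun : Empty → Kd)) s j (fst0 γ)).1) Z
      = ev (fst0 γ) Z := by
  have h1 := ev_dd (A := A) (kun : Empty → Kd) s (fst0 γ) Z
  rw [hd, map_zero, dF, sum_range_succ] at h1
  have h2 : ev (fc (act (A := A) (kun : Empty → Kd)) s (s + 1) (fst0 γ)) Z = ev (fst0 γ) Z := by
    rw [fc_last _ (by omega), fst0_eq ((fst0 γ).1, act kun ((fst0 γ).1 s) (fst0 γ).2)]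
    rfl
  rw [h2] at h1
  have h3 := eq_of_add_zero h1.symm
  rw [← h3]
  refine sum_congr rfl fun j _ => ?_
  rw [← fst0_eq]

/-- multiplication by a shifted power of a cocycle commutes with the differential -/
theorem dd_mul_shf {κ : K → Kd} {s r : ℕ} (N : ℕ) {Z : RR Empty} (hZ : cut Empty s Z = Z)
    (hd : dd kun s Z = 0) {f : RR K} (hf : cut K r f = f) :
    dd κ (s + r) (inK K Z ^ 2 ^ N * shf K s f) = inK K Z ^ 2 ^ N * shf K s (dd κ r f) := by
  set z : Pt K (RR K) := uni K with hz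
  have key : ev z (dd κ (s + r) (inK K Z ^ 2 ^ N * shf K s f))
      = ev z (inK K Z ^ 2 ^ N * shf K s (dd κ r f)) := by
    rw [ev_dd, dF, show s + r + 2 = (s + 1) + (r + 1) by omega, sum_range_add]
    have hL : ∀ j ∈ range (s + 1), ev (fc (act κ) (s + r) j z) (inK K Z ^ 2 ^ N * shf K s f)
        = (ev (fst0 (fc (act (A := RR K) (kun : Empty → Kd)) s j (fst0 z.1)).1) Z) ^ 2 ^ N
          * ev (spt (s + 1) z) f := by
      intro j hj
      rw [mem_range] at hj
      have hj' : j ≤ s := by omega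
      have e1 : (fc (act κ) (s + r) j z).1
          = (fc (act (A := RR K) (kun : Empty → Kd)) s j (fst0 z.1)).1 := fc_low_fst hj' z _
      have e2 : ev (spt s (fc (act κ) (s + r) j z)) f = ev (spt (s + 1) z) f :=
        dep_of_cut hf _ _ (spt_fc_low hj' z)
      rw [map_mul, map_pow, ev_inK, ev_shf, e1, e2]
    have hH : ∀ j ∈ range (r + 1), ev (fc (act κ) (s + r) (s + 1 + j) z)
        (inK K Z ^ 2 ^ N * shf K s f)
        = (ev (fst0 z.1) Z) ^ 2 ^ N * ev (fc (act κ) r (j + 1) (spt s z)) f := by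
      intro j hj
      rw [mem_range] at hj
      have hj' : j ≤ r := by omega
      have e1 : ev (fst0 (fc (act κ) (s + r) (s + 1 + j) z).1) Z = ev (fst0 z.1) Z :=
        dep_of_cut hZ _ _ ⟨fun a ha => fc_high_fst hj' z ha, rfl⟩
      have e2 : ev (spt s (fc (act κ) (s + r) (s + 1 + j) z)) f
          = ev (fc (act κ) r (j + 1) (spt s z)) f :=
        dep_of_cut hf _ _ (spt_fc_high hj' z)
      rw [map_mul, map_pow, ev_inK, ev_shf, e1, e2]
    rw [sum_congr rfl hL, sum_congr rfl hH, ← sum_mul, ← sum_pow0, faces_cocycle hd, ← mul_sum,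
      map_mul, map_pow, ev_inK, ev_shf, ev_dd, dF, sum_range_succ' _ (r + 1), fc_zero_spt]
    have h2 := add_self0 (ev (fst0 z.1) Z ^ 2 ^ N * ev (spt (s + 1) z) f)
    calc _ = (ev (fst0 z.1) Z ^ 2 ^ N * ev (spt (s + 1) z) f)
          + ev (fst0 z.1) Z ^ 2 ^ N * ∑ j ∈ range (r + 1), ev (fc (act κ) r (j + 1) (spt s z)) f := rfl
      _ = (ev (fst0 z.1) Z ^ 2 ^ N * ev (spt (s + 1) z) f)
          + ev (fst0 z.1) Z ^ 2 ^ N * ∑ j ∈ range (r + 1), ev (fc (act κ) r (j + 1) (spt s z)) f
          := rfl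
      _ = _ := by ring
  rwa [ev_uni, ev_uni] at key

end inc

end Pool.Agent.H59K
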