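import Pool.Agent.H59K.KA

set_option autoImplicit false
set_option linter.unusedSectionVars false

namespace Pool.Agent.H59K

open Finset MvPolynomial Pool.Agent.W624.Stz

section homotopy

variable {K : Type}

theorem spt_prm_low {s' r i : ℕ} (hi : i < s' + 1) (z : Pt (Option K) (RR (Option K))) :
    spt (s' + 1) (prm (act kE) lin bs tr (s' + r) i z)
      = (fun a => lin ((spt s' z).1 a), bs (spt s' z).2) := by
  refine Prod.ext ?_ rfl
  funext a
  simp only [spt]
  rw [prm_gt (by omega), show a + (s' + 1) - 1 = a + s' by omega]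

theorem spt_prm_high {s r i : ℕ} (hi : i < r) (z : Pt (Option K) (RR (Option K))) :
    Agr r (spt s (prm (act kE) lin bs tr (s + r - 1) (s + i) z))
      (prm (act kE) lin bs tr (r - 1) i (spt s z)) := by
  refine ⟨fun a _ => ?_, rfl⟩
  simp only [spt]
  rcases lt_trichotomy a i with h1 | h1 | h1
  · rw [prm_lt (by omega), prm_lt h1]
  · subst h1
    rw [show a + s = s + a by omega, prm_eq, prm_eq]
    rw [show s + r - 1 - (s + a) = r - 1 - a by omega]
    rw [run_congr (act kE) z.1 (fun b => z.1 (b + s)) (r - 1 - a) (s + a) a z.2]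
    intro b _
    rw [show s + a + b = a + b + s by omega]
  · rw [prm_gt (by omega), prm_gt h1]
    simp only
    rw [show a + s - 1 = a - 1 + s by omega]

/-- multiplication by a shifted power of a cocycle commutes with the homotopy -/
theorem hm_mul_shf {s r : ℕ} (hs : 1 ≤ s) (N : ℕ) {Z : RR Empty} (hZ : cut Empty s Z = Z)
    {f : RR (Option K)} (hf : cut _ r f = f) (hL : LL K f = 0) :
    hm K (s + r) (inK _ Z ^ 2 ^ N * shf _ s f) = inK _ Z ^ 2 ^ N * shf _ s (hm K r f) := by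
  obtain ⟨s', rfl⟩ : ∃ k, s = k + 1 := ⟨s - 1, by omega⟩
  set z : Pt (Option K) (RR (Option K)) := uni (Option K) with hz
  have key : ev z (hm K (s' + 1 + r) (inK _ Z ^ 2 ^ N * shf _ (s' + 1) f))
      = ev z (inK _ Z ^ 2 ^ N * shf _ (s' + 1) (hm K r f)) := by
    rw [show s' + 1 + r = (s' + r) + 1 by omega]
    simp only [hm]
    rw [ev_hh, hF, show s' + r + 1 = (s' + 1) + r by omega, sum_range_add]
    have hlow : ∀ i ∈ range (s' + 1), ev (prm (act kE) lin bs tr (s' + r) i z)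
        (inK _ Z ^ 2 ^ N * shf _ (s' + 1) f) = 0 := by
      intro i hi
      rw [mem_range] at hi
      have e : ev (fun a => lin ((spt s' z).1 a), bs (spt s' z).2) f
          = ev (spt s' z) (LL K f) := by
        rw [LL, ev_map]
        have h0 := mP_uni (spt s' z)
        refine congrArg (fun w : Pt (Option K) (RR (Option K)) => ev w f) (Prod.ext ?_ ?_)
        · funext a
          have h1 := congrFun (congrArg Prod.fst h0) a
          refine Eq.trans ?_ (mT_lin (ev (spt s' z)) _).symm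
          exact congrArg lin h1.symm
        · have h1 := congrArg Prod.snd h0
          refine Eq.trans ?_ (mY_bs (ev (spt s' z)) _).symm
          exact congrArg bs h1.symm
      rw [map_mul, ev_shf, spt_prm_low hi, e, hL, map_zero, mul_zero]
    have hhigh : ∀ i ∈ range r, ev (prm (act kE) lin bs tr (s' + r) (s' + 1 + i) z)
        (inK _ Z ^ 2 ^ N * shf _ (s' + 1) f)
        = ev (fst0 z.1) Z ^ 2 ^ N * ev (prm (act kE) lin bs tr (r - 1) i (spt (s' + 1) z)) f := by
      intro i hi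
      rw [mem_range] at hi
      have e1 : ev (fst0 (prm (act kE) lin bs tr (s' + r) (s' + 1 + i) z).1) Z
          = ev (fst0 z.1) Z :=
        dep_of_cut hZ _ _ ⟨fun a ha => prm_lt (bs := bs) (by omega) z, rfl⟩
      have e2 : ev (spt (s' + 1) (prm (act kE) lin bs tr (s' + r) (s' + 1 + i) z)) f
          = ev (prm (act kE) lin bs tr (r - 1) i (spt (s' + 1) z)) f := by
        have := spt_prm_high (s := s' + 1) hi z
        rw [show s' + 1 + r - 1 = s' + r by omega] at this
        exact dep_of_cut hf _ _ this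
      rw [map_mul, map_pow, ev_inK, ev_shf, e1, e2]
    rw [sum_congr rfl hlow, sum_congr rfl hhigh, sum_const_zero, zero_add, ← mul_sum, map_mul,
      map_pow, ev_inK, ev_shf]
    congr 1
    cases r with
    | zero =>
      rw [range_zero, sum_empty]
      exact (map_zero (ev (spt (s' + 1) z))).symm
    | succ r =>
      rw [Nat.add_sub_cancel]
      exact (ev_hh r (spt (s' + 1) z) f).symm
  rwa [ev_uni, ev_uni] at key

end homotopy

section compat

variable {K L : Type}

theorem hom_shf (θ : RR K →ₐ[ZMod 2] RR L) (m : ℕ)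
    (h : ∀ v, θ (shf K m (X v)) = shf L m (θ (X v))) (f : RR K) :
    θ (shf K m f) = shf L m (θ f) := by
  have : θ.comp (shf K m) = (shf L m).comp θ := by
    apply algHom_ext
    intro v
    rw [AlgHom.comp_apply, AlgHom.comp_apply, h]
  exact DFunLike.congr_fun this f

theorem hom_inK (θ : RR K →ₐ[ZMod 2] RR L)
    (hx : ∀ a n, θ (X (.x a n)) = X (.x a n)) (hs : ∀ a n, θ (X (.s a n)) = X (.s a n))
    (f : RR Empty) : θ (inK K f) = inK L f := by
  have : θ.comp (inK K) = inK L := by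
    apply algHom_ext
    intro v
    rw [AlgHom.comp_apply]
    cases v with
    | x a n => rw [inK_x, inK_x, hx]
    | s a n => rw [inK_s, inK_s, hs]
    | y c n => exact c.elim
  exact DFunLike.congr_fun this f

theorem PI_shf (S : K → Bool) (m : ℕ) (f : RR K) : PI S (shf K m f) = shf K m (PI S f) := by
  refine hom_shf _ m (fun v => ?_) f
  cases v with
  | x a n => rw [shf_x, PI_x, PI_x, shf_x]
  | s a n => rw [shf_s, PI_s, PI_s, shf_s]
  | y c n =>
    rw [shf_y, PI_y]
    simp only [hS]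
    split_ifs
    · cases n with
      | zero => simp only [sh, map_zero]
      | succ n => simp only [sh, uni_y]; rw [shf_y]
    · rw [uni_y, shf_y]

theorem SI_shf (S : K → Bool) (m : ℕ) (f : RR K) : SI S (shf K m f) = shf K m (SI S f) := by
  refine hom_shf _ m (fun v => ?_) f
  cases v with
  | x a n => rw [shf_x, SI_x, SI_x, shf_x]
  | s a n => rw [shf_s, SI_s, SI_s, shf_s]
  | y c n =>
    rw [shf_y, SI_y]
    simp only [hT]
    split_ifs
    · simp only [tl, uni_y]; rw [shf_y]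
    · rw [uni_y, shf_y]

theorem PI_inK (S : K → Bool) (f : RR Empty) : PI S (inK K f) = inK K f :=
  hom_inK _ (PI_x S) (PI_s S) f

theorem SI_inK (S : K → Bool) (f : RR Empty) : SI S (inK K f) = inK K f :=
  hom_inK _ (SI_x S) (SI_s S) f

theorem IN_shf (m : ℕ) (f : RR K) : IN K (shf K m f) = shf _ m (IN K f) := by
  refine hom_shf _ m (fun v => ?_) f
  cases v with
  | x a n => rw [shf_x, IN_x, IN_x, shf_x]
  | s a n => rw [shf_s, IN_s, IN_s, shf_s]
  | y c n => rw [shf_y, IN_y, shf_y]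

theorem IN_inK (f : RR Empty) : IN K (inK K f) = inK _ f := hom_inK _ IN_x IN_s f

theorem RE_shf (m : ℕ) (f : RR (Option K)) : RE K (shf _ m f) = shf K m (RE K f) := by
  refine hom_shf _ m (fun v => ?_) f
  cases v with
  | x a n => rw [shf_x, RE_x, RE_x, shf_x]
  | s a n => rw [shf_s, RE_s, RE_s, shf_s]
  | y o n =>
    rw [shf_y, RE_y]
    cases o with
    | none => simp only [ez, Pi.zero_apply, map_zero]
    | some c => simp only [ez, uni_y]; rw [shf_y]

theorem RE_inK (f : RR Empty) : RE K (inK _ f) = inK K f := hom_inK _ RE_x RE_s f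

theorem PHI_shf (m : ℕ) (f : RR K) : PHI K (shf K m f) = shf K m (PHI K f) := by
  refine hom_shf _ m (fun v => ?_) f
  cases v with
  | x a n => rw [shf_x, PHI_x, PHI_x, map_pow, shf_x]
  | s a n => rw [shf_s, PHI_s, PHI_s, map_pow, shf_s]
  | y c n => rw [shf_y, PHI_y, shf_y]

theorem PHI_inK (f : RR Empty) : PHI K (inK K f) = inK K f ^ 2 := by
  have : (PHI K).comp (inK K) = (inK K).comp (PHI Empty) := by
    apply algHom_ext
    intro v
    rw [AlgHom.comp_apply, AlgHom.comp_apply]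
    cases v with
    | x a n => rw [inK_x, PHI_x, PHI_x, map_pow, inK_x]
    | s a n => rw [inK_s, PHI_s, PHI_s, map_pow, inK_s]
    | y c n => exact c.elim
  have h := DFunLike.congr_fun this f
  rw [AlgHom.comp_apply, AlgHom.comp_apply, PHI_sq, map_pow] at h
  exact h

theorem DX_shf (m : ℕ) (f : RR K) : DX K (shf K m f) = shf K m (DX K f) := by
  apply der_hom
  intro v
  cases v with
  | x a n => rw [shf_x, DX_x, DX_x, shf_s]
  | s a n => rw [shf_s, DX_s, DX_s, map_zero]
  | y c n => rw [shf_y, DX_y, map_zero]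

theorem DX_mul_shf {N : ℕ} (hN : 1 ≤ N) (m : ℕ) (Z : RR Empty) (f : RR K) :
    DX K (inK K Z ^ 2 ^ N * shf K m f) = inK K Z ^ 2 ^ N * shf K m (DX K f) := by
  obtain ⟨N, rfl⟩ : ∃ k, N = k + 1 := ⟨N - 1, by omega⟩
  have h : DX K (inK K Z ^ 2 ^ (N + 1)) = 0 := by
    rw [pow_succ, pow_mul]; exact der_sq _ _
  rw [Derivation.leibniz, h, smul_zero, add_zero, smul_eq_mul, DX_shf]

theorem cut_inK (q : ℕ) (f : RR Empty) : cut K q (inK K f) = inK K (cut Empty q f) := by
  rw [← ev_uni (cut K q (inK K f)), ← ev_uni (inK K (cut Empty q f)), ev_cut, ev_inK, ev_inK,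
    ev_cut]
  rfl

theorem cut_mul_shf {s r : ℕ} (N : ℕ) {Z : RR Empty} (hZ : cut Empty s Z = Z) {f : RR K}
    (hf : cut K r f = f) :
    cut K (s + r) (inK K Z ^ 2 ^ N * shf K s f) = inK K Z ^ 2 ^ N * shf K s f := by
  apply cut_of_dep
  intro z z' hz
  simp only
  have e1 : ev (fst0 z.1) Z = ev (fst0 z'.1) Z :=
    dep_of_cut hZ _ _ ⟨fun a ha => hz.1 a (by omega), rfl⟩
  have e2 : ev (spt s z) f = ev (spt s z') f :=
    dep_of_cut hf _ _ ⟨fun a ha => hz.1 (a + s) (by omega), hz.2⟩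
  rw [map_mul, map_mul, map_pow, map_pow, ev_inK, ev_inK, ev_shf, ev_shf, e1, e2]

variable {M M' : Type*} [AddCommMonoid M] [AddCommMonoid M']

theorem IW_shf {w : Vr K → M} (m : ℕ) (hx : ∀ a n, w (.x (a + m) n) = w (.x a n))
    (hs : ∀ a n, w (.s (a + m) n) = w (.s a n)) {f : RR K} {d : M} (hf : IW w f d) :
    IW w (shf K m f) d := by
  refine IW.aeval' (AddMonoidHom.id M) (shf K m) (w := w) (w' := w) ?_ hf
  intro v
  rw [AddMonoidHom.id_apply]
  cases v with
  | x a n => rw [shf_x, ← hx]; exact isWeightedHomogeneous_X _ _ _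
  | s a n => rw [shf_s, ← hs]; exact isWeightedHomogeneous_X _ _ _
  | y c n => rw [shf_y]; exact isWeightedHomogeneous_X _ _ _

theorem IW_inK {w : Vr Empty → M} {w' : Vr K → M'} (h : M →+ M')
    (hx : ∀ a n, w' (.x a n) = h (w (.x a n)))
    (hs : ∀ a n, w' (.s a n) = h (w (.s a n))) {f : RR Empty} {d : M} (hf : IW w f d) :
    IW w' (inK K f) (h d) := by
  refine IW.aeval' h (inK K) (w := w) (w' := w') ?_ hf
  intro v
  cases v with
  | x a n => rw [inK_x, ← hx]; exact isWeightedHomogeneous_X _ _ _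
  | s a n => rw [inK_s, ← hs]; exact isWeightedHomogeneous_X _ _ _
  | y c n => exact c.elim

/-- weights of included elements -/
def iI (K : Type) : ℤ × ((Empty → ℕ) × ℕ) →+ ℤ × ((K → ℕ) × ℕ) where
  toFun m := (m.1, (0, m.2.2))
  map_zero' := rfl
  map_add' a b := by
    refine Prod.ext rfl (Prod.ext ?_ rfl)
    simp

/-- homogeneous cochains of the cobar complex -/
structure HC (s : ℕ) (t0 : ℤ) (Z : RR Empty) : Prop where
  cu : cut Empty s Z = Z
  iw : IW (wF kun) Z (t0, ((0 : Empty → ℕ), 0))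
  cl : dd kun s Z = 0

theorem HC.IW_inK {κ : K → Kd} {s : ℕ} {t0 : ℤ} {Z : RR Empty} (h : HC s t0 Z) :
    IW (wF κ) (inK K Z) (t0, ((0 : K → ℕ), 0)) :=
  H59K.IW_inK (iI K) (w := wF kun) (w' := wF κ) (fun _ _ => rfl) (fun _ _ => rfl) h.iw

theorem HC.IW_inE {s : ℕ} {t0 : ℤ} {Z : RR Empty} (h : HC s t0 Z) :
    IW (wE K) (inK (Option K) Z) (t0, ((0 : K → ℕ), 0)) :=
  H59K.IW_inK (iI K) (w := wF kun) (w' := wE K) (fun _ _ => rfl) (fun _ _ => rfl) h.iw

theorem IW_wn_inK (Z : RR Empty) : IW (wn K) (inK (Option K) Z) 0 := by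
  have h0 : IW (fun _ : Vr Empty => (0 : ℕ)) Z 0 := by
    intro e _
    rw [Finsupp.weight_apply]
    simp [Finsupp.sum]
  exact H59K.IW_inK (AddMonoidHom.id ℕ) (w := fun _ => (0 : ℕ)) (w' := wn K) (fun _ _ => rfl)
    (fun _ _ => rfl) h0

theorem two_pow_smul (N : ℕ) (t0 : ℤ) {A : Type*} [AddCommMonoid A] :
    2 ^ N • ((t0, (0 : A × ℕ)) : ℤ × (A × ℕ)) = (2 ^ N * t0, (0 : A × ℕ)) := by
  refine Prod.ext ?_ ?_
  · simp
  · simp

theorem TT_mul_shf {κ : K → Kd} {s r : ℕ} {t t0 : ℤ} {ν : K → ℕ} {k : ℕ} (N : ℕ) {Z : RR Empty}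
    (hZ : HC s t0 Z) {f : RR K} (hf : TT κ r t ν k f) :
    TT κ (s + r) (t + 2 ^ N * t0) ν k (inK K Z ^ 2 ^ N * shf K s f) := by
  refine ⟨cut_mul_shf N hZ.cu hf.cu, ?_⟩
  have h1 := (hZ.IW_inK (κ := κ)).pow (2 ^ N)
  have h2 := IW_shf (w := wF κ) s (fun _ _ => rfl) (fun _ _ => rfl) hf.iw
  have h3 := h1.mul h2
  have h4 : 2 ^ N • (t0, ((0 : K → ℕ), 0)) + (t, (ν, k)) = (t + 2 ^ N * t0, (ν, k)) := by
    have := two_pow_smul N t0 (A := K → ℕ)
    refine Prod.ext ?_ (Prod.ext ?_ ?_)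
    · simp [add_comm]
    · simp
    · simp
  rwa [h4] at h3

theorem IWE_mul_shf {s : ℕ} {t t0 : ℤ} {ν : K → ℕ} {k : ℕ} (N : ℕ) {Z : RR Empty}
    (hZ : HC s t0 Z) {f : RR (Option K)} (hf : IW (wE K) f (t, (ν, k))) :
    IW (wE K) (inK (Option K) Z ^ 2 ^ N * shf (Option K) s f) (t + 2 ^ N * t0, (ν, k)) := by
  have h1 := (hZ.IW_inE (K := K)).pow (2 ^ N)
  have h2 := IW_shf (w := wE K) s (fun _ _ => rfl) (fun _ _ => rfl) hf
  have h3 := h1.mul h2
  have h4 : 2 ^ N • (t0, ((0 : K → ℕ), 0)) + (t, (ν, k)) = (t + 2 ^ N * t0, (ν, k)) := by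
    refine Prod.ext ?_ (Prod.ext ?_ ?_)
    · simp [add_comm]
    · simp
    · simp
  rwa [h4] at h3

theorem IWn_mul_shf {s m : ℕ} (N : ℕ) (Z : RR Empty) {f : RR (Option K)}
    (hf : IW (wn K) f m) :
    IW (wn K) (inK (Option K) Z ^ 2 ^ N * shf (Option K) s f) m := by
  have h1 := (IW_wn_inK (K := K) Z).pow (2 ^ N)
  have h2 := IW_shf (w := wn K) s (fun _ _ => rfl) (fun _ _ => rfl) hf
  have h3 := h1.mul h2
  rwa [smul_zero, zero_add] at h3

end compat

end Pool.Agent.H59K
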