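import Pool.Agent.H59K.KB

/-!
# Cones

For a finite family of cocycles `z i` of level `σ i + 1` and degree `t0`, the cone of the maps
`f_i ↦ z_i ^ (2 ^ N) * f_i` from the complexes of degree `t` to the complex of degree `t + 2 ^ N * t0`.
-/

set_option autoImplicit false
set_option linter.unusedSectionVars false

namespace Pool.Agent.H59K

open Finset MvPolynomial Pool.Agent.W624.Stz

/-- a finite family of homogeneous cocycles of the same degree -/
structure Dat where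
  I : Type
  fin : Fintype I
  σ : I → ℕ
  z : I → RR Empty
  t0 : ℤ
  hz : ∀ i, HC (σ i + 1) t0 (z i)

attribute [instance] Dat.fin

/-- elements of the cone -/
abbrev CC (D : Dat) (K : Type) := RR K × (D.I → RR K)

section cone

variable {D : Dat} {K L : Type}

/-- the powers of the cocycles -/
noncomputable def ZZ (D : Dat) (K : Type) (N : ℕ) (i : D.I) : RR K := inK K (D.z i) ^ 2 ^ N

/-- the connecting map -/
noncomputable def SS (D : Dat) (K : Type) (N : ℕ) : (D.I → RR K) →+ RR K where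
  toFun F := ∑ i, ZZ D K N i * shf K (D.σ i + 1) (F i)
  map_zero' := by simp
  map_add' F G := by simp [mul_add, sum_add_distrib]

theorem SS_apply (N : ℕ) (F : D.I → RR K) :
    SS D K N F = ∑ i, ZZ D K N i * shf K (D.σ i + 1) (F i) := rfl

/-- differential of the cone -/
noncomputable def DD (D : Dat) (κ : K → Kd) (N q : ℕ) : CC D K →+ CC D K where
  toFun F := (dd κ q F.1 + SS D K N F.2, fun i => dd κ (q - D.σ i) (F.2 i))
  map_zero' := by
    refine Prod.ext ?_ (funext fun i => ?_)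
    · simp
    · simp
  map_add' F G := by
    refine Prod.ext ?_ (funext fun i => ?_)
    · simp only [Prod.fst_add, Prod.snd_add, map_add]
      abel
    · simp only [Prod.snd_add, Pi.add_apply, map_add]

/-- previous differential of the cone -/
noncomputable def DM (D : Dat) (κ : K → Kd) (N : ℕ) : ℕ → (CC D K →+ CC D K)
  | 0 => 0
  | q + 1 => DD D κ N q

theorem DD_fst (κ : K → Kd) (N q : ℕ) (F : CC D K) :
    (DD D κ N q F).1 = dd κ q F.1 + SS D K N F.2 := rfl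

theorem DD_snd (κ : K → Kd) (N q : ℕ) (F : CC D K) (i : D.I) :
    (DD D κ N q F).2 i = dd κ (q - D.σ i) (F.2 i) := rfl

/-- members of the cone -/
structure TC (D : Dat) (κ : K → Kd) (N q : ℕ) (t : ℤ) (ν : K → ℕ) (k : ℕ) (F : CC D K) :
    Prop where
  a : TT κ q (t + 2 ^ N * D.t0) ν k F.1
  b : ∀ i, TT κ (q - D.σ i) t ν k (F.2 i)
  c : ∀ i, q < D.σ i → F.2 i = 0

/-- exactness of the cone -/
def EC (D : Dat) (κ : K → Kd) (N q : ℕ) (t : ℤ) (ν : K → ℕ) (k : ℕ) : Prop :=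
  ∀ F, TC D κ N q t ν k F → DD D κ N q F = 0 → ∃ H, TC D κ N (q - 1) t ν k H ∧ DM D κ N q H = F

variable {κ : K → Kd} {N q : ℕ} {t : ℤ} {ν : K → ℕ} {k : ℕ} {F G : CC D K}

theorem cc_add_self (F : CC D K) : F + F = 0 :=
  Prod.ext (p2_add_self _) (funext fun _ => p2_add_self _)

theorem TC.add (hF : TC D κ N q t ν k F) (hG : TC D κ N q t ν k G) :
    TC D κ N q t ν k (F + G) :=
  ⟨hF.a.add hG.a, fun i => (hF.b i).add (hG.b i), fun i hi => by
    rw [Prod.snd_add, Pi.add_apply, hF.c i hi, hG.c i hi, add_zero]⟩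

theorem TC.sub (hF : TC D κ N q t ν k F) (hG : TC D κ N q t ν k G) :
    TC D κ N q t ν k (F - G) :=
  ⟨hF.a.sub hG.a, fun i => (hF.b i).sub (hG.b i), fun i hi => by
    rw [Prod.snd_sub, Pi.sub_apply, hF.c i hi, hG.c i hi, sub_zero]⟩

theorem TC.zero : TC D κ N q t ν k 0 :=
  ⟨TT.zero, fun _ => TT.zero, fun _ _ => rfl⟩

theorem TT_sum {ι : Type*} (S : Finset ι) (f : ι → RR K) (h : ∀ i ∈ S, TT κ q t ν k (f i)) :
    TT κ q t ν k (∑ i ∈ S, f i) := by
  classical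
  induction S using Finset.induction_on with
  | empty => rw [sum_empty]; exact TT.zero
  | insert a S ha ih =>
    rw [sum_insert ha]
    exact (h a (mem_insert_self _ _)).add (ih fun i hi => h i (mem_insert_of_mem hi))

theorem TC.SS (hF : TC D κ N q t ν k F) :
    TT κ (q + 1) (t + 2 ^ N * D.t0) ν k (SS D K N F.2) := by
  rw [SS_apply]
  refine TT_sum _ _ fun i _ => ?_
  rcases Nat.lt_or_ge q (D.σ i) with h | h
  · rw [hF.c i h, map_zero, mul_zero]; exact TT.zero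
  · have := TT_mul_shf N (D.hz i) (hF.b i)
    rwa [show D.σ i + 1 + (q - D.σ i) = q + 1 by omega] at this

theorem TC.DD (hκ : Naf κ) (hF : TC D κ N q t ν k F) :
    TC D κ N (q + 1) t ν k (DD D κ N q F) := by
  refine ⟨(hF.a.dd hκ).add hF.SS, fun i => ?_, fun i hi => ?_⟩
  · rw [DD_snd]
    rcases Nat.lt_or_ge q (D.σ i) with h | h
    · rw [hF.c i h, map_zero]; exact TT.zero
    · rw [show q + 1 - D.σ i = q - D.σ i + 1 by omega]
      exact (hF.b i).dd hκ
  · rw [DD_snd, hF.c i (by omega), map_zero]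

theorem TC.DM (hκ : Naf κ) (hF : TC D κ N (q - 1) t ν k F) :
    TC D κ N q t ν k (DM D κ N q F) := by
  cases q with
  | zero => exact TC.zero
  | succ q => exact TC.DD hκ hF

theorem dd_SS (hF : TC D κ N q t ν k F) :
    dd κ (q + 1) (SS D K N F.2) = SS D K N (fun i => dd κ (q - D.σ i) (F.2 i)) := by
  rw [SS_apply, SS_apply, map_sum]
  refine sum_congr rfl fun i _ => ?_
  rcases Nat.lt_or_ge q (D.σ i) with h | h
  · rw [hF.c i h]; simp
  · have := dd_mul_shf (κ := κ) N (D.hz i).cu (D.hz i).cl (hF.b i).cu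
    rwa [show D.σ i + 1 + (q - D.σ i) = q + 1 by omega] at this

theorem DD_DD (hF : TC D κ N q t ν k F) : DD D κ N (q + 1) (DD D κ N q F) = 0 := by
  refine Prod.ext ?_ (funext fun i => ?_)
  · rw [DD_fst, DD_fst, map_add, dd_dd κ hF.a.cu, zero_add, dd_SS hF]
    exact p2_add_self _
  · rw [DD_snd, DD_snd]
    rcases Nat.lt_or_ge q (D.σ i) with h | h
    · rw [hF.c i h, map_zero, map_zero]; rfl
    · rw [show q + 1 - D.σ i = q - D.σ i + 1 by omega, dd_dd κ (hF.b i).cu]; rfl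

theorem DD_DM (hF : TC D κ N (q - 1) t ν k F) : DD D κ N q (DM D κ N q F) = 0 := by
  cases q with
  | zero => exact map_zero _
  | succ q => exact DD_DD hF

/-- componentwise homomorphism -/
noncomputable def mA (D : Dat) (θ : RR K →ₐ[ZMod 2] RR L) : CC D K →+ CC D L where
  toFun F := (θ F.1, fun i => θ (F.2 i))
  map_zero' := Prod.ext (map_zero _) (funext fun _ => map_zero _)
  map_add' _ _ := Prod.ext (map_add _ _ _) (funext fun _ => map_add _ _ _)

theorem mA_fst (θ : RR K →ₐ[ZMod 2] RR L) (F : CC D K) : (mA D θ F).1 = θ F.1 := rfl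
theorem mA_snd (θ : RR K →ₐ[ZMod 2] RR L) (F : CC D K) (i : D.I) :
    (mA D θ F).2 i = θ (F.2 i) := rfl

theorem mA_SS (θ : RR K →ₐ[ZMod 2] RR L) (hs : ∀ m f, θ (shf K m f) = shf L m (θ f))
    (hi : ∀ f, θ (inK K f) = inK L f) (N : ℕ) (F : D.I → RR K) :
    θ (SS D K N F) = SS D L N (fun i => θ (F i)) := by
  rw [SS_apply, SS_apply, map_sum]
  refine sum_congr rfl fun i _ => ?_
  rw [map_mul, hs, ZZ, map_pow, hi]
  rfl

theorem mA_DD {κ1 : K → Kd} {κ2 : L → Kd} (θ : RR K →ₐ[ZMod 2] RR L)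
    (hd : ∀ q f, θ (dd κ1 q f) = dd κ2 q (θ f))
    (hs : ∀ m f, θ (shf K m f) = shf L m (θ f))
    (hi : ∀ f, θ (inK K f) = inK L f) (N q : ℕ) (F : CC D K) :
    mA D θ (DD D κ1 N q F) = DD D κ2 N q (mA D θ F) := by
  refine Prod.ext ?_ (funext fun i => ?_)
  · rw [mA_fst, DD_fst, DD_fst, map_add, hd, mA_SS θ hs hi, mA_fst]
    rfl
  · rw [mA_snd, DD_snd, DD_snd, hd]
    rfl

theorem mA_DM {κ1 : K → Kd} {κ2 : L → Kd} (θ : RR K →ₐ[ZMod 2] RR L)
    (hd : ∀ q f, θ (dd κ1 q f) = dd κ2 q (θ f))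
    (hs : ∀ m f, θ (shf K m f) = shf L m (θ f))
    (hi : ∀ f, θ (inK K f) = inK L f) (N q : ℕ) (F : CC D K) :
    mA D θ (DM D κ1 N q F) = DM D κ2 N q (mA D θ F) := by
  cases q with
  | zero => exact map_zero _
  | succ q => exact mA_DD θ hd hs hi N q F

/-- componentwise derivation -/
noncomputable def DXc (D : Dat) (K : Type) : CC D K →+ CC D K where
  toFun F := (DX K F.1, fun i => DX K (F.2 i))
  map_zero' := Prod.ext (map_zero _) (funext fun _ => map_zero _)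
  map_add' _ _ := Prod.ext (map_add _ _ _) (funext fun _ => map_add _ _ _)

theorem DXc_DXc (F : CC D K) : DXc D K (DXc D K F) = 0 :=
  Prod.ext (DX_DX _) (funext fun _ => DX_DX _)

theorem DXc_SS (hN : 1 ≤ N) (F : D.I → RR K) :
    DX K (SS D K N F) = SS D K N (fun i => DX K (F i)) := by
  rw [SS_apply, SS_apply, map_sum]
  refine sum_congr rfl fun i _ => ?_
  exact DX_mul_shf hN _ _ _

theorem DXc_DD (hN : 1 ≤ N) (q : ℕ) (F : CC D K) :
    DXc D K (DD D ktw N q F) = DD D ktw N q (DXc D K F) := by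
  refine Prod.ext ?_ (funext fun i => ?_)
  · change DX K (dd ktw q F.1 + SS D K N F.2) = dd ktw q (DX K F.1) + SS D K N _
    rw [map_add, DXc_SS hN]
    congr 1
    exact DX_dd q F.1
  · exact DX_dd _ _

theorem TC.DX (hF : TC D κ N q t ν k F) : TC D κ N q (t + 1) ν (k + 1) (DXc D K F) := by
  refine ⟨?_, fun i => (hF.b i).DX, fun i hi => ?_⟩
  · have := hF.a.DX
    rwa [show t + 2 ^ N * D.t0 + 1 = t + 1 + 2 ^ N * D.t0 by ring] at this
  · change W624.Stz.DX K (F.2 i) = 0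
    rw [hF.c i hi, map_zero]

theorem DXc_exact (hF : TC D (ktw : K → Kd) N q (t + 1) ν (k + 1) F) (hD : DXc D K F = 0) :
    ∃ H, TC D ktw N q t ν k H ∧ DXc D K H = F := by
  have h1 : W624.Stz.DX K F.1 = 0 := congrArg Prod.fst hD
  have h2 : ∀ i, W624.Stz.DX K (F.2 i) = 0 := fun i => congrFun (congrArg Prod.snd hD) i
  have ha := hF.a
  rw [show t + 1 + 2 ^ N * D.t0 = t + 2 ^ N * D.t0 + 1 by ring] at ha
  obtain ⟨h, hh1, hh2⟩ := DX_exact ha h1
  have hc : ∀ i, ∃ g, TT (ktw : K → Kd) (q - D.σ i) t ν k g ∧ (q < D.σ i → g = 0) ∧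
      W624.Stz.DX K g = F.2 i := by
    intro i
    rcases Nat.lt_or_ge q (D.σ i) with h | h
    · exact ⟨0, TT.zero, fun _ => rfl, by rw [map_zero, hF.c i h]⟩
    · obtain ⟨g, hg1, hg2⟩ := DX_exact (hF.b i) (h2 i)
      exact ⟨g, hg1, fun h' => absurd h' (by omega), hg2⟩
  choose g hg1 hg2 hg3 using hc
  exact ⟨(h, g), ⟨hh1, hg1, hg2⟩, Prod.ext hh2 (funext hg3)⟩

/-- lifting lemma for the cone -/
theorem liftC (hN : 1 ≤ N) {Y : CC D K} (hY : TC D ktw N q t ν 0 Y)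
    (hD : DXc D K (DD D ktw N q Y) = 0)
    (hex : ∀ k : ℕ, k ≤ q → EC D (ktw : K → Kd) N (q - k) (t + 1 + k) ν (1 + k)) :
    ∃ G H, TC D ktw N q t ν 0 G ∧ DXc D K G = 0 ∧ DD D ktw N q G = DD D ktw N q Y ∧
      TC D ktw N (q - 1) t ν 0 H ∧ Y = G + DM D ktw N q H := by
  have := lift_lemma (R := CC D K) (fun q j f => TC D ktw N q (t + j) ν j f)
    (fun q => DD D ktw N q) (fun q => DM D ktw N q)
    (DXc D K) rfl (fun q => rfl) (fun q j f g hf hg => hf.sub hg)
    (fun q j f hf => hf.DD naf_tw) (fun q j f hf => by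
      have := hf.DX
      have h2 : t + (j : ℤ) + 1 = t + ((j + 1 : ℕ) : ℤ) := by push_cast; ring
      rw [h2] at this
      exact this) (fun f => DXc_DXc f) (fun q f => DXc_DD hN q f)
    (fun q j f hf => DD_DD hf) (fun q j f hf hD => by
      have h2 : t + ((j + 1 : ℕ) : ℤ) = t + (j : ℤ) + 1 := by push_cast; ring
      rw [h2] at hf
      exact DXc_exact hf hD) q 0 Y (by simpa using hY) hD (by
      intro k hk f hf hdf
      have h3 := hex k hk
      have h2 : t + ((0 + 1 + k : ℕ) : ℤ) = t + 1 + k := by push_cast; ring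
      rw [h2, zero_add] at hf
      obtain ⟨h, hh1, hh2⟩ := h3 f hf hdf
      refine ⟨h, ?_, hh2⟩
      change TC D ktw N (q - k - 1) (t + ((0 + 1 + k : ℕ) : ℤ)) ν (0 + 1 + k) h
      rw [h2, zero_add]
      exact hh1)
  obtain ⟨g, h, h1, h2, h3, h4, h5⟩ := this
  refine ⟨g, h, ?_, h2, h3, ?_, h5⟩
  · simpa using h1
  · simpa using h4

/-! ### Frobenius -/

theorem PHI_SS (N : ℕ) (F : D.I → RR K) :
    PHI K (SS D K N F) = SS D K (N + 1) (fun i => PHI K (F i)) := by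
  rw [SS_apply, SS_apply, map_sum]
  refine sum_congr rfl fun i _ => ?_
  rw [map_mul, PHI_shf, ZZ, map_pow, PHI_inK, ← pow_mul, ← pow_succ']
  rfl

theorem PHI_DD (N q : ℕ) (F : CC D K) :
    mA D (PHI K) (DD D kun N q F) = DD D ktw (N + 1) q (mA D (PHI K) F) := by
  refine Prod.ext ?_ (funext fun i => ?_)
  · rw [mA_fst, DD_fst, DD_fst, map_add, PHI_dd, PHI_SS, mA_fst]
    rfl
  · rw [mA_snd, DD_snd, DD_snd, PHI_dd]
    rfl

theorem PHI_DM (N q : ℕ) (F : CC D K) :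
    mA D (PHI K) (DM D kun N q F) = DM D ktw (N + 1) q (mA D (PHI K) F) := by
  cases q with
  | zero => exact map_zero _
  | succ q => exact PHI_DD N q F

theorem mPHI_inj {F : CC D K} (h : mA D (PHI K) F = 0) : F = 0 :=
  Prod.ext (PHI_inj (congrArg Prod.fst h)) (funext fun i =>
    PHI_inj (congrFun (congrArg Prod.snd h) i))

theorem TT_PHI {f : RR K} (hf : TT kun q t ν 0 f) : TT ktw q (2 * t) ν 0 (PHI K f) := by
  refine ⟨by rw [← PHI_cut, hf.cu], ?_⟩
  exact IW_PHI hf.iw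

theorem TC.PHI {F : CC D K} (hF : TC D kun N q t ν 0 F) :
    TC D ktw (N + 1) q (2 * t) ν 0 (mA D (W624.Stz.PHI K) F) := by
  refine ⟨?_, fun i => TT_PHI (hF.b i), fun i hi => ?_⟩
  · have := TT_PHI hF.a
    rwa [show 2 * (t + 2 ^ N * D.t0) = 2 * t + 2 ^ (N + 1) * D.t0 by ring] at this
  · rw [mA_snd, hF.c i hi, map_zero]

theorem PHI_rootC (hF : TC D (ktw : K → Kd) (N + 1) q t ν 0 F) (hD : DXc D K F = 0) :
    F = 0 ∨ ∃ t', t = 2 * t' ∧ ∃ Z, TC D kun N q t' ν 0 Z ∧ mA D (W624.Stz.PHI K) Z = F := by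
  have h1 : W624.Stz.DX K F.1 = 0 := congrArg Prod.fst hD
  have h2 : ∀ i, W624.Stz.DX K (F.2 i) = 0 := fun i => congrFun (congrArg Prod.snd hD) i
  rcases Int.even_or_odd' t with ⟨t', ht | ht⟩
  · right
    refine ⟨t', ht, ?_⟩
    have hroot : ∀ (r : ℕ) (u u' : ℤ) (_ : u = 2 * u') (f : RR K) (_ : TT ktw r u ν 0 f)
        (_ : W624.Stz.DX K f = 0), ∃ z, TT kun r u' ν 0 z ∧ W624.Stz.PHI K z = f := by
      intro r u u' hu f hf hDf
      rcases PHI_root hf hDf with h0 | ⟨t1, ht1, z, hz, hzf⟩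
      · exact ⟨0, TT.zero, by rw [map_zero, h0]⟩
      · have : t1 = u' := by omega
        subst this
        exact ⟨z, hz, hzf⟩
    obtain ⟨Z1, hZ1, hZ1'⟩ := hroot q _ (t' + 2 ^ N * D.t0) (by rw [ht]; ring) _ hF.a h1
    have hc : ∀ i, ∃ g, TT (kun : K → Kd) (q - D.σ i) t' ν 0 g ∧ (q < D.σ i → g = 0) ∧
        W624.Stz.PHI K g = F.2 i := by
      intro i
      rcases Nat.lt_or_ge q (D.σ i) with h | h
      · exact ⟨0, TT.zero, fun _ => rfl, by rw [map_zero, hF.c i h]⟩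
      · obtain ⟨g, hg1, hg2⟩ := hroot _ _ t' ht _ (hF.b i) (h2 i)
        exact ⟨g, hg1, fun h' => absurd h' (by omega), hg2⟩
    choose g hg1 hg2 hg3 using hc
    exact ⟨(Z1, g), ⟨hZ1, hg1, hg2⟩, Prod.ext hZ1' (funext hg3)⟩
  · left
    have hzero : ∀ (r : ℕ) (u u' : ℤ) (_ : u = 2 * u' + 1) (f : RR K) (_ : TT ktw r u ν 0 f)
        (_ : W624.Stz.DX K f = 0), f = 0 := by
      intro r u u' hu f hf hDf
      rcases PHI_root hf hDf with h0 | ⟨t1, ht1, _⟩
      · exact h0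
      · omega
    refine Prod.ext ?_ (funext fun i => ?_)
    · exact hzero q _ (t' + 2 ^ N * D.t0) (by rw [ht]; ring) _ hF.a h1
    · exact hzero _ _ t' ht _ (hF.b i) (h2 i)

/-! ### multiplication by a coordinate -/

/-- componentwise multiplication by `y_c` -/
noncomputable def mY0 (D : Dat) (c : K) (F : CC D K) : CC D K :=
  (X (.y c 0) * F.1, fun i => X (.y c 0) * F.2 i)

theorem mY0_fst (c : K) (F : CC D K) : (mY0 D c F).1 = X (.y c 0) * F.1 := rfl
theorem mY0_snd (c : K) (F : CC D K) (i : D.I) : (mY0 D c F).2 i = X (.y c 0) * F.2 i := rfl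

theorem mY0_SS (c : K) (F : D.I → RR K) :
    SS D K N (fun i => X (.y c 0) * F i) = X (.y c 0) * SS D K N F := by
  rw [SS_apply, SS_apply, mul_sum]
  refine sum_congr rfl fun i _ => ?_
  rw [map_mul, shf_y]
  ring

theorem mY0_DD {c : K} (hc : κ c = .un) (q : ℕ) (F : CC D K) :
    DD D κ N q (mY0 D c F) = mY0 D c (DD D κ N q F) := by
  refine Prod.ext ?_ (funext fun i => ?_)
  · have e : (mY0 D c F).2 = fun i => X (.y c 0) * F.2 i := rfl
    rw [DD_fst, mY0_fst, mY0_fst, DD_fst, dd_Y hc, e, mY0_SS, mul_add]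
  · rw [DD_snd, mY0_snd, mY0_snd, DD_snd, dd_Y hc]

theorem mY0_DM {c : K} (hc : κ c = .un) (q : ℕ) (F : CC D K) :
    DM D κ N q (mY0 D c F) = mY0 D c (DM D κ N q F) := by
  cases q with
  | zero =>
    refine Prod.ext ?_ (funext fun i => ?_)
    · exact (mul_zero _).symm
    · exact (mul_zero _).symm
  | succ q => exact mY0_DD hc q F

theorem mY0_inj {c : K} {F : CC D K} (h : mY0 D c F = 0) : F = 0 := by
  have h1 : X (.y c 0) * F.1 = 0 := congrArg Prod.fst h
  have h2 : ∀ i, X (.y c 0) * F.2 i = 0 := fun i => congrFun (congrArg Prod.snd h) i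
  refine Prod.ext ?_ (funext fun i => ?_)
  · exact (mul_eq_zero.mp h1).resolve_left (X_ne_zero _)
  · exact (mul_eq_zero.mp (h2 i)).resolve_left (X_ne_zero _)

theorem TC.mulY {c : K} (hc : κ c = .un) (hν : 1 ≤ ν c)
    (hF : TC D κ N q (t - 1) (ν - ee c) k F) : TC D κ N q t ν k (mY0 D c F) := by
  refine ⟨?_, fun i => TT.mulY hc hν (hF.b i), fun i hi => ?_⟩
  · have := hF.a
    rw [show t - 1 + 2 ^ N * D.t0 = t + 2 ^ N * D.t0 - 1 by ring] at this
    exact TT.mulY hc hν this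
  · change X (.y c 0) * F.2 i = 0
    rw [hF.c i hi, mul_zero]

theorem Y_divC {c : K} (hc : κ c = .un) (hF : TC D κ N q t ν k F)
    (h : mA D (PI (sg c)) F = 0) :
    F = 0 ∨ (1 ≤ ν c ∧ ∃ F', F = mY0 D c F' ∧ TC D κ N q (t - 1) (ν - ee c) k F') := by
  have h1 : PI (sg c) F.1 = 0 := congrArg Prod.fst h
  have h2 : ∀ i, PI (sg c) (F.2 i) = 0 := fun i => congrFun (congrArg Prod.snd h) i
  by_cases hν : 1 ≤ ν c
  · right
    refine ⟨hν, ?_⟩
    have hdiv : ∀ (r : ℕ) (u : ℤ) (f : RR K), TT κ r u ν k f → PI (sg c) f = 0 →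
        ∃ f', f = X (.y c 0) * f' ∧ TT κ r (u - 1) (ν - ee c) k f' := by
      intro r u f hf hPf
      rcases Y_div hc hf hPf with h0 | ⟨_, f', hf', hTf'⟩
      · exact ⟨0, by rw [h0, mul_zero], TT.zero⟩
      · exact ⟨f', hf', hTf'⟩
    obtain ⟨f', hf', hTf'⟩ := hdiv _ _ _ hF.a h1
    have hg : ∀ i, ∃ g, F.2 i = X (.y c 0) * g ∧ TT κ (q - D.σ i) (t - 1) (ν - ee c) k g ∧
        (q < D.σ i → g = 0) := by
      intro i
      rcases Nat.lt_or_ge q (D.σ i) with h | h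
      · exact ⟨0, by rw [hF.c i h, mul_zero], TT.zero, fun _ => rfl⟩
      · obtain ⟨g, hg1, hg2⟩ := hdiv _ _ _ (hF.b i) (h2 i)
        exact ⟨g, hg1, hg2, fun h' => absurd h' (by omega)⟩
    choose g hg1 hg2 hg3 using hg
    rw [show t + 2 ^ N * D.t0 - 1 = t - 1 + 2 ^ N * D.t0 by ring] at hTf'
    refine ⟨(f', g), Prod.ext ?_ (funext fun i => ?_), ⟨hTf', hg2, fun i hi => hg3 i hi⟩⟩
    · rw [mY0_fst]; exact hf'
    · rw [mY0_snd]; exact hg1 i
  · left
    have hdiv : ∀ (r : ℕ) (u : ℤ) (f : RR K), TT κ r u ν k f → PI (sg c) f = 0 → f = 0 := by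
      intro r u f hf hPf
      rcases Y_div hc hf hPf with h0 | ⟨h3, _⟩
      · exact h0
      · exact absurd h3 hν
    refine Prod.ext ?_ (funext fun i => ?_)
    · exact hdiv _ _ _ hF.a h1
    · exact hdiv _ _ _ (hF.b i) (h2 i)

end cone

end Pool.Agent.H59K
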