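import Pool.Agent.H59K.KC

/-!
# Cones: reduction of untwisted to twisted complexes, and the Frobenius step
-/

set_option autoImplicit false
set_option linter.unusedSectionVars false

namespace Pool.Agent.H59K

open Finset MvPolynomial Pool.Agent.W624.Stz

section pi

variable {D : Dat} {K : Type} {S : K → Bool} {κ κ1 κ2 : K → Kd} {N q : ℕ} {t : ℤ}
  {ν : K → ℕ} {k : ℕ} {F : CC D K}

theorem TC.PI (h : Rel S κ1 κ2) (hF : TC D κ1 N q t ν k F) :
    TC D κ2 N q t ν k (mA D (W624.Stz.PI S) F) :=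
  ⟨hF.a.PI h, fun i => (hF.b i).PI h, fun i hi => by rw [mA_snd, hF.c i hi, map_zero]⟩

theorem TC.SI (h : Rel S κ1 κ2) (hF : TC D κ2 N q t ν k F) :
    TC D κ1 N q t ν k (mA D (W624.Stz.SI S) F) :=
  ⟨hF.a.SI h, fun i => (hF.b i).SI h, fun i hi => by rw [mA_snd, hF.c i hi, map_zero]⟩

theorem mPI_mSI (F : CC D K) : mA D (W624.Stz.PI S) (mA D (W624.Stz.SI S) F) = F := by
  refine Prod.ext ?_ (funext fun i => ?_)
  · rw [mA_fst, mA_fst, PI_SI]
  · rw [mA_snd, mA_snd, PI_SI]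

theorem mPI_DD (h : Rel S κ1 κ2) (q : ℕ) (F : CC D K) :
    mA D (W624.Stz.PI S) (DD D κ1 N q F) = DD D κ2 N q (mA D (W624.Stz.PI S) F) :=
  mA_DD _ (PI_dd h) (PI_shf S) (PI_inK S) N q F

theorem mPI_DM (h : Rel S κ1 κ2) (q : ℕ) (F : CC D K) :
    mA D (W624.Stz.PI S) (DM D κ1 N q F) = DM D κ2 N q (mA D (W624.Stz.PI S) F) :=
  mA_DM _ (PI_dd h) (PI_shf S) (PI_inK S) N q F

theorem mPI_PI {c : K} (hc : κ c = .un) (F : CC D K) :
    mA D (W624.Stz.PI (SU (upd κ c))) (mA D (W624.Stz.PI (sg c)) F)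
      = mA D (W624.Stz.PI (SU κ)) F := by
  refine Prod.ext ?_ (funext fun i => ?_)
  · rw [mA_fst, mA_fst, mA_fst, PI_PI hc]
  · rw [mA_snd, mA_snd, mA_snd, PI_PI hc]

theorem mPI_tw (F : CC D K) : mA D (W624.Stz.PI (SU (ktw : K → Kd))) F = F := by
  have h2 : W624.Stz.PI (SU (ktw : K → Kd)) = AlgHom.id (ZMod 2) (RR K) := by
    apply algHom_ext
    intro v
    rw [AlgHom.id_apply]
    cases v with
    | x a n => rw [PI_x]
    | s a n => rw [PI_s]
    | y c n =>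
      rw [PI_y]
      simp only [hS]
      rw [if_neg (by rw [SU_tw (show (ktw : K → Kd) c = .tw from rfl)]; simp), uni_y]
  refine Prod.ext ?_ (funext fun i => ?_)
  · rw [mA_fst, h2]; rfl
  · rw [mA_snd, h2]; rfl

end pi

section bb

variable {D : Dat} {K : Type} [Fintype K] {N : ℕ}

theorem BBc (p : ℕ) : ∀ (M : ℕ) (κ : K → Kd) (_ : Naf κ) (t : ℤ) (ν : K → ℕ)
    (_ : UU κ + ∑ c, ν c ≤ M)
    (_ : ∀ d : ℕ, 1 ≤ d → d ≤ ∑ c, ν c → ∀ ν' : K → ℕ, ∑ c, ν' c + d = ∑ c, ν c →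
      EC D (ktw : K → Kd) N p (t - d) ν' 0)
    (F : CC D K) (_ : TC D κ N p t ν 0 F) (_ : DD D κ N p F = 0)
    (_ : ∃ H, TC D ktw N (p - 1) t ν 0 H ∧ DM D ktw N p H = mA D (PI (SU κ)) F),
    ∃ H, TC D κ N (p - 1) t ν 0 H ∧ DM D κ N p H = F := by
  intro M
  induction M with
  | zero =>
    intro κ hκ t ν hM _ F hF _ hB
    have hS0 : ∀ c, κ c = .tw := by
      intro c
      cases hc : κ c with
      | un =>
        have h1 := UU_upd hc
        omega
      | tw => rfl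
      | af => exact absurd hc (hκ c)
    have hk : κ = ktw := funext hS0
    subst hk
    rwa [mPI_tw] at hB
  | succ M ih =>
    intro κ hκ t ν hM hP F hF hdF hB
    by_cases hun : ∃ c, κ c = .un
    · obtain ⟨c, hc⟩ := hun
      have hrel := Rel_upd hc
      have hU := UU_upd hc
      obtain ⟨H, hh1, hh2⟩ := ih (upd κ c) (naf_upd hκ c) t ν (by omega) hP (mA D (PI (sg c)) F)
        (hF.PI hrel) (by rw [← mPI_DD hrel, hdF, map_zero]) (by rw [mPI_PI hc]; exact hB)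
      have hSI := hh1.SI hrel
      have hf1 : TC D κ N p t ν 0 (F - DM D κ N p (mA D (SI (sg c)) H)) := hF.sub (hSI.DM hκ)
      have hf2 : mA D (PI (sg c)) (F - DM D κ N p (mA D (SI (sg c)) H)) = 0 := by
        rw [map_sub, mPI_DM hrel, mPI_mSI, hh2, sub_self]
      have hf3 : DD D κ N p (F - DM D κ N p (mA D (SI (sg c)) H)) = 0 := by
        rw [map_sub, hdF, DD_DM hSI, sub_zero]
      rcases Y_divC hc hf1 hf2 with h0 | ⟨hν, F', hF', hTF'⟩
      · exact ⟨mA D (SI (sg c)) H, hSI, (sub_eq_zero.mp h0).symm⟩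
      · rw [hF', mY0_DD hc] at hf3
        have hdF' : DD D κ N p F' = 0 := mY0_inj hf3
        have hsum := sum_sub_ee hν
        have hrelU := Rel_SU hκ
        have hP1 : EC D (ktw : K → Kd) N p (t - 1) (ν - ee c) 0 := by
          have := hP 1 le_rfl (by omega) (ν - ee c) (by omega)
          rwa [Nat.cast_one] at this
        have hi1 : UU κ + ∑ x, (ν - ee c) x ≤ M := by omega
        have hi2 : ∀ d : ℕ, 1 ≤ d → d ≤ ∑ x, (ν - ee c) x → ∀ ν' : K → ℕ,
            ∑ x, ν' x + d = ∑ x, (ν - ee c) x → EC D (ktw : K → Kd) N p (t - 1 - d) ν' 0 := by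
          intro d hd1 hd2 ν' hν'
          have h6 : ∑ x, ν' x + (d + 1) = ∑ x, ν x := by omega
          have := hP (d + 1) (by omega) (by omega) ν' h6
          have h5 : t - ((d + 1 : ℕ) : ℤ) = t - 1 - d := by push_cast; ring
          rwa [h5] at this
        have hi3 := hP1 (mA D (PI (SU κ)) F') (hTF'.PI hrelU)
          (by rw [← mPI_DD hrelU, hdF', map_zero])
        obtain ⟨H', hh'1, hh'2⟩ := ih κ hκ (t - 1) (ν - ee c) hi1 hi2 F' hTF' hdF' hi3
        have hY : TC D κ N (p - 1) t ν 0 (mY0 D c H') := TC.mulY hc hν hh'1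
        have hZ := TC.add hSI hY
        refine ⟨_, hZ, ?_⟩
        rw [map_add, mY0_DM hc, hh'2, ← hF']
        abel
    · push Not at hun
      have hS0 : ∀ c, κ c = .tw := by
        intro c
        cases hc : κ c with
        | un => exact absurd hc (hun c)
        | tw => rfl
        | af => exact absurd hc (hκ c)
      have hk : κ = ktw := funext hS0
      subst hk
      rwa [mPI_tw] at hB

end bb

section steps

/-- exactness of the untwisted cones -/
def KU (D : Dat) (N p n : ℕ) (w : ℤ) : Prop := ∀ (K : Type) [Fintype K] (ν : K → ℕ),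
  ∑ c, ν c = n → EC D (kun : K → Kd) N p w ν 0

/-- exactness of the twisted cones -/
def KT (D : Dat) (N p n k : ℕ) (w : ℤ) : Prop := ∀ (K : Type) [Fintype K] (ν : K → ℕ),
  ∑ c, ν c = n → EC D (ktw : K → Kd) N p w ν k

variable {D : Dat}

theorem stepAc {N p n : ℕ} {w : ℤ} (h : ∀ d : ℕ, d ≤ n → KT D N p (n - d) 0 (w - d)) :
    KU D N p n w := by
  intro K _ ν hν F hF hdF
  have hR := Rel_SU (naf_un (K := K))
  refine BBc p _ kun naf_un w ν le_rfl ?_ F hF hdF ?_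
  · intro d hd1 hd2 ν' hν'
    exact h d (by omega) K ν' (by omega)
  · have h0 := h 0 (Nat.zero_le _) K ν (by omega)
    rw [Nat.cast_zero, sub_zero] at h0
    exact h0 (mA D (PI (SU kun)) F) (hF.PI hR) (by rw [← mPI_DD hR, hdF, map_zero])

theorem stepBc {N p n : ℕ} {w : ℤ}
    (hQ : ∀ k : ℕ, k ≤ p → KT D (N + 1) (p - k) n (1 + k) (w + 1 + k))
    (hA : ∀ w', w = 2 * w' → KU D N p n w') : KT D (N + 1) p n 0 w := by
  intro K _ ν hν F hF hdF
  obtain ⟨G, H, hG, hDG, hdG, hH, hFe⟩ := liftC (N := N + 1) (by omega) hF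
    (by rw [hdF, map_zero]) (fun k hk => hQ k hk K ν hν)
  have claim : ∃ H', TC D ktw (N + 1) (p - 1) w ν 0 H' ∧ DM D ktw (N + 1) p H' = G := by
    rcases PHI_rootC hG hDG with h0 | ⟨w', hw', Z, hZ, hZG⟩
    · exact ⟨0, TC.zero, by rw [map_zero, h0]⟩
    · have hdZ : DD D kun N p Z = 0 := by
        apply mPHI_inj
        rw [PHI_DD, hZG, hdG, hdF]
      obtain ⟨Z', hZ', hdZ'⟩ := hA w' hw' K ν hν Z hZ hdZ
      refine ⟨mA D (PHI K) Z', ?_, by rw [← PHI_DM, hdZ', hZG]⟩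
      rw [hw']
      exact hZ'.PHI
  obtain ⟨H', hH', hdH'⟩ := claim
  exact ⟨H' + H, hH'.add hH, by rw [map_add, hdH', ← hFe]⟩

end steps

end Pool.Agent.H59K
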