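import Pool.Agent.H59K.KI

/-!
# Definitions of the statements: products and nilpotence
-/

set_option autoImplicit false
set_option linter.unusedSectionVars false

namespace Pool.Agent.H59K

open Pool.Agent.W624.NS

/-- The product `[x | y]` of the cobar complex: `x` is placed in the first `a` slots and `y` in the
last `b` slots. -/
noncomputable def mul {a b : ℕ} (x : Cob a) (y : Cob b) : Cob (a + b) :=
  hom (fun i n => ξ (Fin.castAdd b i) n) x * hom (fun i n => ξ (Fin.natAdd a i) n) y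

section lemmas

open Finset MvPolynomial Pool.Agent.W624.Stz

/-- into the big ring -/
noncomputable def jo {s : ℕ} (x : Cob s) : RR Empty := io s (x : W624.ND.Cob s)

theorem jo_inj {s : ℕ} {x y : Cob s} (h : jo x = jo y) : x = y := W624.ND.io_inj h

theorem jo_zero {s : ℕ} : jo (0 : Cob s) = 0 := map_zero (io s)

theorem jo_pow {s : ℕ} (x : Cob s) (n : ℕ) : jo (x ^ n) = jo x ^ n :=
  map_pow (io s) (x : W624.ND.Cob s) n

theorem jo_mul' {s : ℕ} (x y : Cob s) : jo (x * y) = jo x * jo y :=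
  map_mul (io s) (x : W624.ND.Cob s) (y : W624.ND.Cob s)

theorem jo_dC {s : ℕ} (x : Cob s) : jo (dC s x) = dd kun s (jo x) := by
  have h := W624.ND.io_dC s (x : W624.ND.Cob s)
  refine Eq.trans ?_ h
  exact congrArg (io (s + 1)) (dC_eq s (x : W624.ND.Cob s))

theorem jo_mul {a b : ℕ} (x : Cob a) (y : Cob b) :
    jo (mul x y) = jo x * shf Empty a (jo y) := by
  have h1 : jo (hom (fun i n => ξ (Fin.castAdd b i) n) x : Cob (a + b)) = jo x := by
    have e1 : (hom (fun i n => ξ (Fin.castAdd b i) n) x : W624.ND.Cob (a + b))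
        = MvPolynomial.aeval (R := ZMod 2)
          (fun p : Fin a × ℕ => (X (Fin.castAdd b p.1, p.2) : QQ (a + b)))
          (x : W624.ND.Cob a) := rfl
    refine (congrArg (io (a + b)) e1).trans ?_
    have e2 : (io (a + b)).comp (MvPolynomial.aeval (R := ZMod 2)
        (fun p : Fin a × ℕ => (X (Fin.castAdd b p.1, p.2) : QQ (a + b)))) = io a := by
      apply algHom_ext
      rintro ⟨i, n⟩
      rw [AlgHom.comp_apply, aeval_X, io_X, io_X]
      rfl
    exact DFunLike.congr_fun e2 (x : W624.ND.Cob a)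
  have h2 : jo (hom (fun i n => ξ (Fin.natAdd a i) n) y : Cob (a + b))
      = shf Empty a (jo y) := by
    have e1 : (hom (fun i n => ξ (Fin.natAdd a i) n) y : W624.ND.Cob (a + b))
        = MvPolynomial.aeval (R := ZMod 2)
          (fun p : Fin b × ℕ => (X (Fin.natAdd a p.1, p.2) : QQ (a + b)))
          (y : W624.ND.Cob b) := rfl
    refine (congrArg (io (a + b)) e1).trans ?_
    have e2 : (io (a + b)).comp (MvPolynomial.aeval (R := ZMod 2)
        (fun p : Fin b × ℕ => (X (Fin.natAdd a p.1, p.2) : QQ (a + b))))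
        = (shf Empty a).comp (io b) := by
      apply algHom_ext
      rintro ⟨i, n⟩
      rw [AlgHom.comp_apply, AlgHom.comp_apply, aeval_X, io_X, io_X, shf_x]
      simp only [Fin.val_natAdd]
      rw [add_comm]
    exact DFunLike.congr_fun e2 (y : W624.ND.Cob b)
  rw [mul, jo_mul', h1, h2]

theorem jo_cut {s : ℕ} (x : Cob s) : cut Empty s (jo x) = jo x := io_cut s _

theorem dC_mul {a b : ℕ} {x : Cob a} {y : Cob b} (hx : dC a x = 0) (hy : dC b y = 0) :
    dC (a + b) (mul x y) = 0 := by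
  apply jo_inj
  have hx' : dd kun a (jo x) = 0 := by rw [← jo_dC, hx, jo_zero]
  have hy' : dd kun b (jo y) = 0 := by rw [← jo_dC, hy, jo_zero]
  rw [jo_dC, jo_mul, dd_prod0 (jo_cut x) (jo_cut y), hx', hy', map_zero, zero_mul, mul_zero,
    add_zero, jo_zero]

theorem dC_gen (i : ℕ) : dC 1 ((ξ (0 : Fin 1) 1 : Cob 1) ^ 2 ^ i) = 0 := by
  apply jo_inj
  have h1 : jo (ξ (0 : Fin 1) 1 : Cob 1) = X (.x 0 0) := io_X 1 ((0 : Fin 1), 0)
  have h2 : dd (kun : Empty → Kd) 1 (X (.x 0 0)) = 0 := by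
    have h3 := W624.ND.dd_mulX 0 (f := (1 : RR Empty)) (map_one _)
    rw [mul_one, zero_add, dd_one_even rfl, mul_zero] at h3
    exact h3
  rw [jo_dC, jo_pow, h1, dd_pow, h2, zero_pow (by positivity), jo_zero]

end lemmas

/-- The product of cocycles. -/
noncomputable def mulZ {a b : ℕ} (x : Z a) (y : Z b) : Z (a + b) :=
  ⟨mul x.1 y.1, dC_mul x.2 y.2⟩

/-- The cocycle `[ξ₁ ^ (2 ^ i)]`, which represents the Hopf class `h_i`. -/
noncomputable def hZ (i : ℕ) : Z 1 := ⟨ξ (0 : Fin 1) 1 ^ 2 ^ i, dC_gen i⟩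

/-- The product `[ξ₁ ^ (2 ^ i 0) | ξ₁ ^ (2 ^ i 1) | … | ξ₁ ^ (2 ^ i n)]`, which represents
`h_{i 0} h_{i 1} ⋯ h_{i n}`. -/
noncomputable def mon : (n : ℕ) → (ℕ → ℕ) → Z (n + 1)
  | 0, i => hZ (i 0)
  | n + 1, i => mulZ (mon n i) (hZ (i (n + 1)))

/-- Some iterate of `Sq⁰` kills the class `c`: its `Sq⁰`-family is zero from some member on. -/
def Nil {s : ℕ} (c : Ext s) : Prop := ∃ i, (Sq0 s)^[i] c = 0

/-- Bruner's formula `d₂ (Sq⁰ x) = h₀ Sq¹ x`, for the classes `x` of even internal degree. -/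
def Bruner (d₂ : (n : ℕ) → Ext n → Ext (n + 2)) : Prop :=
  ∀ (n t : ℕ) (x : Z n), Even t → IsHom n t x.1 →
    d₂ n (Sq0 n (cl x)) = h0 (n + 1) (cl (Sq1 n x))

end Pool.Agent.H59K
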