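import Pool.Agent.H59K.KDefs

/-!
# Definitions of the statements: families up to finitely many members, sums of products
-/

set_option autoImplicit false

namespace Pool.Agent.H59K

open Pool.Agent.W624.NS

/-- The `Sq⁰`-families of `x` and `y` agree up to finitely many members at their beginning. -/
def Eqv {s : ℕ} (x y : Ext s) : Prop := ∃ i k : ℕ, (Sq0 s)^[i] x = (Sq0 s)^[k] y

/-- `Prd G n t z`: the cochain `z` of the line `n` and of internal degree `t` is a sum of
coboundaries and of products `[y ^ (2 ^ a) | x]` of homogeneous cocycles of positive lines, whose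
gap is large: `G (deg x) ≤ a`. -/
inductive Prd (G : ℕ → ℕ) : (n t : ℕ) → Cob n → Prop
  | bd (n t : ℕ) (z : Cob n) : IsHom n t z → IsB n z → Prd G n t z
  | prod (p q t u a : ℕ) (y : Z (p + 1)) (x : Z (q + 1)) : IsHom (p + 1) t y.1 →
      IsHom (q + 1) u x.1 → G u ≤ a → Prd G (p + 1 + (q + 1)) (2 ^ a * t + u) (mul (y.1 ^ 2 ^ a) x.1)
  | add (n t : ℕ) (z z' : Cob n) : Prd G n t z → Prd G n t z' → Prd G n t (z + z')

/-- `Dec G n t z`: the cochain `z` of the line `n` and of internal degree `t` is a sum of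
coboundaries, of `Sq¹ v` for homogeneous cocycles `v`, and of products `[y ^ (2 ^ a) | x]` of
homogeneous cocycles of positive lines with `Sq¹ y` and `Sq¹ x` nilpotent, whose gap is large:
`G (deg x) ≤ a`. -/
inductive Dec (G : ℕ → ℕ) : (n t : ℕ) → Cob n → Prop
  | bd (n t : ℕ) (z : Cob n) : IsHom n t z → IsB n z → Dec G n t z
  | sq1 (n t : ℕ) (v : Z n) : IsHom n t v.1 → Dec G (n + 1) (2 * t) (cupSq n v.1)
  | prod (p q t u a : ℕ) (y : Z (p + 1)) (x : Z (q + 1)) : IsHom (p + 1) t y.1 →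
      IsHom (q + 1) u x.1 → G u ≤ a → Nil (cl (Sq1 (p + 1) y)) → Nil (cl (Sq1 (q + 1) x)) →
      Dec G (p + 1 + (q + 1)) (2 ^ a * t + u) (mul (y.1 ^ 2 ^ a) x.1)
  | add (n t : ℕ) (z z' : Cob n) : Dec G n t z → Dec G n t z' → Dec G n t (z + z')

end Pool.Agent.H59K
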