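import Pool.Agent.H59K.KDefs

/-!
# Definitions of the statements: polynomials in the members of families
-/

set_option autoImplicit false

namespace Pool.Agent.H59K

open Pool.Agent.W624.NS

/-- Polynomials in the members of the `Sq⁰`-families of the cocycles in `F`, up to coboundaries:
`Poly F n t z` says that the cochain `z` of the line `n` and of internal degree `t` is obtained from
homogeneous coboundaries and the members `f ^ (2 ^ k)` of the families of the homogeneous elements
`f ∈ F` of positive lines by means of products and of sums of elements of the same degree. -/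
inductive Poly (F : (n : ℕ) → Set (Z n)) : (n t : ℕ) → Cob n → Prop
  | bd (n t : ℕ) (z : Cob n) : IsHom n t z → IsB n z → Poly F n t z
  | mem (n t k : ℕ) (f : Z (n + 1)) : f ∈ F (n + 1) → IsHom (n + 1) t f.1 →
      Poly F (n + 1) (2 ^ k * t) (f.1 ^ 2 ^ k)
  | mul (p q t u : ℕ) (x : Cob p) (y : Cob q) : Poly F p t x → Poly F q u y →
      Poly F (p + q) (t + u) (mul x y)
  | add (n t : ℕ) (x y : Cob n) : Poly F n t x → Poly F n t y → Poly F n t (x + y)

end Pool.Agent.H59K
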