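import Pool.Agent.H59K.KDefs

/-!
# Definitions of the statements: the classes of bounded degree
-/

set_option autoImplicit false

namespace Pool.Agent.H59K

open Pool.Agent.W624.NS

/-- The classes `x_J = (Sq⁰)^J x`, where `x` runs through the homogeneous classes of the line `s` of
internal degree at most `X` whose `Sq⁰`-family is not nilpotent; that is, the non-nilpotent
homogeneous classes `x` of degree at most `X`, where two of them are identified if their families
agree from the `J`-th member on. -/
def Fam (s J X : ℕ) : Set (Ext s) :=
  {y | ¬ Nil y ∧ ∃ (t : ℕ) (x : Z s), t ≤ X ∧ IsHom s t x.1 ∧ (Sq0 s)^[J] (cl x) = y}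

end Pool.Agent.H59K
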