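import Pool.Agent.H59K.KD

/-!
# Cones: reduction of the number of forms
-/

set_option autoImplicit false
set_option linter.unusedSectionVars false

namespace Pool.Agent.H59K

open Finset MvPolynomial Pool.Agent.W624.Stz

section slot0

variable {K : Type} {κ : K → Kd} {t : ℤ} {ν : K → ℕ} {k : ℕ}

theorem TT_slot0 {f : RR K} (hf : TT κ 0 t ν k f) (hk : 1 ≤ k) : f = 0 := by
  have h1 := hf.jsw
  have h2 : IW (js K) (cut K 0 f) 0 := by
    refine IW.aeval' (0 : ℕ →+ ℕ) (cut K 0) (w := js K) (w' := js K) ?_ h1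
    intro v
    have : cut K 0 (X v) = co (cpt 0 (uni K)) v := ev_X _ v
    rw [this, AddMonoidHom.zero_apply]
    cases v with
    | x a n =>
      simp only [co, cpt]
      rw [if_neg (by omega), one_g, e1, if_neg (by omega)]
      exact IW.zero' _ _
    | s a n =>
      simp only [co, cpt]
      rw [if_neg (by omega), one_s]
      exact IW.zero' _ _
    | y c n => exact isWeightedHomogeneous_X _ (js K) (Vr.y c n)
  rw [hf.cu] at h2
  exact IW.uniq h1 h2 (by omega)

theorem LemT0c {D : Dat} {N : ℕ} (hk : 1 ≤ k) : EC D κ N 0 t ν k := by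
  intro F hF _
  refine ⟨0, TC.zero, ?_⟩
  rw [map_zero]
  refine Prod.ext ?_ (funext fun i => ?_)
  · exact (TT_slot0 hF.a hk).symm
  · have := hF.b i
    rw [Nat.zero_sub] at this
    exact (TT_slot0 this hk).symm

end slot0

section ltaux

variable {K : Type}

theorem LL_zero {f : RR (Option K)} {u : ℤ} {ν : K → ℕ} {j : ℕ} (hj : 1 ≤ j)
    (hf : IW (wE K) f (u, (ν, j))) : LL K f = 0 := by
  have h3 : IW (fun v => (wE K v).2.2) f j := by
    have := hf.coarse ((AddMonoidHom.snd (K → ℕ) ℕ).comp (AddMonoidHom.snd ℤ _))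
    exact this
  have h4 : IW (fun v => (wE K v).2.2) (LL K f) 0 := by
    refine IW.aeval' (0 : ℕ →+ ℕ) (LL K) (w := fun v => (wE K v).2.2)
      (w' := fun v => (wE K v).2.2) ?_ h3
    intro v
    rw [LL, ev_X, AddMonoidHom.zero_apply]
    cases v with
    | x a n => exact isWeightedHomogeneous_X _ (fun v => (wE K v).2.2) (Vr.x a n)
    | s a n => exact IW.zero' _ _
    | y o n =>
      cases o with
      | none => exact IW.zero' _ _
      | some c =>
        exact isWeightedHomogeneous_X _ (fun v => (wE K v).2.2) (Vr.y (some c) n)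
  have h5 : IW (fun v => (wE K v).2.2) (LL K f) j := by
    refine IW.aeval' (AddMonoidHom.id ℕ) (LL K) (w := fun v => (wE K v).2.2)
      (w' := fun v => (wE K v).2.2) ?_ h3
    intro v
    rw [LL, ev_X, AddMonoidHom.id_apply]
    cases v with
    | x a n => exact isWeightedHomogeneous_X _ (fun v => (wE K v).2.2) (Vr.x a n)
    | s a n => exact IW.zero' _ _
    | y o n =>
      cases o with
      | none => exact IW.zero' _ _
      | some c =>
        exact isWeightedHomogeneous_X _ (fun v => (wE K v).2.2) (Vr.y (some c) n)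
  exact IW.uniq h4 h5 (by omega)

theorem cm_Lt {m : ℕ} {r : RR (Option K)} (hr : Lt (wn K) m r) : cm (wn K) m r = 0 := by
  ext e
  rw [coeff_weightedHomogeneousComponent, coeff_zero]
  split_ifs with he
  · by_contra hne
    have := hr e hne
    omega
  · rfl

theorem cm_dd (q m : ℕ) (f : RR (Option K)) :
    cm (wn K) m (dd ktw q f) = dd ktw q (cm (wn K) m f) :=
  cm_comm (w := wn K) (w' := wn K) (fun m => m) (fun _ _ h => h)
    (dd ktw q) (fun _ _ hf => IW_dd_wn hf) f m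

theorem cm_cut (q m : ℕ) (f : RR (Option K)) :
    cm (wn K) m (cut (Option K) q f) = cut (Option K) q (cm (wn K) m f) := by
  have h6 := cm_comm (w := wn K) (w' := wn K) (fun m => m) (fun _ _ h => h)
    (cut (Option K) q).toLinearMap (fun _ _ hf => by
      rw [wn_eq] at hf ⊢
      exact IW_cut_c (κ := (ktw : Option K → Kd)) _ hf) f m
  simpa only [AlgHom.toLinearMap_apply] using h6

theorem cm_mul_shf (s N m : ℕ) (Z : RR Empty) (f : RR (Option K)) :
    cm (wn K) m (inK (Option K) Z ^ 2 ^ N * shf (Option K) s f)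
      = inK (Option K) Z ^ 2 ^ N * shf (Option K) s (cm (wn K) m f) := by
  have h6 := cm_comm (w := wn K) (w' := wn K) (fun m => m) (fun _ _ h => h)
    ((LinearMap.mulLeft (ZMod 2) (inK (Option K) Z ^ 2 ^ N)).comp
      (shf (Option K) s).toLinearMap) (fun _ _ hf => by
      rw [LinearMap.comp_apply, LinearMap.mulLeft_apply, AlgHom.toLinearMap_apply]
      exact IWn_mul_shf N Z hf) f m
  simpa only [LinearMap.comp_apply, LinearMap.mulLeft_apply, AlgHom.toLinearMap_apply] using h6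

theorem Lt_top {i : ℕ} {H : RR (Option K)} (h4 : Lt (wn K) (i + 1 + 1) H) :
    Lt (wn K) (i + 1) (H + cm (wn K) (i + 1) H) := by
  intro e he
  rw [coeff_add, coeff_weightedHomogeneousComponent] at he
  by_cases hc : coeff e H = 0
  · rw [hc] at he
    simp at he
  · have h7 := h4 e hc
    by_cases h8 : Finsupp.weight (wn K) e = i + 1
    · rw [if_pos h8] at he
      exfalso
      apply he
      have := p2_add_self H
      have h9 := congrArg (coeff e) this
      rwa [coeff_add, coeff_zero] at h9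
    · omega

theorem fine_mon {i j : ℕ} {u : ℤ} {ν : K → ℕ} {f : RR (Option K)}
    (h1 : IW (wE K) f (u, (ν, j))) (h2 : IW (wn K) f i) (e : Vr (Option K) →₀ ℕ)
    (he : coeff e f ≠ 0) : i ≤ j ∧
      Finsupp.weight (wF (ktw : Option K → Kd)) e = (u, (nx ν i, j - i)) := by
  have a1 := h1 he
  have a2 := h2 he
  rw [wE_eq, wmap] at a1
  rw [wn_eq', wmap] at a2
  have b1 := congrArg Prod.fst a1
  have b2 := congrArg (fun m => m.2.1) a1
  have b3 := congrArg (fun m => m.2.2) a1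
  simp only [pE, AddMonoidHom.coe_mk, ZeroHom.coe_mk] at b1 b2 b3
  simp only [pn, AddMonoidHom.coe_mk, ZeroHom.coe_mk] at a2
  refine ⟨by omega, Prod.ext b1 (Prod.ext ?_ ?_)⟩
  · funext o
    cases o with
    | none => exact a2
    | some c => exact congrFun b2 c
  · simp only
    omega

theorem fine_IW {i j : ℕ} {u : ℤ} {ν : K → ℕ} {f : RR (Option K)}
    (h1 : IW (wE K) f (u, (ν, j))) (h2 : IW (wn K) f i) :
    IW (wF (ktw : Option K → Kd)) f (u, (nx ν i, j - i)) := fun e he =>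
  (fine_mon h1 h2 e he).2

theorem fine_zero {i j : ℕ} {u : ℤ} {ν : K → ℕ} {f : RR (Option K)}
    (h1 : IW (wE K) f (u, (ν, j))) (h2 : IW (wn K) f i) (hij : j < i) : f = 0 := by
  by_contra h
  obtain ⟨e, he⟩ := ne_zero_iff.mp h
  have := (fine_mon h1 h2 e he).1
  omega

theorem coarse_E {i j : ℕ} (hij : i ≤ j) {u : ℤ} {ν : K → ℕ} {f : RR (Option K)}
    (h : IW (wF (ktw : Option K → Kd)) f (u, (nx ν i, j - i))) :
    IW (wE K) f (u, (ν, j)) := by
  have := h.coarse (pE K)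
  rw [← wE_eq] at this
  have h9 : pE K (u, (nx ν i, j - i)) = (u, (ν, j)) := by
    refine Prod.ext rfl (Prod.ext rfl ?_)
    simp only [pE, AddMonoidHom.coe_mk, ZeroHom.coe_mk, nx]
    omega
  rwa [h9] at this

theorem coarse_n {i m : ℕ} {u : ℤ} {ν : K → ℕ} {f : RR (Option K)}
    (h : IW (wF (ktw : Option K → Kd)) f (u, (nx ν i, m))) : IW (wn K) f i := by
  have := h.coarse (pn K)
  rw [← wn_eq'] at this
  exact this

end ltaux

section lemT

variable {D : Dat} {K : Type} {N : ℕ}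

/-- cut conditions -/
structure CU (D : Dat) (q : ℕ) (F : CC D K) : Prop where
  a : cut K q F.1 = F.1
  b : ∀ i, cut K (q - D.σ i) (F.2 i) = F.2 i
  c : ∀ i, q < D.σ i → F.2 i = 0

theorem TC.CU {κ : K → Kd} {q : ℕ} {t : ℤ} {ν : K → ℕ} {k : ℕ} {F : CC D K}
    (h : TC D κ N q t ν k F) : H59K.CU D q F := ⟨h.a.cu, fun i => (h.b i).cu, h.c⟩

theorem DD_DD' {κ : K → Kd} {q : ℕ} {F : CC D K} (hF : CU D q F) :
    DD D κ N (q + 1) (DD D κ N q F) = 0 := by
  have hSS : dd κ (q + 1) (SS D K N F.2) = SS D K N (fun i => dd κ (q - D.σ i) (F.2 i)) := by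
    rw [SS_apply, SS_apply, map_sum]
    refine sum_congr rfl fun i _ => ?_
    rcases Nat.lt_or_ge q (D.σ i) with h | h
    · rw [hF.c i h]; simp
    · have := dd_mul_shf (κ := κ) N (D.hz i).cu (D.hz i).cl (hF.b i)
      rwa [show D.σ i + 1 + (q - D.σ i) = q + 1 by omega] at this
  refine Prod.ext ?_ (funext fun i => ?_)
  · rw [DD_fst, DD_fst, map_add, dd_dd κ hF.a, zero_add, hSS]
    exact p2_add_self _
  · rw [DD_snd, DD_snd]
    rcases Nat.lt_or_ge q (D.σ i) with h | h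
    · rw [hF.c i h, map_zero, map_zero]; rfl
    · rw [show q + 1 - D.σ i = q - D.σ i + 1 by omega, dd_dd κ (hF.b i)]; rfl

theorem DD_DM' {κ : K → Kd} {q : ℕ} {F : CC D K} (hF : CU D (q - 1) F) :
    DD D κ N q (DM D κ N q F) = 0 := by
  cases q with
  | zero => exact map_zero _
  | succ q => exact DD_DD' hF

/-- members of the auxiliary cone -/
structure TE (D : Dat) (N q : ℕ) (t : ℤ) (ν : K → ℕ) (j : ℕ) (H : CC D (Option K)) :
    Prop where
  cu : CU D q H
  a : IW (wE K) H.1 (t + 2 ^ N * D.t0, (ν, j))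
  b : ∀ i, IW (wE K) (H.2 i) (t, (ν, j))

theorem TE.add {q : ℕ} {t : ℤ} {ν : K → ℕ} {j : ℕ} {H G : CC D (Option K)}
    (h : TE D N q t ν j H) (h' : TE D N q t ν j G) : TE D N q t ν j (H + G) :=
  ⟨⟨by rw [Prod.fst_add, map_add, h.cu.a, h'.cu.a], fun i => by
      rw [Prod.snd_add, Pi.add_apply, map_add, h.cu.b, h'.cu.b], fun i hi => by
      rw [Prod.snd_add, Pi.add_apply, h.cu.c i hi, h'.cu.c i hi, add_zero]⟩,
    h.a.add h'.a, fun i => (h.b i).add (h'.b i)⟩

theorem TE.zero {q : ℕ} {t : ℤ} {ν : K → ℕ} {j : ℕ} : TE D N q t ν j 0 :=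
  ⟨⟨map_zero _, fun _ => map_zero _, fun _ _ => rfl⟩, IW.zero' _ _, fun _ => IW.zero' _ _⟩

theorem hafE (c : Option K) (hc : kE c = .af) : oE K c = (0, 1) := by
  cases c with
  | none => rfl
  | some c => exact absurd hc (by simp [kE])

theorem TE.DD {q : ℕ} {t : ℤ} {ν : K → ℕ} {j : ℕ} {H : CC D (Option K)}
    (h : TE D N q t ν j H) : TE D N (q + 1) t ν j (DD D kE N q H) := by
  have hterm : ∀ i, cut _ (q + 1) (ZZ D (Option K) N i * shf _ (D.σ i + 1) (H.2 i))
      = ZZ D (Option K) N i * shf _ (D.σ i + 1) (H.2 i) := by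
    intro i
    rcases Nat.lt_or_ge q (D.σ i) with h1 | h1
    · rw [h.cu.c i h1]; simp
    · have := cut_mul_shf N (D.hz i).cu (h.cu.b i)
      rwa [show D.σ i + 1 + (q - D.σ i) = q + 1 by omega] at this
  refine ⟨⟨?_, fun i => ?_, fun i hi => ?_⟩, ?_, fun i => ?_⟩
  · rw [DD_fst, map_add, cut_dd _ h.cu.a, SS_apply, map_sum]
    congr 1
    exact sum_congr rfl fun i _ => hterm i
  · rw [DD_snd]
    rcases Nat.lt_or_ge q (D.σ i) with h1 | h1
    · rw [h.cu.c i h1, map_zero, map_zero]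
    · rw [show q + 1 - D.σ i = q - D.σ i + 1 by omega]
      exact cut_dd _ (h.cu.b i)
  · rw [DD_snd, h.cu.c i (by omega), map_zero]
  · rw [DD_fst]
    refine IsWeightedHomogeneous.add (IW_dd hafE h.a) ?_
    rw [SS_apply]
    apply IsWeightedHomogeneous.sum
    intro i _
    exact IWE_mul_shf N (D.hz i) (h.b i)
  · rw [DD_snd]
    exact IW_dd hafE (h.b i)

theorem TE.DM {q : ℕ} {t : ℤ} {ν : K → ℕ} {j : ℕ} {H : CC D (Option K)}
    (h : TE D N (q - 1) t ν j H) : TE D N q t ν j (DM D kE N q H) := by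
  cases q with
  | zero => exact TE.zero
  | succ q => exact TE.DD h

/-- all components of small degree -/
def LtC (m : ℕ) (H : CC D (Option K)) : Prop :=
  Lt (wn K) m H.1 ∧ ∀ i, Lt (wn K) m (H.2 i)

theorem LtC.add {m : ℕ} {H G : CC D (Option K)} (h : LtC m H) (h' : LtC m G) :
    LtC m (H + G) := ⟨h.1.add h'.1, fun i => (h.2 i).add (h'.2 i)⟩

theorem DD_split (q : ℕ) (H : CC D (Option K)) :
    DD D kE N q H = DD D ktw N q H + (lf kE q H.1 + lf ktw q H.1, fun i =>
      lf kE (q - D.σ i) (H.2 i) + lf ktw (q - D.σ i) (H.2 i)) := by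
  refine Prod.ext ?_ (funext fun i => ?_)
  · rw [DD_fst, Prod.fst_add, DD_fst, dd_split]
    ring
  · rw [DD_snd, Prod.snd_add, Pi.add_apply, DD_snd, dd_split]

theorem DM_split_lt {q m : ℕ} {H : CC D (Option K)} (hH : LtC (m + 1) H) :
    ∃ r, DM D kE N q H = DM D ktw N q H + r ∧ LtC m r := by
  cases q with
  | zero => exact ⟨0, (add_zero _).symm, Lt.zero _, fun _ => Lt.zero _⟩
  | succ q => exact ⟨_, DD_split q H, lf_lt hH.1, fun i => lf_lt (hH.2 i)⟩

/-- componentwise homogeneous part -/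
noncomputable def cmC (m : ℕ) (H : CC D (Option K)) : CC D (Option K) :=
  (cm (wn K) m H.1, fun i => cm (wn K) m (H.2 i))

theorem cmC_DD (q m : ℕ) (H : CC D (Option K)) :
    cmC m (DD D ktw N q H) = DD D ktw N q (cmC m H) := by
  refine Prod.ext ?_ (funext fun i => ?_)
  · change cm (wn K) m (dd ktw q H.1 + SS D _ N H.2) = dd ktw q (cm (wn K) m H.1) + SS D _ N _
    rw [map_add, cm_dd, SS_apply, SS_apply, map_sum]
    congr 1
    exact sum_congr rfl fun i _ => cm_mul_shf _ _ _ _ _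
  · exact cm_dd _ _ _

/-- the homotopy on cochains of the auxiliary cone -/
noncomputable def HB (q : ℕ) (G : CC D (Option K)) : CC D (Option K) :=
  (hh K q G.1, fun i => hm K (q + 1 - D.σ i) (G.2 i))

theorem HB_fst (q : ℕ) (G : CC D (Option K)) : (HB q G).1 = hh K q G.1 := rfl
theorem HB_snd (q : ℕ) (G : CC D (Option K)) (i : D.I) :
    (HB q G).2 i = hm K (q + 1 - D.σ i) (G.2 i) := rfl

theorem HB_TE {q : ℕ} {t : ℤ} {ν : K → ℕ} {j : ℕ} {G : CC D (Option K)}
    (hGE : TE D N (q + 1) t ν j G) : TE D N q t ν j (HB q G) := by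
  have h1 : cut _ q (hh K q G.1) = hh K q G.1 := by
    have := cut_hm hGE.cu.a
    rwa [Nat.add_sub_cancel] at this
  have h2 : IW (wE K) (hh K q G.1) (t + 2 ^ N * D.t0, (ν, j)) :=
    IW_hh (ω := oE K) (ss := ((0 : K → ℕ), 1)) rfl hGE.a
  have h3 : ∀ i, IW (wE K) (hm K (q + 1 - D.σ i) (G.2 i)) (t, (ν, j)) := fun i =>
    IW_hm (ω := oE K) (ss := ((0 : K → ℕ), 1)) rfl (hGE.b i)
  refine ⟨⟨?_, fun i => ?_, fun i hi => ?_⟩, ?_, fun i => ?_⟩
  · rw [HB_fst]
    exact h1
  · rw [HB_snd]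
    have := cut_hm (hGE.cu.b i)
    rwa [show q + 1 - D.σ i - 1 = q - D.σ i by omega] at this
  · rw [HB_snd, show q + 1 - D.σ i = 0 by omega]
    rfl
  · rw [HB_fst]
    exact h2
  · rw [HB_snd]
    exact h3 i

theorem HB_SS {q : ℕ} {t : ℤ} {ν : K → ℕ} {j : ℕ} (hj : 1 ≤ j) {G : CC D (Option K)}
    (hGE : TE D N (q + 1) t ν j G) :
    hh K (q + 1) (SS D _ N G.2) = SS D _ N (HB q G).2 := by
  rw [SS_apply, SS_apply, map_sum]
  refine sum_congr rfl fun i _ => ?_
  rw [HB_snd]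
  rcases Nat.lt_or_ge (q + 1) (D.σ i) with h | h
  · rw [hGE.cu.c i h]; simp
  · have := hm_mul_shf (s := D.σ i + 1) (by omega) N (D.hz i).cu (hGE.cu.b i)
      (LL_zero hj (hGE.b i))
    rw [show D.σ i + 1 + (q + 1 - D.σ i) = (q + 1) + 1 by omega] at this
    exact this

theorem HB_DD {q : ℕ} {t : ℤ} {ν : K → ℕ} {j : ℕ} (hj : 1 ≤ j) {G : CC D (Option K)}
    (hGE : TE D N (q + 1) t ν j G) (hGd : DD D kE N (q + 1) G = 0) :
    DD D kE N q (HB q G) = G := by
  have hGd1 : dd kE (q + 1) G.1 = SS D _ N G.2 := by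
    have h := congrArg Prod.fst hGd
    rw [DD_fst] at h
    exact p2_eq_of_add h
  refine Prod.ext ?_ (funext fun i => ?_)
  · have h1 := prism_poly (q + 1) G.1 hGE.cu.a
    rw [LL_zero hj hGE.a, zero_add, hGd1, HB_SS hj hGE, add_comm] at h1
    rw [DD_fst, HB_fst]
    exact h1
  · have hGd2 : dd kE (q + 1 - D.σ i) (G.2 i) = 0 := by
      have h := congrFun (congrArg Prod.snd hGd) i
      rw [DD_snd] at h
      exact h
    rw [DD_snd, HB_snd]
    have h1 := prism_poly (q + 1 - D.σ i) (G.2 i) (hGE.cu.b i)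
    rw [LL_zero hj (hGE.b i), zero_add, hGd2, map_zero, zero_add] at h1
    rcases Nat.lt_or_ge q (D.σ i) with h | h
    · rw [show q + 1 - D.σ i = 0 by omega] at h1 ⊢
      rw [← h1]
      change dd kE (q - D.σ i) 0 = 0
      exact map_zero _
    · rw [show q + 1 - D.σ i = q - D.σ i + 1 by omega] at h1 ⊢
      exact h1

theorem cmC_fst (m : ℕ) (H : CC D (Option K)) : (cmC m H).1 = cm (wn K) m H.1 := rfl
theorem cmC_snd (m : ℕ) (H : CC D (Option K)) (i : D.I) :
    (cmC m H).2 i = cm (wn K) m (H.2 i) := rfl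

theorem cmC_IN {m : ℕ} (hm : 0 < m) (F : CC D K) : cmC m (mA D (IN K) F) = 0 := by
  refine Prod.ext ?_ (funext fun i => ?_)
  · rw [cmC_fst, mA_fst]
    exact cm_ne (IW_wn_IN F.1) (by omega)
  · rw [cmC_snd, mA_snd]
    exact cm_ne (IW_wn_IN (F.2 i)) (by omega)

theorem top_closed {q i : ℕ} {H : CC D (Option K)} (h4 : LtC (i + 1 + 1) H)
    (h : cmC (i + 1) (DD D kE N q H) = 0) : DD D ktw N q (cmC (i + 1) H) = 0 := by
  rw [← cmC_DD, ← h, DD_split]
  refine Prod.ext ?_ (funext fun i' => ?_)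
  · rw [cmC_fst, cmC_fst, Prod.fst_add, map_add, cm_Lt (lf_lt h4.1), add_zero]
  · rw [cmC_snd, cmC_snd, Prod.snd_add, Pi.add_apply, map_add]
    have := cm_Lt (lf_lt (q := q - D.σ i') (h4.2 i'))
    rw [this, add_zero]

theorem TE.top {q i : ℕ} {t : ℤ} {ν : K → ℕ} {j : ℕ} {H : CC D (Option K)}
    (h1 : TE D N q t ν j H) : TE D N q t ν j (cmC (i + 1) H) := by
  refine ⟨⟨?_, fun i' => ?_, fun i' hi' => ?_⟩, cm_other h1.a, fun i' => cm_other (h1.b i')⟩
  · rw [cmC_fst, ← cm_cut, h1.cu.a]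
  · rw [cmC_snd, ← cm_cut, h1.cu.b]
  · rw [cmC_snd, h1.cu.c i' hi', map_zero]

theorem main_step {q : ℕ} {t : ℤ} {ν : K → ℕ} {j : ℕ}
    (hex : ∀ i, 1 ≤ i → i ≤ j → EC D (ktw : Option K → Kd) N q t (nx ν i) (j - i))
    (G : CC D (Option K)) (hGn : ∀ m, 0 < m → cmC m G = 0) :
    ∀ (i : ℕ) (H : CC D (Option K)), TE D N q t ν j H → DD D kE N q H = G →
      LtC (i + 1) H → ∃ H', TE D N q t ν j H' ∧ DD D kE N q H' = G ∧ LtC 1 H' := by
  intro i
  induction i with
  | zero => intro H h1 h2 h3; exact ⟨H, h1, h2, h3⟩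
  | succ i ih =>
    intro H h1 h2 h4
    have hdt : DD D ktw N q (cmC (i + 1) H) = 0 :=
      top_closed h4 (by rw [h2]; exact hGn _ (by omega))
    have hTE : TE D N q t ν j (cmC (i + 1) H) := h1.top
    have hH1 : LtC (i + 1) (H + cmC (i + 1) H) := ⟨Lt_top h4.1, fun i' => Lt_top (h4.2 i')⟩
    by_cases hij : i + 1 ≤ j
    · have hTT : TC D (ktw : Option K → Kd) N q t (nx ν (i + 1)) (j - (i + 1))
          (cmC (i + 1) H) :=
        ⟨⟨hTE.cu.a, fine_IW hTE.a (cm_IW _ _ _)⟩, fun i' =>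
          ⟨hTE.cu.b i', fine_IW (hTE.b i') (cm_IW _ _ _)⟩, hTE.cu.c⟩
      obtain ⟨e, he1, he2⟩ := hex (i + 1) (by omega) hij _ hTT hdt
      have heE : TE D N (q - 1) t ν j e :=
        ⟨he1.CU, coarse_E hij he1.a.iw, fun i' => coarse_E hij (he1.b i').iw⟩
      have hen : LtC (i + 1 + 1) e :=
        ⟨Lt.of_IW (coarse_n he1.a.iw), fun i' => Lt.of_IW (coarse_n (he1.b i').iw)⟩
      obtain ⟨r, hr1, hr2⟩ := DM_split_lt (N := N) (q := q) hen
      have hH2 : H + DM D kE N q e = H + cmC (i + 1) H + r := by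
        rw [hr1, he2, add_assoc]
      apply ih (H + DM D kE N q e)
      · exact h1.add heE.DM
      · rw [map_add, h2, DD_DM' heE.cu, add_zero]
      · rw [hH2]
        exact hH1.add hr2
    · have hz : cmC (i + 1) H = 0 := by
        refine Prod.ext ?_ (funext fun i' => ?_)
        · exact fine_zero hTE.a (cm_IW _ _ _) (by omega)
        · exact fine_zero (hTE.b i') (cm_IW _ _ _) (by omega)
      rw [hz, add_zero] at hH1
      exact ih H h1 h2 hH1

theorem exists_LtC (H : CC D (Option K)) : ∃ i, LtC (i + 1) H := by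
  classical
  have hb : ∀ f : RR (Option K), ∃ m, Lt (wn K) (m + 1) f := fun f =>
    ⟨f.support.sup (Finsupp.weight (wn K)), fun e he =>
      Nat.lt_succ_of_le (Finset.le_sup (f := fun e => Finsupp.weight (wn K) e)
        (mem_support_iff.mpr he))⟩
  obtain ⟨m0, hm0⟩ := hb H.1
  choose m hm using fun i => hb (H.2 i)
  refine ⟨max m0 (univ.sup m), hm0.mono (by omega), fun i => (hm i).mono ?_⟩
  have := Finset.le_sup (f := m) (mem_univ i)
  omega

theorem mIN_inj {A B : CC D K} (hAB : mA D (IN K) A = mA D (IN K) B) : A = B := by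
  refine Prod.ext ?_ (funext fun i => ?_)
  · have h := congrArg Prod.fst hAB
    rw [mA_fst, mA_fst] at h
    have := congrArg (RE K) h
    rwa [RE_IN, RE_IN] at this
  · have h := congrFun (congrArg Prod.snd hAB) i
    rw [mA_snd, mA_snd] at h
    have := congrArg (RE K) h
    rwa [RE_IN, RE_IN] at this

theorem LemTc (q : ℕ) (t : ℤ) (ν : K → ℕ) (j : ℕ) (hj : 1 ≤ j)
    (hex : ∀ i, 1 ≤ i → i ≤ j → EC D (ktw : Option K → Kd) N q t (nx ν i) (j - i)) :
    EC D (ktw : K → Kd) N (q + 1) t ν j := by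
  intro F hF hdF
  rw [Nat.add_sub_cancel]
  have hkE : ∀ c : K, (kE : Option K → Kd) (some c) = ktw c := fun _ => rfl
  have hGE : TE D N (q + 1) t ν j (mA D (IN K) F) := by
    refine ⟨⟨?_, fun i => ?_, fun i hi => ?_⟩, IW_IN hF.a.iw, fun i => IW_IN (hF.b i).iw⟩
    · rw [mA_fst, ← IN_cut, hF.a.cu]
    · rw [mA_snd, ← IN_cut, (hF.b i).cu]
    · rw [mA_snd, hF.c i hi, map_zero]
  have hGd : DD D kE N (q + 1) (mA D (IN K) F) = 0 := by
    rw [← mA_DD (IN K) (IN_dd hkE) IN_shf IN_inK, hdF, map_zero]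
  obtain ⟨i, hi⟩ := exists_LtC (HB q (mA D (IN K) F))
  obtain ⟨H, hT, hd, hl⟩ := main_step hex (mA D (IN K) F) (fun m hm => cmC_IN hm F) i _
    (HB_TE hGE) (HB_DD hj hGE hGd) hi
  have hn0 : ∀ f : RR (Option K), Lt (wn K) 1 f → IW (wn K) f 0 := by
    intro f hf e he
    have := hf e he
    omega
  have hn1 := hn0 _ hl.1
  have hn2 := fun i => hn0 _ (hl.2 i)
  refine ⟨mA D (RE K) H, ⟨⟨?_, IW_RE hT.a⟩, fun i => ⟨?_, IW_RE (hT.b i)⟩, fun i hi => ?_⟩, ?_⟩
  · rw [mA_fst, ← RE_cut, hT.cu.a]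
  · rw [mA_snd, ← RE_cut, hT.cu.b]
  · rw [mA_snd, hT.cu.c i hi, map_zero]
  · change DD D ktw N q (mA D (RE K) H) = F
    apply mIN_inj
    rw [mA_DD (IN K) (IN_dd hkE) IN_shf IN_inK]
    have h3 : mA D (IN K) (mA D (RE K) H) = H := by
      refine Prod.ext ?_ (funext fun i => ?_)
      · rw [mA_fst, mA_fst, IN_RE hn1]
      · rw [mA_snd, mA_snd, IN_RE (hn2 i)]
    rw [h3, hd]

end lemT

end Pool.Agent.H59K
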