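import Pool.Agent.H59K.KE

/-!
# Cones: the main induction
-/

set_option autoImplicit false
set_option linter.unusedSectionVars false

namespace Pool.Agent.H59K

open Finset MvPolynomial Pool.Agent.W624.Stz

section low

variable {K : Type} [Fintype K]

/-- excess of a weight -/
def exc (K : Type) [Fintype K] (m : ℤ) : ℤ × ((K → ℕ) × ℕ) →+ ℤ where
  toFun x := x.1 - m * ∑ c, (x.2.1 c : ℤ)
  map_zero' := by simp
  map_add' a b := by
    simp only [Prod.fst_add, Prod.snd_add, Pi.add_apply, Nat.cast_add, sum_add_distrib]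
    ring

theorem sum_ee_int (c : K) : ∑ c', (ee c c' : ℤ) = 1 := by
  have := sum_ee c
  exact_mod_cast this

theorem low_zero {κ : K → Kd} {m : ℤ} (hm : ∀ (c : K) (n : ℕ), m ≤ tk (κ c) n) {q : ℕ} {t : ℤ}
    {ν : K → ℕ} {k : ℕ} {f : RR K} (hf : TT κ q t ν k f) (h : t < m * ∑ c, (ν c : ℤ)) :
    f = 0 := by
  by_contra hne
  obtain ⟨e, he⟩ := ne_zero_iff.mp hne
  have h1 := hf.iw he
  have h2 := wmap (exc K m) (wF κ) e
  rw [h1] at h2
  have h3 : exc K m (t, (ν, k)) < 0 := by
    simp only [exc, AddMonoidHom.coe_mk, ZeroHom.coe_mk]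
    linarith
  rw [← h2, Finsupp.weight_apply, Finsupp.sum] at h3
  have h4 : 0 ≤ ∑ v ∈ e.support, e v • exc K m (wF κ v) := by
    refine sum_nonneg fun v _ => ?_
    refine nsmul_nonneg ?_ _
    cases v with
    | x a n =>
      have h5 : (1 : ℤ) ≤ 2 ^ (n + 1) := one_le_pow₀ (by norm_num)
      simp only [exc, AddMonoidHom.coe_mk, ZeroHom.coe_mk, wF, wG]
      simp
      linarith
    | s a n =>
      have h5 : (1 : ℤ) ≤ 2 ^ (n + 1) := one_le_pow₀ (by norm_num)
      simp only [exc, AddMonoidHom.coe_mk, ZeroHom.coe_mk, wF, wG]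
      simp
    | y c n =>
      have h5 := hm c n
      simp only [exc, AddMonoidHom.coe_mk, ZeroHom.coe_mk, wF, wG]
      rw [sum_ee_int]
      linarith
  linarith

end low

section transfer

variable {K : Type}

/-- evaluation of the coordinates at zero -/
noncomputable def outK (K : Type) : RR K →ₐ[ZMod 2] RR Empty :=
  aeval (fun v => match v with
    | .x a n => X (.x a n)
    | .s a n => X (.s a n)
    | .y _ _ => 0)

theorem outK_x (a n : ℕ) : outK K (X (.x a n)) = X (.x a n) := aeval_X _ _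
theorem outK_s (a n : ℕ) : outK K (X (.s a n)) = X (.s a n) := aeval_X _ _
theorem outK_y (c : K) (n : ℕ) : outK K (X (.y c n)) = 0 := aeval_X _ _

theorem outK_co (z : Pt Empty (RR Empty)) (v : Vr K) :
    ev z (outK K (X v)) = co (mp id (fun _ _ => 0) z : Pt K (RR Empty)) v := by
  cases v with
  | x a n => rw [outK_x, ev_X]; rfl
  | s a n => rw [outK_s, ev_X]; rfl
  | y c n => rw [outK_y, map_zero]; rfl

theorem inK_co (z : Pt K (RR K)) (v : Vr Empty) :
    ev z (inK K (X v)) = co (mp id (fun _ c => c.elim) z : Pt Empty (RR K)) v := by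
  cases v with
  | x a n => rw [inK_x, ev_X]; rfl
  | s a n => rw [inK_s, ev_X]; rfl
  | y c n => exact c.elim

theorem outK_dd (κ : Empty → Kd) (q : ℕ) (f : RR K) : outK K (dd ktw q f) = dd κ q (outK K f) :=
  hom_dd (outK K) ktw κ id (fun _ _ => 0) (fun _ _ => rfl) (by
    intro g y
    funext c
    simp only [act, ktw, act1, id]
    exact (op_zero _).symm) outK_co q f

theorem inK_dd (κ : K → Kd) (κ' : Empty → Kd) (q : ℕ) (f : RR Empty) :
    inK K (dd κ' q f) = dd κ q (inK K f) :=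
  hom_dd (inK K) κ' κ id (fun _ c => c.elim) (fun _ _ => rfl) (by
    intro g y
    funext c
    exact c.elim) inK_co q f

theorem outK_shf (m : ℕ) (f : RR K) : outK K (shf K m f) = shf Empty m (outK K f) := by
  refine hom_shf _ m (fun v => ?_) f
  cases v with
  | x a n => rw [shf_x, outK_x, outK_x, shf_x]
  | s a n => rw [shf_s, outK_s, outK_s, shf_s]
  | y c n => rw [shf_y, outK_y, map_zero]

theorem inK_shf (m : ℕ) (f : RR Empty) : inK K (shf Empty m f) = shf K m (inK K f) := by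
  refine hom_shf _ m (fun v => ?_) f
  cases v with
  | x a n => rw [shf_x, inK_x, inK_x, shf_x]
  | s a n => rw [shf_s, inK_s, inK_s, shf_s]
  | y c n => exact c.elim

theorem outK_inK (f : RR Empty) : outK K (inK K f) = inK Empty f := hom_inK _ outK_x outK_s f

theorem inK_Empty (f : RR Empty) : inK Empty f = f := by
  have : inK Empty = AlgHom.id (ZMod 2) (RR Empty) := by
    apply algHom_ext
    intro v
    rw [AlgHom.id_apply]
    cases v with
    | x a n => rw [inK_x]
    | s a n => rw [inK_s]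
    | y c n => exact c.elim
  rw [this]; rfl

theorem inK_inK (f : RR Empty) : inK K (inK Empty f) = inK K f := by rw [inK_Empty]

/-- y-degree -/
def ydeg (K : Type) [Fintype K] : ℤ × ((K → ℕ) × ℕ) →+ ℕ where
  toFun x := ∑ c, x.2.1 c
  map_zero' := by simp
  map_add' a b := by
    simp only [Prod.fst_add, Prod.snd_add, Pi.add_apply, sum_add_distrib]

theorem inK_outK [Fintype K] {κ : K → Kd} {q : ℕ} {t : ℤ} {k : ℕ} {f : RR K}
    (hf : TT κ q t (0 : K → ℕ) k f) : inK K (outK K f) = f := by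
  have h1 := hf.iw.coarse (ydeg K)
  have h0 : ydeg K (t, ((0 : K → ℕ), k)) = 0 := by simp [ydeg]
  rw [h0] at h1
  have := hom_eq_of_IW ((inK K).comp (outK K)) (AlgHom.id _ _) _ h1 (by
    intro v hv
    rw [AlgHom.comp_apply, AlgHom.id_apply]
    cases v with
    | x a n => rw [outK_x, inK_x]
    | s a n => rw [outK_s, inK_s]
    | y c n =>
      exfalso
      have h2 : ydeg K (wF κ (.y c n)) = 1 := sum_ee c
      have h3 : ydeg K (wF κ (.y c n)) = 0 := hv
      omega)
  exact this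

/-- projection of weights -/
def iO (K : Type) : ℤ × ((K → ℕ) × ℕ) →+ ℤ × ((Empty → ℕ) × ℕ) where
  toFun m := (m.1, (0, m.2.2))
  map_zero' := rfl
  map_add' a b := by
    refine Prod.ext rfl (Prod.ext ?_ rfl)
    exact Subsingleton.elim _ _

theorem TT_out {κ : K → Kd} {κ' : Empty → Kd} {q : ℕ} {t : ℤ} {ν : K → ℕ} {k : ℕ} {f : RR K}
    (hf : TT κ q t ν k f) : TT κ' q t 0 k (outK K f) := by
  refine ⟨?_, ?_⟩
  · have := hom_cut (outK K) id (fun _ _ => 0) rfl outK_co q f
    rw [← this, hf.cu]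
  · refine IW.aeval' (iO K) (outK K) (w := wF κ) (w' := wF κ') ?_ hf.iw
    intro v
    cases v with
    | x a n => rw [outK_x]; exact isWeightedHomogeneous_X _ _ _
    | s a n => rw [outK_s]; exact isWeightedHomogeneous_X _ _ _
    | y c n => rw [outK_y]; exact IW.zero' _ _

theorem TT_in {κ : K → Kd} {κ' : Empty → Kd} {q : ℕ} {t : ℤ} {ν : Empty → ℕ} {k : ℕ}
    {f : RR Empty} (hf : TT κ' q t ν k f) : TT κ q t 0 k (inK K f) := by
  refine ⟨?_, ?_⟩
  · rw [cut_inK, hf.cu]
  · exact IW_inK (iI K) (w := wF κ') (w' := wF κ) (fun _ _ => rfl) (fun _ _ => rfl) hf.iw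

/-- the base exactness -/
def Good (D : Dat) (P : ℕ) : Prop :=
  ∀ p, p ≤ P → EC D (kun : Empty → Kd) 0 p 0 (0 : Empty → ℕ) 0

theorem Good.mono {D : Dat} {P P' : ℕ} (h : Good D P) (hP : P' ≤ P) : Good D P' :=
  fun p hp => h p (by omega)

theorem base_tw {D : Dat} {P : ℕ} (hG : Good D P) {p : ℕ} (hp : p ≤ P) :
    KT D 0 p 0 0 0 := by
  intro K _ ν hν F hF hdF
  have hν0 : ν = 0 := by
    funext c
    have := (sum_eq_zero_iff.mp hν) c (mem_univ c)
    exact this
  subst hν0
  have hTO : TC D (kun : Empty → Kd) 0 p 0 (0 : Empty → ℕ) 0 (mA D (outK K) F) :=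
    ⟨TT_out hF.a, fun i => TT_out (hF.b i), fun i hi => by rw [mA_snd, hF.c i hi, map_zero]⟩
  obtain ⟨H, hH, hdH⟩ := hG p hp (mA D (outK K) F) hTO (by
    rw [← mA_DD (outK K) (outK_dd kun) outK_shf outK_inK, hdF, map_zero])
  refine ⟨mA D (inK K) H, ⟨TT_in hH.a, fun i => TT_in (hH.b i), fun i hi => by
    rw [mA_snd, hH.c i hi, map_zero]⟩, ?_⟩
  rw [← mA_DM (inK K) (κ1 := kun) (inK_dd ktw kun) inK_shf inK_inK, hdH]
  refine Prod.ext ?_ (funext fun i => ?_)
  · rw [mA_fst, mA_fst, inK_outK hF.a]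
  · rw [mA_snd, mA_snd, inK_outK (hF.b i)]

end transfer

section main

/-- exactness for all families of highly divisible degree -/
def EKU (N p n : ℕ) (w : ℤ) (r : ℕ) : Prop :=
  ∀ D : Dat, (2 : ℤ) ^ r ∣ D.t0 → Good D p → KU D N p n w

/-- exactness for all families of highly divisible degree -/
def EKT (N p n k : ℕ) (w : ℤ) (r : ℕ) : Prop :=
  ∀ D : Dat, (2 : ℤ) ^ r ∣ D.t0 → Good D p → KT D N p n k w

theorem EKU.mono {N p n : ℕ} {w : ℤ} {r r' : ℕ} (h : EKU N p n w r) (hr : r ≤ r') :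
    EKU N p n w r' := fun D hD hG => h D (dvd_trans (pow_dvd_pow 2 hr) hD) hG

theorem EKT.mono {N p n k : ℕ} {w : ℤ} {r r' : ℕ} (h : EKT N p n k w r) (hr : r ≤ r') :
    EKT N p n k w r' := fun D hD hG => h D (dvd_trans (pow_dvd_pow 2 hr) hD) hG

theorem tk_tw (n : ℕ) : (2 : ℤ) ≤ tk .tw n := by
  have : (1 : ℤ) ≤ 2 ^ n := one_le_pow₀ (by norm_num)
  simp only [tk, pow_succ]
  linarith

/-- twisted cones below the diagonal -/
theorem low_tw (N p n : ℕ) (w : ℤ) (hw : w < 2 * (n : ℤ)) : ∃ r, EKT N p n 0 w r := by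
  obtain ⟨r, hr⟩ := (main_ind p).2 n w hw
  refine ⟨r, fun D hD _ K _ ν hν F hF hdF => ?_⟩
  have hνz : ∑ c, (ν c : ℤ) = n := by exact_mod_cast hν
  have h0 : ∀ i, F.2 i = 0 := fun i =>
    low_zero (κ := ktw) (m := 2) (fun _ n => tk_tw n) (hF.b i) (by rw [hνz]; exact hw)
  have hd1 : dd ktw p F.1 = 0 := by
    have h1 := congrArg Prod.fst hdF
    rw [DD_fst] at h1
    have h2 : F.2 = 0 := funext h0
    rw [h2, map_zero, add_zero] at h1
    exact h1
  obtain ⟨h, hh1, hh2⟩ := hr K ν hν (w + 2 ^ N * D.t0) (by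
    rw [add_sub_cancel_left]; exact hD.mul_left _) F.1 hF.a hd1
  refine ⟨(h, 0), ⟨hh1, fun _ => TT.zero, fun _ _ => rfl⟩, ?_⟩
  cases p with
  | zero =>
    refine Prod.ext ?_ (funext fun i => ?_)
    · exact hh2
    · exact (h0 i).symm
  | succ p =>
    refine Prod.ext ?_ (funext fun i => ?_)
    · change dd ktw p h + SS D K N 0 = F.1
      rw [map_zero, add_zero]
      exact hh2
    · change dd ktw (p - D.σ i) 0 = F.2 i
      rw [map_zero, h0 i]

theorem stepQc {N : ℕ} : ∀ p, (∀ p' < p, ∀ (n : ℕ) (w : ℤ), 2 * w < 4 * (n : ℤ) + 2 ^ N →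
      ∃ r, EKT N p' n 0 w r) →
    ∀ k : ℕ, 1 ≤ k → ∀ (n : ℕ) (w : ℤ), 2 * w < 4 * ((n : ℤ) + k) + 2 ^ N →
      ∃ r, EKT N p n k w r := by
  intro p
  induction p with
  | zero =>
    intro _ k hk n w _
    exact ⟨0, fun D _ _ K _ ν _ => LemT0c hk⟩
  | succ p ih =>
    intro H k hk n w hw
    have hp := H p (Nat.lt_succ_self p)
    have ihp := ih fun p' hp' => H p' (by omega)
    obtain ⟨r, hr⟩ := fin_max (fun i r => 1 ≤ i → EKT N p (n + i) (k - i) w r)
      (fun i r r' h hq hi => (hq hi).mono h) k (by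
        intro i hi
        rcases Nat.eq_zero_or_pos i with h0 | h0
        · exact ⟨0, fun h => absurd h (by omega)⟩
        rcases Nat.lt_or_ge i k with hlt | hge
        · obtain ⟨r, hr⟩ := ihp (k - i) (by omega) (n + i) w (by
            push_cast [Nat.cast_sub hi]; linarith)
          exact ⟨r, fun _ => hr⟩
        · have : i = k := by omega
          subst this
          obtain ⟨r, hr⟩ := hp (n + i) w (by push_cast; linarith)
          refine ⟨r, fun _ => ?_⟩
          rw [Nat.sub_self]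
          exact hr)
    refine ⟨r, fun D hD hG K _ ν hν => LemTc p w ν k hk fun i hi1 hi2 => ?_⟩
    exact hr i hi2 hi1 D hD (hG.mono (by omega)) (Option K) (nx ν i) (by rw [sum_nx, hν])

theorem stepA_E {N p n : ℕ} {w : ℤ} (h : ∀ d : ℕ, d ≤ n → ∃ r, EKT N p (n - d) 0 (w - d) r) :
    ∃ r, EKU N p n w r := by
  obtain ⟨r, hr⟩ := fin_max (fun d r => EKT N p (n - d) 0 (w - d) r)
    (fun i r r' h hq => hq.mono h) n h
  exact ⟨r, fun D hD hG => stepAc fun d hd => hr d hd D hD hG⟩

theorem base0 (p n : ℕ) (w : ℤ) (hw : w ≤ (n : ℤ)) : ∃ r, EKU 0 p n w r := by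
  apply stepA_E
  intro d hd
  rcases Nat.lt_or_ge d n with h | h
  · exact low_tw 0 p (n - d) (w - d) (by
      push_cast [Nat.cast_sub hd]
      have : (d : ℤ) < n := by exact_mod_cast h
      linarith)
  · have hdn : d = n := by omega
    subst hdn
    rw [Nat.sub_self]
    rcases lt_or_eq_of_le hw with h1 | h1
    · exact low_tw 0 p 0 (w - d) (by push_cast; linarith)
    · refine ⟨0, fun D _ hG => ?_⟩
      rw [h1, sub_self]
      exact base_tw hG le_rfl

/-- the main theorem on cones -/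
theorem mainc : ∀ (N p n : ℕ) (w : ℤ), 2 * w < 2 * (n : ℤ) + 2 ^ N → ∃ r, EKU N p n w r := by
  intro N
  induction N with
  | zero =>
    intro p n w hw
    exact base0 p n w (by rw [pow_zero] at hw; omega)
  | succ N ih =>
    have hT : ∀ p : ℕ, ∀ (n : ℕ) (w : ℤ), 2 * w < 4 * (n : ℤ) + 2 ^ (N + 1) →
        ∃ r, EKT (N + 1) p n 0 w r := by
      intro p
      induction p using Nat.strong_induction_on with
      | _ p ihp =>
        intro n w hw
        have hQ : ∀ k : ℕ, 1 ≤ k → ∀ q, q ≤ p → ∀ (n : ℕ) (w : ℤ),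
            2 * w < 4 * ((n : ℤ) + k) + 2 ^ (N + 1) → ∃ r, EKT (N + 1) q n k w r :=
          fun k hk q hq n w hw => stepQc q (fun p' hp' => ihp p' (by omega)) k hk n w hw
        obtain ⟨r1, h1⟩ := fin_max (fun k r => EKT (N + 1) (p - k) n (1 + k) (w + 1 + k) r)
          (fun i r r' h hq => hq.mono h) p (by
            intro k hk
            exact hQ (1 + k) (by omega) (p - k) (by omega) n (w + 1 + k) (by
              push_cast; linarith))
        by_cases hw2 : ∃ w', w = 2 * w'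
        · obtain ⟨w', hw'⟩ := hw2
          obtain ⟨r2, h2⟩ := ih p n w' (by rw [hw', pow_succ] at hw; linarith)
          refine ⟨max r1 r2, fun D hD hG => stepBc (fun k hk => ?_) (fun w'' hw'' => ?_)⟩
          · exact (h1 k hk).mono (le_max_left _ _) D hD (hG.mono (by omega))
          · have : w'' = w' := by omega
            subst this
            exact h2.mono (le_max_right _ _) D hD hG
        · exact ⟨r1, fun D hD hG => stepBc (fun k hk => h1 k hk D hD (hG.mono (by omega)))
            (fun w' hw' => absurd ⟨w', hw'⟩ hw2)⟩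
    intro p n w hw
    apply stepA_E
    intro d hd
    apply hT
    have h1 : (d : ℤ) ≤ n := by exact_mod_cast hd
    push_cast [Nat.cast_sub hd]
    linarith

end main

end Pool.Agent.H59K
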