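import Pool.Agent.H59K.KF

/-!
# Bases of the cohomology in one degree
-/

set_option autoImplicit false
set_option linter.unusedSectionVars false

namespace Pool.Agent.H59K

open Finset MvPolynomial Pool.Agent.W624.Stz

section finite

/-- slots above `s` -/
def hiS (s : ℕ) : Vr Empty → ℕ
  | .x a _ => if a < s then 0 else 1
  | .s _ _ => 0
  | .y _ _ => 0

theorem IW_hiS {s : ℕ} {f : RR Empty} (hf : cut Empty s f = f) : IW (hiS s) f 0 := by
  rw [← hf]
  have h0 : IW (fun _ : Vr Empty => (0 : ℕ)) f 0 := by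
    intro e _
    rw [Finsupp.weight_apply]
    simp [Finsupp.sum]
  refine IW.aeval' (0 : ℕ →+ ℕ) (cut Empty s) (w := fun _ => (0 : ℕ)) (w' := hiS s) ?_ h0
  intro v
  have : cut Empty s (X v) = co (cpt s (uni Empty)) v := ev_X _ v
  rw [this, AddMonoidHom.zero_apply]
  cases v with
  | x a n =>
    simp only [co, cpt]
    split_ifs with h
    · have h1 := isWeightedHomogeneous_X (ZMod 2) (hiS s) (Vr.x a n)
      have h2 : hiS s (Vr.x a n) = 0 := by simp [hiS, h]
      rw [h2] at h1
      exact h1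
    · rw [one_g, e1, if_neg (by omega)]
      exact IW.zero' _ _
  | s a n =>
    simp only [co, cpt]
    split_ifs with h
    · exact isWeightedHomogeneous_X (ZMod 2) (hiS s) (Vr.s a n)
    · rw [one_s]
      exact IW.zero' _ _
  | y c n => exact c.elim

theorem weight_le {σ : Type*} (w : σ → ℤ) (hw : ∀ v, 0 ≤ w v) (e : σ →₀ ℕ) (v : σ) :
    (e v : ℤ) * w v ≤ Finsupp.weight w e := by
  rw [Finsupp.weight_apply, Finsupp.sum]
  by_cases hv : v ∈ e.support
  · have h1 : e v • w v ≤ ∑ a ∈ e.support, e a • w a :=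
      single_le_sum (f := fun a => e a • w a) (fun a _ => nsmul_nonneg (hw a) _) hv
    rw [nsmul_eq_mul] at h1
    exact h1
  · rw [Finsupp.notMem_support_iff] at hv
    rw [hv, Nat.cast_zero, zero_mul]
    exact sum_nonneg fun a _ => nsmul_nonneg (hw a) _

theorem mon_bound {s : ℕ} {t0 : ℤ} {f : RR Empty} (hf : TT kun s t0 (0 : Empty → ℕ) 0 f)
    {e : Vr Empty →₀ ℕ} (he : coeff e f ≠ 0) (v : Vr Empty) (hv : e v ≠ 0) :
    ∃ a n, v = .x a n ∧ a < s ∧ (n : ℤ) < t0 ∧ (e v : ℤ) ≤ t0 := by
  have h1 := hf.iw he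
  have hs := hf.jsw he
  have hh := IW_hiS hf.cu he
  cases v with
  | y c n => exact c.elim
  | s a n =>
    exfalso
    have h2 : e (.s a n) * js Empty (.s a n) ≤ Finsupp.weight (js Empty) e := by
      rw [Finsupp.weight_apply, Finsupp.sum]
      have h3 := single_le_sum (f := fun v => e v • js Empty v) (fun _ _ => Nat.zero_le _)
        (Finsupp.mem_support_iff.mpr hv)
      simpa using h3
    rw [hs] at h2
    simp only [js, mul_one] at h2
    omega
  | x a n =>
    refine ⟨a, n, rfl, ?_, ?_⟩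
    · by_contra ha
      have h2 : e (.x a n) * hiS s (.x a n) ≤ Finsupp.weight (hiS s) e := by
        rw [Finsupp.weight_apply, Finsupp.sum]
        have h3 := single_le_sum (f := fun v => e v • hiS s v) (fun _ _ => Nat.zero_le _)
          (Finsupp.mem_support_iff.mpr hv)
        simpa using h3
      rw [hh] at h2
      simp only [hiS, if_neg ha, mul_one] at h2
      omega
    · have h2 := wmap (AddMonoidHom.fst ℤ ((Empty → ℕ) × ℕ)) (wF kun) e
      rw [h1] at h2
      simp only [AddMonoidHom.coe_fst] at h2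
      have h3 := weight_le (fun v => (wF (kun : Empty → Kd) v).1) (by
        intro v
        cases v with
        | x a n =>
          have h5 : (1 : ℤ) ≤ 2 ^ (n + 1) := one_le_pow₀ (by norm_num)
          simp only [wF, wG]
          linarith
        | s a n => simp only [wF, wG]; positivity
        | y c n => exact c.elim) e (.x a n)
      rw [h2] at h3
      simp only [wF, wG] at h3
      have h5 : ((n : ℤ) + 1) < 2 ^ (n + 1) := by
        have := Nat.lt_two_pow_self (n := n + 1)
        exact_mod_cast this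
      have h6 : (1 : ℤ) ≤ (e (.x a n) : ℤ) := by
        have : 1 ≤ e (.x a n) := Nat.one_le_iff_ne_zero.mpr hv
        exact_mod_cast this
      constructor
      · nlinarith
      · nlinarith

theorem finite_TT (s : ℕ) (t0 : ℤ) : {f : RR Empty | TT kun s t0 (0 : Empty → ℕ) 0 f}.Finite := by
  classical
  set T : Finset (Vr Empty) := (range s ×ˢ range t0.toNat).image (fun p => Vr.x p.1 p.2) with hT
  set E : Vr Empty →₀ ℕ := ∑ v ∈ T, Finsupp.single v t0.toNat with hE
  have hEv : ∀ v ∈ T, t0.toNat ≤ E v := by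
    intro v hv
    rw [hE, Finsupp.finsetSum_apply]
    have := single_le_sum (f := fun u => (Finsupp.single u t0.toNat) v)
      (fun _ _ => Nat.zero_le _) hv
    simpa using this
  have hS : ∀ f : RR Empty, TT kun s t0 (0 : Empty → ℕ) 0 f → f.support ⊆
      (Set.finite_Iic E).toFinset := by
    intro f hf e he
    rw [Set.Finite.mem_toFinset, Set.mem_Iic]
    intro v
    by_cases hv : e v = 0
    · rw [hv]; exact Nat.zero_le _
    · obtain ⟨a, n, rfl, ha, hn, hev⟩ := mon_bound hf (mem_support_iff.mp he) v hv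
      have h1 : Vr.x a n ∈ T := by
        rw [hT, mem_image]
        exact ⟨(a, n), by rw [mem_product, mem_range, mem_range]; exact ⟨ha, by omega⟩, rfl⟩
      have h2 := hEv _ h1
      omega
  -- finitely many polynomials with support in a finite set
  refine Set.Finite.subset (Set.Finite.image
    (fun S : Finset (Vr Empty →₀ ℕ) => (∑ e ∈ S, monomial e (1 : ZMod 2) : RR Empty))
    (Set.finite_mem_finset (Set.finite_Iic E).toFinset.powerset)) ?_
  intro f hf
  refine ⟨f.support, ?_, ?_⟩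
  · exact mem_powerset.mpr (hS f hf)
  · conv_rhs => rw [f.as_sum]
    refine sum_congr rfl fun e he => ?_
    have h1 : ∀ c : ZMod 2, c ≠ 0 → c = 1 := by decide
    rw [h1 _ (mem_support_iff.mp he)]

end finite

section basis

/-- cochains of one degree -/
noncomputable def VS (s : ℕ) (t0 : ℤ) : Submodule (ZMod 2) (RR Empty) where
  carrier := {f | TT kun s t0 (0 : Empty → ℕ) 0 f}
  zero_mem' := TT.zero
  add_mem' := fun ha hb => ha.add hb
  smul_mem' := by
    intro c f hf
    have h1 : ∀ c : ZMod 2, c = 0 ∨ c = 1 := by decide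
    rcases h1 c with rfl | rfl
    · rw [zero_smul]; exact TT.zero
    · rw [one_smul]; exact hf

/-- cocycles of one degree -/
noncomputable def ZS (s : ℕ) (t0 : ℤ) : Submodule (ZMod 2) (RR Empty) :=
  VS s t0 ⊓ LinearMap.ker (dd kun s)

/-- coboundaries of one degree (level `s + 1`) -/
noncomputable def BS (s : ℕ) (t0 : ℤ) : Submodule (ZMod 2) (RR Empty) :=
  (VS s t0).map (dd kun s)

theorem mem_ZS {s : ℕ} {t0 : ℤ} {f : RR Empty} : f ∈ ZS s t0 ↔ HC s t0 f := by
  constructor
  · rintro ⟨h1, h2⟩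
    exact ⟨TT.cu h1, TT.iw h1, h2⟩
  · intro h
    exact ⟨⟨h.cu, h.iw⟩, h.cl⟩

theorem mem_BS {s : ℕ} {t0 : ℤ} {f : RR Empty} :
    f ∈ BS s t0 ↔ ∃ h, TT kun s t0 (0 : Empty → ℕ) 0 h ∧ dd kun s h = f := Iff.rfl

instance (s : ℕ) (t0 : ℤ) : Finite (ZS s t0) := by
  have h1 : (ZS s t0 : Set (RR Empty)).Finite :=
    Set.Finite.subset (finite_TT s t0) (fun f hf => hf.1)
  exact h1.to_subtype

theorem exists_basis_level (s : ℕ) (t0 : ℤ) : ∃ (n : ℕ) (b : Fin n → RR Empty),
    (∀ i, HC (s + 1) t0 (b i)) ∧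
    (∀ f, HC (s + 1) t0 f → ∃ c : Fin n → ZMod 2, f + ∑ i, c i • b i ∈ BS s t0) ∧
    (∀ c : Fin n → ZMod 2, ∑ i, c i • b i ∈ BS s t0 → c = 0) := by
  set Q := (ZS (s + 1) t0) ⧸ (BS s t0).submoduleOf (ZS (s + 1) t0) with hQ
  have : Module.Finite (ZMod 2) Q := by
    have : Module.Finite (ZMod 2) (ZS (s + 1) t0) := Module.Finite.of_finite
    infer_instance
  let B := Module.finBasis (ZMod 2) Q
  let π := ((BS s t0).submoduleOf (ZS (s + 1) t0)).mkQ
  have hπ : Function.Surjective π := Submodule.mkQ_surjective _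
  choose l hl using fun i => hπ (B i)
  have hker : ∀ x : ZS (s + 1) t0, π x = 0 ↔ (x : RR Empty) ∈ BS s t0 := by
    intro x
    have h1 : π x = 0 ↔ x ∈ (BS s t0).submoduleOf (ZS (s + 1) t0) := by
      rw [← LinearMap.mem_ker, Submodule.ker_mkQ]
    rw [h1]
    exact Iff.rfl
  refine ⟨Module.finrank (ZMod 2) Q, fun i => (l i : RR Empty), fun i => mem_ZS.mp (l i).2,
    fun f hf => ?_, fun c hc => ?_⟩
  · set x : ZS (s + 1) t0 := ⟨f, mem_ZS.mpr hf⟩ with hx
    refine ⟨fun i => B.repr (π x) i, ?_⟩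
    have h1 : π (x + ∑ i, B.repr (π x) i • l i) = 0 := by
      rw [map_add, map_sum]
      simp only [map_smul, hl]
      rw [B.sum_repr]
      have h2 : ∀ q : Q, q + q = 0 := by
        intro q
        have h3 : (2 : ZMod 2) • q = 0 := by
          rw [show (2 : ZMod 2) = 0 from rfl, zero_smul]
        rwa [two_smul] at h3
      exact h2 _
    have h2 := (hker _).mp h1
    simpa using h2
  · have h1 : π (∑ i, c i • l i) = 0 := by
      rw [hker]
      simpa using hc
    rw [map_sum] at h1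
    simp only [map_smul, hl] at h1
    have h2 := Fintype.linearIndependent_iff.mp B.linearIndependent c h1
    exact funext h2

/-- a family of cocycles which represent bases of the cohomology up to level `P + 1` -/
structure Bas (D : Dat) (P : ℕ) : Prop where
  sp : ∀ p, p ≤ P → ∀ f, HC (p + 1) D.t0 f → ∃ c : D.I → ZMod 2, (∀ i, D.σ i ≠ p → c i = 0) ∧
    ∃ h, TT kun p D.t0 (0 : Empty → ℕ) 0 h ∧ f = ∑ i, c i • D.z i + dd kun p h
  ind : ∀ p, p ≤ P → ∀ c : D.I → ZMod 2, (∀ i, D.σ i ≠ p → c i = 0) →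
    (∃ h, TT kun p D.t0 (0 : Empty → ℕ) 0 h ∧ dd kun p h = ∑ i, c i • D.z i) → c = 0

theorem exists_Bas (t0 : ℤ) (P : ℕ) : ∃ D : Dat, D.t0 = t0 ∧ Bas D P := by
  classical
  choose n b hb1 hb2 hb3 using fun s => exists_basis_level s t0
  let D : Dat :=
    { I := Σ s : Fin (P + 1), Fin (n s)
      fin := inferInstance
      σ := fun i => (i.1 : ℕ)
      z := fun i => b i.1 i.2
      t0 := t0
      hz := fun i => hb1 i.1 i.2 }
  have hsum : ∀ (p : ℕ) (hp : p < P + 1) (c : D.I → ZMod 2), (∀ i, D.σ i ≠ p → c i = 0) →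
      ∑ i, c i • D.z i = ∑ i : Fin (n p), c ⟨⟨p, hp⟩, i⟩ • b p i := by
    intro p hp c hc
    have h1 : ∑ i, c i • D.z i = ∑ s : Fin (P + 1), ∑ i : Fin (n s), c ⟨s, i⟩ • b s i :=
      Fintype.sum_sigma (fun i : D.I => c i • D.z i)
    rw [h1, Finset.sum_eq_single (⟨p, hp⟩ : Fin (P + 1))]
    · intro s _ hs
      refine sum_eq_zero fun i _ => ?_
      rw [hc ⟨s, i⟩ (fun h => hs (Fin.ext h)), zero_smul]
    · intro h
      exact absurd (mem_univ _) h
  refine ⟨D, rfl, ⟨fun p hp f hf => ?_, fun p hp c hc hh => ?_⟩⟩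
  · obtain ⟨c, hc⟩ := hb2 p f hf
    let c' : D.I → ZMod 2 := fun i => if h : (i.1 : ℕ) = p then c (Fin.cast (by rw [h]) i.2) else 0
    have hc' : ∀ i, D.σ i ≠ p → c' i = 0 := fun i hi => dif_neg hi
    refine ⟨c', hc', ?_⟩
    obtain ⟨h, hh1, hh2⟩ := mem_BS.mp hc
    refine ⟨h, hh1, ?_⟩
    rw [hsum p (by omega) c' hc', hh2]
    have h2 : ∑ i : Fin (n p), c' ⟨⟨p, by omega⟩, i⟩ • b p i = ∑ i, c i • b p i := by
      refine sum_congr rfl fun i _ => ?_
      have : c' ⟨⟨p, by omega⟩, i⟩ = c i := dif_pos rfl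
      rw [this]
    rw [h2]
    have h3 := p2_add_self (∑ i, c i • b p i : RR Empty)
    calc f = f + (∑ i, c i • b p i + ∑ i, c i • b p i) := by rw [h3, add_zero]
      _ = _ := by abel
  · obtain ⟨h, hh1, hh2⟩ := hh
    rw [hsum p (by omega) c hc] at hh2
    have h1 := hb3 p _ (mem_BS.mpr ⟨h, hh1, hh2⟩)
    funext i
    by_cases hi : D.σ i = p
    · obtain ⟨s, i⟩ := i
      have hs : (s : ℕ) = p := hi
      subst hs
      exact congrFun h1 i
    · exact hc i hi

/-- elements of weight 0 are constants -/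
theorem const_of_TT {q : ℕ} {f : RR Empty} (hf : TT kun q 0 (0 : Empty → ℕ) 0 f) :
    f = 0 ∨ f = 1 := by
  classical
  have h1 : f = C (coeff 0 f) := by
    ext e
    rw [coeff_C]
    split_ifs with h
    · rw [h]
    · by_contra hne
      obtain ⟨v, hv⟩ := Finsupp.ne_iff.mp (Ne.symm h)
      obtain ⟨a, n, _, _, hn, _⟩ := mon_bound hf hne v hv
      omega
  have h2 : ∀ c : ZMod 2, c = 0 ∨ c = 1 := by decide
  rcases h2 (coeff 0 f) with h | h
  · left; rw [h1, h, C_0]
  · right; rw [h1, h, C_1]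

/-- elements of level 0 are constants -/
theorem zero_of_level0 {t : ℤ} (ht : t ≠ 0) {f : RR Empty}
    (hf : TT kun 0 t (0 : Empty → ℕ) 0 f) : f = 0 := by
  by_contra hne
  obtain ⟨e, he⟩ := ne_zero_iff.mp hne
  have h0 : e = 0 := by
    ext v
    by_contra hv
    obtain ⟨a, n, _, ha, _, _⟩ := mon_bound hf he v hv
    omega
  have h1 := hf.iw he
  rw [h0, map_zero] at h1
  exact ht (congrArg Prod.fst h1).symm

theorem dd_one (q : ℕ) : dd (kun : Empty → Kd) q 1 = ((q + 2 : ℕ) : RR Empty) := by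
  rw [dd_apply]
  simp only [map_one, sum_const, card_range, nsmul_eq_mul, mul_one]

theorem dd_one_odd {q : ℕ} (hq : q % 2 = 1) : dd (kun : Empty → Kd) q 1 = 1 := by
  rw [dd_one]
  obtain ⟨k, hk⟩ : ∃ k, q = 2 * k + 1 := ⟨q / 2, by omega⟩
  subst hk
  have h2 : (2 : RR Empty) = 0 := two_zero
  push_cast
  linear_combination (k + 1) * h2

theorem dd_one_even {q : ℕ} (hq : q % 2 = 0) : dd (kun : Empty → Kd) q 1 = 0 := by
  rw [dd_one]
  obtain ⟨k, hk⟩ : ∃ k, q = 2 * k := ⟨q / 2, by omega⟩
  subst hk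
  have h2 : (2 : RR Empty) = 0 := two_zero
  push_cast
  linear_combination (k + 1) * h2

/-- a constant cocycle of positive level is the coboundary of the same constant -/
theorem dd_const {q : ℕ} {f : RR Empty} (hf : f = 0 ∨ f = 1)
    (h : dd (kun : Empty → Kd) (q + 1) f = 0) : dd kun q f = f := by
  rcases hf with rfl | rfl
  · exact map_zero _
  · rcases Nat.mod_two_eq_zero_or_one q with h1 | h1
    · rw [dd_one_odd (by omega)] at h
      exact absurd h one_ne_zero
    · exact dd_one_odd h1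

theorem good_of_Bas {D : Dat} {P : ℕ} (hB : Bas D P) (ht : D.t0 ≠ 0) : Good D P := by
  classical
  intro p hp F hF hdF
  have hcst : ∀ i, F.2 i = 0 ∨ F.2 i = 1 := fun i => const_of_TT (hF.b i)
  -- remove the components below the top
  have step1 : ∃ G, TC D kun 0 (p - 1) 0 (0 : Empty → ℕ) 0 G ∧
      ∀ i, D.σ i ≠ p → (F - DM D kun 0 p G).2 i = 0 := by
    cases p with
    | zero =>
      refine ⟨0, TC.zero, fun i hi => ?_⟩
      rw [map_zero, sub_zero]
      exact hF.c i (by omega)
    | succ p =>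
      refine ⟨(0, fun i => if D.σ i ≤ p then F.2 i else 0), ⟨TT.zero, fun i => ?_, fun i hi => ?_⟩,
        fun i hi => ?_⟩
      · simp only
        split_ifs with h
        · rcases hcst i with h1 | h1
          · rw [h1]; exact TT.zero
          · rw [h1]
            exact ⟨map_one _, IW.one' _⟩
        · exact TT.zero
      · exact if_neg (by omega)
      · change F.2 i - dd kun (p - D.σ i) (if D.σ i ≤ p then F.2 i else 0) = 0
        rcases Nat.lt_or_ge p (D.σ i) with h | h
        · rw [if_neg (by omega), map_zero, sub_zero]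
          exact hF.c i (by omega)
        · rw [if_pos h]
          have h1 : dd kun (p + 1 - D.σ i) (F.2 i) = 0 := congrFun (congrArg Prod.snd hdF) i
          rw [show p + 1 - D.σ i = p - D.σ i + 1 by omega] at h1
          rw [dd_const (hcst i) h1, sub_self]
  obtain ⟨G, hG, hGz⟩ := step1
  have hF' := hF.sub (hG.DM naf_un)
  have hdF' : DD D kun 0 p (F - DM D kun 0 p G) = 0 := by
    rw [map_sub, hdF, DD_DM hG, sub_zero]
  set F' := F - DM D kun 0 p G with hF'def
  -- the top components vanish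
  have hcst' : ∀ i, F'.2 i = 0 ∨ F'.2 i = 1 := fun i => const_of_TT (hF'.b i)
  let c : D.I → ZMod 2 := fun i => if F'.2 i = 0 then 0 else 1
  have hcF : ∀ i, F'.2 i = C (c i) := by
    intro i
    rcases hcst' i with h | h
    · simp [c, h]
    · have : F'.2 i ≠ 0 := by rw [h]; exact one_ne_zero
      simp [c, h]
  have hc0 : ∀ i, D.σ i ≠ p → c i = 0 := fun i hi => if_pos (hGz i hi)
  have hterm : ∀ i, ZZ D Empty 0 i * shf Empty (D.σ i + 1) (C (c i)) = c i • D.z i := by
    intro i
    rw [ZZ, inK_Empty, pow_zero, pow_one, algHom_C, algebraMap_eq, mul_comm, smul_eq_C_mul]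
  have hT1 : TT kun p D.t0 (0 : Empty → ℕ) 0 F'.1 := by
    have := hF'.a
    rwa [show (0 : ℤ) + 2 ^ 0 * D.t0 = D.t0 by ring] at this
  have hSS : SS D Empty 0 F'.2 = ∑ i, c i • D.z i := by
    rw [SS_apply]
    refine sum_congr rfl fun i _ => ?_
    rw [hcF, hterm]
  have hfst : dd kun p F'.1 = ∑ i, c i • D.z i := by
    have h1 := congrArg Prod.fst hdF'
    rw [DD_fst, hSS] at h1
    exact p2_eq_of_add h1
  have hc : c = 0 := hB.ind p hp c hc0 ⟨F'.1, hT1, hfst⟩
  have hF2 : F'.2 = 0 := by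
    funext i
    rw [hcF, hc]
    simp
  have hcl : dd kun p F'.1 = 0 := by
    rw [hfst, hc]; simp
  have step2 : ∃ H, TC D kun 0 (p - 1) 0 (0 : Empty → ℕ) 0 H ∧ DM D kun 0 p H = F' := by
    cases p with
    | zero =>
      refine ⟨0, TC.zero, ?_⟩
      rw [map_zero]
      refine Prod.ext ?_ ?_
      · exact (zero_of_level0 ht hT1).symm
      · exact hF2.symm
    | succ p =>
      obtain ⟨c', hc'0, h, hh1, hh2⟩ := hB.sp p (by omega) F'.1 ⟨hT1.cu, hT1.iw, hcl⟩
      refine ⟨(h, fun i => C (c' i)), ⟨?_, fun i => ?_, fun i hi => ?_⟩, ?_⟩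
      · rw [show (0 : ℤ) + 2 ^ 0 * D.t0 = D.t0 by ring]
        exact hh1
      · have h1 : ∀ c : ZMod 2, c = 0 ∨ c = 1 := by decide
        simp only
        rcases h1 (c' i) with h2 | h2
        · rw [h2, C_0]; exact TT.zero
        · rw [h2, C_1]
          exact ⟨map_one _, IW.one' _⟩
      · simp only
        rw [hc'0 i (by simp at hi; omega), C_0]
      · refine Prod.ext ?_ (funext fun i => ?_)
        · change dd kun p h + SS D Empty 0 (fun i => C (c' i)) = F'.1
          rw [SS_apply, hh2, add_comm]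
          congr 1
          refine sum_congr rfl fun i _ => ?_
          rw [ZZ, inK_Empty, pow_zero, pow_one, algHom_C, algebraMap_eq, mul_comm,
            smul_eq_C_mul]
        · change dd kun (p - D.σ i) (C (c' i)) = F'.2 i
          rw [hF2, Pi.zero_apply]
          by_cases hi : D.σ i = p
          · rw [hi, Nat.sub_self]
            have h1 : ∀ c : ZMod 2, c = 0 ∨ c = 1 := by decide
            rcases h1 (c' i) with h2 | h2
            · rw [h2, C_0, map_zero]
            · rw [h2, C_1]; exact dd_one_even rfl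
          · rw [hc'0 i hi, C_0, map_zero]
  obtain ⟨H, hH, hdH⟩ := step2
  refine ⟨G + H, hG.add hH, ?_⟩
  rw [map_add, hdH, hF'def]
  abel

end basis

end Pool.Agent.H59K
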