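import Pool.Agent.H59K.KG

/-!
# Sums of products which are coboundaries
-/

set_option autoImplicit false
set_option linter.unusedSectionVars false

namespace Pool.Agent.H59K

open Finset MvPolynomial Pool.Agent.W624.Stz

section prodrule

variable {A : Type*} [CommRing A] [Algebra (ZMod 2) A] {K : Type}

theorem faces_sum {s : ℕ} (Z : RR Empty) (γ : ℕ → Tg A) :
    ∑ j ∈ range (s + 1), ev (fst0 (fc (act (A := A) (kun : Empty → Kd)) s j (fst0 γ)).1) Z
      = ev (fst0 γ) (dd kun s Z) + ev (fst0 γ) Z := by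
  have h1 := ev_dd (A := A) (kun : Empty → Kd) s (fst0 γ) Z
  rw [dF, sum_range_succ] at h1
  have h2 : ev (fc (act (A := A) (kun : Empty → Kd)) s (s + 1) (fst0 γ)) Z = ev (fst0 γ) Z := by
    rw [fc_last _ (by omega), fst0_eq ((fst0 γ).1, act kun ((fst0 γ).1 s) (fst0 γ).2)]
    rfl
  rw [h2] at h1
  rw [h1, add_assoc, add_self0, add_zero]
  refine sum_congr rfl fun j _ => ?_
  rw [← fst0_eq]

/-- product rule -/
theorem dd_mul_shf' {κ : K → Kd} {s r : ℕ} (N : ℕ) {Z : RR Empty} (hZ : cut Empty s Z = Z)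
    {f : RR K} (hf : cut K r f = f) :
    dd κ (s + r) (inK K Z ^ 2 ^ N * shf K s f)
      = inK K (dd kun s Z) ^ 2 ^ N * shf K (s + 1) f
        + inK K Z ^ 2 ^ N * shf K s (dd κ r f) := by
  set z : Pt K (RR K) := uni K with hz
  have key : ev z (dd κ (s + r) (inK K Z ^ 2 ^ N * shf K s f))
      = ev z (inK K (dd kun s Z) ^ 2 ^ N * shf K (s + 1) f
        + inK K Z ^ 2 ^ N * shf K s (dd κ r f)) := by
    rw [ev_dd, dF, show s + r + 2 = (s + 1) + (r + 1) by omega, sum_range_add]
    have hL : ∀ j ∈ range (s + 1), ev (fc (act κ) (s + r) j z) (inK K Z ^ 2 ^ N * shf K s f)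
        = (ev (fst0 (fc (act (A := RR K) (kun : Empty → Kd)) s j (fst0 z.1)).1) Z) ^ 2 ^ N
          * ev (spt (s + 1) z) f := by
      intro j hj
      rw [mem_range] at hj
      have hj' : j ≤ s := by omega
      have e1 : (fc (act κ) (s + r) j z).1
          = (fc (act (A := RR K) (kun : Empty → Kd)) s j (fst0 z.1)).1 := fc_low_fst hj' z _
      have e2 : ev (spt s (fc (act κ) (s + r) j z)) f = ev (spt (s + 1) z) f :=
        dep_of_cut hf _ _ (spt_fc_low hj' z)
      rw [map_mul, map_pow, ev_inK, ev_shf, e1, e2]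
    have hH : ∀ j ∈ range (r + 1), ev (fc (act κ) (s + r) (s + 1 + j) z)
        (inK K Z ^ 2 ^ N * shf K s f)
        = (ev (fst0 z.1) Z) ^ 2 ^ N * ev (fc (act κ) r (j + 1) (spt s z)) f := by
      intro j hj
      rw [mem_range] at hj
      have hj' : j ≤ r := by omega
      have e1 : ev (fst0 (fc (act κ) (s + r) (s + 1 + j) z).1) Z = ev (fst0 z.1) Z :=
        dep_of_cut hZ _ _ ⟨fun a ha => fc_high_fst hj' z ha, rfl⟩
      have e2 : ev (spt s (fc (act κ) (s + r) (s + 1 + j) z)) f
          = ev (fc (act κ) r (j + 1) (spt s z)) f :=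
        dep_of_cut hf _ _ (spt_fc_high hj' z)
      rw [map_mul, map_pow, ev_inK, ev_shf, e1, e2]
    rw [sum_congr rfl hL, sum_congr rfl hH, ← sum_mul, ← sum_pow0, faces_sum, ← mul_sum,
      map_add, map_mul, map_pow, map_mul, map_pow, ev_inK, ev_inK, ev_shf, ev_shf, ev_dd κ, dF,
      sum_range_succ' _ (r + 1), fc_zero_spt, add_pow0]
    have h2 := add_self0 (ev (fst0 z.1) Z ^ 2 ^ N * ev (spt (s + 1) z) f)
    linear_combination (0 : RR K) * h2
  rwa [ev_uni, ev_uni] at key

end prodrule

section app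

/-- product of elements of the cobar complex -/
theorem dd_prod {s r : ℕ} (N : ℕ) {Z f : RR Empty} (hZ : cut Empty s Z = Z)
    (hf : cut Empty r f = f) (hdf : dd kun r f = 0) :
    dd kun (s + r) (Z ^ 2 ^ N * shf Empty s f) = (dd kun s Z) ^ 2 ^ N * shf Empty (s + 1) f := by
  have := dd_mul_shf' (κ := (kun : Empty → Kd)) N hZ hf
  rw [hdf, map_zero, mul_zero, add_zero, inK_Empty, inK_Empty] at this
  exact this

/-- Künneth theorem, injectivity -/
theorem cone_app {D : Dat} {P p N : ℕ} {e : ℤ} (hE : KU D N p 0 e) (hp : p ≤ P)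
    (hB : Bas D P) {ι : Type} [Fintype ι] (y x : ι → RR Empty) (l : ι → ℕ)
    (hl : ∀ k, l k ≤ p) (hy : ∀ k, HC (l k + 1) D.t0 (y k)) (hx : ∀ k, HC (p - l k) e (x k))
    {q : RR Empty} (hq : TT kun p (e + 2 ^ N * D.t0) (0 : Empty → ℕ) 0 q)
    (hdq : dd kun p q = ∑ k, (y k) ^ 2 ^ N * shf Empty (l k + 1) (x k)) :
    ∃ c : ι → D.I → ZMod 2, (∀ k i, D.σ i ≠ l k → c k i = 0) ∧
      (∀ k, ∃ h, TT kun (l k) D.t0 (0 : Empty → ℕ) 0 h ∧
        y k = ∑ i, c k i • D.z i + dd kun (l k) h) ∧
      (∀ i, D.σ i ≤ p → ∃ g, TT kun (p - D.σ i - 1) e (0 : Empty → ℕ) 0 g ∧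
        dm kun (p - D.σ i) g = ∑ k, c k i • x k) := by
  classical
  choose c hc0 h hh1 hh2 using fun k => hB.sp (l k) (le_trans (hl k) hp) (y k) (hy k)
  refine ⟨c, hc0, fun k => ⟨h k, hh1 k, hh2 k⟩, ?_⟩
  -- the cocycle of the cone
  set q' : RR Empty := q + ∑ k, (h k) ^ 2 ^ N * shf Empty (l k) (x k) with hq'
  set G : CC D Empty := (q', fun i => if D.σ i ≤ p then ∑ k, c k i • x k else 0) with hG
  have hsm : ∀ (a : ZMod 2) (m : ℕ) (f : RR Empty), TT kun m e (0 : Empty → ℕ) 0 f →
      TT kun m e (0 : Empty → ℕ) 0 (a • f) := fun a m f hf => (VS m e).smul_mem a hf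
  have hTG : TC D kun N p e (0 : Empty → ℕ) 0 G := by
    refine ⟨?_, fun i => ?_, fun i hi => ?_⟩
    · refine hq.add (TT_sum _ _ fun k _ => ?_)
      have h1 : TT kun (l k + (p - l k)) (e + 2 ^ N * D.t0) (0 : Empty → ℕ) 0
          (h k ^ 2 ^ N * shf Empty (l k) (x k)) := by
        refine ⟨?_, ?_⟩
        · have := cut_mul_shf (K := Empty) N (hh1 k).cu (hx k).cu
          rwa [inK_Empty] at this
        · have h2 := (hh1 k).iw.pow (2 ^ N)
          have h3 := IW_shf (w := wF (kun : Empty → Kd)) (l k) (fun _ _ => rfl) (fun _ _ => rfl)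
            (hx k).iw
          have h4 := h2.mul h3
          have h5 : 2 ^ N • (D.t0, ((0 : Empty → ℕ), 0)) + (e, ((0 : Empty → ℕ), 0))
              = (e + 2 ^ N * D.t0, ((0 : Empty → ℕ), 0)) := by
            refine Prod.ext ?_ (Prod.ext ?_ ?_)
            · simp [add_comm]
            · exact Subsingleton.elim _ _
            · simp
          rwa [h5] at h4
      rwa [show l k + (p - l k) = p by have := hl k; omega] at h1
    · simp only [hG]
      split_ifs with hi
      · refine TT_sum _ _ fun k _ => ?_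
        by_cases hk : D.σ i = l k
        · apply hsm
          rw [hk]
          exact ⟨(hx k).cu, (hx k).iw⟩
        · rw [hc0 k i hk, zero_smul]; exact TT.zero
      · exact TT.zero
    · exact if_neg (by omega)
  have hdG : DD D kun N p G = 0 := by
    refine Prod.ext ?_ (funext fun i => ?_)
    · rw [DD_fst]
      change dd kun p q' + SS D Empty N G.2 = 0
      have h1 : dd kun p q' = ∑ k, (y k) ^ 2 ^ N * shf Empty (l k + 1) (x k)
          + ∑ k, (dd kun (l k) (h k)) ^ 2 ^ N * shf Empty (l k + 1) (x k) := by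
        rw [hq', map_add, hdq, map_sum]
        congr 1
        refine sum_congr rfl fun k _ => ?_
        have := dd_prod N (hh1 k).cu (hx k).cu (hx k).cl
        rwa [show l k + (p - l k) = p by have := hl k; omega] at this
      have h2 : SS D Empty N G.2
          = ∑ k, (∑ i, c k i • D.z i) ^ 2 ^ N * shf Empty (l k + 1) (x k) := by
        rw [SS_apply]
        have h3 : ∀ i, ZZ D Empty N i * shf Empty (D.σ i + 1) (G.2 i)
            = ∑ k, (c k i • D.z i) ^ 2 ^ N * shf Empty (l k + 1) (x k) := by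
          intro i
          have h1c : ∀ a : ZMod 2, a ^ 2 ^ N = a := by
            intro a
            have h5 : ∀ a : ZMod 2, a = 0 ∨ a = 1 := by decide
            rcases h5 a with h6 | h6
            · rw [h6, zero_pow (by positivity)]
            · rw [h6, one_pow]
          simp only [hG]
          split_ifs with hi
          · rw [map_sum, mul_sum]
            refine sum_congr rfl fun k _ => ?_
            by_cases hk : D.σ i = l k
            · rw [map_smul, smul_pow, h1c, ZZ, inK_Empty, hk]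
              rw [mul_smul_comm, smul_mul_assoc]
            · rw [hc0 k i hk]; simp
          · rw [map_zero, mul_zero]
            symm
            refine sum_eq_zero fun k _ => ?_
            have hk : D.σ i ≠ l k := fun h => hi (by rw [h]; exact hl k)
            rw [hc0 k i hk]; simp
        rw [sum_congr rfl fun i _ => h3 i, sum_comm]
        refine sum_congr rfl fun k _ => ?_
        rw [← sum_mul, ← sum_pow0]
      rw [h1, h2, ← sum_add_distrib, ← sum_add_distrib]
      refine sum_eq_zero fun k _ => ?_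
      rw [← add_mul, ← add_mul, ← add_pow0, ← add_pow0]
      have h6 : y k + dd kun (l k) (h k) + ∑ i, c k i • D.z i = 0 := by
        have h7 := hh2 k
        have h8 := p2_add_self (∑ i, c k i • D.z i + dd kun (l k) (h k) : RR Empty)
        conv_lhs => rw [h7]
        rw [← h8]
        abel
      rw [h6, zero_pow (by positivity), zero_mul]
    · rw [DD_snd]
      simp only [hG]
      change dd kun (p - D.σ i) _ = 0
      split_ifs with hi
      · rw [map_sum]
        refine sum_eq_zero fun k _ => ?_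
        rw [map_smul]
        by_cases hk : D.σ i = l k
        · rw [hk, (hx k).cl, smul_zero]
        · rw [hc0 k i hk, zero_smul]
      · exact map_zero _
  obtain ⟨H, hH, hdH⟩ := hE Empty 0 (by simp) G hTG hdG
  intro i hi
  cases p with
  | zero =>
    refine ⟨0, TT.zero, ?_⟩
    have h1 := congrFun (congrArg Prod.snd hdH) i
    simp only [hG] at h1
    rw [if_pos hi] at h1
    rw [map_zero, ← h1]
    rfl
  | succ p =>
    have h1 := congrFun (congrArg Prod.snd hdH) i
    simp only [hG] at h1
    rw [if_pos hi] at h1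
    rcases Nat.lt_or_ge p (D.σ i) with h2 | h2
    · refine ⟨0, TT.zero, ?_⟩
      rw [map_zero, ← h1]
      change 0 = dd kun (p - D.σ i) (H.2 i)
      rw [hH.c i (by omega), map_zero]
    · refine ⟨H.2 i, ?_, ?_⟩
      · have := hH.b i
        rwa [show p + 1 - 1 - D.σ i = p + 1 - D.σ i - 1 by omega] at this
      · rw [show p + 1 - D.σ i = p - D.σ i + 1 by omega]
        exact h1

end app

end Pool.Agent.H59K
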