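import Pool.Agent.H59K.KH
import Pool.Agent.W624.NDst3

/-!
# Products in the cobar complex, and the injectivity of the product map
-/

set_option autoImplicit false
set_option linter.unusedSectionVars false

namespace Pool.Agent.H59K

open Finset MvPolynomial Pool.Agent.W624.Stz

/-- homogeneous coboundaries -/
def Bd (s : ℕ) (t : ℤ) (f : RR Empty) : Prop :=
  ∃ g, TT kun (s - 1) t (0 : Empty → ℕ) 0 g ∧ dm kun s g = f

theorem Bd.zero {s : ℕ} {t : ℤ} : Bd s t 0 := ⟨0, TT.zero, map_zero _⟩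

theorem Bd.add {s : ℕ} {t : ℤ} {f g : RR Empty} (hf : Bd s t f) (hg : Bd s t g) :
    Bd s t (f + g) := by
  obtain ⟨a, ha, ha'⟩ := hf
  obtain ⟨b, hb, hb'⟩ := hg
  exact ⟨a + b, ha.add hb, by rw [map_add, ha', hb']⟩

theorem Bd.cut {s : ℕ} {t : ℤ} {f : RR Empty} (hf : Bd s t f) : W624.Stz.cut Empty s f = f := by
  obtain ⟨a, ha, rfl⟩ := hf
  exact cut_dm _ ha.cu

theorem Bd.TT {s : ℕ} {t : ℤ} {f : RR Empty} (hf : Bd s t f) :
    W624.Stz.TT kun s t (0 : Empty → ℕ) 0 f := by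
  obtain ⟨a, ha, rfl⟩ := hf
  exact ha.dm naf_un

theorem pow_TT {s : ℕ} {t : ℤ} {f : RR Empty} (i : ℕ) (hf : TT kun s t (0 : Empty → ℕ) 0 f) :
    TT kun s (2 ^ i * t) (0 : Empty → ℕ) 0 (f ^ 2 ^ i) := by
  refine ⟨by rw [map_pow, hf.cu], ?_⟩
  have h1 := hf.iw.pow (2 ^ i)
  have h2 : 2 ^ i • (t, ((0 : Empty → ℕ), 0)) = (2 ^ i * t, ((0 : Empty → ℕ), 0)) := by
    refine Prod.ext ?_ (Prod.ext ?_ ?_)
    · simp
    · exact Subsingleton.elim _ _
    · simp
  rwa [h2] at h1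

theorem dd_pow (s i : ℕ) (f : RR Empty) : dd kun s (f ^ 2 ^ i) = (dd kun s f) ^ 2 ^ i := by
  rw [dd_apply, dd_apply, sum_pow0]
  exact sum_congr rfl fun j _ => map_pow _ _ _

theorem dm_pow (s i : ℕ) (f : RR Empty) : dm kun s (f ^ 2 ^ i) = (dm kun s f) ^ 2 ^ i := by
  cases s with
  | zero => exact (zero_pow (by positivity)).symm
  | succ s => exact dd_pow s i f

theorem HC.pow {s : ℕ} {t : ℤ} {f : RR Empty} (i : ℕ) (hf : HC s t f) :
    HC s (2 ^ i * t) (f ^ 2 ^ i) := by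
  have h := pow_TT i (⟨hf.cu, hf.iw⟩ : TT kun s t (0 : Empty → ℕ) 0 f)
  exact ⟨h.cu, h.iw, by rw [dd_pow, hf.cl, zero_pow (by positivity)]⟩

theorem Bd.pow {s : ℕ} {t : ℤ} {f : RR Empty} (i : ℕ) (hf : Bd s t f) :
    Bd s (2 ^ i * t) (f ^ 2 ^ i) := by
  obtain ⟨a, ha, rfl⟩ := hf
  exact ⟨a ^ 2 ^ i, pow_TT i ha, dm_pow _ _ _⟩

/-- products of homogeneous cochains -/
theorem TT_prod {a b : ℕ} {t u : ℤ} {f g : RR Empty} (hf : TT kun a t (0 : Empty → ℕ) 0 f)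
    (hg : TT kun b u (0 : Empty → ℕ) 0 g) :
    TT kun (a + b) (t + u) (0 : Empty → ℕ) 0 (f * shf Empty a g) := by
  refine ⟨?_, ?_⟩
  · have := cut_mul_shf (K := Empty) 0 hf.cu hg.cu
    rwa [inK_Empty, pow_zero, pow_one] at this
  · have h3 := IW_shf (w := wF (kun : Empty → Kd)) a (fun _ _ => rfl) (fun _ _ => rfl) hg.iw
    have h4 := hf.iw.mul h3
    have h5 : (t, ((0 : Empty → ℕ), 0)) + (u, ((0 : Empty → ℕ), 0))
        = (t + u, ((0 : Empty → ℕ), 0)) := by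
      refine Prod.ext rfl (Prod.ext ?_ rfl)
      exact Subsingleton.elim _ _
    rwa [h5] at h4

theorem dd_prod0 {a b : ℕ} {f g : RR Empty} (hf : cut Empty a f = f) (hg : cut Empty b g = g) :
    dd kun (a + b) (f * shf Empty a g)
      = dd kun a f * shf Empty (a + 1) g + f * shf Empty a (dd kun b g) := by
  have := dd_mul_shf' (κ := (kun : Empty → Kd)) 0 hf hg
  rwa [inK_Empty, inK_Empty, pow_zero, pow_one, pow_one] at this

theorem HC_prod {a b : ℕ} {t u : ℤ} {f g : RR Empty} (hf : HC a t f) (hg : HC b u g) :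
    HC (a + b) (t + u) (f * shf Empty a g) := by
  have h := TT_prod ⟨hf.cu, hf.iw⟩ ⟨hg.cu, hg.iw⟩
  refine ⟨h.cu, h.iw, ?_⟩
  rw [dd_prod0 hf.cu hg.cu, hf.cl, hg.cl, map_zero, zero_mul, mul_zero, add_zero]

theorem Bd_prod_left {a b : ℕ} {t u : ℤ} {f g : RR Empty} (hf : Bd a t f) (hg : HC b u g) :
    Bd (a + b) (t + u) (f * shf Empty a g) := by
  obtain ⟨h, hh, rfl⟩ := hf
  cases a with
  | zero =>
    refine ⟨0, TT.zero, ?_⟩
    rw [map_zero]
    change (0 : RR Empty) = 0 * _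
    rw [zero_mul]
  | succ a =>
    refine ⟨h * shf Empty a g, ?_, ?_⟩
    · have := TT_prod hh ⟨hg.cu, hg.iw⟩
      rwa [show a + 1 - 1 + b = a + 1 + b - 1 by omega] at this
    · rw [show a + 1 + b = (a + b) + 1 by omega]
      change dd kun (a + b) _ = _
      have h1 := dd_prod0 (a := a) hh.cu hg.cu
      rw [hg.cl, map_zero, mul_zero, add_zero] at h1
      exact h1

theorem Bd_prod_right {a b : ℕ} {t u : ℤ} {f g : RR Empty} (hf : HC a t f) (hg : Bd b u g) :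
    Bd (a + b) (t + u) (f * shf Empty a g) := by
  obtain ⟨h, hh, rfl⟩ := hg
  cases b with
  | zero =>
    refine ⟨0, TT.zero, ?_⟩
    rw [map_zero]
    change (0 : RR Empty) = f * shf Empty a 0
    rw [map_zero, mul_zero]
  | succ b =>
    refine ⟨f * shf Empty a h, ?_, ?_⟩
    · have := TT_prod ⟨hf.cu, hf.iw⟩ hh
      rwa [show a + (b + 1 - 1) = a + (b + 1) - 1 by omega] at this
    · rw [show a + (b + 1) = (a + b) + 1 by omega]
      change dd kun (a + b) _ = _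
      have h1 := dd_prod0 (b := b) hf.cu hh.cu
      rw [hf.cl, zero_mul, zero_add] at h1
      exact h1

theorem smul_cases {f : RR Empty} {c : ZMod 2} : c • f = 0 ∧ c = 0 ∨ c • f = f ∧ c = 1 := by
  have h : ∀ c : ZMod 2, c = 0 ∨ c = 1 := by decide
  rcases h c with h | h
  · left; exact ⟨by rw [h, zero_smul], h⟩
  · right; exact ⟨by rw [h, one_smul], h⟩

/-- sums of products at different levels -/
theorem multi_term (p N : ℕ) (e : ℤ) (he : 2 * e < 2 ^ N) : ∃ r : ℕ, ∀ t0 : ℤ, t0 ≠ 0 →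
    (2 : ℤ) ^ r ∣ t0 → ∀ (ι : Type) [Fintype ι] (y x : ι → RR Empty) (l : ι → ℕ),
      Function.Injective l →
      (∀ k, l k ≤ p) → (∀ k, HC (l k + 1) t0 (y k)) → (∀ k, HC (p - l k) e (x k)) →
      ∀ q, TT kun p (e + 2 ^ N * t0) (0 : Empty → ℕ) 0 q →
      dd kun p q = ∑ k, (y k) ^ 2 ^ N * shf Empty (l k + 1) (x k) →
      ∀ k, Bd (l k + 1) t0 (y k) ∨ Bd (p - l k) e (x k) := by
  obtain ⟨r, hr⟩ := mainc N p 0 e (by simpa using he)
  refine ⟨r, fun t0 ht0 hd ι _ y x l hinj hl hy hx q hq hdq k => ?_⟩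
  obtain ⟨D, rfl, hB⟩ := exists_Bas t0 p
  have hE := hr D hd (good_of_Bas hB ht0)
  obtain ⟨c, hc0, hcy, hcx⟩ := cone_app hE le_rfl hB y x l hl hy hx hq hdq
  by_cases h : ∃ i, c k i ≠ 0
  · right
    obtain ⟨i, hi⟩ := h
    have hσ : D.σ i = l k := by
      by_contra hne
      exact hi (hc0 k i hne)
    obtain ⟨g, hg, hdg⟩ := hcx i (by rw [hσ]; exact hl k)
    rw [hσ] at hg hdg
    refine ⟨g, hg, ?_⟩
    rw [hdg, Finset.sum_eq_single k]
    · rcases smul_cases (f := x k) (c := c k i) with h1 | h1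
      · exact absurd h1.2 hi
      · exact h1.1
    · intro k' _ hk'
      rw [hc0 k' i (fun h => hk' (hinj (h.symm.trans hσ))), zero_smul]
    · intro h; exact absurd (mem_univ _) h
  · left
    push Not at h
    obtain ⟨g, hg, hyk⟩ := hcy k
    refine ⟨g, hg, ?_⟩
    change dd kun (l k) g = y k
    rw [hyk]
    simp [h]

end Pool.Agent.H59K
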