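import Pool.Agent.H59K.KI

/-!
# The Cartan formula for the cup-`(s-1)` square
-/

set_option autoImplicit false
set_option linter.unusedSectionVars false

namespace Pool.Agent.H59K

open Finset MvPolynomial Pool.Agent.W624.Stz

section pairs

variable {A : Type*} [CommRing A]

/-- sum of the products of pairs of equal parity -/
def PS (u : ℕ → A) (n : ℕ) : A :=
  ∑ j ∈ range n, ∑ i ∈ range j, if i % 2 = j % 2 then u i * u j else 0

/-- sum over one parity -/
def ES (u : ℕ → A) (ε n : ℕ) : A := ∑ i ∈ range n, if i % 2 = ε % 2 then u i else 0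

theorem PS_succ (u : ℕ → A) (n : ℕ) : PS u (n + 1) = PS u n + u n * ES u n n := by
  rw [PS, sum_range_succ, ES, mul_sum]
  congr 1
  refine sum_congr rfl fun i _ => ?_
  split_ifs
  · ring
  · ring

theorem ES_succ (u : ℕ → A) (ε n : ℕ) :
    ES u ε (n + 1) = ES u ε n + if n % 2 = ε % 2 then u n else 0 := sum_range_succ _ _

theorem ES_mod (u : ℕ → A) {ε ε' : ℕ} (h : ε % 2 = ε' % 2) (n : ℕ) : ES u ε n = ES u ε' n := by
  rw [ES, ES, h]

theorem ES_sum (u : ℕ → A) (ε n : ℕ) : ES u ε n + ES u (ε + 1) n = ∑ i ∈ range n, u i := by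
  rw [ES, ES, ← sum_add_distrib]
  refine sum_congr rfl fun i _ => ?_
  by_cases h : i % 2 = ε % 2
  · rw [if_pos h, if_neg (by omega), add_zero]
  · rw [if_neg h, if_pos (by omega), zero_add]

variable {a g d : ℕ → A} {Z F : A} {s n : ℕ}

theorem ES_join (h1 : ∀ i, i ≤ s → d i = a i * F) (h2 : ∀ m, m < n → d (s + 1 + m) = Z * g m)
    (ε : ℕ) : ES d ε (s + 1 + n) = ES a ε (s + 1) * F + Z * ES g (ε + s + 1) n := by
  rw [ES, sum_range_add, ES, ES, sum_mul, mul_sum]
  congr 1
  · refine sum_congr rfl fun i hi => ?_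
    rw [mem_range] at hi
    split_ifs
    · exact h1 i (by omega)
    · rw [zero_mul]
  · refine sum_congr rfl fun m hm => ?_
    rw [mem_range] at hm
    by_cases h : (s + 1 + m) % 2 = ε % 2
    · rw [if_pos h, if_pos (by omega)]
      exact h2 m hm
    · rw [if_neg h, if_neg (by omega), mul_zero]

theorem PS_low (h1 : ∀ i, i ≤ s → d i = a i * F) : ∀ k, k ≤ s + 1 → PS d k = PS a k * F ^ 2 := by
  intro k
  induction k with
  | zero => intro _; simp [PS]
  | succ k ih =>
    intro hk
    have hE : ES d k k = ES a k k * F := by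
      rw [ES, ES, sum_mul]
      refine sum_congr rfl fun i hi => ?_
      rw [mem_range] at hi
      split_ifs
      · exact h1 i (by omega)
      · rw [zero_mul]
    rw [PS_succ, PS_succ, ih (by omega), h1 k (by omega), hE]
    ring

theorem PS_join (h1 : ∀ i, i ≤ s → d i = a i * F) : ∀ n,
    (∀ m, m < n → d (s + 1 + m) = Z * g m) →
    PS d (s + 1 + n) = PS a (s + 1) * F ^ 2 + Z ^ 2 * PS g n
      + Z * F * ∑ m ∈ range n, g m * ES a (s + 1 + m) (s + 1) := by
  intro n
  induction n with
  | zero =>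
    intro _
    rw [add_zero, PS_low h1 _ le_rfl]
    simp [PS]
  | succ n ih =>
    intro h2
    rw [show s + 1 + (n + 1) = (s + 1 + n) + 1 by omega, PS_succ d (s + 1 + n),
      ih fun m hm => h2 m (by omega), h2 n (by omega),
      ES_join h1 (fun m hm => h2 m (by omega)), PS_succ g n, sum_range_succ,
      ES_mod g (show (s + 1 + n + s + 1) % 2 = n % 2 by omega)]
    ring

theorem PS_shift (G : ℕ → A) : ∀ n,
    PS G (n + 1) = PS (fun m => G (m + 1)) n + G 0 * ES (fun m => G (m + 1)) 1 n := by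
  have hE : ∀ n ε, ES G ε (n + 1) = ES (fun m => G (m + 1)) (ε + 1) n
      + if ε % 2 = 0 then G 0 else 0 := by
    intro n ε
    rw [ES, sum_range_succ', ES]
    congr 1
    · refine sum_congr rfl fun i _ => ?_
      by_cases h : (i + 1) % 2 = ε % 2
      · rw [if_pos h, if_pos (by omega)]
      · rw [if_neg h, if_neg (by omega)]
    · by_cases h : ε % 2 = 0
      · rw [if_pos (by omega), if_pos h]
      · rw [if_neg (by omega), if_neg h]
  intro n
  induction n with
  | zero => simp [PS, ES]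
  | succ n ih =>
    rw [PS_succ G (n + 1), ih, PS_succ (fun m => G (m + 1)) n, ES_succ (fun m => G (m + 1)) 1 n,
      hE n (n + 1), ES_mod (fun m => G (m + 1))
      (show (n + 1 + 1) % 2 = n % 2 by omega)]
    by_cases h : (n + 1) % 2 = 0
    · rw [if_pos h, if_pos (by omega)]
      ring
    · rw [if_neg h, if_neg (by omega)]
      ring

theorem cross_sum (n : ℕ) :
    ∑ m ∈ range n, g m * ES a (s + 1 + m) (s + 1)
      = ES a (s + 1) (s + 1) * ES g 0 n + ES a s (s + 1) * ES g 1 n := by
  rw [ES, ES, ES, ES, mul_sum, mul_sum, ← sum_add_distrib]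
  refine sum_congr rfl fun m _ => ?_
  by_cases h : m % 2 = 0
  · rw [if_pos (by omega), if_neg (by omega), mul_zero, add_zero, mul_comm]
    congr 1
    exact ES_mod a (by omega) _
  · rw [if_neg (by omega), if_pos (by omega), mul_zero, zero_add, mul_comm]
    congr 1
    exact ES_mod a (by omega) _

/-- the algebraic Cartan formula -/
theorem cartan_alg (h2 : (2 : A) = 0) {G : ℕ → A} {r : ℕ} (ha : a (s + 1) = Z)
    (hG0 : G 0 = F) (h1 : ∀ i, i ≤ s → d i = a i * F)
    (hd : ∀ m, m < r + 1 → d (s + 1 + m) = Z * G (m + 1))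
    (hA : ∑ i ∈ range (s + 2), a i = 0) (hG : ∑ i ∈ range (r + 2), G i = 0) :
    PS d (s + r + 2) = PS a (s + 2) * F ^ 2 + Z ^ 2 * PS G (r + 2) := by
  rw [show s + r + 2 = s + 1 + (r + 1) by omega,
    PS_join (g := fun m => G (m + 1)) h1 (r + 1) hd, cross_sum (r + 1),
    show s + 2 = (s + 1) + 1 by omega, PS_succ a (s + 1), ha,
    show r + 2 = (r + 1) + 1 by omega, PS_shift G (r + 1), hG0]
  rw [sum_range_succ, ha] at hA
  rw [sum_range_succ', hG0] at hG
  have e1 := ES_sum a s (s + 1)
  have e2 := ES_sum (fun m => G (m + 1)) 0 (r + 1)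
  rw [zero_add] at e2
  set a0 := ES a s (s + 1)
  set a1 := ES a (s + 1) (s + 1)
  set b1 := ES (fun m => G (m + 1)) 0 (r + 1)
  set b0 := ES (fun m => G (m + 1)) 1 (r + 1)
  have hZ : Z = -(a0 + a1) := by rw [e1]; linear_combination hA
  have hF : F = -(b1 + b0) := by rw [e2]; linear_combination hG
  have hZ' : Z = a0 + a1 := by rw [hZ]; linear_combination (-(a0 + a1)) * h2
  have hF' : F = b0 + b1 := by rw [hF]; linear_combination (-(b0 + b1)) * h2
  have key : Z * F * (a1 * b1 + a0 * b0) + Z * a1 * F ^ 2 + Z ^ 2 * (F * b0) = 0 := by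
    have : a1 * b1 + a0 * b0 + a1 * F + Z * b0 = 0 := by
      rw [hF', hZ']
      linear_combination (a1 * b0 + a1 * b1 + a0 * b0) * h2
    linear_combination Z * F * this
  linear_combination key - (Z * a1 * F ^ 2 + Z ^ 2 * (F * b0)) * h2

end pairs

section cup

/-- the cup-`(s-1)` square -/
noncomputable def cupR (s : ℕ) (f : RR Empty) : RR Empty :=
  PS (fun i => ev (fc (act kun) s i (uni Empty)) f) (s + 2)

theorem cupR_pow (s i : ℕ) (f : RR Empty) : cupR s (f ^ 2 ^ i) = (cupR s f) ^ 2 ^ i := by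
  rw [cupR, cupR, PS, PS, sum_pow0]
  refine sum_congr rfl fun j _ => ?_
  rw [sum_pow0]
  refine sum_congr rfl fun k _ => ?_
  split_ifs
  · rw [map_pow, map_pow, mul_pow]
  · exact (zero_pow (by positivity)).symm

/-- last face of the cobar complex -/
theorem ev_last (s : ℕ) (Z : RR Empty) :
    ev (fc (act (kun : Empty → Kd)) s (s + 1) (uni Empty)) Z = Z := by
  have : fc (act (kun : Empty → Kd)) s (s + 1) (uni Empty) = uni Empty := by
    rw [fc_last _ (by omega)]
    refine Prod.ext rfl ?_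
    funext c
    exact c.elim
  rw [this, ev_uni]

theorem shf_ev (s m r : ℕ) (f : RR Empty) :
    shf Empty s (ev (fc (act (kun : Empty → Kd)) r m (uni Empty)) f)
      = ev (fc (act (kun : Empty → Kd)) r m (spt s (uni Empty))) f := by
  have h1 := ev_shf s (uni Empty) (ev (fc (act (kun : Empty → Kd)) r m (uni Empty)) f)
  rw [ev_uni] at h1
  rw [h1, ev_map, mP_fc, mP_uni]

theorem shf_uni (s : ℕ) (f : RR Empty) : shf Empty s f = ev (spt s (uni Empty)) f := by
  have h1 := ev_shf s (uni Empty) f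
  rwa [ev_uni] at h1

theorem low_face {s r : ℕ} {Z f : RR Empty} (hf : cut Empty r f = f) {i : ℕ} (hi : i ≤ s) :
    ev (fc (act (kun : Empty → Kd)) (s + r) i (uni Empty)) (Z * shf Empty s f)
      = ev (fc (act (kun : Empty → Kd)) s i (uni Empty)) Z * shf Empty (s + 1) f := by
  have e1 : (fc (act (kun : Empty → Kd)) (s + r) i (uni Empty)).1
      = (fc (act (A := RR Empty) (kun : Empty → Kd)) s i (fst0 (uni Empty).1)).1 :=
    fc_low_fst hi (uni Empty) _
  have e2 : ev (spt s (fc (act (kun : Empty → Kd)) (s + r) i (uni Empty))) f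
      = ev (spt (s + 1) (uni Empty)) f :=
    dep_of_cut hf _ _ (spt_fc_low hi (uni Empty))
  have e4 : fc (act (kun : Empty → Kd)) (s + r) i (uni Empty)
      = fc (act (kun : Empty → Kd)) s i (uni Empty) := by
    rw [fst0_eq (fc (act (kun : Empty → Kd)) (s + r) i (uni Empty)), e1,
      ← fst0_eq (uni Empty), ← fst0_eq]
  rw [map_mul, ev_shf, e2, ← shf_uni, e4]

theorem high_face {s r : ℕ} {Z f : RR Empty} (hZ : cut Empty s Z = Z)
    (hf : cut Empty r f = f) {m : ℕ} (hm : m ≤ r) :
    ev (fc (act (kun : Empty → Kd)) (s + r) (s + 1 + m) (uni Empty)) (Z * shf Empty s f)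
      = Z * shf Empty s (ev (fc (act (kun : Empty → Kd)) r (m + 1) (uni Empty)) f) := by
  have e2 : ev (spt s (fc (act (kun : Empty → Kd)) (s + r) (s + 1 + m) (uni Empty))) f
      = ev (fc (act (kun : Empty → Kd)) r (m + 1) (spt s (uni Empty))) f :=
    dep_of_cut hf _ _ (spt_fc_high hm (uni Empty))
  have e1 : ev (fc (act (kun : Empty → Kd)) (s + r) (s + 1 + m) (uni Empty)) Z
      = ev (uni Empty) Z :=
    dep_of_cut hZ _ _ ⟨fun a ha => fc_high_fst hm (uni Empty) ha, by
      funext c; exact c.elim⟩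
  rw [map_mul, ev_shf, e2, e1, ev_uni, shf_ev]

/-- Cartan formula -/
theorem cupR_prod {s r : ℕ} {Z f : RR Empty} (hZ : cut Empty s Z = Z)
    (hdZ : dd kun s Z = 0) (hf : cut Empty r f = f) (hdf : dd kun r f = 0) :
    cupR (s + r) (Z * shf Empty s f)
      = cupR s Z * (shf Empty (s + 1) f) ^ 2 + Z ^ 2 * shf Empty s (cupR r f) := by
  have hG : shf Empty s (cupR r f)
      = PS (fun i => shf Empty s (ev (fc (act kun) r i (uni Empty)) f)) (r + 2) := by
    rw [cupR, PS, PS, map_sum]
    refine sum_congr rfl fun j _ => ?_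
    rw [map_sum]
    refine sum_congr rfl fun k _ => ?_
    split_ifs
    · rw [map_mul]
    · exact map_zero _
  have h0 : shf Empty s (ev (fc (act (kun : Empty → Kd)) r 0 (uni Empty)) f)
      = shf Empty (s + 1) f := by
    rw [shf_ev, fc_zero_spt, ← shf_uni]
  have hA : ∑ i ∈ range (s + 2), ev (fc (act kun) s i (uni Empty)) Z = 0 := by
    rw [← dd_apply, hdZ]
  have hB : ∑ i ∈ range (r + 2), shf Empty s (ev (fc (act kun) r i (uni Empty)) f) = 0 := by
    rw [← map_sum, ← dd_apply, hdf, map_zero]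
  have h := cartan_alg (a := fun i => ev (fc (act kun) s i (uni Empty)) Z)
    (d := fun i => ev (fc (act kun) (s + r) i (uni Empty)) (Z * shf Empty s f))
    (G := fun i => shf Empty s (ev (fc (act kun) r i (uni Empty)) f))
    (Z := Z) (F := shf Empty (s + 1) f) (s := s) (r := r) two_zero
    (ev_last s Z) h0 (fun i hi => low_face hf hi)
    (fun m hm => high_face hZ hf (by omega)) hA hB
  rw [hG, cupR, cupR]
  exact h

end cup

end Pool.Agent.H59K
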