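import Pool.Agent.H59K.KJ

/-!
# Nilpotence of products and of their cup-`(s-1)` squares
-/

set_option autoImplicit false
set_option linter.unusedSectionVars false

namespace Pool.Agent.H59K

open Finset MvPolynomial Pool.Agent.W624.Stz

section cupTT

theorem TT_face {s i : ℕ} {t : ℤ} {f : RR Empty} (hf : TT kun s t (0 : Empty → ℕ) 0 f) :
    TT kun (s + 1) t (0 : Empty → ℕ) 0 (ev (fc (act (kun : Empty → Kd)) s i (uni Empty)) f) := by
  refine ⟨?_, ?_⟩
  · apply cut_of_dep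
    intro z z' hz
    have h1 : ∀ z : Pt Empty (RR Empty),
        ev z (ev (fc (act (kun : Empty → Kd)) s i (uni Empty)) f)
          = ev (fc (act (kun : Empty → Kd)) s i z) f := by
      intro z
      rw [ev_map, mP_fc, mP_uni]
    simp only [h1]
    exact dep_of_cut hf.cu _ _ (agr_fc hz)
  · have := fc_pres (ac := act (kun : Empty → Kd))
      (PMw (wF (kun : Empty → Kd)) ((0 : Empty → ℕ), 1))
      (PYw (wF (kun : Empty → Kd)) kun (fun c => (ee c, 0)))
      (PMw_mul _ _) (PYw_act _ _ _ _ (fun c => c.elim)) s i (uni Empty)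
      (uni_PM kun _ _) (uni_PY kun _ ((0 : Empty → ℕ), 1))
    exact IW_ev this.1 this.2 hf.iw

theorem TT_mul2 {s : ℕ} {t : ℤ} {f g : RR Empty} (hf : TT kun s t (0 : Empty → ℕ) 0 f)
    (hg : TT kun s t (0 : Empty → ℕ) 0 g) : TT kun s (2 * t) (0 : Empty → ℕ) 0 (f * g) := by
  refine ⟨by rw [map_mul, hf.cu, hg.cu], ?_⟩
  have h4 := hf.iw.mul hg.iw
  have h5 : (t, ((0 : Empty → ℕ), 0)) + (t, ((0 : Empty → ℕ), 0))
      = (2 * t, ((0 : Empty → ℕ), 0)) := by
    refine Prod.ext ?_ (Prod.ext ?_ rfl)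
    · simp [two_mul]
    · exact Subsingleton.elim _ _
  rwa [h5] at h4

theorem TT_cup {s : ℕ} {t : ℤ} {f : RR Empty} (hf : TT kun s t (0 : Empty → ℕ) 0 f) :
    TT kun (s + 1) (2 * t) (0 : Empty → ℕ) 0 (cupR s f) := by
  rw [cupR, PS]
  refine TT_sum _ _ fun j _ => TT_sum _ _ fun i _ => ?_
  split_ifs
  · exact TT_mul2 (TT_face hf) (TT_face hf)
  · exact TT.zero

theorem HC_cup {s : ℕ} {t : ℤ} {f : RR Empty} (hf : HC s t f) : HC (s + 1) (2 * t) (cupR s f) := by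
  have h := TT_cup ⟨hf.cu, hf.iw⟩
  refine ⟨h.cu, h.iw, ?_⟩
  have h1 : io s (ro s f) = f := io_ro ⟨hf.cu, hf.iw⟩
  have h2 : W624.ND.dC s (ro s f) = 0 := by
    apply W624.ND.io_inj
    rw [W624.ND.io_dC, h1, hf.cl, map_zero]
  have h3 := W624.ND.dC_sq1 s h2
  have h4 := congrArg (io (s + 2)) h3
  rw [W624.ND.io_dC, W624.ND.io_sq1, h1, map_zero] at h4
  exact h4

end cupTT

section nil

theorem pow_pos_two (e : ℤ) : ∃ N : ℕ, 2 * e < 2 ^ N := by
  obtain ⟨n, hn⟩ := Int.eq_ofNat_of_zero_le (le_max_left 0 e)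
  refine ⟨n + 1, ?_⟩
  have h1 : (n : ℤ) < 2 ^ n := by
    have := Nat.lt_two_pow_self (n := n)
    exact_mod_cast this
  have h2 : e ≤ n := by
    have := le_max_right 0 e
    rw [hn] at this
    exact this
  rw [pow_succ]
  linarith

/-- nilpotence of a product -/
theorem prod_nil (s s' : ℕ) (t : ℤ) (i : ℕ) : ∃ a0 : ℕ, ∀ a, a0 ≤ a → ∀ t' : ℤ, 0 < t' →
    ∀ f g : RR Empty, HC (s' + 1) t' f → HC s t g →
    Bd (s' + 1 + s) (2 ^ i * (2 ^ a * t' + t)) ((f ^ 2 ^ a * shf Empty (s' + 1) g) ^ 2 ^ i) →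
    (∃ m, Bd (s' + 1) (2 ^ m * t') (f ^ 2 ^ m)) ∨ Bd s (2 ^ i * t) (g ^ 2 ^ i) := by
  obtain ⟨N, hN⟩ := pow_pos_two (2 ^ i * t)
  obtain ⟨r, hr⟩ := multi_term (s' + s) N (2 ^ i * t) hN
  refine ⟨N + r, fun a ha t' ht' f g hf hg hB => ?_⟩
  obtain ⟨q, hq, hdq⟩ := hB
  obtain ⟨b, hb⟩ : ∃ b, a + i = N + b := ⟨a + i - N, by omega⟩
  have hbr : r ≤ b := by omega
  have ht0 : (2 : ℤ) ^ b * t' ≠ 0 := by positivity
  have h := hr (2 ^ b * t') ht0 (Dvd.dvd.mul_right (pow_dvd_pow 2 hbr) t') Unit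
    (fun _ => f ^ 2 ^ b) (fun _ => g ^ 2 ^ i) (fun _ => s') (fun _ _ _ => rfl)
    (fun _ => by omega) (fun _ => hf.pow b) (fun _ => by
      rw [show s' + s - s' = s by omega]; exact hg.pow i) q (by
      have h1 : s' + 1 + s - 1 = s' + s := by omega
      rw [h1] at hq
      have h2 : (2 : ℤ) ^ i * (2 ^ a * t' + t) = 2 ^ i * t + 2 ^ N * (2 ^ b * t') := by
        have : (2 : ℤ) ^ a * 2 ^ i = 2 ^ N * 2 ^ b := by rw [← pow_add, ← pow_add, hb]
        linear_combination t' * this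
      rwa [h2] at hq) (by
      have h1 : s' + 1 + s = (s' + s) + 1 := by omega
      rw [h1] at hdq
      rw [Fintype.sum_unique, ← pow_mul, ← pow_add, add_comm b N, ← hb]
      change dd kun (s' + s) q = _ at hdq
      rw [hdq, mul_pow, ← pow_mul, ← pow_add, map_pow])
  rcases h () with h1 | h1
  · left
    exact ⟨b, h1⟩
  · right
    rwa [show s' + s - s' = s by omega] at h1

/-- nilpotence of the cup-square of a product -/
theorem prod_cup_nil (s s' : ℕ) (t : ℤ) (i : ℕ) : ∃ a0 : ℕ, ∀ a, a0 ≤ a → ∀ t' : ℤ, 0 < t' →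
    ∀ f g : RR Empty, HC (s' + 1) t' f → HC s t g →
    Bd (s' + 1 + s + 1) (2 ^ i * (2 * (2 ^ a * t' + t)))
      ((cupR (s' + 1 + s) (f ^ 2 ^ a * shf Empty (s' + 1) g)) ^ 2 ^ i) →
    ((∃ m, Bd (s' + 2) (2 ^ m * (2 * t')) ((cupR (s' + 1) f) ^ 2 ^ m)) ∨
      Bd s (2 ^ (i + 1) * t) (g ^ 2 ^ (i + 1))) ∧
    ((∃ m, Bd (s' + 1) (2 ^ m * t') (f ^ 2 ^ m)) ∨
      Bd (s + 1) (2 ^ i * (2 * t)) ((cupR s g) ^ 2 ^ i)) := by
  obtain ⟨N, hN⟩ := pow_pos_two (2 ^ (i + 1) * t)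
  obtain ⟨r, hr⟩ := multi_term (s' + 1 + s) N (2 ^ (i + 1) * t) hN
  refine ⟨N + r, fun a ha t' ht' f g hf hg hB => ?_⟩
  obtain ⟨q, hq, hdq⟩ := hB
  obtain ⟨b, hb⟩ : ∃ b, a + i = N + b := ⟨a + i - N, by omega⟩
  have hbr : r ≤ b := by omega
  have ht0 : (2 : ℤ) ^ (b + 1) * t' ≠ 0 := by positivity
  have hcart : cupR (s' + 1 + s) (f ^ 2 ^ a * shf Empty (s' + 1) g)
      = (cupR (s' + 1) f) ^ 2 ^ a * (shf Empty (s' + 2) g) ^ 2
        + f ^ 2 ^ (a + 1) * shf Empty (s' + 1) (cupR s g) := by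
    have hfa := hf.pow a
    rw [cupR_prod hfa.cu hfa.cl hg.cu hg.cl, cupR_pow, ← pow_mul, ← pow_succ]
  have h := hr (2 ^ (b + 1) * t') ht0
    (Dvd.dvd.mul_right (pow_dvd_pow 2 (by omega)) t') Bool
    (fun k => if k then (cupR (s' + 1) f) ^ 2 ^ b else f ^ 2 ^ (b + 1))
    (fun k => if k then g ^ 2 ^ (i + 1) else (cupR s g) ^ 2 ^ i)
    (fun k => if k then s' + 1 else s') (by
      intro k k' hk
      cases k <;> cases k' <;> simp at hk ⊢)
    (fun k => by cases k <;> simp <;> omega) (fun k => by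
      cases k
      · simpa using hf.pow (b + 1)
      · have := (HC_cup hf).pow b
        rw [show (2 : ℤ) ^ b * (2 * t') = 2 ^ (b + 1) * t' by ring] at this
        simpa using this) (fun k => by
      cases k
      · have := (HC_cup hg).pow i
        rw [show (2 : ℤ) ^ i * (2 * t) = 2 ^ (i + 1) * t by ring] at this
        simp only [Bool.false_eq_true, if_false]
        rwa [show s' + 1 + s - s' = s + 1 by omega]
      · have := hg.pow (i + 1)
        simp only [if_true]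
        rwa [show s' + 1 + s - (s' + 1) = s by omega]) q (by
      have h1 : s' + 1 + s + 1 - 1 = s' + 1 + s := by omega
      rw [h1] at hq
      have h2 : (2 : ℤ) ^ i * (2 * (2 ^ a * t' + t))
          = 2 ^ (i + 1) * t + 2 ^ N * (2 ^ (b + 1) * t') := by
        have : (2 : ℤ) ^ a * 2 ^ i = 2 ^ N * 2 ^ b := by rw [← pow_add, ← pow_add, hb]
        rw [pow_succ, pow_succ]
        linear_combination 2 * t' * this
      rwa [h2] at hq) (by
      change dd kun (s' + 1 + s) q = _ at hdq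
      rw [hdq, hcart, add_pow0, mul_pow, mul_pow, Fintype.sum_bool]
      simp only [if_true, Bool.false_eq_true, if_false]
      congr 1
      · rw [← pow_mul, ← pow_add, hb, ← pow_mul (cupR (s' + 1) f), ← pow_add, add_comm b N,
          map_pow, ← pow_mul, ← pow_succ']
      · rw [← pow_mul, ← pow_add, ← pow_mul f, ← pow_add, map_pow,
          show a + 1 + i = b + 1 + N by omega])
  constructor
  · have h1 := h true
    simp only [if_true] at h1
    rw [show s' + 1 + s - (s' + 1) = s by omega] at h1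
    rcases h1 with h1 | h1
    · left
      refine ⟨b, ?_⟩
      rwa [show (2 : ℤ) ^ b * (2 * t') = 2 ^ (b + 1) * t' by ring]
    · right; exact h1
  · have h1 := h false
    simp only [Bool.false_eq_true, if_false] at h1
    rw [show s' + 1 + s - s' = s + 1 by omega] at h1
    rcases h1 with h1 | h1
    · left; exact ⟨b + 1, h1⟩
    · right
      rwa [show (2 : ℤ) ^ i * (2 * t) = 2 ^ (i + 1) * t by ring]

end nil

end Pool.Agent.H59K
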