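import Pool.Agent.H59K.KDefs
import Pool.Agent.H59K.KK

/-!
# Translation to the classes of the cobar complex
-/

set_option autoImplicit false
set_option linter.unusedSectionVars false

namespace Pool.Agent.H59K

open Finset MvPolynomial Pool.Agent.W624.Stz
open Pool.Agent.W624.NS

section conv

theorem jo_cup {s : ℕ} (x : Cob s) : jo (cupSq s x) = cupR s (jo x) := by
  have h1 := W624.ND.io_sq1 s (x : W624.ND.Cob s)
  refine Eq.trans (congrArg (io (s + 1)) (cupSq_eq s (x : W624.ND.Cob s))) ?_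
  exact h1

/-- weights of the cobar complex -/
def nat3 : ℕ →+ ℤ × ((Empty → ℕ) × ℕ) where
  toFun m := ((m : ℤ), ((0 : Empty → ℕ), 0))
  map_zero' := rfl
  map_add' a b := by
    refine Prod.ext ?_ (Prod.ext ?_ rfl)
    · push_cast; rfl
    · exact Subsingleton.elim _ _

theorem nat3_inj : Function.Injective nat3 := by
  intro a b h
  have := congrArg Prod.fst h
  simp only [nat3, AddMonoidHom.coe_mk, ZeroHom.coe_mk] at this
  exact_mod_cast this

/-- weights of one variable -/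
def wq (s : ℕ) (p : Fin s × ℕ) : ℕ := 2 ^ (p.2 + 1) - 1

theorem IW_io {s t : ℕ} {x : QQ s} (hx : IW (wq s) x t) :
    IW (wF (kun : Empty → Kd)) (io s x) (nat3 t) := by
  refine IW.aeval' nat3 (io s) (w := wq s) (w' := wF kun) ?_ hx
  rintro ⟨a, n⟩
  rw [io_X]
  have h1 := isWeightedHomogeneous_X (ZMod 2) (wF (kun : Empty → Kd)) (Vr.x (a : ℕ) n)
  have h2 : wF (kun : Empty → Kd) (Vr.x (a : ℕ) n) = nat3 (wq s (a, n)) := by
    have h3 : 1 ≤ 2 ^ (n + 1) := Nat.one_le_two_pow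
    refine Prod.ext ?_ rfl
    simp only [wF, wG, nat3, AddMonoidHom.coe_mk, ZeroHom.coe_mk, wq]
    rw [Nat.cast_sub h3]
    push_cast
    rfl
  rwa [h2] at h1

theorem cm_io {s : ℕ} (x : QQ s) (t : ℕ) :
    cm (wF (kun : Empty → Kd)) (nat3 t) (io s x) = io s (cm (wq s) t x) :=
  cm_comm (w := wq s) (w' := wF (kun : Empty → Kd)) nat3 nat3_inj (io s).toLinearMap
    (fun _ _ hf => IW_io hf) x t

theorem isHom_iff {s t : ℕ} (x : Cob s) :
    IsHom s t x ↔ IW (wF (kun : Empty → Kd)) (jo x) ((t : ℤ), ((0 : Empty → ℕ), 0)) := by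
  constructor
  · intro h
    exact IW_io (x := (x : QQ s)) h
  · intro h
    have h1 : io s (cm (wq s) t (x : QQ s)) = io s (x : QQ s) :=
      (cm_io (x : QQ s) t).symm.trans (cm_same h)
    have h2 : cm (wq s) t (x : QQ s) = x := W624.ND.io_inj h1
    have h3 := cm_IW (wq s) t (x : QQ s)
    rw [h2] at h3
    exact h3

theorem TT_jo {s t : ℕ} {x : Cob s} (h : IsHom s t x) :
    TT kun s (t : ℤ) (0 : Empty → ℕ) 0 (jo x) := ⟨jo_cut x, (isHom_iff x).mp h⟩

theorem HC_jo {s t : ℕ} (x : Z s) (h : IsHom s t x.1) : HC s (t : ℤ) (jo x.1) :=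
  ⟨jo_cut x.1, (isHom_iff x.1).mp h, by rw [← jo_dC, x.2, jo_zero]⟩

/-- out of the big ring -/
noncomputable def po (s : ℕ) (f : RR Empty) : Cob s := (ro s f : QQ s)

theorem jo_po {s : ℕ} {t : ℤ} {f : RR Empty} (h : TT kun s t (0 : Empty → ℕ) 0 f) :
    jo (po s f) = f := io_ro h

theorem Bd_iff {s t : ℕ} {x : Cob s} (h : IsHom s t x) : IsB s x ↔ Bd s (t : ℤ) (jo x) := by
  cases s with
  | zero =>
    constructor
    · intro hx
      have : x = 0 := hx
      rw [this, jo_zero]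
      exact Bd.zero
    · rintro ⟨g, _, hg⟩
      have h1 : jo x = 0 := hg.symm
      exact jo_inj (h1.trans jo_zero.symm)
  | succ s =>
    constructor
    · rintro ⟨y, hy⟩
      refine ⟨cm (wF kun) ((t : ℤ), ((0 : Empty → ℕ), 0)) (jo y), ⟨?_, cm_IW _ _ _⟩, ?_⟩
      · rw [Nat.add_sub_cancel, ← Pool.Agent.W624.Stz.cm_cut, jo_cut]
      · change dd kun s _ = jo x
        rw [← Pool.Agent.W624.Stz.cm_dd naf_un, ← jo_dC, hy]
        exact cm_same ((isHom_iff x).mp h)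
    · rintro ⟨g, hg, hdg⟩
      have hg' : TT kun s (t : ℤ) (0 : Empty → ℕ) 0 g := hg
      refine ⟨po s g, ?_⟩
      apply jo_inj
      rw [jo_dC, jo_po hg']
      exact hdg

theorem jo_sq_iter {s : ℕ} (x : Z s) (i : ℕ) : jo ((sqZ s)^[i] x).1 = jo x.1 ^ 2 ^ i := by
  rw [sqZ_iter, jo_pow]

theorem iter_zero_iff {s t : ℕ} (x : Z s) (h : IsHom s t x.1) (i : ℕ) :
    (Sq0 s)^[i] (cl x) = 0 ↔ Bd s (2 ^ i * (t : ℤ)) (jo x.1 ^ 2 ^ i) := by
  rw [Sq0_iter, cl_eq_zero, Bd_iff (isHom_iter x h i), jo_sq_iter]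
  push_cast
  exact Iff.rfl

theorem Nil_iff {s t : ℕ} (x : Z s) (h : IsHom s t x.1) :
    Nil (cl x) ↔ ∃ i, Bd s (2 ^ i * (t : ℤ)) (jo x.1 ^ 2 ^ i) := by
  constructor
  · rintro ⟨i, hi⟩
    exact ⟨i, (iter_zero_iff x h i).mp hi⟩
  · rintro ⟨i, hi⟩
    exact ⟨i, (iter_zero_iff x h i).mpr hi⟩

theorem up_zero {s : ℕ} (y : Ext s) (a b : ℕ) (hab : a ≤ b) (h : (Sq0 s)^[a] y = 0) :
    (Sq0 s)^[b] y = 0 := by
  obtain ⟨c, rfl⟩ := Nat.exists_eq_add_of_le hab
  rw [add_comm a c, Function.iterate_add_apply, h]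
  exact Sq0_iter_zero _ _

/-- a nilpotent class dies after a number of steps which depends only on the line -/
theorem nil_bound (s : ℕ) : ∃ r, ∀ y : Ext s, Nil y → (Sq0 s)^[r] y = 0 := by
  cases s with
  | zero =>
    refine ⟨0, fun y hy => ?_⟩
    obtain ⟨i, hi⟩ := hy
    obtain ⟨x, rfl⟩ := cl_surj y
    rw [Sq0_iter, cl_eq_zero, sqZ_iter] at hi
    change cl x = 0
    rw [cl_eq_zero]
    have h1 : x.1 ^ 2 ^ i = 0 := hi
    have h2 : jo x.1 ^ 2 ^ i = 0 := by rw [← jo_pow, h1, jo_zero]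
    have h3 : jo x.1 = 0 := by
      exact (pow_eq_zero_iff (by positivity)).mp h2
    exact jo_inj (h3.trans jo_zero.symm)
  | succ s =>
    obtain ⟨r, hr⟩ := nil_iter s
    exact ⟨r, fun y ⟨i, hi⟩ => hr y i hi⟩

theorem isHom_mul {a b t u : ℕ} {x : Cob a} {y : Cob b} (hx : IsHom a t x) (hy : IsHom b u y) :
    IsHom (a + b) (t + u) (mul x y) := by
  rw [isHom_iff, jo_mul]
  have := (TT_prod (TT_jo hx) (TT_jo hy)).iw
  rwa [← Nat.cast_add] at this

theorem isHom_cup {s t : ℕ} {x : Cob s} (hx : IsHom s t x) : IsHom (s + 1) (2 * t) (cupSq s x) := by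
  rw [isHom_iff, jo_cup]
  have := (TT_cup (TT_jo hx)).iw
  rwa [show (2 : ℤ) * (t : ℤ) = ((2 * t : ℕ) : ℤ) by push_cast; ring] at this

end conv

section products

/-- a large product of non-nilpotent classes is not nilpotent -/
theorem nil_prod (s s' t : ℕ) : ∃ a0 : ℕ, ∀ a, a0 ≤ a → ∀ t' : ℕ, 0 < t' →
    ∀ (x : Z s) (y : Z (s' + 1)), IsHom s t x.1 → IsHom (s' + 1) t' y.1 →
    Nil (cl (mulZ ((sqZ (s' + 1))^[a] y) x)) → Nil (cl x) ∨ Nil (cl y) := by
  obtain ⟨r, hr⟩ := nil_bound (s' + 1 + s)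
  obtain ⟨a0, ha0⟩ := prod_nil s s' t r
  refine ⟨a0, fun a ha t' ht' x y hx hy hn => ?_⟩
  have h1 := hr _ hn
  have hz : IsHom (s' + 1 + s) (2 ^ a * t' + t) (mulZ ((sqZ (s' + 1))^[a] y) x).1 :=
    isHom_mul (isHom_iter y hy a) hx
  rw [iter_zero_iff _ hz] at h1
  have h2 : jo (mulZ ((sqZ (s' + 1))^[a] y) x).1
      = jo y.1 ^ 2 ^ a * shf Empty (s' + 1) (jo x.1) := by
    change jo (mul ((sqZ (s' + 1))^[a] y).1 x.1) = _
    rw [jo_mul, jo_sq_iter]
  rw [h2] at h1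
  push_cast at h1
  rcases ha0 a ha t' (by exact_mod_cast ht') _ _ (HC_jo y hy) (HC_jo x hx) h1 with h3 | h3
  · right
    exact (Nil_iff y hy).mpr h3
  · left
    exact (Nil_iff x hx).mpr ⟨r, h3⟩

/-- products of nilpotent classes are nilpotent -/
theorem nil_mul_left {a b t u : ℕ} {x : Z a} {y : Z b} (hx : IsHom a t x.1)
    (hy : IsHom b u y.1) (h : Nil (cl x)) : Nil (cl (mulZ x y)) := by
  obtain ⟨i, hi⟩ := (Nil_iff x hx).mp h
  rw [Nil_iff _ (isHom_mul hx hy)]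
  refine ⟨i, ?_⟩
  have h1 := Bd_prod_left hi ((HC_jo y hy).pow i)
  change Bd (a + b) _ (jo (mul x.1 y.1) ^ 2 ^ i)
  rw [jo_mul, mul_pow, ← map_pow]
  push_cast
  rw [mul_add]
  exact h1

theorem nil_mul_right {a b t u : ℕ} {x : Z a} {y : Z b} (hx : IsHom a t x.1)
    (hy : IsHom b u y.1) (h : Nil (cl y)) : Nil (cl (mulZ x y)) := by
  obtain ⟨i, hi⟩ := (Nil_iff y hy).mp h
  rw [Nil_iff _ (isHom_mul hx hy)]
  refine ⟨i, ?_⟩
  have h1 := Bd_prod_right ((HC_jo x hx).pow i) hi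
  change Bd (a + b) _ (jo (mul x.1 y.1) ^ 2 ^ i)
  rw [jo_mul, mul_pow, ← map_pow]
  push_cast
  rw [mul_add]
  exact h1

theorem nil_sq_iter {s : ℕ} (x : Z s) (a : ℕ) : Nil (cl ((sqZ s)^[a] x)) ↔ Nil (cl x) := by
  rw [← Sq0_iter]
  constructor
  · rintro ⟨i, hi⟩
    exact ⟨i + a, by rwa [Function.iterate_add_apply]⟩
  · rintro ⟨i, hi⟩
    exact ⟨i, by
      rw [← Function.iterate_add_apply]
      exact up_zero _ i _ (by omega) hi⟩

/-- nilpotence of `Sq¹` of a large product -/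
theorem nil_sq1_prod (s s' t : ℕ) : ∃ a0 : ℕ, ∀ a, a0 ≤ a → ∀ t' : ℕ, 0 < t' →
    ∀ (x : Z s) (y : Z (s' + 1)), IsHom s t x.1 → IsHom (s' + 1) t' y.1 →
    Nil (cl (Sq1 (s' + 1 + s) (mulZ ((sqZ (s' + 1))^[a] y) x))) →
    (Nil (cl (Sq1 (s' + 1) y)) ∨ Nil (cl x)) ∧ (Nil (cl y) ∨ Nil (cl (Sq1 s x))) := by
  obtain ⟨r, hr⟩ := nil_bound (s' + 1 + s + 1)
  obtain ⟨a0, ha0⟩ := prod_cup_nil s s' t r
  refine ⟨a0, fun a ha t' ht' x y hx hy hn => ?_⟩
  have h1 := hr _ hn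
  have hz : IsHom (s' + 1 + s) (2 ^ a * t' + t) (mulZ ((sqZ (s' + 1))^[a] y) x).1 :=
    isHom_mul (isHom_iter y hy a) hx
  have hz1 : IsHom (s' + 1 + s + 1) (2 * (2 ^ a * t' + t))
      (Sq1 (s' + 1 + s) (mulZ ((sqZ (s' + 1))^[a] y) x)).1 := isHom_cup hz
  rw [iter_zero_iff _ hz1] at h1
  have h2 : jo (Sq1 (s' + 1 + s) (mulZ ((sqZ (s' + 1))^[a] y) x)).1
      = cupR (s' + 1 + s) (jo y.1 ^ 2 ^ a * shf Empty (s' + 1) (jo x.1)) := by
    change jo (cupSq (s' + 1 + s) (mul ((sqZ (s' + 1))^[a] y).1 x.1)) = _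
    rw [jo_cup, jo_mul, jo_sq_iter]
  rw [h2] at h1
  push_cast at h1
  obtain ⟨h3, h4⟩ := ha0 a ha t' (by exact_mod_cast ht') _ _ (HC_jo y hy) (HC_jo x hx) h1
  have hy1 : IsHom (s' + 1 + 1) (2 * t') (Sq1 (s' + 1) y).1 := isHom_cup hy
  have hx1 : IsHom (s + 1) (2 * t) (Sq1 s x).1 := isHom_cup hx
  have ey : jo (Sq1 (s' + 1) y).1 = cupR (s' + 1) (jo y.1) := jo_cup y.1
  have ex : jo (Sq1 s x).1 = cupR s (jo x.1) := jo_cup x.1
  refine ⟨?_, ?_⟩
  · rcases h3 with h3 | h3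
    · left
      obtain ⟨m, hm⟩ := h3
      refine (Nil_iff _ hy1).mpr ⟨m, ?_⟩
      rw [ey]
      push_cast
      exact hm
    · right
      exact (Nil_iff x hx).mpr ⟨r + 1, h3⟩
  · rcases h4 with h4 | h4
    · left
      exact (Nil_iff y hy).mpr h4
    · right
      refine (Nil_iff _ hx1).mpr ⟨r, ?_⟩
      rw [ex]
      push_cast
      exact h4

end products

section hopf

theorem jo_hZ (i : ℕ) : jo (hZ i).1 = X (.x 0 0) ^ 2 ^ i := by
  change jo ((ξ (0 : Fin 1) 1 : Cob 1) ^ 2 ^ i) = _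
  rw [jo_pow]
  congr 1
  exact io_X 1 ((0 : Fin 1), 0)

theorem isHom_hZ (i : ℕ) : IsHom 1 (2 ^ i) (hZ i).1 := by
  rw [isHom_iff, jo_hZ]
  have h1 := (isWeightedHomogeneous_X (ZMod 2) (wF (kun : Empty → Kd)) (Vr.x 0 0)).pow (2 ^ i)
  have h2 : 2 ^ i • wF (kun : Empty → Kd) (Vr.x 0 0) = (((2 ^ i : ℕ) : ℤ), ((0 : Empty → ℕ), 0)) := by
    refine Prod.ext ?_ (Prod.ext ?_ ?_)
    · simp [wF, wG]
    · exact Subsingleton.elim _ _
    · simp [wF, wG]
  rwa [h2] at h1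

theorem dd_zero_level {f : RR Empty} (hf : cut Empty 0 f = f) : dd kun 0 f = 0 := by
  rw [dd_apply, sum_range_succ, sum_range_succ, range_zero, sum_empty, zero_add]
  have h : ∀ j, ev (fc (act (kun : Empty → Kd)) 0 j (uni Empty)) f = f := by
    intro j
    have h1 := dep_of_cut (A := RR Empty) hf (fc (act (kun : Empty → Kd)) 0 j (uni Empty))
      (uni Empty) ⟨fun a ha => by omega, by funext c; exact c.elim⟩
    simp only [ev_uni] at h1
    exact h1
  rw [h, h]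
  exact p2_add_self f

/-- the class of `h_i` is not nilpotent -/
theorem not_nil_h (i : ℕ) : ¬ Nil (cl (hZ i)) := by
  rw [Nil_iff _ (isHom_hZ i)]
  rintro ⟨m, g, hg, hdg⟩
  have h1 : dd kun 0 g = 0 := dd_zero_level hg.cu
  have h2 : dd kun 0 g = jo (hZ i).1 ^ 2 ^ m := hdg
  rw [h1, jo_hZ] at h2
  have h3 : (X (.x 0 0) : RR Empty) ≠ 0 := X_ne_zero _
  exact (pow_ne_zero _ (pow_ne_zero _ h3)) h2.symm

/-- exactness of the one-forms at level one, in odd degrees -/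
theorem QT_one : QT 1 1 0 1 1 := by
  intro K _ ν hν t ht
  refine LemT 0 t ν 1 le_rfl fun i hi1 hi2 => ?_
  have hi : i = 1 := by omega
  subst hi
  intro f hf _
  refine ⟨0, TT.zero, ?_⟩
  rw [map_zero]
  symm
  by_contra hne
  obtain ⟨e, he⟩ := ne_zero_iff.mp hne
  have h1 := hf.iw he
  -- only coordinates occur
  let w0 : Vr (Option K) → ℕ := fun v => match v with
    | .x _ _ => 1
    | .s _ _ => 1
    | .y _ _ => 0
  have hw0 : IW w0 f 0 := by
    rw [← hf.cu]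
    have h0 : IW (fun _ : Vr (Option K) => (0 : ℕ)) f 0 := by
      intro e _
      rw [Finsupp.weight_apply]
      simp [Finsupp.sum]
    refine IW.aeval' (0 : ℕ →+ ℕ) (cut (Option K) 0) (w := fun _ => (0 : ℕ)) (w' := w0) ?_ h0
    intro v
    have : cut (Option K) 0 (X v) = co (cpt 0 (uni (Option K))) v := ev_X _ v
    rw [this, AddMonoidHom.zero_apply]
    cases v with
    | x a n =>
      simp only [co, cpt]
      rw [if_neg (by omega), one_g, e1, if_neg (by omega)]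
      exact IW.zero' _ _
    | s a n =>
      simp only [co, cpt]
      rw [if_neg (by omega), one_s]
      exact IW.zero' _ _
    | y c n => exact isWeightedHomogeneous_X _ w0 (Vr.y c n)
  have h2 := hw0 he
  rw [Finsupp.weight_apply, Finsupp.sum, sum_eq_zero_iff] at h2
  have h3 := wmap (AddMonoidHom.fst ℤ ((Option K → ℕ) × ℕ)) (wF ktw) e
  rw [h1] at h3
  simp only [AddMonoidHom.coe_fst] at h3
  rw [Finsupp.weight_apply, Finsupp.sum] at h3
  have h4 : (2 : ℤ) ∣ t := by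
    rw [← h3]
    refine dvd_sum fun v hv => ?_
    have h5 := h2 v hv
    cases v with
    | x a n =>
      exfalso
      rw [Finsupp.mem_support_iff] at hv
      simp only [w0, smul_eq_mul, mul_one] at h5
      exact hv h5
    | s a n =>
      exfalso
      rw [Finsupp.mem_support_iff] at hv
      simp only [w0, smul_eq_mul, mul_one] at h5
      exact hv h5
    | y c n =>
      simp only [wF, wG, ktw, tk, nsmul_eq_mul]
      exact Dvd.dvd.mul_left (dvd_pow_self 2 (by omega)) _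
  have h5 : (2 : ℤ) ∣ t - 1 := by simpa using ht
  omega

theorem cup_h0 : cupR 1 (X (.x 0 0)) = X (.x 1 0) * X (.x 0 0) := by
  have h0 : ev (fc (act (kun : Empty → Kd)) 1 0 (uni Empty)) (X (.x 0 0)) = X (.x 1 0) := by
    rw [ev_X, fc_zero]; rfl
  have h2 := ev_last 1 (X (.x 0 0) : RR Empty)
  rw [cupR, PS, sum_range_succ, sum_range_succ, sum_range_succ, range_zero, sum_empty,
    sum_range_succ, range_zero, sum_empty, sum_range_succ, sum_range_succ, range_zero, sum_empty,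
    sum_empty]
  simp only [zero_add]
  rw [if_neg (by norm_num), if_pos (by norm_num), if_neg (by norm_num), h0]
  rw [show (1 : ℕ) + 1 = 2 by norm_num] at h2
  rw [h2]
  ring

theorem h0sq_base : ¬ Bd 2 2 (X (.x 1 0) * X (.x 0 0) : RR Empty) := by
  classical
  rintro ⟨g, hg, hdg⟩
  have hdg' : dd kun 1 g = X (.x 1 0) * X (.x 0 0) := hdg
  have hg' : TT kun 1 2 (0 : Empty → ℕ) 0 g := hg
  have hmon : ∀ e, coeff e g ≠ 0 → e = Finsupp.single (.x 0 0) 2 := by
    intro e he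
    have hb := mon_bound hg' he
    have h1 := hg'.iw he
    have h2 := wmap (AddMonoidHom.fst ℤ ((Empty → ℕ) × ℕ)) (wF kun) e
    rw [h1] at h2
    simp only [AddMonoidHom.coe_fst] at h2
    have hx1 : e (.x 0 1) = 0 := by
      have h3 := weight_le (fun v => (wF (kun : Empty → Kd) v).1) (by
        intro v
        cases v with
        | x a n =>
          have h5 : (1 : ℤ) ≤ 2 ^ (n + 1) := one_le_pow₀ (by norm_num)
          simp only [wF, wG]
          linarith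
        | s a n => simp only [wF, wG]; positivity
        | y c n => exact c.elim) e (.x 0 1)
      rw [h2] at h3
      simp only [wF, wG] at h3
      norm_num at h3
      omega
    have hsupp : e = Finsupp.single (.x 0 0) (e (.x 0 0)) := by
      ext v
      by_cases hv : v = .x 0 0
      · subst hv; simp
      · rw [Finsupp.single_apply, if_neg (Ne.symm hv)]
        by_contra hne
        obtain ⟨a, n, rfl, ha, hn, _⟩ := hb v hne
        have ha0 : a = 0 := by omega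
        subst ha0
        have hn1 : n = 0 ∨ n = 1 := by omega
        rcases hn1 with rfl | rfl
        · exact hv rfl
        · exact hne hx1
    rw [hsupp, Finsupp.weight_apply, Finsupp.sum_single_index (by simp)] at h2
    simp only [wF, wG] at h2
    norm_num at h2
    rw [hsupp]
    congr 1
    exact_mod_cast h2
  have hg2 : g = coeff (Finsupp.single (.x 0 0) 2) g • (X (.x 0 0) ^ 2 : RR Empty) := by
    ext e
    rw [coeff_smul, coeff_X_pow]
    by_cases h : Finsupp.single (.x 0 0) 2 = e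
    · subst h
      rw [if_pos rfl, smul_eq_mul, mul_one]
    · rw [if_neg h, smul_zero]
      by_contra hne
      exact h (hmon e hne).symm
  have h1 : dd (kun : Empty → Kd) 1 (X (.x 0 0)) = 0 := by
    have h3 := W624.ND.dd_mulX 0 (f := (1 : RR Empty)) (map_one _)
    rw [mul_one, zero_add, dd_one_even rfl, mul_zero] at h3
    exact h3
  have h2 : dd (kun : Empty → Kd) 1 (X (.x 0 0) ^ 2) = 0 := by
    have := dd_pow 1 1 (X (.x 0 0))
    rw [pow_one, h1] at this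
    rw [this, zero_pow two_ne_zero]
  rw [hg2, map_smul, h2, smul_zero] at hdg'
  exact mul_ne_zero (X_ne_zero _) (X_ne_zero _) hdg'.symm

theorem h0sq_not (i : ℕ) :
    ¬ Bd 2 (2 ^ i * 2) ((X (.x 1 0) * X (.x 0 0) : RR Empty) ^ 2 ^ i) := by
  induction i with
  | zero => simpa using h0sq_base
  | succ i ih =>
    intro h
    apply ih
    obtain ⟨g, hg, hdg⟩ := h
    have hz : TT kun 2 (2 ^ i * 2) (0 : Empty → ℕ) 0
        ((X (.x 1 0) * X (.x 0 0) : RR Empty) ^ 2 ^ i) := by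
      apply pow_TT
      have h1 : TT kun (1 + 1) (2 * 1) (0 : Empty → ℕ) 0 (cupR 1 (X (.x 0 0))) := by
        apply TT_cup
        have := HC_jo (hZ 0) (isHom_hZ 0)
        rw [jo_hZ, pow_zero, pow_one] at this
        exact ⟨this.cu, by simpa using this.iw⟩
      rw [cup_h0] at h1
      simpa using h1
    obtain ⟨z', hz', hdz'⟩ := inj_step (s := 1) (r := 1) (by
      intro k hk
      rcases Nat.eq_zero_or_pos k with h0 | h0
      · subst h0
        exact QT_one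
      · have : k = 1 := by omega
        subst this
        intro K _ ν _ t _
        exact LemT0 t ν 2 (by omega)) (t := 2 ^ i * 2) (by
        rw [pow_one]; exact Dvd.intro_left _ rfl) hz (y := g) (by
        rw [kk]
        rw [show (2 : ℤ) * (2 ^ i * 2) = 2 ^ (i + 1) * 2 by ring]
        exact hg) (by
        rw [kk, PHI_sq, ← pow_mul, ← pow_succ]
        exact hdg)
    exact ⟨z', hz', hdz'⟩

/-- `Sq¹ h_0 = h_0 ^ 2` is not nilpotent -/
theorem not_nil_sq1_h0 : ¬ Nil (cl (Sq1 1 (hZ 0))) := by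
  have h1 : IsHom 2 (2 * 2 ^ 0) (Sq1 1 (hZ 0)).1 := isHom_cup (isHom_hZ 0)
  rw [Nil_iff _ h1]
  rintro ⟨i, hi⟩
  have h2 : jo (Sq1 1 (hZ 0)).1 = X (.x 1 0) * X (.x 0 0) := by
    refine (jo_cup (hZ 0).1).trans ?_
    rw [jo_hZ, pow_zero, pow_one, cup_h0]
  rw [h2] at hi
  apply h0sq_not i
  simpa using hi

end hopf

end Pool.Agent.H59K
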