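import Pool.Agent.H59K.KL

/-!
# The criterion for products
-/

set_option autoImplicit false
set_option linter.unusedSectionVars false

namespace Pool.Agent.H59K

open Pool.Agent.W624.NS
open Pool.Agent.W624.Stz (dd kun cut TT RR IW)

theorem Bruner.zero {d₂ : (n : ℕ) → Ext n → Ext (n + 2)} (hd : Bruner d₂) (s : ℕ) :
    d₂ s 0 = 0 := by
  have h1 : Sq1 s (zeroZ s) = zeroZ (s + 1) := by
    apply Subtype.ext
    change cupSq s (0 : Cob s) = (0 : Cob (s + 1))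
    rw [cupSq]
    refine Finset.sum_eq_zero fun j _ => Finset.sum_eq_zero fun i _ => ?_
    rw [map_zero, zero_mul, ite_self]
  have h2 := hd s 0 (zeroZ s) ⟨0, rfl⟩ (MvPolynomial.isWeightedHomogeneous_zero _ _ _)
  have h3 : Sq0 s (cl (zeroZ s)) = 0 := Sq0_zero s
  rw [h3, h1] at h2
  rw [h2]
  exact h0_zero (s + 1)

/-- the criterion of the start -/
theorem d2_crit (s : ℕ) : ∃ J : ℕ, ∀ d₂ : (n : ℕ) → Ext n → Ext (n + 2), Bruner d₂ →
    ∀ (t : ℕ) (x : Z s), IsHom s t x.1 → ∀ j, J ≤ j →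
      (d₂ s ((Sq0 s)^[j] (cl x)) = 0 ↔ Nil (cl (Sq1 s x))) := by
  obtain ⟨J0, hJ0⟩ := h0_iter s
  obtain ⟨r, hr⟩ := nil_iter s
  refine ⟨J0 + r + 2, fun d₂ hd t x hx j hj => ?_⟩
  obtain ⟨k, rfl⟩ : ∃ k, j = k + 2 := ⟨j - 2, by omega⟩
  have hev : Even (2 ^ (k + 1) * t) := by
    rw [pow_succ, mul_comm (2 ^ k) 2, mul_assoc]
    exact even_two_mul _
  have hw := isHom_iter x hx (k + 1)
  have hf : d₂ s ((Sq0 s)^[k + 2] (cl x))
      = h0 (s + 1) ((Sq0 (s + 1))^[k + 1] (cl (Sq1 s x))) := by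
    rw [show k + 2 = (k + 1) + 1 from rfl, Function.iterate_succ_apply', Sq0_iter,
      hd s _ _ hev hw, Sq1_iter, Sq0_iter]
  rw [hf]
  constructor
  · intro h
    exact ⟨k, hJ0 (cl (Sq1 s x)) k (by omega) h⟩
  · rintro ⟨i, hi⟩
    have h1 := hr _ _ hi
    rw [up_zero _ r (k + 1) (by omega) h1, h0_zero]

/-- there is nothing in degree zero on a positive line -/
theorem cl_deg0 (s : ℕ) (y : Z (s + 1)) (h : IsHom (s + 1) 0 y.1) : cl y = 0 := by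
  rw [cl_eq_zero]
  have h1 := TT_jo h
  rw [Nat.cast_zero] at h1
  have hd : dd kun (s + 1) (jo y.1) = 0 := by rw [← jo_dC, y.2, jo_zero]
  rcases const_of_TT h1 with h2 | h2
  · have : y.1 = 0 := jo_inj (h2.trans jo_zero.symm)
    rw [this]
    exact isB_zero _
  · rw [h2] at hd
    have hs : (s + 1) % 2 = 0 := by
      by_contra hne
      rw [dd_one_odd (by omega)] at hd
      exact one_ne_zero hd
    refine ⟨1, ?_⟩
    apply jo_inj
    have h3 : jo (1 : Cob s) = 1 := map_one (W624.Stz.io s)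
    rw [jo_dC, h3, h2]
    exact dd_one_odd (by omega)

theorem nil_zero (s : ℕ) : Nil (0 : Ext s) := ⟨0, rfl⟩

theorem isHom_sq1 {s t : ℕ} (x : Z s) (h : IsHom s t x.1) : IsHom (s + 1) (2 * t) (Sq1 s x).1 :=
  isHom_cup h

theorem up_Bd {s : ℕ} {t : ℤ} {f : RR Empty} {i k : ℕ} (hik : i ≤ k)
    (h : Bd s (2 ^ i * t) (f ^ 2 ^ i)) : Bd s (2 ^ k * t) (f ^ 2 ^ k) := by
  obtain ⟨c, rfl⟩ := Nat.exists_eq_add_of_le hik
  have h1 := h.pow c
  rw [← pow_mul, ← pow_add, ← mul_assoc, ← pow_add, add_comm c i] at h1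
  exact h1

/-- the Cartan formula and coboundaries -/
theorem Bd_cup_prod {a b : ℕ} {t u : ℤ} {f g : RR Empty} (hf : HC a t f) (hg : HC b u g) (m : ℕ)
    (h1 : Bd (a + 1) (2 ^ m * (2 * t)) (cupR a f ^ 2 ^ m))
    (h2 : Bd (b + 1) (2 ^ m * (2 * u)) (cupR b g ^ 2 ^ m)) :
    Bd (a + b + 1) (2 ^ m * (2 * (t + u))) (cupR (a + b) (f * shf Empty a g) ^ 2 ^ m) := by
  have g1 := Bd_prod_left h1 (hg.pow (m + 1))
  have g2 := Bd_prod_right (hf.pow (m + 1)) h2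
  have t1 : (2 : ℤ) ^ m * (2 * t) + 2 ^ (m + 1) * u = 2 ^ m * (2 * (t + u)) := by ring
  have t2 : (2 : ℤ) ^ (m + 1) * t + 2 ^ m * (2 * u) = 2 ^ m * (2 * (t + u)) := by ring
  rw [t1, show a + 1 + b = a + b + 1 by omega] at g1
  rw [t2, show a + (b + 1) = a + b + 1 by omega] at g2
  have g3 := g1.add g2
  have e : cupR (a + b) (f * shf Empty a g) ^ 2 ^ m
      = cupR a f ^ 2 ^ m * shf Empty (a + 1) (g ^ 2 ^ (m + 1))
        + f ^ 2 ^ (m + 1) * shf Empty a (cupR b g ^ 2 ^ m) := by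
    rw [cupR_prod hf.cu hf.cl hg.cu hg.cl, W624.Stz.add_pow0, mul_pow, mul_pow, ← pow_mul,
      ← pow_mul, map_pow, map_pow, pow_succ' 2 m]
  rw [e]
  exact g3

theorem jo_Sq1 {s : ℕ} (x : Z s) : jo (Sq1 s x).1 = cupR s (jo x.1) := jo_cup x.1

theorem jo_mulZ {a b : ℕ} (x : Z a) (y : Z b) :
    jo (mulZ x y).1 = jo x.1 * shf Empty a (jo y.1) := jo_mul x.1 y.1

theorem Nil_sq1_iff {s t : ℕ} (x : Z s) (h : IsHom s t x.1) :
    Nil (cl (Sq1 s x)) ↔ ∃ i, Bd (s + 1) (2 ^ i * (2 * (t : ℤ))) (cupR s (jo x.1) ^ 2 ^ i) := by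
  rw [Nil_iff _ (isHom_sq1 x h), jo_Sq1]
  push_cast
  exact Iff.rfl

/-- nilpotence of `Sq¹` passes to products -/
theorem nil_sq1_mul {a b t u : ℕ} {x : Z a} {y : Z b} (hx : IsHom a t x.1)
    (hy : IsHom b u y.1) (h1 : Nil (cl (Sq1 a x))) (h2 : Nil (cl (Sq1 b y))) :
    Nil (cl (Sq1 (a + b) (mulZ x y))) := by
  obtain ⟨i, hi⟩ := (Nil_sq1_iff x hx).mp h1
  obtain ⟨k, hk⟩ := (Nil_sq1_iff y hy).mp h2
  have h := Bd_cup_prod (HC_jo x hx) (HC_jo y hy) (max i k) (up_Bd (le_max_left i k) hi)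
    (up_Bd (le_max_right i k) hk)
  refine (Nil_sq1_iff (mulZ x y) (isHom_mul hx hy)).mpr ⟨max i k, ?_⟩
  rw [jo_mulZ]
  push_cast
  exact h

/-- **the criterion for products with a large gap** -/
theorem prod_crit (s s' : ℕ) : ∃ J : ℕ, ∀ t : ℕ, ∃ a₀ : ℕ, ∀ a, a₀ ≤ a →
    ∀ (t' : ℕ) (x : Z s) (y : Z (s' + 1)), IsHom s t x.1 → IsHom (s' + 1) t' y.1 →
    (Nil (cl (mulZ ((sqZ (s' + 1))^[a] y) x)) ↔ Nil (cl x) ∨ Nil (cl y)) ∧
    (¬ Nil (cl x) → ¬ Nil (cl y) →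
      (Nil (cl (Sq1 (s' + 1 + s) (mulZ ((sqZ (s' + 1))^[a] y) x))) ↔
        Nil (cl (Sq1 s x)) ∧ Nil (cl (Sq1 (s' + 1) y)))) ∧
    ∀ d₂ : (n : ℕ) → Ext n → Ext (n + 2), Bruner d₂ → ∀ j, J ≤ j →
      (d₂ (s' + 1 + s) ((Sq0 (s' + 1 + s))^[j] (cl (mulZ ((sqZ (s' + 1))^[a] y) x))) = 0 ↔
        Nil (cl x) ∨ Nil (cl y) ∨ (Nil (cl (Sq1 s x)) ∧ Nil (cl (Sq1 (s' + 1) y)))) := by
  obtain ⟨J0, hJ0⟩ := d2_crit (s' + 1 + s)
  obtain ⟨r, hr⟩ := nil_bound (s' + 1 + s)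
  refine ⟨J0 + r, fun t => ?_⟩
  obtain ⟨a1, ha1⟩ := nil_prod s s' t
  obtain ⟨a2, ha2⟩ := nil_sq1_prod s s' t
  refine ⟨a1 + a2, fun a ha t' x y hx hy => ?_⟩
  have hya : IsHom (s' + 1) (2 ^ a * t') ((sqZ (s' + 1))^[a] y).1 := isHom_iter y hy a
  have hz : IsHom (s' + 1 + s) (2 ^ a * t' + t) (mulZ ((sqZ (s' + 1))^[a] y) x).1 :=
    isHom_mul hya hx
  have hfwd : Nil (cl x) ∨ Nil (cl y) → Nil (cl (mulZ ((sqZ (s' + 1))^[a] y) x)) := by
    rintro (h | h)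
    · exact nil_mul_right hya hx h
    · exact nil_mul_left hya hx ((nil_sq_iter y a).mpr h)
  have hbwd : Nil (cl (mulZ ((sqZ (s' + 1))^[a] y) x)) → Nil (cl x) ∨ Nil (cl y) := by
    intro h
    rcases Nat.eq_zero_or_pos t' with h0 | h0
    · subst h0
      right
      rw [cl_deg0 s' y hy]
      exact nil_zero _
    · exact ha1 a (by omega) t' h0 x y hx hy h
  have hsq : ((sqZ (s' + 1 + 1))^[a] (Sq1 (s' + 1) y)) = Sq1 (s' + 1) ((sqZ (s' + 1))^[a] y) :=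
    (Sq1_iter y a).symm
  have hs1 : ¬ Nil (cl x) → ¬ Nil (cl y) →
      (Nil (cl (Sq1 (s' + 1 + s) (mulZ ((sqZ (s' + 1))^[a] y) x))) ↔
        Nil (cl (Sq1 s x)) ∧ Nil (cl (Sq1 (s' + 1) y))) := by
    intro nx ny
    constructor
    · intro h
      have h0 : 0 < t' := by
        rcases Nat.eq_zero_or_pos t' with h0 | h0
        · subst h0
          exact absurd (by rw [cl_deg0 s' y hy]; exact nil_zero _) ny
        · exact h0
      obtain ⟨h1, h2⟩ := ha2 a (by omega) t' h0 x y hx hy h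
      exact ⟨h2.resolve_left ny, h1.resolve_right nx⟩
    · rintro ⟨h1, h2⟩
      refine nil_sq1_mul hya hx ?_ h1
      rw [← hsq]
      exact (nil_sq_iter _ a).mpr h2
  refine ⟨⟨hbwd, hfwd⟩, hs1, fun d₂ hd j hj => ?_⟩
  have hc := hJ0 d₂ hd _ _ hz j (by omega)
  constructor
  · intro h
    by_cases nx : Nil (cl x)
    · exact Or.inl nx
    by_cases ny : Nil (cl y)
    · exact Or.inr (Or.inl ny)
    exact Or.inr (Or.inr ((hs1 nx ny).mp (hc.mp h)))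
  · intro h
    by_cases nz : Nil (cl x) ∨ Nil (cl y)
    · have h1 := hr _ (hfwd nz)
      rw [up_zero _ r j (by omega) h1]
      exact hd.zero _
    · rw [not_or] at nz
      rcases h with h | h | h
      · exact absurd h nz.1
      · exact absurd h nz.2
      · exact hc.mpr ((hs1 nz.1 nz.2).mpr h)

theorem hZ_iter (i m : ℕ) : (sqZ 1)^[m] (hZ i) = hZ (i + m) := by
  apply Subtype.ext
  rw [sqZ_iter]
  change (ξ (0 : Fin 1) 1 ^ 2 ^ i) ^ 2 ^ m = ξ (0 : Fin 1) 1 ^ 2 ^ (i + m)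
  rw [← pow_mul, ← pow_add]

theorem mulZ_iter {a b : ℕ} (x : Z a) (y : Z b) (m : ℕ) :
    (sqZ (a + b))^[m] (mulZ x y) = mulZ ((sqZ a)^[m] x) ((sqZ b)^[m] y) := by
  apply Subtype.ext
  rw [sqZ_iter]
  change mul x.1 y.1 ^ 2 ^ m = mul ((sqZ a)^[m] x).1 ((sqZ b)^[m] y).1
  rw [sqZ_iter, sqZ_iter, mul, mul, mul_pow, map_pow, map_pow]

theorem mon_iter (n : ℕ) (i : ℕ → ℕ) (m : ℕ) :
    (sqZ (n + 1))^[m] (mon n i) = mon n (fun k => i k + m) := by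
  induction n with
  | zero => exact hZ_iter _ _
  | succ n ih =>
    change (sqZ (n + 1 + 1))^[m] (mulZ (mon n i) (hZ (i (n + 1)))) = mulZ _ _
    rw [mulZ_iter, ih, hZ_iter]

theorem mon_congr (n : ℕ) (i i' : ℕ → ℕ) (h : ∀ k ≤ n, i k = i' k) : mon n i = mon n i' := by
  induction n with
  | zero =>
    change hZ (i 0) = hZ (i' 0)
    rw [h 0 le_rfl]
  | succ n ih =>
    change mulZ (mon n i) (hZ (i (n + 1))) = mulZ (mon n i') (hZ (i' (n + 1)))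
    rw [ih fun k hk => h k (by omega), h (n + 1) le_rfl]

theorem isHom_mon (n : ℕ) (i : ℕ → ℕ) : ∃ t, IsHom (n + 1) t (mon n i).1 := by
  induction n with
  | zero => exact ⟨_, isHom_hZ _⟩
  | succ n ih =>
    obtain ⟨t, ht⟩ := ih
    exact ⟨_, isHom_mul ht (isHom_hZ _)⟩

theorem gap_mono {A : ℕ} {n : ℕ} {i : ℕ → ℕ} (h : ∀ k < n, i (k + 1) + A ≤ i k) (k : ℕ)
    (hk : k ≤ n) : i n + (n - k) * A ≤ i k := by
  obtain ⟨c, rfl⟩ := Nat.exists_eq_add_of_le hk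
  induction c with
  | zero => simp
  | succ c ih =>
    have h1 := ih (fun m hm => h m (by omega)) (by omega)
    have h2 := h (k + c) (by omega)
    rw [show k + (c + 1) - k = (k + c - k) + 1 by omega, add_mul, one_mul]
    have h3 : i (k + (c + 1)) = i (k + c + 1) := rfl
    omega

/-- monomials in the Hopf classes with large gaps -/
theorem mon_not_nil (n : ℕ) : ∃ A : ℕ, ∀ i : ℕ → ℕ, (∀ k < n, i (k + 1) + A ≤ i k) →
    ¬ Nil (cl (mon n i)) ∧ ¬ Nil (cl (Sq1 (n + 1) (mon n i))) := by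
  induction n with
  | zero =>
    refine ⟨0, fun i _ => ?_⟩
    change ¬ Nil (cl (hZ (i 0))) ∧ ¬ Nil (cl (Sq1 1 (hZ (i 0))))
    refine ⟨not_nil_h _, ?_⟩
    have h1 : hZ (i 0) = (sqZ 1)^[i 0] (hZ 0) := by rw [hZ_iter, zero_add]
    rw [h1, Sq1_iter, nil_sq_iter]
    exact not_nil_sq1_h0
  | succ n ih =>
    obtain ⟨A, hA⟩ := ih
    obtain ⟨_, hJ⟩ := prod_crit 1 n
    obtain ⟨a₀, ha₀⟩ := hJ (2 ^ 0)
    refine ⟨A + a₀, fun i hi => ?_⟩
    set m := i (n + 1) with hm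
    let i' : ℕ → ℕ := fun k => i k - m - a₀
    have hge : ∀ k ≤ n, m + a₀ ≤ i k := by
      intro k hk
      have h1 := gap_mono hi k (by omega)
      have h2 : 1 ≤ n + 1 - k := by omega
      have h3 : 1 * (A + a₀) ≤ (n + 1 - k) * (A + a₀) := Nat.mul_le_mul_right _ h2
      omega
    have hi' : ∀ k < n, i' (k + 1) + A ≤ i' k := by
      intro k hk
      have h1 := hi k (by omega)
      have h2 := hge (k + 1) (by omega)
      simp only [i']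
      omega
    obtain ⟨n1, n2⟩ := hA i' hi'
    obtain ⟨t', ht'⟩ := isHom_mon n i'
    obtain ⟨c1, c2, _⟩ := ha₀ a₀ le_rfl t' (hZ 0) (mon n i') (isHom_hZ 0) ht'
    have hmon : mon (n + 1) i = (sqZ (n + 1 + 1))^[m]
        (mulZ ((sqZ (n + 1))^[a₀] (mon n i')) (hZ 0)) := by
      rw [mulZ_iter, mon_iter, mon_iter, hZ_iter, zero_add]
      change mulZ (mon n i) (hZ (i (n + 1))) = _
      rw [mon_congr n i _ fun k hk => ?_]
      have := hge k hk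
      simp only [i']
      omega
    rw [hmon, nil_sq_iter, Sq1_iter, nil_sq_iter]
    refine ⟨fun h => ?_, fun h => ?_⟩
    · rcases c1.mp h with h1 | h1
      · exact not_nil_h 0 h1
      · exact n1 h1
    · exact n2 ((c2 (not_nil_h 0) n1).mp h).2

end Pool.Agent.H59K
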