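import Pool.Agent.H59K.KI

/-!
# Degrees of non-zero classes, and a compactness argument
-/

set_option autoImplicit false
set_option linter.unusedSectionVars false

namespace Pool.Agent.H59K

open Finset MvPolynomial Pool.Agent.W624.Stz

section sgn

/-- `u` is a sum of at most `M` signed powers of two -/
def Sgn : ℕ → ℤ → Prop
  | 0, u => u = 0
  | M + 1, u => Sgn M u ∨ ∃ γ : ℕ, Sgn M (u - 2 ^ γ) ∨ Sgn M (u + 2 ^ γ)

theorem Sgn.succ {M : ℕ} {u : ℤ} (h : Sgn M u) : Sgn (M + 1) u := Or.inl h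

theorem Sgn.mono {M M' : ℕ} (hM : M ≤ M') {u : ℤ} (h : Sgn M u) : Sgn M' u := by
  induction hM with
  | refl => exact h
  | step _ ih => exact ih.succ

theorem Sgn.zero (M : ℕ) : Sgn M 0 := Sgn.mono (Nat.zero_le M) (rfl : Sgn 0 0)

theorem Sgn.add_one {M : ℕ} {u : ℤ} (h : Sgn M (u - 1)) : Sgn (M + 1) u :=
  Or.inr ⟨0, Or.inl (by rwa [pow_zero])⟩

theorem Sgn.sub_one {M : ℕ} {u : ℤ} (h : Sgn M (u + 1)) : Sgn (M + 1) u :=
  Or.inr ⟨0, Or.inr (by rwa [pow_zero])⟩

theorem Sgn.add_nat {M : ℕ} (d : ℕ) {u : ℤ} (h : Sgn M (u - d)) : Sgn (M + d) u := by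
  induction d generalizing u with
  | zero => simpa using h
  | succ d ih =>
    apply Sgn.add_one
    apply ih
    rwa [show u - 1 - (d : ℤ) = u - ((d + 1 : ℕ) : ℤ) by push_cast; ring]

theorem Sgn.sub_nat {M : ℕ} (d : ℕ) {u : ℤ} (h : Sgn M (u + d)) : Sgn (M + d) u := by
  induction d generalizing u with
  | zero => simpa using h
  | succ d ih =>
    apply Sgn.sub_one
    apply ih
    rwa [show u + 1 + (d : ℤ) = u + ((d + 1 : ℕ) : ℤ) by push_cast; ring]

theorem Sgn.two_mul {M : ℕ} {u : ℤ} (h : Sgn M u) : Sgn M (2 * u) := by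
  induction M generalizing u with
  | zero =>
    have : u = 0 := h
    rw [this]
    rfl
  | succ M ih =>
    rcases h with h | ⟨γ, h | h⟩
    · exact Or.inl (ih h)
    · refine Or.inr ⟨γ + 1, Or.inl ?_⟩
      have := ih h
      rwa [show 2 * (u - 2 ^ γ) = 2 * u - 2 ^ (γ + 1) by ring] at this
    · refine Or.inr ⟨γ + 1, Or.inr ?_⟩
      have := ih h
      rwa [show 2 * (u + 2 ^ γ) = 2 * u + 2 ^ (γ + 1) by ring] at this

/-- compactness -/
theorem sgn_compact (M : ℕ) : ∀ R : ℤ → ℕ, ∃ W : Finset ℤ, ∀ u, Sgn M u →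
    ∃ w ∈ W, (2 : ℤ) ^ R w ∣ u - w := by
  classical
  induction M with
  | zero =>
    intro R
    refine ⟨{0}, fun u hu => ⟨0, mem_singleton_self _, ?_⟩⟩
    have : u = 0 := hu
    rw [this]; simp
  | succ M ih =>
    intro R
    obtain ⟨W0, hW0⟩ := ih R
    choose Wc hWc using fun c : ℤ => ih (fun w => R (w + c))
    let G := W0.sup R
    refine ⟨W0 ∪ (range G).biUnion (fun γ =>
      (Wc (2 ^ γ)).image (fun w => w + 2 ^ γ) ∪ (Wc (-2 ^ γ)).image (fun w => w + -2 ^ γ)),
      fun u hu => ?_⟩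
    have key : ∀ (γ : ℕ) (ε : ℤ), (ε = 2 ^ γ ∨ ε = -2 ^ γ) → Sgn M (u - ε) → ∃ w ∈ W0 ∪
        (range G).biUnion (fun γ =>
      (Wc (2 ^ γ)).image (fun w => w + 2 ^ γ) ∪ (Wc (-2 ^ γ)).image (fun w => w + -2 ^ γ)),
        (2 : ℤ) ^ R w ∣ u - w := by
      intro γ ε hε hs
      obtain ⟨w, hw, hd⟩ := hW0 _ hs
      rcases Nat.lt_or_ge γ (R w) with hlt | hge
      · obtain ⟨w', hw', hd'⟩ := hWc ε (u - ε) hs
        refine ⟨w' + ε, mem_union_right _ (mem_biUnion.mpr ⟨γ, ?_, ?_⟩), ?_⟩
        · rw [mem_range]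
          exact lt_of_lt_of_le hlt (Finset.le_sup (f := R) hw)
        · rcases hε with rfl | rfl
          · exact mem_union_left _ (mem_image_of_mem _ hw')
          · exact mem_union_right _ (mem_image_of_mem _ hw')
        · rwa [show u - (w' + ε) = u - ε - w' by ring]
      · refine ⟨w, mem_union_left _ hw, ?_⟩
        have h1 : (2 : ℤ) ^ R w ∣ ε := by
          rcases hε with rfl | rfl
          · exact pow_dvd_pow 2 hge
          · exact (dvd_neg).mpr (pow_dvd_pow 2 hge)
        have h2 := dvd_add hd h1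
        rwa [show u - ε - w + ε = u - w by ring] at h2
    rcases hu with h | ⟨γ, h | h⟩
    · obtain ⟨w, hw, hd⟩ := hW0 u h
      exact ⟨w, mem_union_left _ hw, hd⟩
    · exact key γ _ (Or.inl rfl) h
    · exact key γ _ (Or.inr rfl) (by rwa [sub_neg_eq_add])

end sgn

section vanish

/-- exactness in one degree, untwisted -/
def EU (p n : ℕ) (t : ℤ) : Prop := ∀ (K : Type) [Fintype K] (ν : K → ℕ), ∑ c, ν c = n →
  Ex (kun : K → Kd) p t ν 0

/-- exactness in one degree, twisted -/
def ET (p n j : ℕ) (t : ℤ) : Prop := ∀ (K : Type) [Fintype K] (ν : K → ℕ), ∑ c, ν c = n →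
  Ex (ktw : K → Kd) p t ν j

theorem stepB1 {p n : ℕ} {t : ℤ} (hQ : ∀ k : ℕ, k ≤ p → ET (p - k) n (1 + k) (t + 1 + k))
    (hA : ∀ t', t = 2 * t' → EU p n t') : ET p n 0 t := by
  intro K _ ν hν f hf hdf
  obtain ⟨g, h, hg, hDg, hdg, hh, hfe⟩ := liftT hf (by rw [hdf, map_zero])
    (fun k hk => hQ k hk K ν hν)
  have claim : ∃ h', TT ktw (p - 1) t ν 0 h' ∧ dm ktw p h' = g := by
    rcases PHI_root hg hDg with h0 | ⟨t', ht', z, hz, hzg⟩
    · exact ⟨0, TT.zero, by rw [map_zero, h0]⟩
    · have hdz : dd kun p z = 0 := by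
        apply PHI_inj
        rw [PHI_dd, hzg, hdg, hdf]
      obtain ⟨z', hz', hdz'⟩ := hA t' ht' K ν hν z hz hdz
      refine ⟨PHI K z', ?_, by rw [← PHI_dm, hdz', hzg]⟩
      rw [ht']
      exact TT_PHI hz'
  obtain ⟨h', hh', hdh'⟩ := claim
  exact ⟨h' + h, hh'.add hh, by rw [map_add, hdh', ← hfe]⟩

theorem stepA1 {p n : ℕ} {t : ℤ} (h : ∀ d : ℕ, d ≤ n → ET p (n - d) 0 (t - d)) :
    EU p n t := by
  intro K _ ν hν f hf hdf
  have hR := Rel_SU (naf_un (K := K))
  refine BB p _ kun naf_un t ν le_rfl ?_ f hf hdf ?_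
  · intro d hd1 hd2 ν' hν'
    exact h d (by omega) K ν' (by omega)
  · have h0 := h 0 (Nat.zero_le _) K ν (by omega)
    rw [Nat.cast_zero, sub_zero] at h0
    exact h0 (PI (SU kun) f) (hf.PI hR) (by rw [← PI_dd hR, hdf, map_zero])

theorem stepQ1 : ∀ p, (∀ p' < p, ∀ (n : ℕ) (t : ℤ), ¬ Sgn (n + 2 * p') t → ET p' n 0 t) →
    ∀ j : ℕ, 1 ≤ j → ∀ (n : ℕ) (t : ℤ), ¬ Sgn (n + j + 2 * p - 2) t → ET p n j t := by
  intro p
  induction p with
  | zero =>
    intro _ j hj n t _ K _ ν _
    exact LemT0 t ν j hj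
  | succ p ih =>
    intro H j hj n t hw
    have hp := H p (Nat.lt_succ_self p)
    have ihp := ih fun p' hp' => H p' (by omega)
    intro K _ ν hν
    refine LemT p t ν j hj fun i hi1 hi2 => ?_
    rcases Nat.lt_or_ge i j with hlt | hge
    · exact ihp (j - i) (by omega) (n + i) t (fun h => hw (h.mono (by omega))) (Option K) (nx ν i)
        (by rw [sum_nx, hν])
    · have : i = j := by omega
      subst this
      rw [Nat.sub_self]
      exact hp (n + i) t (fun h => hw (h.mono (by omega))) (Option K) (nx ν i)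
        (by rw [sum_nx, hν])

/-- **vanishing**: in level `p` there is cohomology only in degrees which are sums of `2 p` signed
powers of two -/
theorem vanish : ∀ p : ℕ, (∀ (n : ℕ) (t : ℤ), ¬ Sgn (n + 2 * p) t → EU p n t) ∧
    (∀ (n : ℕ) (t : ℤ), ¬ Sgn (n + 2 * p) t → ET p n 0 t) := by
  intro p
  induction p using Nat.strong_induction_on with
  | _ p ih =>
    have hQ : ∀ j : ℕ, 1 ≤ j → ∀ q, q ≤ p → ∀ (n : ℕ) (t : ℤ), ¬ Sgn (n + j + 2 * q - 2) t →
        ET q n j t := fun j hj q hq n t ht =>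
      stepQ1 q (fun p' hp' => (ih p' (by omega)).2) j hj n t ht
    have hB : ∀ (n : ℕ) (t : ℤ), ¬ Sgn (n + 2 * p) t → (∀ t', t = 2 * t' → EU p n t') →
        ET p n 0 t := by
      intro n t ht hA
      refine stepB1 (fun k hk => ?_) hA
      rcases Nat.eq_zero_or_pos (p - k) with h2 | h2
      · rw [h2]
        exact fun K _ ν _ => LemT0 _ ν (1 + k) (by omega)
      apply hQ (1 + k) (by omega) (p - k) (by omega)
      intro h
      apply ht
      have h1 : Sgn (n + (1 + k) + 2 * (p - k) - 2) (t + ((1 + k : ℕ) : ℤ)) := by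
        rwa [show t + ((1 + k : ℕ) : ℤ) = t + 1 + k by push_cast; ring]
      exact (h1.sub_nat (1 + k)).mono (by omega)
    have hA : ∀ (n : ℕ) (t : ℤ), ¬ Sgn (n + 2 * p) t → EU p n t := by
      intro n
      induction n using Nat.strong_induction_on with
      | _ n ihn =>
        have hB' : ∀ n', n' < n → ∀ t : ℤ, ¬ Sgn (n' + 2 * p) t → ET p n' 0 t :=
          fun n' hn' t ht => hB n' t ht fun t' ht' => ihn n' hn' t' (fun h => ht (by
            rw [ht']; exact h.two_mul))
        have key : ∀ (m : ℕ) (t : ℤ), t.natAbs ≤ m → ¬ Sgn (n + 2 * p) t → EU p n t := by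
          intro m
          induction m with
          | zero =>
            intro t hm ht
            have : t = 0 := by omega
            subst this
            exact absurd (Sgn.zero _) ht
          | succ m ihm =>
            intro t hm ht
            have ht0 : t ≠ 0 := fun h => ht (by rw [h]; exact Sgn.zero _)
            apply stepA1
            intro d hd
            rcases Nat.eq_zero_or_pos d with h0 | h0
            · subst h0
              rw [Nat.sub_zero, Nat.cast_zero, sub_zero]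
              exact hB n t ht fun t' ht' => ihm t' (by omega) (fun h => ht (by
                rw [ht']; exact h.two_mul))
            · refine hB' (n - d) (by omega) (t - d) fun h => ht ?_
              exact (h.add_nat d).mono (by omega)
        intro t ht
        exact key t.natAbs t le_rfl ht
    exact ⟨hA, fun n t ht => hB n t ht fun t' ht' => hA n t' (fun h => ht (by
      rw [ht']; exact h.two_mul))⟩

/-- classes in other degrees vanish -/
theorem HC_vanish {s : ℕ} {u : ℤ} {f : RR Empty} (hf : HC s u f) (h : ¬ Sgn (2 * s) u) :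
    Bd s u f := by
  have := (vanish s).1 0 u (by rwa [zero_add]) Empty 0 (by simp) f ⟨hf.cu, hf.iw⟩ hf.cl
  exact this

end vanish

end Pool.Agent.H59K
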