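import Pool.Agent.H59K.KK
import Mathlib.RingTheory.WittVector.Verschiebung
import Mathlib.RingTheory.WittVector.Teichmuller

/-!
# `Sq¹` as the Bockstein of the Witt vectors of length two

The Witt vectors of the cobar complex give: `Sq¹` is additive and well defined on classes, and
`Sq¹ Sq¹ = 0`.
-/

set_option autoImplicit false
set_option linter.unusedSectionVars false

namespace Pool.Agent.H59K

open Finset MvPolynomial Pool.Agent.W624.Stz

section coef

/-- lifting to characteristic zero -/
theorem witt_add_one {R : Type*} [CommRing R] (A B : WittVector 2 R) :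
    (A + B).coeff 1 = A.coeff 1 + B.coeff 1 - A.coeff 0 * B.coeff 0 := by
  let φ : MvPolynomial R ℤ →+* R := eval₂Hom (Int.castRingHom R) id
  have hφ : ∀ r : R, φ (X r) = r := fun r => eval₂Hom_X' _ _ _
  let A' : WittVector 2 (MvPolynomial R ℤ) := WittVector.mk 2 (fun n => X (A.coeff n))
  let B' : WittVector 2 (MvPolynomial R ℤ) := WittVector.mk 2 (fun n => X (B.coeff n))
  have hA : WittVector.map φ A' = A := by
    ext n
    rw [WittVector.map_coeff]
    exact hφ _
  have hB : WittVector.map φ B' = B := by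
    ext n
    rw [WittVector.map_coeff]
    exact hφ _
  have hg : ∀ C : WittVector 2 (MvPolynomial R ℤ),
      WittVector.ghostComponent 1 C = 2 * C.coeff 1 + C.coeff 0 ^ 2 := by
    intro C
    rw [WittVector.ghostComponent_apply, wittPolynomial_one]
    simp
  have h1 := map_add (WittVector.ghostComponent (p := 2) 1) A' B'
  rw [hg, hg, hg, WittVector.add_coeff_zero] at h1
  have h2 : (A' + B').coeff 1 = A'.coeff 1 + B'.coeff 1 - A'.coeff 0 * B'.coeff 0 := by
    have h3 : (2 : MvPolynomial R ℤ) ≠ 0 := two_ne_zero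
    apply mul_left_cancel₀ h3
    linear_combination h1
  have h4 := congrArg φ h2
  rw [← WittVector.map_coeff, map_add (WittVector.map φ), hA, hB, map_sub, map_add, map_mul,
    ← WittVector.map_coeff, ← WittVector.map_coeff, ← WittVector.map_coeff,
    ← WittVector.map_coeff, hA, hB] at h4
  exact h4

theorem witt_neg_zero {R : Type*} [CommRing R] (A : WittVector 2 R) :
    (-A).coeff 0 = - A.coeff 0 := map_neg (WittVector.constantCoeff (p := 2)) A

theorem witt_sub_zero {R : Type*} [CommRing R] (A B : WittVector 2 R) :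
    (A - B).coeff 0 = A.coeff 0 - B.coeff 0 := map_sub (WittVector.constantCoeff (p := 2)) A B

theorem witt_neg_one {R : Type*} [CommRing R] (A : WittVector 2 R) :
    (-A).coeff 1 = - A.coeff 1 - A.coeff 0 ^ 2 := by
  have h := witt_add_one A (-A)
  rw [add_neg_cancel, WittVector.zero_coeff, witt_neg_zero] at h
  linear_combination -h

end coef

section dw

/-- the faces as ring homomorphisms -/
noncomputable def De (q j : ℕ) : RR Empty →+* RR Empty :=
  (ev (fc (act (kun : Empty → Kd)) q j (uni Empty))).toRingHom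

theorem De_apply (q j : ℕ) (f : RR Empty) :
    De q j f = ev (fc (act (kun : Empty → Kd)) q j (uni Empty)) f := rfl

theorem cut_De {q : ℕ} (j : ℕ) {f : RR Empty} (hf : cut Empty q f = f) :
    cut Empty (q + 1) (De q j f) = De q j f := by
  apply cut_of_dep
  intro z z' hz
  simp only [De_apply, ev_map, mP_fc, mP_uni]
  exact dep_of_cut hf _ _ (agr_fc hz)

/-- the differential of the Witt vectors -/
noncomputable def dW (q : ℕ) : WittVector 2 (RR Empty) →+ WittVector 2 (RR Empty) :=
  ∑ j ∈ range (q + 2), ((-1 : ℤ) ^ j) • (WittVector.map (De q j) : _ →+* _).toAddMonoidHom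

theorem dW_apply (q : ℕ) (A : WittVector 2 (RR Empty)) :
    dW q A = ∑ j ∈ range (q + 2), ((-1 : ℤ) ^ j) • WittVector.map (De q j) A := by
  rw [dW, AddMonoidHom.finsetSum_apply]
  rfl

/-- all coefficients live in level `q` -/
def CW (q : ℕ) (A : WittVector 2 (RR Empty)) : Prop := ∀ n, cut Empty q (A.coeff n) = A.coeff n

theorem CW_iff {q : ℕ} {A : WittVector 2 (RR Empty)} :
    CW q A ↔ WittVector.map (cut Empty q).toRingHom A = A := by
  constructor
  · intro h
    refine WittVector.ext fun n => ?_
    rw [WittVector.map_coeff]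
    exact h n
  · intro h n
    have := congrArg (fun B => WittVector.coeff B n) h
    simp only [WittVector.map_coeff] at this
    exact this

theorem CW.add {q : ℕ} {A B : WittVector 2 (RR Empty)} (hA : CW q A) (hB : CW q B) :
    CW q (A + B) := by
  rw [CW_iff] at *
  rw [map_add, hA, hB]

theorem CW.zsmul {q : ℕ} {A : WittVector 2 (RR Empty)} (c : ℤ) (hA : CW q A) :
    CW q (c • A) := by
  rw [CW_iff] at *
  rw [map_zsmul, hA]

theorem CW.neg {q : ℕ} {A : WittVector 2 (RR Empty)} (hA : CW q A) : CW q (-A) := by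
  rw [CW_iff] at *
  rw [map_neg, hA]

theorem CW.sub {q : ℕ} {A B : WittVector 2 (RR Empty)} (hA : CW q A) (hB : CW q B) :
    CW q (A - B) := by
  rw [sub_eq_add_neg]
  exact hA.add hB.neg

theorem CW.sum {ι : Type*} {q : ℕ} (S : Finset ι) (A : ι → WittVector 2 (RR Empty))
    (h : ∀ i ∈ S, CW q (A i)) : CW q (∑ i ∈ S, A i) := by
  simp only [CW_iff] at *
  rw [map_sum]
  exact sum_congr rfl h

theorem CW.map {q : ℕ} {A : WittVector 2 (RR Empty)} (j : ℕ) (hA : CW q A) :
    CW (q + 1) (WittVector.map (De q j) A) := by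
  intro n
  rw [WittVector.map_coeff]
  exact cut_De j (hA n)

theorem CW.dW {q : ℕ} {A : WittVector 2 (RR Empty)} (hA : CW q A) : CW (q + 1) (dW q A) := by
  rw [dW_apply]
  exact CW.sum _ _ fun j _ => (hA.map j).zsmul _

theorem CW.teich {q : ℕ} {f : RR Empty} (hf : cut Empty q f = f) :
    CW q (WittVector.teichmuller 2 f) := by
  intro n
  cases n with
  | zero => exact hf
  | succ n => exact map_zero _

theorem dW_dW {q : ℕ} {A : WittVector 2 (RR Empty)} (hA : CW q A) : dW (q + 1) (dW q A) = 0 := by
  have h := W624.ND.alt_pair (q + 1)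
    (fun i j => ((-1 : ℤ) ^ i * (-1) ^ j) • WittVector.map (De (q + 1) i)
      (WittVector.map (De q j) A)) (by
      intro i j hij hj
      have h1 : WittVector.map (De (q + 1) i) (WittVector.map (De q j) A)
          = WittVector.map (De (q + 1) (j + 1)) (WittVector.map (De q i) A) := by
        refine WittVector.ext fun n => ?_
        simp only [WittVector.map_coeff]
        exact W624.ND.del_del hij hj (hA n)
      simp only [h1, ← neg_smul]
      congr 1
      ring)
  rw [← h, dW_apply]
  refine sum_congr rfl fun i _ => ?_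
  rw [dW_apply, map_sum, smul_sum]
  refine sum_congr rfl fun j _ => ?_
  rw [map_zsmul, smul_smul]

theorem dW_V (q : ℕ) (A : WittVector 2 (RR Empty)) :
    dW q (WittVector.verschiebung A) = WittVector.verschiebung (dW q A) := by
  rw [dW_apply, dW_apply, map_sum]
  refine sum_congr rfl fun j _ => ?_
  rw [map_zsmul, WittVector.map_verschiebung]

theorem exists_V {q : ℕ} {A : WittVector 2 (RR Empty)} (hA : CW q A) (h : A.coeff 0 = 0) :
    ∃ B, CW q B ∧ A = WittVector.verschiebung B := by
  refine ⟨WittVector.mk 2 (fun n => A.coeff (n + 1)), fun n => hA (n + 1), ?_⟩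
  refine WittVector.ext fun n => ?_
  cases n with
  | zero => exact h
  | succ n => rfl

theorem dW_zero (q : ℕ) (A : WittVector 2 (RR Empty)) :
    (dW q A).coeff 0 = dd kun q (A.coeff 0) := by
  have h1 : (dW q A).coeff 0 = WittVector.constantCoeff (dW q A) := rfl
  rw [h1, dW_apply, map_sum, dd_apply]
  refine sum_congr rfl fun j _ => ?_
  rw [map_zsmul]
  have h2 : WittVector.constantCoeff (WittVector.map (De q j) A) = De q j (A.coeff 0) := rfl
  rw [h2, De_apply]
  set g := ev (fc (act (kun : Empty → Kd)) q j (uni Empty)) (A.coeff 0)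
  rcases Nat.even_or_odd j with hj | hj
  · rw [hj.neg_one_pow, one_smul]
  · rw [hj.neg_one_pow, neg_smul, one_smul]
    exact CharTwo.neg_eq g

/-- alternating sums of Teichmüller elements -/
noncomputable def AS (u : ℕ → RR Empty) (n : ℕ) : WittVector 2 (RR Empty) :=
  ∑ j ∈ range n, ((-1 : ℤ) ^ j) • WittVector.teichmuller 2 (u j)

theorem AS_zero (u : ℕ → RR Empty) (n : ℕ) : (AS u n).coeff 0 = ES u 0 n + ES u 1 n := by
  induction n with
  | zero => simp [AS, ES]
  | succ n ih =>
    rw [AS, sum_range_succ, WittVector.add_coeff_zero]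
    change (AS u n).coeff 0 + _ = _
    rw [ih, ES_succ, ES_succ]
    rcases Nat.even_or_odd n with hn | hn
    · rw [hn.neg_one_pow, one_smul, if_pos (by rw [Nat.even_iff.mp hn]),
        if_neg (by rw [Nat.even_iff.mp hn]; norm_num), WittVector.teichmuller_coeff_zero]
      ring
    · rw [hn.neg_one_pow, neg_smul, one_smul, if_neg (by rw [Nat.odd_iff.mp hn]; norm_num),
        if_pos (by rw [Nat.odd_iff.mp hn]), witt_neg_zero, WittVector.teichmuller_coeff_zero,
        CharTwo.neg_eq]
      ring

theorem AS_one (u : ℕ → RR Empty) (n : ℕ) :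
    (AS u n).coeff 1 = PS u n + ES u 0 n * ES u 1 n + (ES u 1 n) ^ 2 := by
  have h2 : (2 : RR Empty) = 0 := two_zero
  induction n with
  | zero => simp [AS, ES, PS]
  | succ n ih =>
    rw [AS, sum_range_succ, witt_add_one]
    change (AS u n).coeff 1 + _ - (AS u n).coeff 0 * _ = _
    rw [ih, AS_zero, PS_succ, ES_succ, ES_succ]
    rcases Nat.even_or_odd n with hn | hn
    · rw [hn.neg_one_pow, one_smul, if_pos (by rw [Nat.even_iff.mp hn]),
        if_neg (by rw [Nat.even_iff.mp hn]; norm_num), WittVector.teichmuller_coeff_zero,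
        WittVector.teichmuller_coeff_pos 2 (u n) 1 one_pos,
        ES_mod u (show n % 2 = 0 % 2 by rw [Nat.even_iff.mp hn])]
      linear_combination (-(u n * (ES u 0 n + ES u 1 n))) * h2
    · rw [hn.neg_one_pow, neg_smul, one_smul, if_neg (by rw [Nat.odd_iff.mp hn]; norm_num),
        if_pos (by rw [Nat.odd_iff.mp hn]), witt_neg_zero, witt_neg_one,
        WittVector.teichmuller_coeff_zero, WittVector.teichmuller_coeff_pos 2 (u n) 1 one_pos,
        ES_mod u (show n % 2 = 1 % 2 by rw [Nat.odd_iff.mp hn])]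
      linear_combination (-(u n ^ 2 + u n * ES u 1 n)) * h2

/-- the Bockstein formula -/
theorem dW_one {q : ℕ} {x : RR Empty} (h : dd kun q x = 0) :
    (dW q (WittVector.teichmuller 2 x)).coeff 1 = cupR q x := by
  have h1 : dW q (WittVector.teichmuller 2 x) = AS (fun j => De q j x) (q + 2) := by
    rw [dW_apply, AS]
    refine sum_congr rfl fun j _ => ?_
    rw [WittVector.map_teichmuller]
  have h2 : (2 : RR Empty) = 0 := two_zero
  rw [h1, AS_one]
  have h3 := ES_sum (fun j => De q j x) 0 (q + 2)
  have h4 : ∑ i ∈ range (q + 2), De q i x = 0 := by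
    rw [← h, dd_apply]
    rfl
  rw [h4, zero_add] at h3
  have h5 : cupR q x = PS (fun j => De q j x) (q + 2) := rfl
  rw [h5]
  linear_combination ES (fun j => De q j x) 1 (q + 2) * h3

theorem V_one (A : WittVector 2 (RR Empty)) : (WittVector.verschiebung A).coeff 1 = A.coeff 0 :=
  rfl

theorem V_zero (A : WittVector 2 (RR Empty)) : (WittVector.verschiebung A).coeff 0 = 0 := rfl

/-- `Sq¹` of a coboundary -/
theorem cup_dd {q : ℕ} {g : RR Empty} (hg : cut Empty q g = g) :
    ∃ h, cut Empty (q + 1) h = h ∧ dd kun (q + 1) h = cupR (q + 1) (dd kun q g) := by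
  set x := dd kun q g with hx
  have hxc : cut Empty (q + 1) x = x := cut_dd _ hg
  have hxd : dd kun (q + 1) x = 0 := dd_dd _ hg
  have h1 : CW (q + 1) (dW q (WittVector.teichmuller 2 g) - WittVector.teichmuller 2 x) :=
    (CW.teich hg).dW.sub (CW.teich hxc)
  obtain ⟨B, hB, hBe⟩ := exists_V h1 (by
    rw [witt_sub_zero, dW_zero, WittVector.teichmuller_coeff_zero,
      WittVector.teichmuller_coeff_zero, sub_self])
  refine ⟨B.coeff 0, hB 0, ?_⟩
  have h2 : dW (q + 1) (WittVector.teichmuller 2 x)
      = - WittVector.verschiebung (dW (q + 1) B) := by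
    have h3 : WittVector.teichmuller 2 x = dW q (WittVector.teichmuller 2 g)
        - WittVector.verschiebung B := by rw [← hBe]; abel
    rw [h3, map_sub, dW_dW (CW.teich hg), dW_V, zero_sub]
  have h4 : (dW (q + 1) (WittVector.teichmuller 2 x)).coeff 1
      = (- WittVector.verschiebung (dW (q + 1) B)).coeff 1 := by rw [h2]
  rw [dW_one hxd, witt_neg_one, V_one, V_zero, dW_zero, CharTwo.neg_eq] at h4
  rw [h4]
  ring

/-- `Sq¹` is additive on classes -/
theorem cup_add {q : ℕ} {x y : RR Empty} (hx : cut Empty q x = x) (hy : cut Empty q y = y)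
    (hdx : dd kun q x = 0) (hdy : dd kun q y = 0) :
    ∃ h, cut Empty q h = h ∧ dd kun q h = cupR q (x + y) + cupR q x + cupR q y := by
  have hxy : cut Empty q (x + y) = x + y := by rw [map_add, hx, hy]
  have hdxy : dd kun q (x + y) = 0 := by rw [map_add, hdx, hdy, add_zero]
  have h1 : CW q (WittVector.teichmuller 2 (x + y)
      - (WittVector.teichmuller 2 x + WittVector.teichmuller 2 y)) :=
    (CW.teich hxy).sub ((CW.teich hx).add (CW.teich hy))
  obtain ⟨B, hB, hBe⟩ := exists_V h1 (by
    rw [witt_sub_zero, WittVector.add_coeff_zero, WittVector.teichmuller_coeff_zero,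
      WittVector.teichmuller_coeff_zero, WittVector.teichmuller_coeff_zero, sub_self])
  refine ⟨B.coeff 0, hB 0, ?_⟩
  have h2 : dW q (WittVector.teichmuller 2 (x + y))
      = (dW q (WittVector.teichmuller 2 x) + dW q (WittVector.teichmuller 2 y))
        + WittVector.verschiebung (dW q B) := by
    have h3 : WittVector.teichmuller 2 (x + y) = (WittVector.teichmuller 2 x
        + WittVector.teichmuller 2 y) + WittVector.verschiebung B := by rw [← hBe]; abel
    rw [h3, map_add, map_add, dW_V]
  have h4 : (dW q (WittVector.teichmuller 2 (x + y))).coeff 1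
      = ((dW q (WittVector.teichmuller 2 x) + dW q (WittVector.teichmuller 2 y))
        + WittVector.verschiebung (dW q B)).coeff 1 := by rw [h2]
  rw [witt_add_one, witt_add_one, dW_one hdxy, dW_one hdx, dW_one hdy, V_one, V_zero,
    dW_zero, dW_zero, WittVector.teichmuller_coeff_zero, hdx] at h4
  have h5 : (2 : RR Empty) = 0 := two_zero
  have h6 := dW_zero q B
  rw [h4]
  linear_combination (-(cupR q x + cupR q y)) * h5 - h6

/-- `Sq¹ Sq¹ = 0` -/
theorem cup_cup {q : ℕ} {x : RR Empty} (hx : cut Empty q x = x) (hdx : dd kun q x = 0) :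
    ∃ h, cut Empty (q + 1) h = h ∧ dd kun (q + 1) h = cupR (q + 1) (cupR q x) := by
  obtain ⟨Y, hY, hYe⟩ := exists_V (CW.teich hx).dW (by
    rw [dW_zero, WittVector.teichmuller_coeff_zero, hdx])
  have hY0 : Y.coeff 0 = cupR q x := by
    rw [← V_one, ← hYe, dW_one hdx]
  have hdY : dW (q + 1) Y = 0 := by
    apply WittVector.verschiebung_injective 2 (RR Empty)
    rw [← dW_V, ← hYe, dW_dW (CW.teich hx), map_zero]
  have hdy : dd kun (q + 1) (cupR q x) = 0 := by
    have : (dW (q + 1) Y).coeff 0 = (0 : WittVector 2 (RR Empty)).coeff 0 := by rw [hdY]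
    rwa [dW_zero, hY0, WittVector.zero_coeff] at this
  have hyc : cut Empty (q + 1) (cupR q x) = cupR q x := by
    rw [← hY0]; exact hY 0
  obtain ⟨B, hB, hBe⟩ := exists_V (hY.sub (CW.teich hyc)) (by
    rw [witt_sub_zero, hY0, WittVector.teichmuller_coeff_zero, sub_self])
  refine ⟨B.coeff 0, hB 0, ?_⟩
  have h2 : dW (q + 1) (WittVector.teichmuller 2 (cupR q x))
      = - WittVector.verschiebung (dW (q + 1) B) := by
    have h3 : WittVector.teichmuller 2 (cupR q x) = Y - WittVector.verschiebung B := by
      rw [← hBe]; abel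
    rw [h3, map_sub, hdY, dW_V, zero_sub]
  have h4 : (dW (q + 1) (WittVector.teichmuller 2 (cupR q x))).coeff 1
      = (- WittVector.verschiebung (dW (q + 1) B)).coeff 1 := by rw [h2]
  rw [dW_one hdy, witt_neg_one, V_one, V_zero, dW_zero, CharTwo.neg_eq] at h4
  rw [h4]
  ring

end dw

end Pool.Agent.H59K
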