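import Pool.Agent.H59K.KN
import Pool.Agent.H59K.KP

/-!
# The two halves of the Künneth theorem, and `Sq¹` on classes
-/

set_option autoImplicit false
set_option linter.unusedSectionVars false

namespace Pool.Agent.H59K

open Finset MvPolynomial Pool.Agent.W624.Stz

section bd

theorem Bd_of_dd {s : ℕ} {t : ℤ} {f g : RR Empty} (hf : TT kun (s + 1) t (0 : Empty → ℕ) 0 f)
    (hg : cut Empty s g = g) (h : dd kun s g = f) : Bd (s + 1) t f := by
  refine ⟨cm (wF kun) (t, ((0 : Empty → ℕ), 0)) g, ⟨?_, cm_IW _ _ _⟩, ?_⟩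
  · rw [Nat.add_sub_cancel, ← Pool.Agent.W624.Stz.cm_cut, hg]
  · change dd kun s _ = f
    rw [← Pool.Agent.W624.Stz.cm_dd naf_un, h]
    exact cm_same hf.iw

theorem HC.TT {s : ℕ} {t : ℤ} {f : RR Empty} (hf : HC s t f) :
    W624.Stz.TT kun s t (0 : Empty → ℕ) 0 f := ⟨hf.cu, hf.iw⟩

theorem HC.add {s : ℕ} {t : ℤ} {f g : RR Empty} (hf : HC s t f) (hg : HC s t g) :
    HC s t (f + g) := mem_ZS.mp ((ZS s t).add_mem (mem_ZS.mpr hf) (mem_ZS.mpr hg))

theorem HC.zero' {s : ℕ} {t : ℤ} : HC s t 0 := mem_ZS.mp (ZS s t).zero_mem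

theorem HC.smul {s : ℕ} {t : ℤ} {f : RR Empty} (c : ZMod 2) (hf : HC s t f) :
    HC s t (c • f) := mem_ZS.mp ((ZS s t).smul_mem c (mem_ZS.mpr hf))

theorem HC.sum {s : ℕ} {t : ℤ} {ι : Type*} (S : Finset ι) {f : ι → RR Empty}
    (h : ∀ i ∈ S, HC s t (f i)) : HC s t (∑ i ∈ S, f i) :=
  mem_ZS.mp ((ZS s t).sum_mem fun i hi => mem_ZS.mpr (h i hi))

theorem Bd.HC {s : ℕ} {t : ℤ} {f : RR Empty} (hf : Bd s t f) : HC s t f := by
  refine ⟨hf.TT.cu, hf.TT.iw, ?_⟩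
  obtain ⟨g, hg, rfl⟩ := hf
  exact dd_dm _ hg.cu

theorem Bd.sum {s : ℕ} {t : ℤ} {ι : Type*} (S : Finset ι) {f : ι → RR Empty}
    (h : ∀ i ∈ S, Bd s t (f i)) : Bd s t (∑ i ∈ S, f i) := by
  classical
  induction S using Finset.induction_on with
  | empty => rw [sum_empty]; exact Bd.zero
  | insert a S ha ih =>
    rw [sum_insert ha]
    exact (h a (mem_insert_self _ _)).add (ih fun i hi => h i (mem_insert_of_mem hi))

theorem Bd.smul {s : ℕ} {t : ℤ} {f : RR Empty} (c : ZMod 2) (hf : Bd s t f) :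
    Bd s t (c • f) := by
  have h1 : ∀ c : ZMod 2, c = 0 ∨ c = 1 := by decide
  rcases h1 c with rfl | rfl
  · rw [zero_smul]; exact Bd.zero
  · rw [one_smul]; exact hf

/-- cohomologous elements -/
theorem Bd.of_add {s : ℕ} {t : ℤ} {f g : RR Empty} (h : Bd s t (f + g)) (hg : Bd s t g) :
    Bd s t f := by
  have := h.add hg
  rwa [add_assoc, p2_add_self, add_zero] at this

/-- `Sq¹` of a coboundary is a coboundary -/
theorem Bd_cup {s : ℕ} {t : ℤ} {f : RR Empty} (h : Bd s t f) : Bd (s + 1) (2 * t) (cupR s f) := by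
  have hT := TT_cup h.TT
  obtain ⟨g, hg, rfl⟩ := h
  cases s with
  | zero =>
    have h1 : dm (kun : Empty → Kd) 0 g = 0 := rfl
    rw [h1]
    have h2 : cupR 0 (0 : RR Empty) = 0 := by
      rw [cupR, PS]
      refine sum_eq_zero fun j _ => sum_eq_zero fun i _ => ?_
      rw [map_zero, zero_mul, ite_self]
    rw [h2]
    exact Bd.zero
  | succ s =>
    obtain ⟨h, hh1, hh2⟩ := cup_dd (q := s) (g := g) hg.cu
    exact Bd_of_dd hT hh1 hh2

theorem Bd_cup_add {s : ℕ} {t : ℤ} {f g : RR Empty} (hf : HC s t f) (hg : HC s t g) :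
    Bd (s + 1) (2 * t) (cupR s (f + g) + cupR s f + cupR s g) := by
  obtain ⟨h, hh1, hh2⟩ := cup_add hf.cu hg.cu hf.cl hg.cl
  exact Bd_of_dd (((TT_cup (hf.add hg).TT).add (TT_cup hf.TT)).add (TT_cup hg.TT)) hh1 hh2

theorem Bd_cup_cup {s : ℕ} {t : ℤ} {f : RR Empty} (hf : HC s t f) :
    Bd (s + 2) (2 * (2 * t)) (cupR (s + 1) (cupR s f)) := by
  obtain ⟨h, hh1, hh2⟩ := cup_cup hf.cu hf.cl
  exact Bd_of_dd (TT_cup (TT_cup hf.TT)) hh1 hh2

theorem cupR_zero (s : ℕ) : cupR s (0 : RR Empty) = 0 := by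
  rw [cupR, PS]
  refine sum_eq_zero fun j _ => sum_eq_zero fun i _ => ?_
  rw [map_zero, zero_mul, ite_self]

theorem Bd_cup_sum {s : ℕ} {t : ℤ} {ι : Type*} (S : Finset ι) {f : ι → RR Empty}
    (h : ∀ i ∈ S, HC s t (f i)) :
    Bd (s + 1) (2 * t) (cupR s (∑ i ∈ S, f i) + ∑ i ∈ S, cupR s (f i)) := by
  classical
  induction S using Finset.induction_on with
  | empty => rw [sum_empty, sum_empty, cupR_zero, add_zero]; exact Bd.zero
  | insert a S ha ih =>
    rw [sum_insert ha, sum_insert ha]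
    have h1 := ih fun i hi => h i (mem_insert_of_mem hi)
    have h2 := Bd_cup_add (h a (mem_insert_self _ _))
      (HC.sum S fun i hi => h i (mem_insert_of_mem hi))
    have h3 := h2.add h1
    have h4 := p2_add_self (cupR s (∑ i ∈ S, f i))
    have h5 : cupR s (f a + ∑ i ∈ S, f i) + cupR s (f a) + cupR s (∑ i ∈ S, f i)
        + (cupR s (∑ i ∈ S, f i) + ∑ i ∈ S, cupR s (f i))
        = cupR s (f a + ∑ i ∈ S, f i) + (cupR s (f a) + ∑ i ∈ S, cupR s (f i)) := by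
      linear_combination h4
    rwa [h5] at h3

end bd

section cone

variable {D : Dat} {N s : ℕ} {w : ℤ}

theorem SS_Empty (F : D.I → RR Empty) :
    SS D Empty N F = ∑ i, D.z i ^ 2 ^ N * shf Empty (D.σ i + 1) (F i) := by
  rw [SS_apply]
  refine sum_congr rfl fun i _ => ?_
  rw [ZZ, inK_Empty]

/-- Künneth theorem, surjectivity -/
theorem surj_cone (hE : KU D N (s + 1) 0 w) {z : RR Empty}
    (hz : HC (s + 1) (w + 2 ^ N * D.t0) z) :
    ∃ x : D.I → RR Empty, (∀ i, HC (s - D.σ i) w (x i)) ∧ (∀ i, s < D.σ i → x i = 0) ∧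
      Bd (s + 1) (w + 2 ^ N * D.t0)
        (z + ∑ i, D.z i ^ 2 ^ N * shf Empty (D.σ i + 1) (x i)) := by
  obtain ⟨H, hH, hdH⟩ := hE Empty 0 (by simp) (z, 0) ⟨hz.TT, fun _ => TT.zero, fun _ _ => rfl⟩ (by
    refine Prod.ext ?_ (funext fun i => ?_)
    · rw [DD_fst]
      change dd kun (s + 1) z + SS D Empty N 0 = 0
      rw [hz.cl, map_zero, add_zero]
    · rw [DD_snd]
      change dd kun _ 0 = 0
      exact map_zero _)
  have h1 : dd kun s H.1 + SS D Empty N H.2 = z := congrArg Prod.fst hdH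
  have h2 : ∀ i, dd kun (s - D.σ i) (H.2 i) = 0 := fun i => congrFun (congrArg Prod.snd hdH) i
  refine ⟨H.2, fun i => ⟨(hH.b i).cu, (hH.b i).iw, h2 i⟩, fun i hi => hH.c i hi, H.1, hH.a, ?_⟩
  change dd kun s H.1 = _
  rw [← SS_Empty, ← h1, add_assoc, p2_add_self, add_zero]

/-- Künneth theorem, injectivity -/
theorem inj_cone (hE : KU D N s 0 w) {X : D.I → RR Empty}
    (hX : ∀ i, HC (s - D.σ i) w (X i)) (hX0 : ∀ i, s < D.σ i → X i = 0)
    (hB : Bd (s + 1) (w + 2 ^ N * D.t0) (∑ i, D.z i ^ 2 ^ N * shf Empty (D.σ i + 1) (X i))) :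
    ∀ i, Bd (s - D.σ i) w (X i) := by
  obtain ⟨q, hq, hdq⟩ := hB
  have hdq' : dd kun s q = SS D Empty N X := by rw [SS_Empty]; exact hdq
  have hF : TC D kun N s w (0 : Empty → ℕ) 0 (q, X) := ⟨hq, fun i => (hX i).TT, hX0⟩
  obtain ⟨H, hH, hdH⟩ := hE Empty 0 (by simp) (q, X) hF (by
    refine Prod.ext ?_ (funext fun i => ?_)
    · rw [DD_fst, hdq']
      exact p2_add_self _
    · rw [DD_snd]
      exact (hX i).cl)
  intro i
  cases s with
  | zero =>
    have h1 : (0 : RR Empty) = X i := congrFun (congrArg Prod.snd hdH) i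
    rw [← h1]
    exact Bd.zero
  | succ s =>
    have h1 : dd kun (s - D.σ i) (H.2 i) = X i := congrFun (congrArg Prod.snd hdH) i
    rcases Nat.lt_or_ge s (D.σ i) with h2 | h2
    · rw [← h1, hH.c i h2, map_zero]
      exact Bd.zero
    · have hT := hH.b i
      rw [show s + 1 - 1 - D.σ i = s - D.σ i by omega] at hT
      rw [show s + 1 - D.σ i = s - D.σ i + 1 by omega]
      exact ⟨H.2 i, hT, h1⟩

end cone

end Pool.Agent.H59K
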