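import Pool.Agent.H59K.KO

/-!
# The stable range, and bases adapted to `Sq¹`
-/

set_option autoImplicit false
set_option linter.unusedSectionVars false

namespace Pool.Agent.H59K

open Finset MvPolynomial Pool.Agent.W624.Stz

section stab

/-- `Sq⁰` is bijective in the degrees `t` and `2 t`, up to level `L` -/
structure Stab (L : ℕ) (t : ℤ) : Prop where
  inj : ∀ n, n ≤ L → ∀ f, HC n t f → Bd n (2 * t) (f ^ 2) → Bd n t f
  inj2 : ∀ n, n ≤ L → ∀ f, HC n (2 * t) f → Bd n (2 * (2 * t)) (f ^ 2) → Bd n (2 * t) f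
  surj : ∀ n, n ≤ L → ∀ g, HC n (2 * t) g → ∃ f, HC n t f ∧ Bd n (2 * t) (g + f ^ 2)

theorem HC_level0 {t : ℤ} (ht : t ≠ 0) {f : RR Empty} (hf : HC 0 t f) : f = 0 :=
  zero_of_level0 ht hf.TT

theorem inj_line (s : ℕ) : ∃ r, ∀ t : ℤ, (2 : ℤ) ^ r ∣ t → ∀ f, HC (s + 1) t f →
    Bd (s + 1) (2 * t) (f ^ 2) → Bd (s + 1) t f := by
  obtain ⟨r, hr⟩ := exists_r s
  refine ⟨r, fun t ht f hf hB => ?_⟩
  obtain ⟨g, hg, hdg⟩ := hB
  obtain ⟨z', hz', hdz'⟩ := inj_step hr ht hf.TT (y := g) (by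
    rw [kk]
    exact hg) (by
    rw [kk, PHI_sq]
    exact hdg)
  exact ⟨z', hz', hdz'⟩

theorem const_prod {s : ℕ} {t : ℤ} {a b : RR Empty} {k : ℕ} (ha : HC (k + 1) t a)
    (hb : HC (s - k) 0 b) (hks : k < s) :
    Bd (s + 1) t (a * shf Empty (k + 1) b) := by
  obtain ⟨m, hm⟩ : ∃ m, s - k = m + 1 := ⟨s - k - 1, by omega⟩
  rw [hm] at hb
  have h1 := dd_const (const_of_TT hb.TT) hb.cl
  have hbT : TT kun m 0 (0 : Empty → ℕ) 0 b := by
    rcases const_of_TT hb.TT with h | h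
    · rw [h]; exact TT.zero
    · rw [h]; exact ⟨map_one _, IW.one' _⟩
  have h2 : Bd (m + 1) 0 b := ⟨b, hbT, h1⟩
  have h3 := Bd_prod_right ha h2
  rwa [add_zero, show k + 1 + (m + 1) = s + 1 by omega] at h3

theorem surj_line (s : ℕ) : ∃ r, ∀ t : ℤ, t ≠ 0 → (2 : ℤ) ^ r ∣ t → ∀ g, HC (s + 1) (2 * t) g →
    ∃ f, HC (s + 1) t f ∧ Bd (s + 1) (2 * t) (g + f ^ 2) := by
  classical
  obtain ⟨r, hr⟩ := mainc 1 (s + 1) 0 0 (by norm_num)
  refine ⟨r, fun t ht0 ht g hg => ?_⟩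
  obtain ⟨D, hDt, hDB⟩ := exists_Bas t (s + 1)
  have ht' : D.t0 = t := hDt
  have hG := good_of_Bas hDB (by rw [ht']; exact ht0)
  have hE := hr D (by rw [ht']; exact ht) hG
  have hg' : HC (s + 1) (0 + 2 ^ 1 * D.t0) g := by
    rw [ht']
    simpa using hg
  obtain ⟨x, hx, hx0, hB⟩ := surj_cone hE hg'
  rw [ht', show (0 : ℤ) + 2 ^ 1 * t = 2 * t by ring] at hB
  let c : D.I → ZMod 2 := fun i => if D.σ i = s then (if x i = 0 then 0 else 1) else 0
  have hc : ∀ i, D.σ i = s → x i = C (c i) := by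
    intro i hi
    simp only [c]
    rw [if_pos hi]
    have h1 := hx i
    rw [hi, Nat.sub_self] at h1
    rcases const_of_TT h1.TT with h | h
    · rw [if_pos h, h, C_0]
    · rw [if_neg (by rw [h]; exact one_ne_zero), h, C_1]
  have hci : ∀ a : ZMod 2, a ^ 2 = a := by decide
  refine ⟨∑ i, c i • D.z i, ?_, ?_⟩
  · refine HC.sum _ fun i _ => ?_
    by_cases hi : D.σ i = s
    · have := D.hz i
      rw [hi, ht'] at this
      exact this.smul _
    · have : c i = 0 := if_neg hi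
      rw [this, zero_smul]
      exact HC.zero'
  · have h1 : Bd (s + 1) (2 * t)
        (∑ i, (D.z i ^ 2 ^ 1 * shf Empty (D.σ i + 1) (x i) + (c i • D.z i) ^ 2)) := by
      refine Bd.sum _ fun i _ => ?_
      rcases lt_trichotomy (D.σ i) s with h | h | h
      · have hc0 : c i = 0 := if_neg (by omega)
        rw [hc0, zero_smul, zero_pow two_ne_zero, add_zero]
        have h2 := (D.hz i).pow 1
        rw [ht', pow_one, ← pow_one (2 : ℤ)] at h2
        refine const_prod (k := D.σ i) (by simpa using h2) (hx i) h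
      · have h6 : D.z i ^ 2 ^ 1 * shf Empty (D.σ i + 1) (x i) = (c i • D.z i) ^ 2 := by
          rw [hc i h, algHom_C, algebraMap_eq, smul_pow, hci, pow_one, smul_eq_C_mul]
          exact mul_comm _ _
        rw [h6, p2_add_self]
        exact Bd.zero
      · have hc0 : c i = 0 := if_neg (by omega)
        rw [hc0, zero_smul, zero_pow two_ne_zero, add_zero, hx0 i h, map_zero, mul_zero]
        exact Bd.zero
    have h2 := hB.add h1
    rw [sum_add_distrib] at h2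
    have h3 : (∑ i, c i • D.z i) ^ 2 = ∑ i, (c i • D.z i) ^ 2 := by
      have := sum_pow0 univ (fun i => c i • D.z i) 1
      rwa [pow_one] at this
    rw [h3]
    have h4 := p2_add_self (∑ i, D.z i ^ 2 ^ 1 * shf Empty (D.σ i + 1) (x i))
    have h5 : g + ∑ i, D.z i ^ 2 ^ 1 * shf Empty (D.σ i + 1) (x i)
        + (∑ i, D.z i ^ 2 ^ 1 * shf Empty (D.σ i + 1) (x i) + ∑ i, (c i • D.z i) ^ 2)
        = g + ∑ i, (c i • D.z i) ^ 2 := by
      linear_combination h4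
    rwa [h5] at h2

theorem exists_Stab (L : ℕ) : ∃ m, ∀ t : ℤ, t ≠ 0 → (2 : ℤ) ^ m ∣ t → Stab L t := by
  obtain ⟨r1, h1⟩ := fin_max (fun n r => ∀ t : ℤ, (2 : ℤ) ^ r ∣ t → ∀ f, HC (n + 1) t f →
    Bd (n + 1) (2 * t) (f ^ 2) → Bd (n + 1) t f)
    (fun i r r' h hq t ht => hq t (dvd_trans (pow_dvd_pow 2 h) ht)) L (fun n _ => inj_line n)
  obtain ⟨r2, h2⟩ := fin_max (fun n r => ∀ t : ℤ, t ≠ 0 → (2 : ℤ) ^ r ∣ t →
    ∀ g, HC (n + 1) (2 * t) g → ∃ f, HC (n + 1) t f ∧ Bd (n + 1) (2 * t) (g + f ^ 2))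
    (fun i r r' h hq t ht0 ht => hq t ht0 (dvd_trans (pow_dvd_pow 2 h) ht)) L
    (fun n _ => surj_line n)
  refine ⟨r1 + r2, fun t ht0 ht => ⟨fun n hn f hf hB => ?_, fun n hn f hf hB => ?_,
    fun n hn g hg => ?_⟩⟩
  · cases n with
    | zero => rw [HC_level0 ht0 hf]; exact Bd.zero
    | succ n => exact h1 n (by omega) t (dvd_trans (pow_dvd_pow 2 (by omega)) ht) f hf hB
  · cases n with
    | zero => rw [HC_level0 (by omega) hf]; exact Bd.zero
    | succ n =>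
      exact h1 n (by omega) (2 * t) ((dvd_trans (pow_dvd_pow 2 (by omega)) ht).mul_left 2) f hf hB
  · cases n with
    | zero =>
      refine ⟨0, HC.zero', ?_⟩
      rw [HC_level0 (by omega) hg, zero_pow two_ne_zero, add_zero]
      exact Bd.zero
    | succ n => exact h2 n (by omega) t ht0 (dvd_trans (pow_dvd_pow 2 (by omega)) ht) g hg

end stab

end Pool.Agent.H59K
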