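import Pool.Agent.H59K.KQ

/-!
# Bases adapted to `Sq¹`
-/

set_option autoImplicit false
set_option linter.unusedSectionVars false

namespace Pool.Agent.H59K

open Finset MvPolynomial Pool.Agent.W624.Stz

section rel

theorem rel_basis (Z B : Submodule (ZMod 2) (RR Empty)) (hZ : Finite Z) :
    ∃ (m : ℕ) (b : Fin m → RR Empty), (∀ i, b i ∈ Z) ∧
      (∀ f ∈ Z, ∃ c : Fin m → ZMod 2, f + ∑ i, c i • b i ∈ B) ∧
      (∀ c : Fin m → ZMod 2, ∑ i, c i • b i ∈ B → c = 0) := by
  set Q := Z ⧸ B.submoduleOf Z with hQ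
  have : Module.Finite (ZMod 2) Q := by
    have : Module.Finite (ZMod 2) Z := Module.Finite.of_finite
    infer_instance
  let B' := Module.finBasis (ZMod 2) Q
  let π := (B.submoduleOf Z).mkQ
  have hπ : Function.Surjective π := Submodule.mkQ_surjective _
  choose l hl using fun i => hπ (B' i)
  have hker : ∀ x : Z, π x = 0 ↔ (x : RR Empty) ∈ B := by
    intro x
    have h1 : π x = 0 ↔ x ∈ B.submoduleOf Z := by
      rw [← LinearMap.mem_ker, Submodule.ker_mkQ]
    rw [h1]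
    exact Iff.rfl
  refine ⟨Module.finrank (ZMod 2) Q, fun i => (l i : RR Empty), fun i => (l i).2,
    fun f hf => ?_, fun c hc => ?_⟩
  · set x : Z := ⟨f, hf⟩ with hx
    refine ⟨fun i => B'.repr (π x) i, ?_⟩
    have h1 : π (x + ∑ i, B'.repr (π x) i • l i) = 0 := by
      rw [map_add, map_sum]
      simp only [map_smul, hl]
      rw [B'.sum_repr]
      have h2 : ∀ q : Q, q + q = 0 := by
        intro q
        have h3 : (2 : ZMod 2) • q = 0 := by
          rw [show (2 : ZMod 2) = 0 from rfl, zero_smul]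
        rwa [two_smul] at h3
      exact h2 _
    have h2 := (hker _).mp h1
    simpa using h2
  · have h1 : π (∑ i, c i • l i) = 0 := by
      rw [hker]
      simpa using hc
    rw [map_sum] at h1
    simp only [map_smul, hl] at h1
    have h2 := Fintype.linearIndependent_iff.mp B'.linearIndependent c h1
    exact funext h2

/-- coboundaries -/
noncomputable def BB (n : ℕ) (t : ℤ) : Submodule (ZMod 2) (RR Empty) where
  carrier := {f | Bd n t f}
  zero_mem' := Bd.zero
  add_mem' := fun ha hb => ha.add hb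
  smul_mem' := fun c _ hf => hf.smul c

theorem zm2_cases {P : ZMod 2 → Prop} (h0 : P 0) (h1 : P 1) (c : ZMod 2) : P c := by
  have h : ∀ c : ZMod 2, c = 0 ∨ c = 1 := by decide
  rcases h c with rfl | rfl
  · exact h0
  · exact h1

/-- `Sq¹` of cohomologous cocycles -/
theorem cup_congr {s : ℕ} {t : ℤ} {a b : RR Empty} (ha : HC s t a) (hb : HC s t b)
    (h : Bd s t (a + b)) : Bd (s + 1) (2 * t) (cupR s a + cupR s b) := by
  have h1 := (Bd_cup_add ha hb).add (Bd_cup h)
  have h2 := p2_add_self (cupR s (a + b))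
  have h3 : cupR s (a + b) + cupR s a + cupR s b + cupR s (a + b) = cupR s a + cupR s b := by
    linear_combination h2
  rwa [h3] at h1

/-- cocycles killed by `Sq¹` -/
noncomputable def KK1 (n : ℕ) (t : ℤ) : Submodule (ZMod 2) (RR Empty) where
  carrier := {f | HC n t f ∧ Bd (n + 1) (2 * t) (cupR n f)}
  zero_mem' := ⟨HC.zero', by rw [cupR_zero]; exact Bd.zero⟩
  add_mem' := by
    rintro a b ⟨ha1, ha2⟩ ⟨hb1, hb2⟩
    refine ⟨ha1.add hb1, ?_⟩
    have h1 := ((Bd_cup_add ha1 hb1).add ha2).add hb2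
    have h2 := p2_add_self (cupR n a + cupR n b)
    have h3 : cupR n (a + b) + cupR n a + cupR n b + cupR n a + cupR n b = cupR n (a + b) := by
      linear_combination h2
    rwa [h3] at h1
  smul_mem' := by
    intro c f hf
    revert c
    apply zm2_cases
    · rw [zero_smul]
      exact ⟨HC.zero', by rw [cupR_zero]; exact Bd.zero⟩
    · rw [one_smul]; exact hf

theorem sq_add (a b : RR Empty) : (a + b) ^ 2 = a ^ 2 + b ^ 2 := by
  have := add_pow0 a b 1
  rwa [pow_one] at this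

/-- cocycles of level `n + 1` which are stably `Sq¹` of something -/
noncomputable def II (n : ℕ) (t : ℤ) : Submodule (ZMod 2) (RR Empty) where
  carrier := {g | HC (n + 1) t g ∧ ∃ f, HC n t f ∧ Bd (n + 1) (2 * t) (cupR n f + g ^ 2)}
  zero_mem' := ⟨HC.zero', 0, HC.zero', by
    rw [cupR_zero, zero_pow two_ne_zero, add_zero]; exact Bd.zero⟩
  add_mem' := by
    rintro a b ⟨ha1, f, hf1, hf2⟩ ⟨hb1, g, hg1, hg2⟩
    refine ⟨ha1.add hb1, f + g, hf1.add hg1, ?_⟩
    have h1 := ((Bd_cup_add hf1 hg1).add hf2).add hg2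
    have h2 := p2_add_self (cupR n f + cupR n g)
    have h3 : cupR n (f + g) + cupR n f + cupR n g + (cupR n f + a ^ 2) + (cupR n g + b ^ 2)
        = cupR n (f + g) + (a + b) ^ 2 := by
      rw [sq_add]
      linear_combination h2
    rwa [h3] at h1
  smul_mem' := by
    intro c f hf
    revert c
    apply zm2_cases
    · rw [zero_smul]
      exact ⟨HC.zero', 0, HC.zero', by
        rw [cupR_zero, zero_pow two_ne_zero, add_zero]; exact Bd.zero⟩
    · rw [one_smul]; exact hf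

theorem cup_of_sq {n : ℕ} {t : ℤ} {f g : RR Empty} {L : ℕ} (hS : Stab L t) (hn : n + 2 ≤ L)
    (hf : HC n t f) (hg : HC (n + 1) t g) (h : Bd (n + 1) (2 * t) (cupR n f + g ^ 2)) :
    Bd (n + 2) (2 * t) (cupR (n + 1) g) := by
  have hg2 : HC (n + 1) (2 * t) (g ^ 2) := by simpa using hg.pow 1
  have h1 := cup_congr (HC_cup hf) hg2 h
  have h2 := h1.add (Bd_cup_cup hf)
  have h3 := p2_add_self (cupR (n + 1) (cupR n f))
  have h4 : cupR (n + 1) (cupR n f) + cupR (n + 1) (g ^ 2) + cupR (n + 1) (cupR n f)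
      = cupR (n + 1) (g ^ 2) := by linear_combination h3
  rw [h4] at h2
  have h5 : cupR (n + 1) (g ^ 2) = (cupR (n + 1) g) ^ 2 := by
    have := cupR_pow (n + 1) 1 g
    rwa [pow_one] at this
  rw [h5] at h2
  exact hS.inj2 (n + 2) hn _ (HC_cup hg) h2

theorem II_le {n : ℕ} {t : ℤ} {L : ℕ} (hS : Stab L t) (hn : n + 2 ≤ L) :
    II n t ≤ KK1 (n + 1) t := by
  rintro g ⟨hg, f, hf, h⟩
  exact ⟨hg, cup_of_sq hS hn hf hg h⟩

theorem BB_le (n : ℕ) (t : ℤ) : BB (n + 1) t ≤ II n t := by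
  intro g hg
  have hg' : Bd (n + 1) t g := hg
  refine ⟨hg'.HC, 0, HC.zero', ?_⟩
  rw [cupR_zero, zero_add]
  simpa using hg'.pow 1

/-- a basis adapted to `Sq¹` -/
structure AD (t : ℤ) where
  A : Type
  fA : Fintype A
  B : Type
  fB : Fintype B
  σA : A → ℕ
  σB : B → ℕ
  h : A → RR Empty
  c : B → RR Empty
  e : B → RR Empty
  hh : ∀ a, HC (σA a + 1) t (h a)
  hc : ∀ b, HC (σB b + 1) t (c b)
  he : ∀ b, HC (σB b + 2) t (e b)
  h1 : ∀ a, Bd (σA a + 2) (2 * t) (cupR (σA a + 1) (h a))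
  c1 : ∀ b, Bd (σB b + 2) (2 * t) (cupR (σB b + 1) (c b) + e b ^ 2)
  e1 : ∀ b, Bd (σB b + 3) (2 * t) (cupR (σB b + 2) (e b))

attribute [instance] AD.fA AD.fB

/-- the underlying family -/
def AD.D {t : ℤ} (E : AD t) : Dat where
  I := E.A ⊕ (E.B ⊕ E.B)
  fin := inferInstance
  σ := Sum.elim E.σA (Sum.elim E.σB (fun b => E.σB b + 1))
  z := Sum.elim E.h (Sum.elim E.c E.e)
  t0 := t
  hz := by
    rintro (a | b | b)
    · exact E.hh a
    · exact E.hc b
    · exact E.he b

theorem AD.sum {t : ℤ} (E : AD t) {M : Type*} [AddCommMonoid M] (F : E.D.I → M) :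
    ∑ i, F i = ∑ a : E.A, F (.inl a) + (∑ b : E.B, F (.inr (.inl b))
      + ∑ b : E.B, F (.inr (.inr b))) := by
  have h1 : ∑ i, F i = ∑ a : E.A, F (.inl a) + ∑ b : E.B ⊕ E.B, F (.inr b) :=
    Fintype.sum_sum_type F
  rw [h1, Fintype.sum_sum_type]

theorem sig_sum {P p : ℕ} (hp : p < P + 1) {m : ℕ → ℕ}
    (c : (Σ n : Fin (P + 1), Fin (m n)) → ZMod 2) (z : ∀ n, Fin (m n) → RR Empty)
    (hc : ∀ i, (i.1 : ℕ) ≠ p → c i = 0) :
    ∑ i, c i • z i.1 i.2 = ∑ i : Fin (m p), c ⟨⟨p, hp⟩, i⟩ • z p i := by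
  have h1 : ∑ i, c i • z i.1 i.2 = ∑ s : Fin (P + 1), ∑ i : Fin (m s), c ⟨s, i⟩ • z s i :=
    Fintype.sum_sigma (fun i : (Σ n : Fin (P + 1), Fin (m n)) => c i • z i.1 i.2)
  rw [h1, Finset.sum_eq_single (⟨p, hp⟩ : Fin (P + 1))]
  · intro s _ hs
    refine sum_eq_zero fun i _ => ?_
    rw [hc ⟨s, i⟩ (fun h => hs (Fin.ext h)), zero_smul]
  · intro h
    exact absurd (mem_univ _) h

theorem sig_ext {P p : ℕ} (hp : p < P + 1) {m : ℕ → ℕ} (a : Fin (m p) → ZMod 2) :
    ∃ c : (Σ n : Fin (P + 1), Fin (m n)) → ZMod 2, (∀ i, (i.1 : ℕ) ≠ p → c i = 0) ∧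
      ∀ i, c ⟨⟨p, hp⟩, i⟩ = a i := by
  classical
  refine ⟨fun i => if h : (i.1 : ℕ) = p then a (Fin.cast (by rw [h]) i.2) else 0,
    fun i hi => dif_neg hi, fun i => ?_⟩
  exact dif_pos rfl

end rel

section adapted

theorem mem_sum_smul {V : Submodule (ZMod 2) (RR Empty)} {ι : Type*} [Fintype ι]
    (c : ι → ZMod 2) {z : ι → RR Empty} (h : ∀ i, z i ∈ V) : ∑ i, c i • z i ∈ V :=
  V.sum_mem fun i _ => V.smul_mem _ (h i)

theorem mem_of_add {V : Submodule (ZMod 2) (RR Empty)} {a b : RR Empty} (h : a + b ∈ V)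
    (hb : b ∈ V) : a ∈ V := by
  have := V.add_mem h hb
  rwa [add_assoc, p2_add_self, add_zero] at this

/-- `Sq¹` of a combination of the `c`'s -/
theorem cup_comb {n : ℕ} {t : ℤ} {ι : Type*} [Fintype ι] (a : ι → ZMod 2) {c e : ι → RR Empty}
    (hc : ∀ i, HC n t (c i)) (h : ∀ i, Bd (n + 1) (2 * t) (cupR n (c i) + e i ^ 2)) :
    Bd (n + 1) (2 * t) (cupR n (∑ i, a i • c i) + (∑ i, a i • e i) ^ 2) := by
  have h1 := Bd_cup_sum (s := n) (t := t) univ (f := fun i => a i • c i)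
    (fun i _ => (hc i).smul _)
  have h2 : Bd (n + 1) (2 * t) (∑ i, (cupR n (a i • c i) + (a i • e i) ^ 2)) := by
    refine Bd.sum _ fun i _ => ?_
    generalize a i = x
    revert x
    apply zm2_cases
    · rw [zero_smul, zero_smul, cupR_zero, zero_pow two_ne_zero, add_zero]
      exact Bd.zero
    · rw [one_smul, one_smul]
      exact h i
  have h3 := h1.add h2
  rw [sum_add_distrib] at h3
  have h4 : (∑ i, a i • e i) ^ 2 = ∑ i, (a i • e i) ^ 2 := by
    have := sum_pow0 univ (fun i => a i • e i) 1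
    rwa [pow_one] at this
  rw [h4]
  have h5 := p2_add_self (∑ i, cupR n (a i • c i))
  have h6 : cupR n (∑ i, a i • c i) + ∑ i, cupR n (a i • c i)
      + (∑ i, cupR n (a i • c i) + ∑ i, (a i • e i) ^ 2)
      = cupR n (∑ i, a i • c i) + ∑ i, (a i • e i) ^ 2 := by
    linear_combination h5
  rwa [h6] at h3

theorem exists_AD (P : ℕ) {t : ℤ} (ht : t ≠ 0) (hS : Stab (P + 3) t) :
    ∃ E : AD t, Bas E.D P := by
  classical
  have hfin : ∀ (n : ℕ) (V : Submodule (ZMod 2) (RR Empty)), V ≤ ZS n t → Finite V := by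
    intro n V hV
    have h1 : (V : Set (RR Empty)).Finite :=
      Set.Finite.subset (finite_TT n t) (fun f hf => (hV hf).1)
    exact h1.to_subtype
  have hKZ : ∀ n, KK1 n t ≤ ZS n t := fun n f hf => mem_ZS.mpr hf.1
  choose mh h hh1 hh2 hh3 using fun n => rel_basis (KK1 (n + 1) t) (II n t)
    (hfin (n + 1) _ (hKZ (n + 1)))
  choose mc c hc1 hc2 hc3 using fun n => rel_basis (ZS (n + 1) t) (KK1 (n + 1) t)
    (hfin (n + 1) _ le_rfl)
  have hc1' : ∀ n i, HC (n + 1) t (c n i) := fun n i => mem_ZS.mp (hc1 n i)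
  have hex : ∀ n i, ∃ e, n ≤ P → HC (n + 2) t e ∧
      Bd (n + 2) (2 * t) (cupR (n + 1) (c n i) + e ^ 2) := by
    intro n i
    by_cases hn : n ≤ P
    · obtain ⟨e, he1, he2⟩ := hS.surj (n + 2) (by omega) _ (HC_cup (hc1' n i))
      exact ⟨e, fun _ => ⟨he1, he2⟩⟩
    · exact ⟨0, fun h => absurd h hn⟩
  choose e he using hex
  have hle : ∀ n : Fin (P + 1), (n : ℕ) ≤ P := fun n => Nat.lt_succ_iff.mp n.2
  have heI : ∀ n, n ≤ P → ∀ i, e n i ∈ II (n + 1) t := fun n hn i =>
    ⟨(he n i hn).1, c n i, hc1' n i, (he n i hn).2⟩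
  let E : AD t :=
    { A := Σ n : Fin (P + 1), Fin (mh n)
      fA := inferInstance
      B := Σ n : Fin (P + 1), Fin (mc n)
      fB := inferInstance
      σA := fun i => (i.1 : ℕ)
      σB := fun i => (i.1 : ℕ)
      h := fun i => h i.1 i.2
      c := fun i => c i.1 i.2
      e := fun i => e i.1 i.2
      hh := fun i => (hh1 i.1 i.2).1
      hc := fun i => hc1' i.1 i.2
      he := fun i => (he i.1 i.2 (hle i.1)).1
      h1 := fun i => (hh1 i.1 i.2).2
      c1 := fun i => (he i.1 i.2 (hle i.1)).2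
      e1 := fun i => cup_of_sq hS (by have := hle i.1; omega) (hc1' i.1 i.2)
        (he i.1 i.2 (hle i.1)).1 (he i.1 i.2 (hle i.1)).2 }
  have hsplit : ∀ a : E.D.I → ZMod 2, ∑ i, a i • E.D.z i
      = ∑ i : (Σ n : Fin (P + 1), Fin (mh n)), a (.inl i) • h i.1 i.2
        + (∑ i : (Σ n : Fin (P + 1), Fin (mc n)), a (.inr (.inl i)) • c i.1 i.2
          + ∑ i : (Σ n : Fin (P + 1), Fin (mc n)), a (.inr (.inr i)) • e i.1 i.2) :=
    fun a => E.sum (fun i => a i • E.D.z i)
  refine ⟨E, ⟨fun p hp f hf => ?_, fun p hp a ha hB => ?_⟩⟩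
  · obtain ⟨b, hb⟩ := hc2 p f (mem_ZS.mpr hf)
    obtain ⟨a, ha⟩ := hh2 p _ hb
    have key : ∃ cE : (Σ n : Fin (P + 1), Fin (mc n)) → ZMod 2,
        (∀ i, (i.1 : ℕ) + 1 ≠ p → cE i = 0) ∧
        Bd (p + 1) t (f + ∑ i, b i • c p i + ∑ i, a i • h p i
          + ∑ i : (Σ n : Fin (P + 1), Fin (mc n)), cE i • e i.1 i.2) := by
      obtain ⟨hg, f', hf', hB'⟩ := ha
      cases p with
      | zero =>
        refine ⟨0, fun _ _ => rfl, ?_⟩
        simp only [Pi.zero_apply, zero_smul, sum_const_zero, add_zero]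
        apply hS.inj 1 (by omega) _ hg
        rw [HC_level0 ht hf', cupR_zero, zero_add (_ ^ 2)] at hB'
        exact hB'
      | succ p =>
        obtain ⟨b', hb'⟩ := hc2 p f' (mem_ZS.mpr hf')
        obtain ⟨cE, hcE1, hcE2⟩ := sig_ext (P := P) (p := p) (by omega) (m := mc) b'
        refine ⟨cE, fun i hi => hcE1 i (by omega), ?_⟩
        rw [sig_sum (by omega) cE (fun n => e n) (fun i hi => hcE1 i hi)]
        simp only [hcE2]
        have hse : ∑ i, b' i • e p i ∈ II (p + 1) t :=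
          mem_sum_smul _ (heI p (by omega))
        apply hS.inj (p + 2) (by omega) _ (hg.add hse.1)
        have e1 := cup_comb b' (hc1' p) (fun i => (he p i (by omega)).2)
        have e2 := hb'.2
        have e3 := Bd_cup_add hf' (HC.sum univ fun i _ => (hc1' p i).smul (b' i))
        rw [sq_add]
        have e4 := ((hB'.add e1).add e2).add e3
        have e5 := p2_add_self (cupR (p + 1) f')
        have e6 := p2_add_self (cupR (p + 1) (∑ i, b' i • c p i))
        have e7 := p2_add_self (cupR (p + 1) (f' + ∑ i, b' i • c p i))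
        have e8 : cupR (p + 1) f' + (f + ∑ i, b i • c (p + 1) i + ∑ i, a i • h (p + 1) i) ^ 2
            + (cupR (p + 1) (∑ i, b' i • c p i) + (∑ i, b' i • e p i) ^ 2)
            + cupR (p + 1) (f' + ∑ i, b' i • c p i)
            + (cupR (p + 1) (f' + ∑ i, b' i • c p i) + cupR (p + 1) f'
              + cupR (p + 1) (∑ i, b' i • c p i))
            = (f + ∑ i, b i • c (p + 1) i + ∑ i, a i • h (p + 1) i) ^ 2
              + (∑ i, b' i • e p i) ^ 2 := by
          linear_combination e5 + e6 + e7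
        rwa [e8] at e4
    obtain ⟨cE, hcE1, hcE2⟩ := key
    obtain ⟨cA, hcA1, hcA2⟩ := sig_ext (P := P) (p := p) (by omega) (m := mh) a
    obtain ⟨cB, hcB1, hcB2⟩ := sig_ext (P := P) (p := p) (by omega) (m := mc) b
    refine ⟨Sum.elim cA (Sum.elim cB cE), ?_, ?_⟩
    · rintro (i | i | i) hi
      · exact hcA1 i hi
      · exact hcB1 i hi
      · exact hcE1 i hi
    · obtain ⟨g, hg, hdg⟩ := hcE2
      refine ⟨g, hg, ?_⟩
      refine Eq.trans ?_ (congrArg (fun x => x + dd kun p g)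
        (hsplit (Sum.elim cA (Sum.elim cB cE))).symm)
      simp only [Sum.elim_inl, Sum.elim_inr]
      rw [sig_sum (by omega) cA (fun n => h n) hcA1, sig_sum (by omega) cB (fun n => c n) hcB1]
      simp only [hcA2, hcB2]
      have h9 : dd kun p g = f + ∑ i, b i • c p i + ∑ i, a i • h p i
          + ∑ i : (Σ n : Fin (P + 1), Fin (mc n)), cE i • e i.1 i.2 := hdg
      rw [h9]
      have e1 := p2_add_self (∑ i, b i • c p i)
      have e2 := p2_add_self (∑ i, a i • h p i)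
      have e3 := p2_add_self (∑ i : (Σ n : Fin (P + 1), Fin (mc n)), cE i • e i.1 i.2)
      linear_combination - e1 - e2 - e3
  · obtain ⟨g, hg, hdg⟩ := hB
    have hBd : ∑ i, a i • E.D.z i ∈ BB (p + 1) t := ⟨g, hg, hdg⟩
    rw [hsplit] at hBd
    have hsA : ∀ i : (Σ n : Fin (P + 1), Fin (mh n)), (i.1 : ℕ) ≠ p → a (.inl i) = 0 :=
      fun i hi => ha (.inl i) hi
    have hsB : ∀ i : (Σ n : Fin (P + 1), Fin (mc n)), (i.1 : ℕ) ≠ p → a (.inr (.inl i)) = 0 :=
      fun i hi => ha (.inr (.inl i)) hi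
    have hsE : ∀ i : (Σ n : Fin (P + 1), Fin (mc n)), (i.1 : ℕ) + 1 ≠ p →
        a (.inr (.inr i)) = 0 := fun i hi => ha (.inr (.inr i)) hi
    have hSE : ∑ i : (Σ n : Fin (P + 1), Fin (mc n)), a (.inr (.inr i)) • e i.1 i.2
        ∈ II p t := by
      refine (II p t).sum_mem fun i _ => ?_
      by_cases hi : (i.1 : ℕ) + 1 = p
      · have := heI i.1 (hle i.1) i.2
        rw [hi] at this
        exact (II p t).smul_mem _ this
      · rw [hsE i hi, zero_smul]
        exact (II p t).zero_mem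
    have hIK : II p t ≤ KK1 (p + 1) t := II_le hS (by omega)
    have hBI : BB (p + 1) t ≤ II p t := BB_le p t
    rw [sig_sum (by omega) (fun i => a (.inl i)) (fun n => h n) hsA,
      sig_sum (by omega) (fun i => a (.inr (.inl i))) (fun n => c n) hsB] at hBd
    have hSA : ∑ i : Fin (mh p), a (.inl ⟨⟨p, by omega⟩, i⟩) • h p i ∈ KK1 (p + 1) t :=
      mem_sum_smul _ (hh1 p)
    have hB0 : (fun i : Fin (mc p) => a (.inr (.inl ⟨⟨p, by omega⟩, i⟩))) = 0 := by
      apply hc3 p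
      have h2 := hIK (hBI hBd)
      have h3 := (KK1 (p + 1) t).add_mem hSA (hIK hSE)
      refine mem_of_add (b := ∑ i : Fin (mh p), a (.inl ⟨⟨p, by omega⟩, i⟩) • h p i
        + ∑ i : (Σ n : Fin (P + 1), Fin (mc n)), a (.inr (.inr i)) • e i.1 i.2) ?_ h3
      convert h2 using 1
      abel
    have hB0' : ∀ i : Fin (mc p), a (.inr (.inl ⟨⟨p, by omega⟩, i⟩)) = 0 := congrFun hB0
    simp only [hB0', zero_smul, sum_const_zero, zero_add] at hBd
    have hA0 : (fun i : Fin (mh p) => a (.inl ⟨⟨p, by omega⟩, i⟩)) = 0 := by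
      apply hh3 p
      exact mem_of_add (hBI hBd) hSE
    have hA0' : ∀ i : Fin (mh p), a (.inl ⟨⟨p, by omega⟩, i⟩) = 0 := congrFun hA0
    simp only [hA0', zero_smul, sum_const_zero, zero_add] at hBd
    funext i
    rcases i with i | i | i
    · by_cases hi : (i.1 : ℕ) = p
      · obtain ⟨n, i⟩ := i
        have hs : (n : ℕ) = p := hi
        subst hs
        exact hA0' i
      · exact hsA i hi
    · by_cases hi : (i.1 : ℕ) = p
      · obtain ⟨n, i⟩ := i
        have hs : (n : ℕ) = p := hi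
        subst hs
        exact hB0' i
      · exact hsB i hi
    · by_cases hi : (i.1 : ℕ) + 1 = p
      · obtain ⟨n, i⟩ := i
        have hs : (n : ℕ) + 1 = p := hi
        subst hs
        have hn : (n : ℕ) < P + 1 := n.2
        rw [sig_sum hn (fun i => a (.inr (.inr i))) (fun n => e n)
          (fun i hi => hsE i (by omega))] at hBd
        have h4 : (fun i : Fin (mc n) => a (.inr (.inr ⟨⟨n, hn⟩, i⟩))) = 0 := by
          apply hc3 n
          refine ⟨HC.sum univ fun i _ => (hc1' n i).smul _, ?_⟩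
          have e1 := cup_comb (fun i : Fin (mc n) => a (.inr (.inr ⟨⟨n, hn⟩, i⟩))) (hc1' n)
            (fun i => (he n i (by omega)).2)
          have e2 : Bd ((n : ℕ) + 2) (2 * t)
              ((∑ i : Fin (mc n), a (.inr (.inr ⟨⟨n, hn⟩, i⟩)) • e n i) ^ 2) := by
            simpa using Bd.pow 1 hBd
          exact e1.of_add e2
        exact congrFun h4 i
      · exact hsE i hi

end adapted

end Pool.Agent.H59K
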