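import Pool.Agent.H59K.KR

/-!
# The kernel of `Sq¹` in degrees with a large gap
-/

set_option autoImplicit false
set_option linter.unusedSectionVars false

namespace Pool.Agent.H59K

open Finset MvPolynomial Pool.Agent.W624.Stz

section terms

variable {k m N s : ℕ} {t w : ℤ} {a b A : RR Empty}

/-- a term -/
noncomputable def tm (N k : ℕ) (a b : RR Empty) : RR Empty := a ^ 2 ^ N * shf Empty (k + 1) b

theorem tm_zero (N k : ℕ) (a : RR Empty) : tm N k a 0 = 0 := by rw [tm, map_zero, mul_zero]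

theorem tm_add (N k : ℕ) (a b b' : RR Empty) : tm N k a (b + b') = tm N k a b + tm N k a b' := by
  rw [tm, tm, tm, map_add, mul_add]

theorem HC_tm' (ha : HC (k + 1) t a) (hb : HC m w b) :
    HC (k + 1 + m) (w + 2 ^ N * t) (tm N k a b) := by
  have h := HC_prod (ha.pow N) hb
  rwa [add_comm (2 ^ N * t) w] at h

theorem HC_tm (ha : HC (k + 1) t a) (hb : HC (s - k) w b) (h0 : s < k → b = 0) :
    HC (s + 1) (w + 2 ^ N * t) (tm N k a b) := by
  rcases Nat.lt_or_ge s k with h | h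
  · rw [h0 h, tm_zero]; exact HC.zero'
  · have := HC_tm' (N := N) ha hb
    rwa [show k + 1 + (s - k) = s + 1 by omega] at this

theorem Bd_tm_right (ha : HC (k + 1) t a) (hb : Bd (s - k) w b) (h0 : s < k → b = 0) :
    Bd (s + 1) (w + 2 ^ N * t) (tm N k a b) := by
  rcases Nat.lt_or_ge s k with h | h
  · rw [h0 h, tm_zero]; exact Bd.zero
  · have h1 := Bd_prod_right (ha.pow N) hb
    rwa [add_comm (2 ^ N * t) w, show k + 1 + (s - k) = s + 1 by omega] at h1

theorem Bd_tm_left (ha : Bd (k + 1) t a) (hb : HC (s - k) w b) (h0 : s < k → b = 0) :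
    Bd (s + 1) (w + 2 ^ N * t) (tm N k a b) := by
  rcases Nat.lt_or_ge s k with h | h
  · rw [h0 h, tm_zero]; exact Bd.zero
  · have h1 := Bd_prod_left (ha.pow N) hb
    rwa [add_comm (2 ^ N * t) w, show k + 1 + (s - k) = s + 1 by omega] at h1

theorem tm_sq (N k : ℕ) (a b : RR Empty) : (tm N k a b) ^ 2 = tm (N + 1) k a (b ^ 2) := by
  rw [tm, tm, mul_pow, ← pow_mul, ← pow_succ, map_pow]

theorem tm_cup' (ha : HC (k + 1) t a) (hb : HC m w b) :
    cupR (k + 1 + m) (tm N k a b)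
      = tm N (k + 1) (cupR (k + 1) a) (b ^ 2) + tm (N + 1) k a (cupR m b) := by
  have ha' := ha.pow N
  rw [tm, cupR_prod ha'.cu ha'.cl hb.cu hb.cl, cupR_pow, tm, tm, map_pow, ← pow_mul a, ← pow_succ]

theorem tm_cup (ha : HC (k + 1) t a) (hb : HC (s - k) w b) (h0 : s < k → b = 0) :
    cupR (s + 1) (tm N k a b)
      = tm N (k + 1) (cupR (k + 1) a) (b ^ 2) + tm (N + 1) k a (cupR (s - k) b) := by
  rcases Nat.lt_or_ge s k with h | h
  · rw [h0 h, tm_zero, cupR_zero, cupR_zero, tm_zero, zero_pow two_ne_zero, tm_zero, add_zero]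
  · have := tm_cup' (N := N) ha hb
    rwa [show k + 1 + (s - k) = s + 1 by omega] at this

theorem tm_add_left (N k : ℕ) (a a' b : RR Empty) :
    tm N k (a + a') b = tm N k a b + tm N k a' b := by
  rw [tm, tm, tm, add_pow0, add_mul]

theorem tm_sq_left (N k : ℕ) (a b : RR Empty) : tm N k (a ^ 2) b = tm (N + 1) k a b := by
  rw [tm, tm, ← pow_mul, ← pow_succ']

theorem HC.sq (h : HC k t a) : HC k (2 * t) (a ^ 2) := by simpa using h.pow 1

theorem Bd.sq (h : Bd k t a) : Bd k (2 * t) (a ^ 2) := by simpa using h.pow 1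

theorem HC_cup_sub (hb : HC (s - k) w b) (h0 : s < k → b = 0) :
    HC (s + 1 - k) (2 * w) (cupR (s - k) b) := by
  rcases Nat.lt_or_ge s k with h | h
  · rw [h0 h, cupR_zero]; exact HC.zero'
  · rw [show s + 1 - k = s - k + 1 by omega]
    exact HC_cup hb

end terms

section main

theorem ker_main {s N : ℕ} {w t : ℤ} (E : AD t) (hE1 : KU E.D N (s + 1) 0 w)
    (hE2 : KU E.D (N + 1) (s + 1) 0 (2 * w)) {z : RR Empty}
    (hz : HC (s + 1) (w + 2 ^ N * t) z)
    (hB : Bd (s + 2) (2 * (w + 2 ^ N * t)) (cupR (s + 1) z)) :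
    ∃ (v : RR Empty) (x : E.A → RR Empty), HC s (w + 2 ^ N * t) v ∧
      (∀ a, HC (s - E.σA a) w (x a)) ∧ (∀ a, s < E.σA a → x a = 0) ∧
      (∀ a, Bd (s + 1 - E.σA a) (2 * w) (cupR (s - E.σA a) (x a))) ∧
      Bd (s + 1) (2 * (w + 2 ^ N * t)) (z ^ 2 + cupR s v
        + ∑ a, tm (N + 1) (E.σA a) (E.h a) (x a ^ 2)) := by
  obtain ⟨x, hx, hx0, hzx⟩ := surj_cone (D := E.D) hE1 hz
  have hxA : ∀ a : E.A, HC (s - E.σA a) w (x (.inl a)) := fun a => hx (.inl a)
  have hxB : ∀ b : E.B, HC (s - E.σB b) w (x (.inr (.inl b))) := fun b => hx (.inr (.inl b))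
  have hxE : ∀ b : E.B, HC (s - (E.σB b + 1)) w (x (.inr (.inr b))) :=
    fun b => hx (.inr (.inr b))
  have hxA0 : ∀ a : E.A, s < E.σA a → x (.inl a) = 0 := fun a => hx0 (.inl a)
  have hxB0 : ∀ b : E.B, s < E.σB b → x (.inr (.inl b)) = 0 := fun b => hx0 (.inr (.inl b))
  have hxE0 : ∀ b : E.B, s < E.σB b + 1 → x (.inr (.inr b)) = 0 := fun b => hx0 (.inr (.inr b))
  -- the representative
  set S : RR Empty := ∑ i : E.D.I, tm N (E.D.σ i) (E.D.z i) (x i) with hS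
  have hzS : Bd (s + 1) (w + 2 ^ N * t) (z + S) := hzx
  have hSspl : S = ∑ a : E.A, tm N (E.σA a) (E.h a) (x (.inl a))
      + (∑ b : E.B, tm N (E.σB b) (E.c b) (x (.inr (.inl b)))
        + ∑ b : E.B, tm N (E.σB b + 1) (E.e b) (x (.inr (.inr b)))) :=
    E.sum (fun i => tm N (E.D.σ i) (E.D.z i) (x i))
  have hterm : ∀ i : E.D.I, HC (s + 1) (w + 2 ^ N * t) (tm N (E.D.σ i) (E.D.z i) (x i)) :=
    fun i => HC_tm (E.D.hz i) (hx i) (hx0 i)
  have hSH : HC (s + 1) (w + 2 ^ N * t) S := HC.sum _ fun i _ => hterm i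
  -- `Sq¹`
  have hcS : Bd (s + 2) (2 * (w + 2 ^ N * t))
      (∑ i : E.D.I, cupR (s + 1) (tm N (E.D.σ i) (E.D.z i) (x i))) := by
    have h1 := cup_congr hz hSH hzS
    have h2 := Bd_cup_sum (s := s + 1) (t := w + 2 ^ N * t) univ
      (f := fun i : E.D.I => tm N (E.D.σ i) (E.D.z i) (x i)) (fun i _ => hterm i)
    have h3 := (h1.add hB).add h2
    have h4 := p2_add_self (cupR (s + 1) z)
    have h5 := p2_add_self (cupR (s + 1) S)
    have h6 : cupR (s + 1) z + cupR (s + 1) S + cupR (s + 1) z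
        + (cupR (s + 1) S + ∑ i : E.D.I, cupR (s + 1) (tm N (E.D.σ i) (E.D.z i) (x i)))
        = ∑ i : E.D.I, cupR (s + 1) (tm N (E.D.σ i) (E.D.z i) (x i)) := by
      linear_combination h4 + h5
    rwa [h6] at h3
  let Y : E.A ⊕ (E.B ⊕ E.B) → RR Empty := Sum.elim (fun a => cupR (s - E.σA a) (x (.inl a)))
    (Sum.elim (fun b => cupR (s - E.σB b) (x (.inr (.inl b))))
      (fun b => cupR (s - (E.σB b + 1)) (x (.inr (.inr b))) + x (.inr (.inl b)) ^ 2))
  have hYH : ∀ i : E.D.I, HC (s + 1 - E.D.σ i) (2 * w) (Y i) := by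
    rintro (a | b | b)
    · exact HC_cup_sub (hxA a) (hxA0 a)
    · exact HC_cup_sub (hxB b) (hxB0 b)
    · refine HC.add (HC_cup_sub (hxE b) (hxE0 b)) ?_
      have := (hxB b).sq
      change HC (s + 1 - (E.σB b + 1)) (2 * w) _
      rwa [show s + 1 - (E.σB b + 1) = s - E.σB b by omega]
  have hY0 : ∀ i : E.D.I, s + 1 < E.D.σ i → Y i = 0 := by
    rintro (a | b | b) hi
    · have h1 : s + 1 < E.σA a := hi
      change cupR (s - E.σA a) (x (.inl a)) = 0
      rw [hxA0 a (by omega), cupR_zero]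
    · have h1 : s + 1 < E.σB b := hi
      change cupR (s - E.σB b) (x (.inr (.inl b))) = 0
      rw [hxB0 b (by omega), cupR_zero]
    · have h1 : s + 1 < E.σB b + 1 := hi
      change cupR (s - (E.σB b + 1)) (x (.inr (.inr b))) + x (.inr (.inl b)) ^ 2 = 0
      rw [hxB0 b (by omega), hxE0 b (by omega), cupR_zero, zero_pow two_ne_zero, add_zero]
  have hYspl : ∑ i : E.D.I, tm (N + 1) (E.D.σ i) (E.D.z i) (Y i)
      = ∑ a : E.A, tm (N + 1) (E.σA a) (E.h a) (cupR (s - E.σA a) (x (.inl a)))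
      + (∑ b : E.B, tm (N + 1) (E.σB b) (E.c b) (cupR (s - E.σB b) (x (.inr (.inl b))))
        + ∑ b : E.B, tm (N + 1) (E.σB b + 1) (E.e b)
          (cupR (s - (E.σB b + 1)) (x (.inr (.inr b))) + x (.inr (.inl b)) ^ 2)) :=
    E.sum (fun i => tm (N + 1) (E.D.σ i) (E.D.z i) (Y i))
  have hdeg : 2 * w + 2 ^ (N + 1) * t = 2 * (w + 2 ^ N * t) := by ring
  have hdeg2 : 2 * w + 2 ^ N * (2 * t) = 2 * (w + 2 ^ N * t) := by ring
  have hBY : Bd (s + 2) (2 * w + 2 ^ (N + 1) * E.D.t0)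
      (∑ i : E.D.I, E.D.z i ^ 2 ^ (N + 1) * shf Empty (E.D.σ i + 1) (Y i)) := by
    change Bd (s + 2) (2 * w + 2 ^ (N + 1) * t)
      (∑ i : E.D.I, tm (N + 1) (E.D.σ i) (E.D.z i) (Y i))
    rw [hdeg, hYspl]
    have hspl2 : ∑ i : E.D.I, cupR (s + 1) (tm N (E.D.σ i) (E.D.z i) (x i))
        = ∑ a : E.A, cupR (s + 1) (tm N (E.σA a) (E.h a) (x (.inl a)))
        + (∑ b : E.B, cupR (s + 1) (tm N (E.σB b) (E.c b) (x (.inr (.inl b))))
        + ∑ b : E.B, cupR (s + 1) (tm N (E.σB b + 1) (E.e b) (x (.inr (.inr b))))) :=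
      E.sum (fun i => cupR (s + 1) (tm N (E.D.σ i) (E.D.z i) (x i)))
    have eA : ∀ a : E.A, cupR (s + 1) (tm N (E.σA a) (E.h a) (x (.inl a)))
        = tm N (E.σA a + 1) (cupR (E.σA a + 1) (E.h a)) (x (.inl a) ^ 2)
          + tm (N + 1) (E.σA a) (E.h a) (cupR (s - E.σA a) (x (.inl a))) :=
      fun a => tm_cup (E.hh a) (hxA a) (hxA0 a)
    have eB : ∀ b : E.B, cupR (s + 1) (tm N (E.σB b) (E.c b) (x (.inr (.inl b))))
        = tm N (E.σB b + 1) (cupR (E.σB b + 1) (E.c b)) (x (.inr (.inl b)) ^ 2)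
          + tm (N + 1) (E.σB b) (E.c b) (cupR (s - E.σB b) (x (.inr (.inl b)))) :=
      fun b => tm_cup (E.hc b) (hxB b) (hxB0 b)
    have eE : ∀ b : E.B, cupR (s + 1) (tm N (E.σB b + 1) (E.e b) (x (.inr (.inr b))))
        = tm N (E.σB b + 2) (cupR (E.σB b + 2) (E.e b)) (x (.inr (.inr b)) ^ 2)
          + tm (N + 1) (E.σB b + 1) (E.e b)
            (cupR (s - (E.σB b + 1)) (x (.inr (.inr b)))) :=
      fun b => tm_cup (k := E.σB b + 1) (E.he b) (hxE b) (hxE0 b)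
    have fA : Bd (s + 2) (2 * (w + 2 ^ N * t)) (∑ a : E.A,
        tm N (E.σA a + 1) (cupR (E.σA a + 1) (E.h a)) (x (.inl a) ^ 2)) := by
      refine Bd.sum _ fun a _ => ?_
      rw [← hdeg2]
      exact Bd_tm_left (s := s + 1) (k := E.σA a + 1) (E.h1 a) (by
        rw [show s + 1 - (E.σA a + 1) = s - E.σA a by omega]
        exact (hxA a).sq) (fun h => by rw [hxA0 a (by omega), zero_pow two_ne_zero])
    have fB : Bd (s + 2) (2 * (w + 2 ^ N * t)) (∑ b : E.B,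
        tm N (E.σB b + 1) (cupR (E.σB b + 1) (E.c b) + E.e b ^ 2) (x (.inr (.inl b)) ^ 2)) := by
      refine Bd.sum _ fun b _ => ?_
      rw [← hdeg2]
      exact Bd_tm_left (s := s + 1) (k := E.σB b + 1) (E.c1 b) (by
        rw [show s + 1 - (E.σB b + 1) = s - E.σB b by omega]
        exact (hxB b).sq) (fun h => by rw [hxB0 b (by omega), zero_pow two_ne_zero])
    have fE : Bd (s + 2) (2 * (w + 2 ^ N * t)) (∑ b : E.B,
        tm N (E.σB b + 2) (cupR (E.σB b + 2) (E.e b)) (x (.inr (.inr b)) ^ 2)) := by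
      refine Bd.sum _ fun b _ => ?_
      rw [← hdeg2]
      exact Bd_tm_left (s := s + 1) (k := E.σB b + 2) (E.e1 b) (by
        rw [show s + 1 - (E.σB b + 2) = s - (E.σB b + 1) by omega]
        exact (hxE b).sq) (fun h => by rw [hxE0 b (by omega), zero_pow two_ne_zero])
    have hall := ((hcS.add fA).add fB).add fE
    rw [hspl2] at hall
    simp only [eA, eB, eE, tm_add_left, tm_add, tm_sq_left, sum_add_distrib] at hall ⊢
    have p1 := p2_add_self (∑ a : E.A,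
        tm N (E.σA a + 1) (cupR (E.σA a + 1) (E.h a)) (x (.inl a) ^ 2))
    have p2 := p2_add_self (∑ b : E.B,
        tm N (E.σB b + 1) (cupR (E.σB b + 1) (E.c b)) (x (.inr (.inl b)) ^ 2))
    have p3 := p2_add_self (∑ b : E.B,
        tm N (E.σB b + 2) (cupR (E.σB b + 2) (E.e b)) (x (.inr (.inr b)) ^ 2))
    refine Eq.mp (congrArg _ ?_) hall
    linear_combination p1 + p2 + p3
  have hYB := inj_cone (D := E.D) hE2 hYH hY0 hBY
  have hYA : ∀ a : E.A, Bd (s + 1 - E.σA a) (2 * w) (cupR (s - E.σA a) (x (.inl a))) :=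
    fun a => hYB (.inl a)
  have hYE : ∀ b : E.B, Bd (s - E.σB b) (2 * w)
      (cupR (s - (E.σB b + 1)) (x (.inr (.inr b))) + x (.inr (.inl b)) ^ 2) := by
    intro b
    have := hYB (.inr (.inr b))
    have h1 : s + 1 - E.D.σ (.inr (.inr b)) = s - E.σB b := by
      change s + 1 - (E.σB b + 1) = s - E.σB b
      omega
    rwa [h1] at this
  -- the cochain `v`
  set v : RR Empty := ∑ b : E.B, tm N (E.σB b) (E.c b) (x (.inr (.inr b))) with hv
  have hvt : ∀ b : E.B, HC s (w + 2 ^ N * t) (tm N (E.σB b) (E.c b) (x (.inr (.inr b)))) := by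
    intro b
    rcases Nat.lt_or_ge s (E.σB b + 1) with h | h
    · rw [hxE0 b h, tm_zero]; exact HC.zero'
    · have := HC_tm' (N := N) (E.hc b) (hxE b)
      rwa [show E.σB b + 1 + (s - (E.σB b + 1)) = s by omega] at this
  have hvc : ∀ b : E.B, cupR s (tm N (E.σB b) (E.c b) (x (.inr (.inr b))))
      = tm N (E.σB b + 1) (cupR (E.σB b + 1) (E.c b)) (x (.inr (.inr b)) ^ 2)
        + tm (N + 1) (E.σB b) (E.c b) (cupR (s - (E.σB b + 1)) (x (.inr (.inr b)))) := by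
    intro b
    rcases Nat.lt_or_ge s (E.σB b + 1) with h | h
    · rw [hxE0 b h, tm_zero, cupR_zero, cupR_zero, tm_zero, zero_pow two_ne_zero, tm_zero,
        add_zero]
    · have := tm_cup' (N := N) (E.hc b) (hxE b)
      rwa [show E.σB b + 1 + (s - (E.σB b + 1)) = s by omega] at this
  refine ⟨v, fun a => x (.inl a), HC.sum _ fun b _ => hvt b, hxA, hxA0, hYA, ?_⟩
  have g1 := hzS.sq
  rw [sq_add] at g1
  have g2 : S ^ 2 = ∑ a : E.A, tm (N + 1) (E.σA a) (E.h a) (x (.inl a) ^ 2)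
      + (∑ b : E.B, tm (N + 1) (E.σB b) (E.c b) (x (.inr (.inl b)) ^ 2)
        + ∑ b : E.B, tm (N + 1) (E.σB b + 1) (E.e b) (x (.inr (.inr b)) ^ 2)) := by
    rw [hSspl, sq_add, sq_add]
    have h2 : ∀ (ι : Type) [Fintype ι] (F : ι → RR Empty), (∑ i, F i) ^ 2 = ∑ i, F i ^ 2 := by
      intro ι _ F
      have := sum_pow0 univ F 1
      rwa [pow_one] at this
    rw [h2, h2, h2]
    simp only [tm_sq]
  have g3 := Bd_cup_sum (s := s) (t := w + 2 ^ N * t) univ
    (f := fun b : E.B => tm N (E.σB b) (E.c b) (x (.inr (.inr b)))) (fun b _ => hvt b)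
  have g4 : Bd (s + 1) (2 * (w + 2 ^ N * t)) (∑ b : E.B, tm (N + 1) (E.σB b) (E.c b)
      (cupR (s - (E.σB b + 1)) (x (.inr (.inr b))) + x (.inr (.inl b)) ^ 2)) := by
    refine Bd.sum _ fun b _ => ?_
    rw [← hdeg]
    refine Bd_tm_right (E.hc b) (hYE b) (fun h => ?_)
    rw [hxB0 b h, hxE0 b (by omega), cupR_zero, zero_pow two_ne_zero, add_zero]
  have g5 : Bd (s + 1) (2 * (w + 2 ^ N * t)) (∑ b : E.B,
      tm N (E.σB b + 1) (cupR (E.σB b + 1) (E.c b) + E.e b ^ 2) (x (.inr (.inr b)) ^ 2)) := by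
    refine Bd.sum _ fun b _ => ?_
    rw [← hdeg2]
    exact Bd_tm_left (s := s) (k := E.σB b + 1) (E.c1 b) (hxE b).sq
      (fun h => by rw [hxE0 b h, zero_pow two_ne_zero])
  have hall := ((g1.add g3).add g4).add g5
  rw [g2] at hall
  simp only [hvc, tm_add_left, tm_add, tm_sq_left, sum_add_distrib] at hall
  have p1 := p2_add_self (∑ b : E.B, tm (N + 1) (E.σB b) (E.c b) (x (.inr (.inl b)) ^ 2))
  have p2 := p2_add_self (∑ b : E.B, tm (N + 1) (E.σB b + 1) (E.e b) (x (.inr (.inr b)) ^ 2))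
  have p3 := p2_add_self (∑ b : E.B, tm (N + 1) (E.σB b) (E.c b)
      (cupR (s - (E.σB b + 1)) (x (.inr (.inr b)))))
  have p4 := p2_add_self (∑ b : E.B,
      tm N (E.σB b + 1) (cupR (E.σB b + 1) (E.c b)) (x (.inr (.inr b)) ^ 2))
  refine Eq.mp (congrArg _ ?_) hall
  rw [hv]
  linear_combination p1 + p2 + p3 + p4

end main

end Pool.Agent.H59K
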