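import Pool.Agent.H59K.KS
import Pool.Agent.H59K.KM
import Pool.Agent.H59K.KDefs2

/-!
# Sums of products
-/

set_option autoImplicit false
set_option linter.unusedSectionVars false

namespace Pool.Agent.H59K

open Pool.Agent.W624.NS
open Pool.Agent.W624.Stz (dd kun cut TT RR IW wF dm)

section back

theorem jo_add {s : ℕ} (x y : Cob s) : jo (x + y) = jo x + jo y :=
  map_add (W624.Stz.io s) (x : W624.ND.Cob s) (y : W624.ND.Cob s)

/-- homogeneous cocycles of the big ring come from cocycles -/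
theorem exists_Z {n : ℕ} {t : ℕ} {f : RR Empty} (hf : HC n (t : ℤ) f) :
    ∃ x : Z n, jo x.1 = f ∧ IsHom n t x.1 := by
  have h1 := jo_po hf.TT
  have h2 : dC n (po n f) = 0 := by
    apply jo_inj
    rw [jo_dC, h1, hf.cl, jo_zero]
  refine ⟨⟨po n f, h2⟩, h1, ?_⟩
  rw [isHom_iff]
  change IW _ (jo (po n f)) _
  rw [h1]
  exact hf.iw

theorem HC_neg {n : ℕ} {t : ℤ} (ht : t < 0) {f : RR Empty} (hf : HC n t f) : f = 0 :=
  H59K.low_zero (κ := (kun : Empty → W624.Stz.Kd)) (m := 0) (fun c _ => c.elim) hf.TT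
    (by simpa using ht)

theorem isB_of_Bd {n t : ℕ} {x : Cob n} (hx : IsHom n t x) (h : Bd n (t : ℤ) (jo x)) :
    IsB n x := (Bd_iff hx).mpr h

/-- the predicate in the big ring -/
def PrR (G : ℕ → ℕ) (n : ℕ) (t : ℤ) (f : RR Empty) : Prop :=
  f = 0 ∨ ∃ (t' : ℕ) (x : Cob n), (t' : ℤ) = t ∧ jo x = f ∧ Prd G n t' x

/-- the predicate in the big ring -/
def DcR (G : ℕ → ℕ) (n : ℕ) (t : ℤ) (f : RR Empty) : Prop :=
  f = 0 ∨ ∃ (t' : ℕ) (x : Cob n), (t' : ℤ) = t ∧ jo x = f ∧ Dec G n t' x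

variable {G : ℕ → ℕ} {n : ℕ} {t u : ℤ} {f g : RR Empty}

theorem PrR.zero : PrR G n t 0 := Or.inl rfl
theorem DcR.zero : DcR G n t 0 := Or.inl rfl

theorem PrR.add (hf : PrR G n t f) (hg : PrR G n t g) : PrR G n t (f + g) := by
  rcases hf with rfl | ⟨t', x, h1, h2, h3⟩
  · rwa [zero_add]
  rcases hg with rfl | ⟨u', y, h4, h5, h6⟩
  · rw [add_zero]; exact Or.inr ⟨t', x, h1, h2, h3⟩
  have : t' = u' := by exact_mod_cast h1.trans h4.symm
  subst this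
  exact Or.inr ⟨t', x + y, h1, by rw [jo_add, h2, h5], Prd.add _ _ _ _ h3 h6⟩

theorem DcR.add (hf : DcR G n t f) (hg : DcR G n t g) : DcR G n t (f + g) := by
  rcases hf with rfl | ⟨t', x, h1, h2, h3⟩
  · rwa [zero_add]
  rcases hg with rfl | ⟨u', y, h4, h5, h6⟩
  · rw [add_zero]; exact Or.inr ⟨t', x, h1, h2, h3⟩
  have : t' = u' := by exact_mod_cast h1.trans h4.symm
  subst this
  exact Or.inr ⟨t', x + y, h1, by rw [jo_add, h2, h5], Dec.add _ _ _ _ h3 h6⟩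

theorem PrR.sum {ι : Type*} (S : Finset ι) {F : ι → RR Empty} (h : ∀ i ∈ S, PrR G n t (F i)) :
    PrR G n t (∑ i ∈ S, F i) := by
  classical
  induction S using Finset.induction_on with
  | empty => rw [Finset.sum_empty]; exact PrR.zero
  | insert a S ha ih =>
    rw [Finset.sum_insert ha]
    exact (h a (Finset.mem_insert_self _ _)).add (ih fun i hi => h i (Finset.mem_insert_of_mem hi))

theorem DcR.sum {ι : Type*} (S : Finset ι) {F : ι → RR Empty} (h : ∀ i ∈ S, DcR G n t (F i)) :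
    DcR G n t (∑ i ∈ S, F i) := by
  classical
  induction S using Finset.induction_on with
  | empty => rw [Finset.sum_empty]; exact DcR.zero
  | insert a S ha ih =>
    rw [Finset.sum_insert ha]
    exact (h a (Finset.mem_insert_self _ _)).add (ih fun i hi => h i (Finset.mem_insert_of_mem hi))

theorem PrR.bd (h : Bd n t f) : PrR G n t f := by
  rcases lt_or_ge t 0 with h0 | h0
  · left; exact HC_neg h0 h.HC
  · obtain ⟨m, rfl⟩ := Int.eq_ofNat_of_zero_le h0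
    obtain ⟨x, hx1, hx2⟩ := exists_Z h.HC
    refine Or.inr ⟨m, x.1, rfl, hx1, Prd.bd _ _ _ hx2 (isB_of_Bd hx2 ?_)⟩
    rw [hx1]; exact h

theorem DcR.bd (h : Bd n t f) : DcR G n t f := by
  rcases lt_or_ge t 0 with h0 | h0
  · left; exact HC_neg h0 h.HC
  · obtain ⟨m, rfl⟩ := Int.eq_ofNat_of_zero_le h0
    obtain ⟨x, hx1, hx2⟩ := exists_Z h.HC
    refine Or.inr ⟨m, x.1, rfl, hx1, Dec.bd _ _ _ hx2 (isB_of_Bd hx2 ?_)⟩
    rw [hx1]; exact h

theorem DcR.sq1 (h : HC n t f) : DcR G (n + 1) (2 * t) (cupR n f) := by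
  rcases lt_or_ge t 0 with h0 | h0
  · left; rw [HC_neg h0 h, cupR_zero]
  · obtain ⟨m, rfl⟩ := Int.eq_ofNat_of_zero_le h0
    obtain ⟨x, hx1, hx2⟩ := exists_Z h
    refine Or.inr ⟨2 * m, cupSq n x.1, by push_cast; rfl, ?_, Dec.sq1 _ _ _ hx2⟩
    rw [jo_cup, hx1]

theorem tm_jo {p q a : ℕ} (y : Z (p + 1)) (x : Z (q + 1)) :
    jo (mul (y.1 ^ 2 ^ a) x.1) = tm a p (jo y.1) (jo x.1) := by
  rw [jo_mul, jo_pow, tm]

theorem PrR.prod' {p q a : ℕ} {w : ℤ} (hf : HC (p + 1) t f) (hg : HC (q + 1) w g)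
    (hG : G w.toNat ≤ a) : PrR G (p + 1 + (q + 1)) (w + 2 ^ a * t) (tm a p f g) := by
  rcases lt_or_ge t 0 with h0 | h0
  · left; rw [HC_neg h0 hf, tm, zero_pow (by positivity), zero_mul]
  rcases lt_or_ge w 0 with h1 | h1
  · left; rw [HC_neg h1 hg, tm_zero]
  obtain ⟨m, rfl⟩ := Int.eq_ofNat_of_zero_le h0
  obtain ⟨k, rfl⟩ := Int.eq_ofNat_of_zero_le h1
  obtain ⟨y, hy1, hy2⟩ := exists_Z hf
  obtain ⟨x, hx1, hx2⟩ := exists_Z hg
  rw [Int.toNat_natCast] at hG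
  refine Or.inr ⟨2 ^ a * m + k, mul (y.1 ^ 2 ^ a) x.1, by push_cast; ring, ?_,
    Prd.prod p q m k a y x hy2 hx2 hG⟩
  rw [tm_jo, hy1, hx1]

theorem DcR.prod' {p q a : ℕ} {w : ℤ} (hf : HC (p + 1) t f) (hg : HC (q + 1) w g)
    (hG : G w.toNat ≤ a) (h2 : Bd (p + 2) (2 * t) (cupR (p + 1) f))
    (h3 : Bd (q + 2) (2 * w) (cupR (q + 1) g)) :
    DcR G (p + 1 + (q + 1)) (w + 2 ^ a * t) (tm a p f g) := by
  rcases lt_or_ge t 0 with h0 | h0
  · left; rw [HC_neg h0 hf, tm, zero_pow (by positivity), zero_mul]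
  rcases lt_or_ge w 0 with h1 | h1
  · left; rw [HC_neg h1 hg, tm_zero]
  obtain ⟨m, rfl⟩ := Int.eq_ofNat_of_zero_le h0
  obtain ⟨k, rfl⟩ := Int.eq_ofNat_of_zero_le h1
  obtain ⟨y, hy1, hy2⟩ := exists_Z hf
  obtain ⟨x, hx1, hx2⟩ := exists_Z hg
  rw [Int.toNat_natCast] at hG
  have hny : Nil (cl (Sq1 (p + 1) y)) := by
    rw [Nil_sq1_iff y hy2]
    refine ⟨0, ?_⟩
    rw [pow_zero, one_mul, pow_zero, pow_one, hy1]
    exact h2
  have hnx : Nil (cl (Sq1 (q + 1) x)) := by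
    rw [Nil_sq1_iff x hx2]
    refine ⟨0, ?_⟩
    rw [pow_zero, one_mul, pow_zero, pow_one, hx1]
    exact h3
  refine Or.inr ⟨2 ^ a * m + k, mul (y.1 ^ 2 ^ a) x.1, by push_cast; ring, ?_,
    Dec.prod p q m k a y x hy2 hx2 hG hny hnx⟩
  rw [tm_jo, hy1, hx1]

/-- products in the form in which they occur -/
theorem PrR.prod {s k a : ℕ} {w : ℤ} (hw : w ≠ 0) (hf : HC (k + 1) t f) (hg : HC (s - k) w g)
    (h0 : s < k → g = 0) (hG : G w.toNat ≤ a) :
    PrR G (s + 1) (w + 2 ^ a * t) (tm a k f g) := by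
  rcases lt_trichotomy k s with h | h | h
  · obtain ⟨q, hq⟩ : ∃ q, s - k = q + 1 := ⟨s - k - 1, by omega⟩
    rw [hq] at hg
    have := PrR.prod' (G := G) hf hg hG
    rwa [show k + 1 + (q + 1) = s + 1 by omega] at this
  · rw [h, Nat.sub_self] at hg
    rw [HC_level0 hw hg, tm_zero]
    exact PrR.zero
  · rw [h0 h, tm_zero]
    exact PrR.zero

theorem DcR.prod {s k a : ℕ} {w : ℤ} (hw : w ≠ 0) (hf : HC (k + 1) t f) (hg : HC (s - k) w g)
    (h0 : s < k → g = 0) (hG : G w.toNat ≤ a) (h2 : Bd (k + 2) (2 * t) (cupR (k + 1) f))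
    (h3 : Bd (s + 1 - k) (2 * w) (cupR (s - k) g)) :
    DcR G (s + 1) (w + 2 ^ a * t) (tm a k f g) := by
  rcases lt_trichotomy k s with h | h | h
  · obtain ⟨q, hq⟩ : ∃ q, s - k = q + 1 := ⟨s - k - 1, by omega⟩
    rw [hq] at hg
    rw [show s + 1 - k = q + 2 by omega, hq] at h3
    have := DcR.prod' (G := G) hf hg hG h2 h3
    rwa [show k + 1 + (q + 1) = s + 1 by omega] at this
  · rw [h, Nat.sub_self] at hg
    rw [HC_level0 hw hg, tm_zero]
    exact DcR.zero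
  · rw [h0 h, tm_zero]
    exact DcR.zero

end back

end Pool.Agent.H59K
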