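import Pool.Agent.H59K.KT

/-!
# All classes of a line
-/

set_option autoImplicit false
set_option linter.unusedSectionVars false

namespace Pool.Agent.H59K

open Pool.Agent.W624.NS
open Pool.Agent.W624.Stz (dd kun cut TT RR IW wF dm cm cm_same cm_ne cm_IW naf_un
  p2_add_self p2_eq_of_add)

section eqR

/-- equality of families up to finitely many members, in the big ring -/
def EqR (n : ℕ) (t : ℤ) (f : RR Empty) (t' : ℤ) (g : RR Empty) : Prop :=
  ∃ i k : ℕ, (2 : ℤ) ^ i * t = 2 ^ k * t' ∧ Bd n (2 ^ i * t) (f ^ 2 ^ i + g ^ 2 ^ k)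

theorem EqR.of_Bd {n : ℕ} {t : ℤ} {f g : RR Empty} (h : Bd n t (f + g)) : EqR n t f t g :=
  ⟨0, 0, rfl, by simpa using h⟩

theorem Bd.pow_add {n : ℕ} {t : ℤ} {f g : RR Empty} (i : ℕ) (h : Bd n t (f + g)) :
    Bd n (2 ^ i * t) (f ^ 2 ^ i + g ^ 2 ^ i) := by
  have := h.pow i
  rwa [W624.Stz.add_pow0] at this

theorem Bd.trans {n : ℕ} {t : ℤ} {f g h : RR Empty} (h1 : Bd n t (f + g)) (h2 : Bd n t (g + h)) :
    Bd n t (f + h) := by
  have h3 := h1.add h2
  have h4 := p2_add_self g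
  have h5 : f + g + (g + h) = f + h := by linear_combination h4
  rwa [h5] at h3

/-- passing to a root -/
theorem EqR.of_sq {n : ℕ} {t u t' : ℤ} {z f g : RR Empty} (hu : u = 2 * t)
    (h1 : Bd n u (z + f ^ 2)) (h2 : EqR n t f t' g) : EqR n u z t' g := by
  obtain ⟨i, k, hd, hB⟩ := h2
  refine ⟨i, k + 1, ?_, ?_⟩
  · rw [hu, pow_succ]
    linear_combination 2 * hd
  · have h3 := h1.pow_add i
    have h4 := hB.sq
    rw [sq_add, ← pow_mul, ← pow_mul, ← pow_succ, ← pow_succ] at h4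
    rw [← pow_mul, ← pow_succ'] at h3
    have h5 : (2 : ℤ) * (2 ^ i * t) = 2 ^ i * u := by rw [hu]; ring
    rw [h5] at h4
    exact h3.trans h4

/-- passing to a power -/
theorem EqR.of_pow {n : ℕ} {t t' : ℤ} {f g : RR Empty} (r : ℕ)
    (h : EqR n (2 ^ r * t) (f ^ 2 ^ r) t' g) : EqR n t f t' g := by
  obtain ⟨i, k, hd, hB⟩ := h
  refine ⟨i + r, k, ?_, ?_⟩
  · rw [← hd, pow_add]; ring
  · rw [← pow_mul, ← pow_add, add_comm r i] at hB
    rwa [show (2 : ℤ) ^ i * (2 ^ r * t) = 2 ^ (i + r) * t by rw [pow_add]; ring] at hB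

end eqR

section cover

theorem exists_W (s : ℕ) (G : ℕ → ℕ) : ∃ (m : ℕ) (W : Finset ℤ),
    (∀ t : ℤ, t ≠ 0 → (2 : ℤ) ^ m ∣ t → Stab (s + 4) t) ∧
    ∀ u : ℤ, Sgn (2 * (s + 1)) u → ∃ w ∈ W, u = w ∨ ∃ (N : ℕ) (t0 : ℤ) (E : AD t0),
      G w.toNat ≤ N ∧ G (2 * w).toNat ≤ N ∧ 1 ≤ N ∧ u = w + 2 ^ N * t0 ∧ (2 : ℤ) ^ m ∣ t0 ∧
      t0 ≠ 0 ∧ KU E.D N (s + 1) 0 w ∧ KU E.D (N + 1) (s + 1) 0 (2 * w) := by
  obtain ⟨m, hm⟩ := exists_Stab (s + 4)
  let N : ℤ → ℕ := fun w => w.toNat + 1 + G w.toNat + G (2 * w).toNat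
  have hN : ∀ w : ℤ, 2 * w < 2 ^ N w := by
    intro w
    have h1 : w ≤ (w.toNat : ℤ) := Int.self_le_toNat w
    have h2 : w.toNat < 2 ^ w.toNat := Nat.lt_two_pow_self
    have h3 : (2 : ℤ) ^ (w.toNat + 1) ≤ 2 ^ N w :=
      pow_le_pow_right₀ (by norm_num) (by simp only [N]; omega)
    have h4 : (w.toNat : ℤ) < 2 ^ w.toNat := by exact_mod_cast h2
    rw [pow_succ] at h3
    linarith
  choose r1 h1 using fun w : ℤ => mainc (N w) (s + 1) 0 w (by
    have := hN w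
    simpa using this)
  choose r2 h2 using fun w : ℤ => mainc (N w + 1) (s + 1) 0 (2 * w) (by
    have := hN w
    rw [pow_succ]
    simp only [Nat.cast_zero, mul_zero, zero_add]
    linarith)
  obtain ⟨W, hW⟩ := sgn_compact (2 * (s + 1)) (fun w => N w + (r1 w + r2 w + m))
  refine ⟨m, W, hm, fun u hu => ?_⟩
  obtain ⟨w, hw, hd⟩ := hW u hu
  refine ⟨w, hw, ?_⟩
  by_cases huw : u = w
  · exact Or.inl huw
  right
  obtain ⟨c, hc⟩ := hd
  have hc0 : c ≠ 0 := by
    rintro rfl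
    rw [mul_zero] at hc
    exact huw (by linarith)
  set t0 : ℤ := 2 ^ (r1 w + r2 w + m) * c with ht0
  have ht00 : t0 ≠ 0 := mul_ne_zero (by positivity) hc0
  have hdv : ∀ k, k ≤ r1 w + r2 w + m → (2 : ℤ) ^ k ∣ t0 := fun k hk =>
    Dvd.dvd.mul_right (pow_dvd_pow 2 hk) c
  obtain ⟨E, hE⟩ := exists_AD (s + 1) ht00 (hm t0 ht00 (hdv m (by omega)))
  have hG : Good E.D (s + 1) := good_of_Bas hE ht00
  refine ⟨N w, t0, E, by simp only [N]; omega, by simp only [N]; omega,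
    by simp only [N]; omega, ?_, hdv m (by omega), ht00,
    h1 w E.D (hdv _ (by omega)) hG, h2 w E.D (hdv _ (by omega)) hG⟩
  rw [ht0, ← mul_assoc, ← pow_add]
  linarith

/-- the exceptional degrees -/
def Exc (W : Finset ℤ) (u : ℤ) : Prop := ∃ e ∈ W, 0 < e ∧ ∃ i k : ℕ, (2 : ℤ) ^ k * u = 2 ^ i * e

theorem Bd_deg0 {s : ℕ} {z : RR Empty} (hz : HC (s + 1) 0 z) : Bd (s + 1) 0 z := by
  have h1 := const_of_TT hz.TT
  refine ⟨z, ?_, dd_const h1 hz.cl⟩
  rcases h1 with h | h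
  · rw [h]; exact TT.zero
  · rw [h]; exact ⟨map_one _, IW.one' _⟩

theorem prod_ind (s : ℕ) (G : ℕ → ℕ) {m : ℕ} {W : Finset ℤ}
    (hm : ∀ t : ℤ, t ≠ 0 → (2 : ℤ) ^ m ∣ t → Stab (s + 4) t)
    (hW : ∀ u : ℤ, Sgn (2 * (s + 1)) u → ∃ w ∈ W, u = w ∨ ∃ (N : ℕ) (t0 : ℤ) (E : AD t0),
      G w.toNat ≤ N ∧ G (2 * w).toNat ≤ N ∧ 1 ≤ N ∧ u = w + 2 ^ N * t0 ∧ (2 : ℤ) ^ m ∣ t0 ∧
      t0 ≠ 0 ∧ KU E.D N (s + 1) 0 w ∧ KU E.D (N + 1) (s + 1) 0 (2 * w)) :
    ∀ u : ℕ, ¬ Exc W (u : ℤ) → ∀ z, HC (s + 1) (u : ℤ) z →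
      (∃ t' y, PrR G (s + 1) t' y ∧ HC (s + 1) t' y ∧ EqR (s + 1) (u : ℤ) z t' y) ∧
      (Bd (s + 2) (2 * (u : ℤ)) (cupR (s + 1) z) →
        ∃ t' y, DcR G (s + 1) t' y ∧ HC (s + 1) t' y ∧ EqR (s + 1) (u : ℤ) z t' y) := by
  intro u
  induction u using Nat.strong_induction_on with
  | _ u ih =>
    intro hu z hz
    have hzero : Bd (s + 1) (u : ℤ) z →
        (∃ t' y, PrR G (s + 1) t' y ∧ HC (s + 1) t' y ∧ EqR (s + 1) (u : ℤ) z t' y) ∧
        (Bd (s + 2) (2 * (u : ℤ)) (cupR (s + 1) z) →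
          ∃ t' y, DcR G (s + 1) t' y ∧ HC (s + 1) t' y ∧ EqR (s + 1) (u : ℤ) z t' y) := by
      intro h
      exact ⟨⟨u, 0, PrR.zero, HC.zero', EqR.of_Bd (by rwa [add_zero])⟩,
        fun _ => ⟨u, 0, DcR.zero, HC.zero', EqR.of_Bd (by rwa [add_zero])⟩⟩
    rcases Nat.eq_zero_or_pos u with h0 | h0
    · subst h0
      apply hzero
      rw [Nat.cast_zero] at hz ⊢
      exact Bd_deg0 hz
    by_cases hS : Sgn (2 * (s + 1)) (u : ℤ)
    swap
    · exact hzero (HC_vanish hz hS)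
    obtain ⟨w, hw, hor⟩ := hW u hS
    rcases hor with huw | ⟨N, t0, E, hG1, hG2, hN1, huN, hmt, ht0, hE1, hE2⟩
    · exfalso
      refine hu ⟨w, hw, ?_, 0, 0, ?_⟩
      · rw [← huw]; exact_mod_cast h0
      · rw [huw]
    · by_cases hw0 : w = 0
      · subst hw0
        rw [zero_add] at huN
        obtain ⟨N', rfl⟩ : ∃ N', N = N' + 1 := ⟨N - 1, by omega⟩
        set v : ℤ := 2 ^ N' * t0 with hv
        have huv : (u : ℤ) = 2 * v := by rw [huN, hv, pow_succ]; ring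
        have hv0 : 0 < v := by
          have : (0 : ℤ) < u := by exact_mod_cast h0
          linarith
        obtain ⟨v', hv'⟩ := Int.eq_ofNat_of_zero_le hv0.le
        have hst : Stab (s + 4) v := hm v hv0.ne' (hmt.mul_left _)
        have hz' := hz
        rw [huv] at hz'
        obtain ⟨f, hf, hzf⟩ := hst.surj (s + 1) (by omega) z hz'
        have hv'u : v' < u := by
          have h1 : (v' : ℤ) < u := by rw [← hv', huv]; linarith
          exact_mod_cast h1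
        have hne : ¬ Exc W (v' : ℤ) := by
          rintro ⟨e, he, he0, i, k, hik⟩
          refine hu ⟨e, he, he0, i + 1, k, ?_⟩
          rw [huv, hv', pow_succ]
          linear_combination 2 * hik
        rw [hv'] at hf
        obtain ⟨c1, c2⟩ := ih v' hv'u hne f hf
        have hzf' : Bd (s + 1) (u : ℤ) (z + f ^ 2) := by rw [huv]; exact hzf
        have huv' : (u : ℤ) = 2 * (v' : ℤ) := by rw [huv, hv']
        refine ⟨?_, fun hB => ?_⟩
        · obtain ⟨t', y, h1, h2, h3⟩ := c1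
          exact ⟨t', y, h1, h2, EqR.of_sq huv' hzf' h3⟩
        · have hf2 : HC (s + 1) (u : ℤ) (f ^ 2) := by rw [huv']; exact hf.sq
          have h4 := cup_congr hz hf2 hzf'
          have h5 : Bd (s + 2) (2 * (u : ℤ)) (cupR (s + 1) (f ^ 2)) := by
            have h6 := h4.add hB
            have h7 := p2_add_self (cupR (s + 1) z)
            have h8 : cupR (s + 1) z + cupR (s + 1) (f ^ 2) + cupR (s + 1) z
                = cupR (s + 1) (f ^ 2) := by linear_combination h7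
            rwa [h8] at h6
          have h6 : cupR (s + 1) (f ^ 2) = cupR (s + 1) f ^ 2 := by
            have := cupR_pow (s + 1) 1 f
            rwa [pow_one] at this
          rw [h6, huv', ← hv'] at h5
          rw [← hv'] at hf
          have h7 := hst.inj2 (s + 2) (by omega) _ (HC_cup hf) h5
          rw [hv'] at h7
          obtain ⟨t', y, h1, h2, h3⟩ := c2 h7
          exact ⟨t', y, h1, h2, EqR.of_sq huv' hzf' h3⟩
      · refine ⟨?_, fun hB => ?_⟩
        · rw [huN] at hz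
          obtain ⟨x, hx, hx0, hzx⟩ := surj_cone (D := E.D) hE1 hz
          have hxB : Bd (s + 1) (w + 2 ^ N * t0)
              (z + ∑ i : E.D.I, tm N (E.D.σ i) (E.D.z i) (x i)) := hzx
          refine ⟨u, ∑ i : E.D.I, tm N (E.D.σ i) (E.D.z i) (x i), ?_, ?_, ?_⟩
          · rw [huN]
            exact PrR.sum _ fun i _ => PrR.prod hw0 (E.D.hz i) (hx i) (hx0 i) hG1
          · rw [huN]
            exact HC.sum _ fun i _ => HC_tm (E.D.hz i) (hx i) (hx0 i)
          · rw [huN]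
            exact EqR.of_Bd hxB
        · rw [huN] at hz hB
          obtain ⟨v, x, hv, hx, hx0, hxc, hres⟩ := ker_main E hE1 hE2 hz hB
          have hdeg : 2 * w + 2 ^ (N + 1) * t0 = 2 * (w + 2 ^ N * t0) := by ring
          have hterm : ∀ a, HC (s + 1) (2 * (w + 2 ^ N * t0))
              (tm (N + 1) (E.σA a) (E.h a) (x a ^ 2)) := by
            intro a
            rw [← hdeg]
            exact HC_tm (E.hh a) (hx a).sq (fun h => by rw [hx0 a h, zero_pow two_ne_zero])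
          refine ⟨2 * (w + 2 ^ N * t0), cupR s v
            + ∑ a, tm (N + 1) (E.σA a) (E.h a) (x a ^ 2), ?_, ?_, ?_⟩
          · refine (DcR.sq1 hv).add (DcR.sum _ fun a _ => ?_)
            rw [← hdeg]
            refine DcR.prod (by omega) (E.hh a) (hx a).sq
              (fun h => by rw [hx0 a h, zero_pow two_ne_zero]) (by omega) (E.h1 a) ?_
            have h1 : cupR (s - E.σA a) (x a ^ 2) = cupR (s - E.σA a) (x a) ^ 2 := by
              have := cupR_pow (s - E.σA a) 1 (x a)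
              rwa [pow_one] at this
            rw [h1]
            exact (hxc a).sq
          · exact (HC_cup hv).add (HC.sum _ fun a _ => hterm a)
          · rw [huN]
            refine ⟨1, 0, by ring, ?_⟩
            rw [pow_one, pow_zero, pow_one, pow_one, ← add_assoc]
            exact hres

end cover

end Pool.Agent.H59K
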