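import Pool.Agent.H59K.KV

/-!
# The structure theorem
-/

set_option autoImplicit false
set_option linter.unusedSectionVars false

namespace Pool.Agent.H59K

open Pool.Agent.W624.NS
open Pool.Agent.W624.Stz (dd kun cut TT RR IW wF dm cm cm_same cm_ne cm_IW naf_un
  p2_add_self p2_eq_of_add)

section classes

theorem jo_sub {s : ℕ} (x y : Cob s) : jo (x - y) = jo x + jo y := by
  have h1 : jo (x - y) = jo x - jo y :=
    map_sub (W624.Stz.io s) (x : W624.ND.Cob s) (y : W624.ND.Cob s)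
  rw [h1, sub_eq_add_neg]
  congr 1
  exact CharTwo.neg_eq (jo y)

theorem isHom_sub {s t : ℕ} {x y : Cob s} (hx : IsHom s t x) (hy : IsHom s t y) :
    IsHom s t (x - y) := by
  rw [isHom_iff, jo_sub]
  exact ((isHom_iff x).mp hx).add ((isHom_iff y).mp hy)

theorem cl_eq_iff {n : ℕ} (a b : Z n) : cl a = cl b ↔ IsB n (a.1 - b.1) := by
  constructor
  · intro h
    exact (equiv_rel n).eqvGen_iff.mp (Quot.eqvGen_exact h)
  · intro h
    exact Quot.sound h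

theorem cl_eq_iff_Bd {n t : ℕ} {a b : Z n} (ha : IsHom n t a.1) (hb : IsHom n t b.1) :
    cl a = cl b ↔ Bd n (t : ℤ) (jo a.1 + jo b.1) := by
  rw [cl_eq_iff, Bd_iff (isHom_sub ha hb), jo_sub]

/-- two homogeneous cohomologous cocycles of different degrees are coboundaries -/
theorem isB_of_ne {n t u : ℕ} {a b : Cob n} (ha : IsHom n t a) (hb : IsHom n u b)
    (htu : t ≠ u) (h : IsB n (a - b)) : Bd n (t : ℤ) (jo a) := by
  have ha' := (isHom_iff a).mp ha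
  have hb' := (isHom_iff b).mp hb
  have hne : (((u : ℤ), ((0 : Empty → ℕ), 0)) : ℤ × ((Empty → ℕ) × ℕ))
      ≠ ((t : ℤ), ((0 : Empty → ℕ), 0)) := by
    intro h
    have h1 : (u : ℤ) = t := congrArg Prod.fst h
    exact htu (by exact_mod_cast h1.symm)
  have h1 : cm (wF (kun : Empty → W624.Stz.Kd)) ((t : ℤ), ((0 : Empty → ℕ), 0)) (jo a) = jo a :=
    cm_same ha'
  have h2 : cm (wF (kun : Empty → W624.Stz.Kd)) ((t : ℤ), ((0 : Empty → ℕ), 0)) (jo b) = 0 :=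
    cm_ne hb' hne.symm
  cases n with
  | zero =>
    have h3 : a - b = 0 := h
    have h4 : jo a + jo b = 0 := by rw [← jo_sub, h3, jo_zero]
    have h5 := congrArg (cm (wF (kun : Empty → W624.Stz.Kd)) ((t : ℤ), ((0 : Empty → ℕ), 0))) h4
    rw [map_add, h1, h2, add_zero, map_zero] at h5
    rw [h5]
    exact Bd.zero
  | succ n =>
    obtain ⟨g, hg⟩ := h
    have h4 : dd kun n (jo g) = jo a + jo b := by rw [← jo_dC, hg, jo_sub]
    have h5 : dd kun n (cm (wF (kun : Empty → W624.Stz.Kd)) ((t : ℤ), ((0 : Empty → ℕ), 0))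
        (jo g)) = jo a := by
      rw [← Pool.Agent.W624.Stz.cm_dd naf_un, h4, map_add, h1, h2, add_zero]
    refine ⟨_, ⟨?_, cm_IW _ _ _⟩, h5⟩
    rw [Nat.add_sub_cancel, ← Pool.Agent.W624.Stz.cm_cut, jo_cut]

theorem EqR_cl {n t t' : ℕ} {x y : Z n} (hx : IsHom n t x.1) (hy : IsHom n t' y.1)
    (h : EqR n (t : ℤ) (jo x.1) (t' : ℤ) (jo y.1)) : Eqv (cl x) (cl y) := by
  obtain ⟨i, k, hd, hB⟩ := h
  refine ⟨i, k, ?_⟩
  rw [Sq0_iter, Sq0_iter]
  have hx' := isHom_iter x hx i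
  have hy' := isHom_iter y hy k
  have hd' : 2 ^ i * t = 2 ^ k * t' := by exact_mod_cast hd
  rw [← hd'] at hy'
  rw [cl_eq_iff_Bd hx' hy', jo_sq_iter, jo_sq_iter]
  push_cast
  exact hB

end classes

section decs

theorem Dec_spec {G : ℕ → ℕ} {n t : ℕ} {z : Cob n} (h : Dec G n t z) :
    HC n (t : ℤ) (jo z) ∧ ∃ i : ℕ, Bd (n + 1) (2 ^ i * (2 * (t : ℤ))) (cupR n (jo z) ^ 2 ^ i) := by
  induction h with
  | bd n t z hz hB =>
    have h1 := (Bd_iff hz).mp hB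
    exact ⟨h1.HC, 0, by simpa using Bd_cup h1⟩
  | sq1 n t v hv =>
    have h1 := HC_jo v hv
    refine ⟨?_, 0, ?_⟩
    · rw [jo_cup]
      push_cast
      exact HC_cup h1
    · rw [jo_cup, pow_zero, one_mul, pow_zero, pow_one]
      push_cast
      exact Bd_cup_cup h1
  | prod p q t u a y x hy hx hG hny hnx =>
    have hya : IsHom (p + 1) (2 ^ a * t) ((sqZ (p + 1))^[a] y).1 := isHom_iter y hy a
    have e : mul (y.1 ^ 2 ^ a) x.1 = (mulZ ((sqZ (p + 1))^[a] y) x).1 := by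
      change _ = mul ((sqZ (p + 1))^[a] y).1 x.1
      rw [sqZ_iter]
    have hz := isHom_mul hya hx
    have h1 : Nil (cl (Sq1 (p + 1) ((sqZ (p + 1))^[a] y))) := by
      rw [Sq1_iter, nil_sq_iter]
      exact hny
    have h2 := nil_sq1_mul hya hx h1 hnx
    have h3 := (Nil_sq1_iff (mulZ ((sqZ (p + 1))^[a] y) x) hz).mp h2
    refine ⟨?_, ?_⟩
    · rw [e]
      exact HC_jo (mulZ ((sqZ (p + 1))^[a] y) x) hz
    · rw [e]
      exact h3
  | add n t z z' _ _ ih ih' =>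
    obtain ⟨h1, i, hi⟩ := ih
    obtain ⟨h2, k, hk⟩ := ih'
    refine ⟨by rw [jo_add]; exact h1.add h2, max i k, ?_⟩
    have h3 := up_Bd (le_max_left i k) hi
    have h4 := up_Bd (le_max_right i k) hk
    have h5 := (Bd_cup_add h1 h2).pow (max i k)
    rw [W624.Stz.add_pow0, W624.Stz.add_pow0] at h5
    rw [jo_add]
    have h6 := (h5.add h3).add h4
    have p1 := p2_add_self (cupR n (jo z) ^ 2 ^ max i k)
    have p2 := p2_add_self (cupR n (jo z') ^ 2 ^ max i k)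
    refine Eq.mp (congrArg _ ?_) h6
    linear_combination p1 + p2

theorem nil_of_Eqv {s t t' : ℕ} {x y : Z s} (hx : IsHom s t x.1) (hy : IsHom s t' y.1)
    (h : Eqv (cl x) (cl y)) (hn : Nil (cl (Sq1 s y))) : Nil (cl (Sq1 s x)) := by
  obtain ⟨i, k, hik⟩ := h
  rw [Sq0_iter, Sq0_iter] at hik
  have hx' := isHom_iter x hx i
  have hy' := isHom_iter y hy k
  by_cases hd : 2 ^ i * t = 2 ^ k * t'
  · rw [← hd] at hy'
    have h1 := (cl_eq_iff_Bd hx' hy').mp hik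
    have h2 := cup_congr (HC_jo _ hx') (HC_jo _ hy') h1
    rw [jo_sq_iter, jo_sq_iter, cupR_pow, cupR_pow] at h2
    obtain ⟨l, hl⟩ := (Nil_sq1_iff y hy).mp hn
    rw [Nil_sq1_iff x hx]
    refine ⟨i + l, ?_⟩
    have h3 := h2.pow_add l
    have h4 := up_Bd (show l ≤ k + l by omega) hl
    have h5 : (2 : ℤ) ^ (k + l) * (2 * (t' : ℤ)) = 2 ^ l * (2 * ((2 ^ i * t : ℕ) : ℤ)) := by
      have : ((2 ^ i * t : ℕ) : ℤ) = ((2 ^ k * t' : ℕ) : ℤ) := by rw [hd]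
      rw [this]
      push_cast
      ring
    rw [h5] at h4
    rw [← pow_mul, ← pow_mul, ← pow_add, ← pow_add] at h3
    have h6 := h3.of_add h4
    have h7 : (2 : ℤ) ^ l * (2 * ((2 ^ i * t : ℕ) : ℤ)) = 2 ^ (i + l) * (2 * (t : ℤ)) := by
      push_cast
      ring
    rwa [h7] at h6
  · have h1 := isB_of_ne hx' hy' hd ((cl_eq_iff _ _).mp hik)
    have h2 := Bd_cup h1
    rw [jo_sq_iter, cupR_pow] at h2
    rw [Nil_sq1_iff x hx]
    refine ⟨i, ?_⟩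
    have h3 : (2 : ℤ) * ((2 ^ i * t : ℕ) : ℤ) = 2 ^ i * (2 * (t : ℤ)) := by
      push_cast
      ring
    rwa [h3] at h2

theorem Exc.mul {W : Finset ℤ} {u : ℤ} (r : ℕ) (h : Exc W (2 ^ r * u)) : Exc W u := by
  obtain ⟨e, he, he0, i, k, hik⟩ := h
  exact ⟨e, he, he0, i, k + r, by rw [pow_add]; linear_combination hik⟩

theorem isHom_zero (n t : ℕ) : IsHom n t (0 : Cob n) :=
  MvPolynomial.isWeightedHomogeneous_zero _ _ _

theorem PrR_out {G : ℕ → ℕ} {n : ℕ} {t' : ℤ} {y : RR Empty} (h1 : PrR G n t' y)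
    (h2 : HC n t' y) {t : ℕ} {x : Z n} (hx : IsHom n t x.1)
    (h3 : EqR n (t : ℤ) (jo x.1) t' y) :
    ∃ (u : ℕ) (v : Z n), Prd G n u v.1 ∧ Eqv (cl x) (cl v) := by
  rcases h1 with rfl | ⟨u, v, hu, hv, hP⟩
  · obtain ⟨i, k, hd, hB⟩ := h3
    refine ⟨0, zeroZ n, Prd.bd _ _ _ (isHom_zero n 0) (isB_zero n), i, 0, ?_⟩
    rw [zero_pow (by positivity), add_zero] at hB
    exact (iter_zero_iff x hx i).mpr hB
  · subst hu
    obtain ⟨v', hv1, hv2⟩ := exists_Z h2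
    have hvv : v'.1 = v := jo_inj (hv1.trans hv.symm)
    refine ⟨u, v', by rw [hvv]; exact hP, EqR_cl hx hv2 ?_⟩
    rw [hv1]
    exact h3

theorem DcR_out {G : ℕ → ℕ} {n : ℕ} {t' : ℤ} {y : RR Empty} (h1 : DcR G n t' y)
    (h2 : HC n t' y) {t : ℕ} {x : Z n} (hx : IsHom n t x.1)
    (h3 : EqR n (t : ℤ) (jo x.1) t' y) :
    ∃ (u : ℕ) (v : Z n), Dec G n u v.1 ∧ Eqv (cl x) (cl v) := by
  rcases h1 with rfl | ⟨u, v, hu, hv, hP⟩
  · obtain ⟨i, k, hd, hB⟩ := h3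
    refine ⟨0, zeroZ n, Dec.bd _ _ _ (isHom_zero n 0) (isB_zero n), i, 0, ?_⟩
    rw [zero_pow (by positivity), add_zero] at hB
    exact (iter_zero_iff x hx i).mpr hB
  · subst hu
    obtain ⟨v', hv1, hv2⟩ := exists_Z h2
    have hvv : v'.1 = v := jo_inj (hv1.trans hv.symm)
    refine ⟨u, v', by rw [hvv]; exact hP, EqR_cl hx hv2 ?_⟩
    rw [hv1]
    exact h3

theorem surj_iter {s m : ℕ} (hm : ∀ t : ℤ, t ≠ 0 → (2 : ℤ) ^ m ∣ t → Stab (s + 4) t) {T : ℤ}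
    (hT : T ≠ 0) (hd : (2 : ℤ) ^ m ∣ T) (i : ℕ) : ∀ g, HC (s + 1) (2 ^ i * T) g →
    ∃ f, HC (s + 1) T f ∧ Bd (s + 1) (2 ^ i * T) (g + f ^ 2 ^ i) := by
  induction i with
  | zero =>
    intro g hg
    rw [pow_zero, one_mul] at hg ⊢
    exact ⟨g, hg, by rw [pow_zero, pow_one, p2_add_self]; exact Bd.zero⟩
  | succ i ih =>
    intro g hg
    have h1 : (2 : ℤ) ^ (i + 1) * T = 2 * (2 ^ i * T) := by rw [pow_succ]; ring
    rw [h1] at hg ⊢
    obtain ⟨f1, hf1, hB1⟩ := (hm (2 ^ i * T) (mul_ne_zero (by positivity) hT)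
      (hd.mul_left _)).surj (s + 1) (by omega) g hg
    obtain ⟨f, hf, hB⟩ := ih f1 hf1
    refine ⟨f, hf, ?_⟩
    have h2 := hB.sq
    rw [sq_add, ← pow_mul, ← pow_succ] at h2
    exact hB1.trans h2

theorem finite_cocycles (n t : ℕ) : {y : Z n | IsHom n t y.1}.Finite := by
  refine Set.Finite.of_finite_image (f := fun y : Z n => jo y.1) ?_ ?_
  · refine Set.Finite.subset (finite_TT n (t : ℤ)) ?_
    rintro f ⟨y, hy, rfl⟩
    exact (HC_jo y hy).TT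
  · intro a _ b _ hab
    exact Subtype.ext (jo_inj hab)

end decs

/-- **the structure theorem** -/
theorem structure_thm (s : ℕ) (G : ℕ → ℕ) : ∃ F : Set (Z (s + 1)), F.Finite ∧
    (∀ f ∈ F, ∃ u, IsHom (s + 1) u f.1) ∧
    ∀ (t : ℕ) (x : Z (s + 1)), IsHom (s + 1) t x.1 →
      (∃ f ∈ F, Eqv (cl x) (cl f)) ∨
      ((∃ (u : ℕ) (v : Z (s + 1)), Prd G (s + 1) u v.1 ∧ Eqv (cl x) (cl v)) ∧
        (Nil (cl (Sq1 (s + 1) x)) ↔
          ∃ (u : ℕ) (v : Z (s + 1)), Dec G (s + 1) u v.1 ∧ Eqv (cl x) (cl v))) := by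
  obtain ⟨m, W, hm, hW⟩ := exists_W s G
  obtain ⟨r, hr⟩ := nil_bound (s + 2)
  refine ⟨⋃ e ∈ W, {y : Z (s + 1) | IsHom (s + 1) (2 ^ m * e.toNat) y.1},
    Set.Finite.biUnion W.finite_toSet fun e _ => finite_cocycles _ _, ?_, fun t x hx => ?_⟩
  · intro f hf
    simp only [Set.mem_iUnion] at hf
    obtain ⟨e, _, hf⟩ := hf
    exact ⟨_, hf⟩
  by_cases hex : Exc W (t : ℤ)
  · left
    obtain ⟨e, he, he0, i, k, hik⟩ := hex
    have hT : (2 : ℤ) ^ m * e ≠ 0 := mul_ne_zero (by positivity) he0.ne'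
    have hd : (2 : ℤ) ^ (k + m) * t = 2 ^ i * (2 ^ m * e) := by
      rw [pow_add]; linear_combination 2 ^ m * hik
    have hg := (HC_jo x hx).pow (k + m)
    rw [hd] at hg
    obtain ⟨f, hf, hB⟩ := surj_iter hm hT (Dvd.intro _ rfl) i _ hg
    have he' : ((2 ^ m * e.toNat : ℕ) : ℤ) = 2 ^ m * e := by
      push_cast
      rw [Int.toNat_of_nonneg he0.le]
    rw [← he'] at hf
    obtain ⟨y, hy1, hy2⟩ := exists_Z hf
    refine ⟨y, ?_, EqR_cl hx hy2 ⟨k + m, i, ?_, ?_⟩⟩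
    · simp only [Set.mem_iUnion]
      exact ⟨e, he, hy2⟩
    · rw [he', hd]
    · rw [hd, hy1]
      exact hB
  · right
    obtain ⟨⟨t', y, h1, h2, h3⟩, _⟩ := prod_ind s G hm hW t hex _ (HC_jo x hx)
    refine ⟨PrR_out h1 h2 hx h3, ?_, ?_⟩
    · intro hn
      have h4 := hr _ hn
      have h5 : Bd (s + 2) (2 ^ r * (2 * (t : ℤ))) (cupR (s + 1) (jo x.1) ^ 2 ^ r) := by
        have := (iter_zero_iff (Sq1 (s + 1) x) (isHom_sq1 x hx) r).mp h4
        rw [jo_Sq1] at this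
        push_cast at this
        exact this
      have h6 : ¬ Exc W (((2 ^ r * t : ℕ)) : ℤ) := fun h => hex (by
        push_cast at h
        exact h.mul r)
      have h7 := (HC_jo x hx).pow r
      have h8 : (2 : ℤ) ^ r * (t : ℤ) = ((2 ^ r * t : ℕ) : ℤ) := by push_cast; rfl
      rw [h8] at h7
      obtain ⟨_, c2⟩ := prod_ind s G hm hW (2 ^ r * t) h6 _ h7
      obtain ⟨t', y, h1, h2, h3⟩ := c2 (by
        rw [cupR_pow, ← h8]
        rwa [show (2 : ℤ) * (2 ^ r * (t : ℤ)) = 2 ^ r * (2 * (t : ℤ)) by ring])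
      rw [← h8] at h3
      exact DcR_out h1 h2 hx h3.of_pow
    · rintro ⟨u, v, hv, he⟩
      obtain ⟨h1, i, hi⟩ := Dec_spec hv
      have hvh : IsHom (s + 1) u v.1 := by
        rw [isHom_iff]
        exact h1.iw
      exact nil_of_Eqv hx hvh he ((Nil_sq1_iff v hvh).mpr ⟨i, hi⟩)

end Pool.Agent.H59K
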