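import Pool.Agent.H59K.KW
import Pool.Agent.H59K.KDefs3

/-!
# Finite generation
-/

set_option autoImplicit false
set_option linter.unusedSectionVars false

namespace Pool.Agent.H59K

open Pool.Agent.W624.NS
open Pool.Agent.W624.Stz (dd kun cut TT RR IW wF dm cm cm_same cm_ne cm_IW naf_un
  p2_add_self p2_eq_of_add)

section ply

variable {F : (n : ℕ) → Set (Z n)} {n : ℕ} {t u : ℤ} {f g : RR Empty}

theorem jo_inj_sq {n : ℕ} (x y : Cob n) : (x + y) ^ 2 = x ^ 2 + y ^ 2 := by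
  apply jo_inj
  have h1 := jo_pow (x + y) 2
  rw [h1, jo_add, jo_add, jo_pow, jo_pow, sq_add]

theorem mul_sq {p q : ℕ} (x : Cob p) (y : Cob q) : (mul x y) ^ 2 = mul (x ^ 2) (y ^ 2) := by
  rw [mul, mul, mul_pow, map_pow, map_pow]

theorem isHom_sq {n t : ℕ} {x : Cob n} (h : IsHom n t x) : IsHom n (2 * t) (x ^ 2) := by
  have h1 : MvPolynomial.IsWeightedHomogeneous (R := ZMod 2)
      (fun p : Fin n × ℕ => 2 ^ (p.2 + 1) - 1) x t := h
  have := h1.pow 2
  rwa [smul_eq_mul] at this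

theorem Poly.sq {n t : ℕ} {x : Cob n} (h : Poly F n t x) : Poly F n (2 * t) (x ^ 2) := by
  induction h with
  | bd n t z hz hB => exact Poly.bd _ _ _ (isHom_sq hz) (isB_sq hB)
  | mem n t k f hf hh =>
    have := Poly.mem (F := F) n t (k + 1) f hf hh
    rw [show 2 ^ (k + 1) * t = 2 * (2 ^ k * t) by ring, pow_succ, pow_mul] at this
    exact this
  | mul p q t u x y _ _ ih1 ih2 =>
    rw [mul_sq, mul_add]
    exact Poly.mul _ _ _ _ _ _ ih1 ih2
  | add n t x y _ _ ih1 ih2 =>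
    rw [jo_inj_sq]
    exact Poly.add _ _ _ _ ih1 ih2

theorem Poly.HC {n t : ℕ} {x : Cob n} (h : Poly F n t x) : H59K.HC n (t : ℤ) (jo x) := by
  induction h with
  | bd n t z hz hB => exact ((Bd_iff hz).mp hB).HC
  | mem n t k f hf hh =>
    have := (HC_jo f hh).pow k
    rw [jo_pow]
    push_cast
    exact this
  | mul p q t u x y _ _ ih1 ih2 =>
    rw [jo_mul]
    push_cast
    exact HC_prod ih1 ih2
  | add n t x y _ _ ih1 ih2 =>
    rw [jo_add]
    exact ih1.add ih2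

theorem Poly.cup (hF : ∀ n, ∀ f ∈ F n, cl (Sq1 n f) = 0) {n t : ℕ} {x : Cob n}
    (h : Poly F n t x) : Bd (n + 1) (2 * (t : ℤ)) (cupR n (jo x)) := by
  induction h with
  | bd n t z hz hB => exact Bd_cup ((Bd_iff hz).mp hB)
  | mem n t k f hf hh =>
    have h1 := hF _ f hf
    rw [cl_eq_zero] at h1
    have h2 := (Bd_iff (isHom_sq1 f hh)).mp h1
    rw [jo_Sq1] at h2
    have h3 := h2.pow k
    rw [jo_pow, cupR_pow]
    push_cast at h3 ⊢
    rwa [show (2 : ℤ) * (2 ^ k * (t : ℤ)) = 2 ^ k * (2 * (t : ℤ)) by ring]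
  | mul p q t u x y h1 h2 ih1 ih2 =>
    have h3 := Bd_cup_prod h1.HC h2.HC 0 (by simpa using ih1) (by simpa using ih2)
    rw [pow_zero, one_mul, pow_zero, pow_one] at h3
    rw [jo_mul]
    push_cast
    exact h3
  | add n t x y h1 h2 ih1 ih2 =>
    have h3 := ((Bd_cup_add h1.HC h2.HC).add ih1).add ih2
    rw [jo_add]
    have p1 := p2_add_self (cupR n (jo x))
    have p2 := p2_add_self (cupR n (jo y))
    refine Eq.mp (congrArg _ ?_) h3
    linear_combination p1 + p2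

/-- the predicate in the big ring -/
def PlR (F : (n : ℕ) → Set (Z n)) (n : ℕ) (t : ℤ) (f : RR Empty) : Prop :=
  f = 0 ∨ ∃ (t' : ℕ) (x : Cob n), (t' : ℤ) = t ∧ jo x = f ∧ Poly F n t' x

theorem PlR.zero : PlR F n t 0 := Or.inl rfl

theorem PlR.add (hf : PlR F n t f) (hg : PlR F n t g) : PlR F n t (f + g) := by
  rcases hf with rfl | ⟨t', x, h1, h2, h3⟩
  · rwa [zero_add]
  rcases hg with rfl | ⟨u', y, h4, h5, h6⟩
  · rw [add_zero]; exact Or.inr ⟨t', x, h1, h2, h3⟩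
  have : t' = u' := by exact_mod_cast h1.trans h4.symm
  subst this
  exact Or.inr ⟨t', x + y, h1, by rw [jo_add, h2, h5], Poly.add _ _ _ _ h3 h6⟩

theorem PlR.bd (h : Bd n t f) : PlR F n t f := by
  rcases lt_or_ge t 0 with h0 | h0
  · left; exact HC_neg h0 h.HC
  · obtain ⟨m, rfl⟩ := Int.eq_ofNat_of_zero_le h0
    obtain ⟨x, hx1, hx2⟩ := exists_Z h.HC
    refine Or.inr ⟨m, x.1, rfl, hx1, Poly.bd _ _ _ hx2 (isB_of_Bd hx2 ?_)⟩
    rw [hx1]; exact h

theorem PlR.congr (h : PlR F n t f) (hB : Bd n t (g + f)) : PlR F n t g := by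
  have h1 := (PlR.bd (F := F) hB).add h
  rwa [add_assoc, p2_add_self, add_zero] at h1

theorem PlR.sq (h : PlR F n t f) : PlR F n (2 * t) (f ^ 2) := by
  rcases h with rfl | ⟨t', x, h1, h2, h3⟩
  · left; exact zero_pow two_ne_zero
  · exact Or.inr ⟨2 * t', x ^ 2, by push_cast; rw [h1], by rw [jo_pow, h2], h3.sq⟩

theorem PlR.pow (i : ℕ) (h : PlR F n t f) : PlR F n (2 ^ i * t) (f ^ 2 ^ i) := by
  induction i with
  | zero => simpa using h
  | succ i ih =>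
    have := ih.sq
    rwa [← pow_mul, ← pow_succ, show (2 : ℤ) * (2 ^ i * t) = 2 ^ (i + 1) * t by ring] at this

theorem PlR.mul {p q : ℕ} (hf : PlR F p t f) (hg : PlR F q u g) :
    PlR F (p + q) (t + u) (f * shf Empty p g) := by
  rcases hf with rfl | ⟨t', x, h1, h2, h3⟩
  · left; rw [zero_mul]
  rcases hg with rfl | ⟨u', y, h4, h5, h6⟩
  · left; rw [map_zero, mul_zero]
  exact Or.inr ⟨t' + u', H59K.mul x y, by push_cast; rw [h1, h4], by rw [jo_mul, h2, h5],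
    Poly.mul _ _ _ _ _ _ h3 h6⟩

theorem PlR.HC (h : PlR F n t f) : H59K.HC n t f := by
  rcases h with rfl | ⟨t', x, h1, h2, h3⟩
  · exact HC.zero'
  · rw [← h1, ← h2]; exact h3.HC

theorem PlR.cup (hF : ∀ n, ∀ f ∈ F n, cl (Sq1 n f) = 0) (h : PlR F n t f) :
    Bd (n + 1) (2 * t) (cupR n f) := by
  rcases h with rfl | ⟨t', x, h1, h2, h3⟩
  · rw [cupR_zero]; exact Bd.zero
  · rw [← h1, ← h2]; exact h3.cup hF

/-- eventually a polynomial -/
def EvP (F : (n : ℕ) → Set (Z n)) (n : ℕ) (t : ℤ) (f : RR Empty) : Prop :=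
  ∃ i : ℕ, PlR F n (2 ^ i * t) (f ^ 2 ^ i)

theorem up_PlR {i k : ℕ} (hik : i ≤ k) (h : PlR F n (2 ^ i * t) (f ^ 2 ^ i)) :
    PlR F n (2 ^ k * t) (f ^ 2 ^ k) := by
  obtain ⟨c, rfl⟩ := Nat.exists_eq_add_of_le hik
  have h1 := h.pow c
  rw [← pow_mul, ← pow_add, ← mul_assoc, ← pow_add, add_comm c i] at h1
  exact h1

theorem EvP.add (hf : EvP F n t f) (hg : EvP F n t g) : EvP F n t (f + g) := by
  obtain ⟨i, hi⟩ := hf
  obtain ⟨k, hk⟩ := hg
  refine ⟨max i k, ?_⟩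
  rw [W624.Stz.add_pow0]
  exact (up_PlR (le_max_left _ _) hi).add (up_PlR (le_max_right _ _) hk)

theorem EvP.mul {p q : ℕ} (hf : EvP F p t f) (hg : EvP F q u g) :
    EvP F (p + q) (t + u) (f * shf Empty p g) := by
  obtain ⟨i, hi⟩ := hf
  obtain ⟨k, hk⟩ := hg
  refine ⟨max i k, ?_⟩
  have := (up_PlR (le_max_left i k) hi).mul (up_PlR (le_max_right i k) hk)
  rwa [map_pow, ← mul_pow, ← mul_add] at this

theorem EvP.pow (a : ℕ) (hf : EvP F n t f) : EvP F n (2 ^ a * t) (f ^ 2 ^ a) := by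
  obtain ⟨i, hi⟩ := hf
  refine ⟨i, ?_⟩
  have := hi.pow a
  have e1 : (f ^ 2 ^ i) ^ 2 ^ a = (f ^ 2 ^ a) ^ 2 ^ i := by rw [← pow_mul, ← pow_mul, mul_comm]
  have e2 : (2 : ℤ) ^ a * (2 ^ i * t) = 2 ^ i * (2 ^ a * t) := by ring
  rwa [e1, e2] at this

theorem EvP.congr_Eqv {s t t' : ℕ} {x y : Z s} (hx : IsHom s t x.1) (hy : IsHom s t' y.1)
    (h : Eqv (cl x) (cl y)) (hp : EvP F s (t' : ℤ) (jo y.1)) : EvP F s (t : ℤ) (jo x.1) := by
  obtain ⟨i, k, hik⟩ := h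
  rw [Sq0_iter, Sq0_iter] at hik
  have hx' := isHom_iter x hx i
  have hy' := isHom_iter y hy k
  obtain ⟨l, hl⟩ := hp
  by_cases hd : 2 ^ i * t = 2 ^ k * t'
  · rw [← hd] at hy'
    have h1 := (cl_eq_iff_Bd hx' hy').mp hik
    rw [jo_sq_iter, jo_sq_iter] at h1
    have h2 := h1.pow_add l
    rw [← pow_mul, ← pow_mul, ← pow_add, ← pow_add] at h2
    refine ⟨i + l, ?_⟩
    have h3 : PlR F s (2 ^ (k + l) * (t' : ℤ)) (jo y.1 ^ 2 ^ (k + l)) :=
      up_PlR (by omega) hl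
    have e1 : (2 : ℤ) ^ (k + l) * (t' : ℤ) = 2 ^ (i + l) * (t : ℤ) := by
      have : ((2 ^ i * t : ℕ) : ℤ) = ((2 ^ k * t' : ℕ) : ℤ) := by rw [hd]
      push_cast at this
      rw [pow_add, pow_add]
      linear_combination (-2 ^ l) * this
    have e2 : (2 : ℤ) ^ l * ((2 ^ i * t : ℕ) : ℤ) = 2 ^ (i + l) * (t : ℤ) := by
      push_cast
      ring
    rw [e1] at h3
    rw [e2] at h2
    exact h3.congr h2
  · have h1 := isB_of_ne hx' hy' hd ((cl_eq_iff _ _).mp hik)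
    rw [jo_sq_iter] at h1
    refine ⟨i, PlR.bd ?_⟩
    push_cast at h1
    exact h1

end ply

section gen

/-- sums of products of eventual polynomials -/
theorem EvP_of_Prd {A : (n : ℕ) → Set (Z n)} {n t : ℕ} {z : Cob n} (h : Prd (fun _ => 0) n t z) :
    (∀ m, m + 1 < n → ∀ (t : ℕ) (x : Z (m + 1)), IsHom (m + 1) t x.1 →
      EvP A (m + 1) (t : ℤ) (jo x.1)) → EvP A n (t : ℤ) (jo z) := by
  induction h with
  | bd n t z hz hB =>
    intro _
    exact ⟨0, by simpa using PlR.bd ((Bd_iff hz).mp hB)⟩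
  | prod p q t u a y x hy hx _ =>
    intro ih
    have h1 := (ih p (by omega) t y hy).pow a
    have h2 := ih q (by omega) u x hx
    have h3 := h1.mul h2
    rw [jo_mul, jo_pow]
    push_cast
    exact h3
  | add n t z z' _ _ ih1 ih2 =>
    intro ih
    rw [jo_add]
    exact (ih1 ih).add (ih2 ih)

theorem isHom_of_HC {n t : ℕ} {x : Cob n} (h : HC n (t : ℤ) (jo x)) : IsHom n t x :=
  (isHom_iff x).mpr h.iw

theorem Prd_hom {G : ℕ → ℕ} {n t : ℕ} {z : Cob n} (h : Prd G n t z) : IsHom n t z := by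
  induction h with
  | bd n t z hz _ => exact hz
  | prod p q t u a y x hy hx _ =>
    have h1 := isHom_iter y hy a
    rw [sqZ_iter] at h1
    exact isHom_mul h1 hx
  | add n t z z' _ _ ih1 ih2 =>
    rw [isHom_iff, jo_add]
    exact ((isHom_iff z).mp ih1).add ((isHom_iff z').mp ih2)

theorem gen_all : ∃ A : (n : ℕ) → Set (Z n), (∀ n, (A n).Finite) ∧
    (∀ n, ∀ f ∈ A n, ∃ u, IsHom n u f.1) ∧
    (∀ s (t : ℕ) (x : Z (s + 1)), IsHom (s + 1) t x.1 → EvP A (s + 1) (t : ℤ) (jo x.1)) ∧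
    (∀ s (t : ℕ) (x : Z (s + 1)), IsHom (s + 1) t x.1 →
      (∃ f ∈ A (s + 1), Eqv (cl x) (cl f)) ∨ (Nil (cl (Sq1 (s + 1) x)) →
          ∃ (u : ℕ) (v : Z (s + 1)), Dec (fun _ => 0) (s + 1) u v.1 ∧ Eqv (cl x) (cl v))) := by
  choose F hF1 hF2 hF3 using fun s => structure_thm s (fun _ => 0)
  let A : (n : ℕ) → Set (Z n) := fun n => match n with
    | 0 => ∅
    | s + 1 => F s
  refine ⟨A, ?_, ?_, ?_, ?_⟩
  · intro n
    cases n with
    | zero => exact Set.finite_empty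
    | succ s => exact hF1 s
  · intro n
    cases n with
    | zero => exact fun f hf => absurd hf (Set.notMem_empty f)
    | succ s => exact hF2 s
  · intro s
    induction s using Nat.strong_induction_on with
    | _ s ih =>
      intro t x hx
      rcases hF3 s t x hx with ⟨f, hf, hxf⟩ | ⟨⟨u, v, hv, hxv⟩, _⟩
      · obtain ⟨u, hu⟩ := hF2 s f hf
        refine EvP.congr_Eqv hx hu hxf ⟨0, Or.inr ⟨2 ^ 0 * u, f.1 ^ 2 ^ 0, ?_, ?_,
          Poly.mem s u 0 f hf hu⟩⟩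
        · push_cast; rfl
        · rw [jo_pow]
      · have hh := Prd_hom hv
        refine EvP.congr_Eqv hx hh hxv (EvP_of_Prd hv fun m hm t x hx => ?_)
        exact ih m (by omega) t x hx
  · intro s t x hx
    rcases hF3 s t x hx with h | ⟨_, h⟩
    · exact Or.inl h
    · exact Or.inr h.mp

end gen

end Pool.Agent.H59K
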