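import Pool.Agent.H59K.KX

/-!
# Finite generation: nilpotent `Sq¹`
-/

set_option autoImplicit false
set_option linter.unusedSectionVars false

namespace Pool.Agent.H59K

open Pool.Agent.W624.NS
open Pool.Agent.W624.Stz (dd kun cut TT RR IW wF dm cm cm_same cm_ne cm_IW naf_un
  p2_add_self p2_eq_of_add)

section tr

variable {F : (n : ℕ) → Set (Z n)} {s : ℕ} {t u : ℤ} {f g : RR Empty}

/-- of the form `Sq¹ v + z` up to a coboundary -/
def TR (F : (n : ℕ) → Set (Z n)) (s : ℕ) (t : ℤ) (f : RR Empty) : Prop :=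
  ∃ (u : ℤ) (v z : RR Empty), t = 2 * u ∧ HC s u v ∧ PlR F (s + 1) t z ∧
    Bd (s + 1) t (f + (cupR s v + z))

theorem TR.HC (h : TR F s t f) : H59K.HC (s + 1) t f := by
  obtain ⟨u, v, z, rfl, h1, h2, h3⟩ := h
  have := h3.HC.add ((HC_cup h1).add h2.HC)
  rwa [add_assoc, p2_add_self, add_zero] at this

theorem TR.add (hf : TR F s t f) (hg : TR F s t g) : TR F s t (f + g) := by
  obtain ⟨u, v, z, h0, h1, h2, h3⟩ := hf
  obtain ⟨u', v', z', h0', h1', h2', h3'⟩ := hg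
  have hu : u' = u := by omega
  subst hu
  refine ⟨u', v + v', z + z', h0, h1.add h1', h2.add h2', ?_⟩
  have h4 := Bd_cup_add h1 h1'
  rw [← h0] at h4
  have h5 := (h3.add h3').add h4
  refine Eq.mp (congrArg _ ?_) h5
  have p1 := p2_add_self (cupR s v)
  have p2 := p2_add_self (cupR s v')
  linear_combination p1 + p2

theorem cupR_sq (s : ℕ) (v : RR Empty) : cupR s (v ^ 2) = cupR s v ^ 2 := by
  simpa using cupR_pow s 1 v

theorem TR.sq (h : TR F s t f) : TR F s (2 * t) (f ^ 2) := by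
  obtain ⟨u, v, z, rfl, h1, h2, h3⟩ := h
  refine ⟨2 * u, v ^ 2, z ^ 2, rfl, h1.sq, h2.sq, ?_⟩
  have h4 := h3.sq
  rw [sq_add, sq_add] at h4
  rw [cupR_sq]
  exact h4

theorem TR.pow (i : ℕ) (h : TR F s t f) : TR F s (2 ^ i * t) (f ^ 2 ^ i) := by
  induction i with
  | zero => simpa using h
  | succ i ih =>
    have := ih.sq
    rwa [← pow_mul, ← pow_succ, show (2 : ℤ) * (2 ^ i * t) = 2 ^ (i + 1) * t by ring] at this

theorem TR.congr (h : TR F s t f) (hB : Bd (s + 1) t (g + f)) : TR F s t g := by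
  obtain ⟨u, v, z, h0, h1, h2, h3⟩ := h
  refine ⟨u, v, z, h0, h1, h2, ?_⟩
  have h4 := hB.add h3
  refine Eq.mp (congrArg _ ?_) h4
  have p1 := p2_add_self f
  linear_combination p1

theorem two_RR : (2 : RR Empty) = 0 := by
  rw [← one_add_one_eq_two]
  exact p2_add_self 1

theorem TR.mul (hF : ∀ n, ∀ f ∈ F n, cl (Sq1 n f) = 0) {p q : ℕ} (hf : TR F p t f)
    (hg : TR F q u g) :
    TR F (p + 1 + q) (2 * (t + u)) ((f * shf Empty (p + 1) g) ^ 2) := by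
  have hfc := hf.HC
  have hgc := hg.HC
  obtain ⟨a, v, z, rfl, h1, h2, h3⟩ := hf
  obtain ⟨b, v', z', rfl, h1', h2', h3'⟩ := hg
  have hg'c : H59K.HC (q + 1) (2 * b) (cupR q v' + z') := (HC_cup h1').add h2'.HC
  have hf'c : H59K.HC (p + 1) (2 * a) (cupR p v + z) := (HC_cup h1).add h2.HC
  have hcg' : Bd (q + 2) (2 * (2 * b)) (cupR (q + 1) (cupR q v' + z')) := by
    have e1 := Bd_cup_add (HC_cup h1') h2'.HC
    have e2 := Bd_cup_cup h1'
    have e3 := h2'.cup hF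
    have e4 := (e1.add e2).add e3
    refine Eq.mp (congrArg _ ?_) e4
    have p1 := p2_add_self (cupR (q + 1) (cupR q v'))
    have p2 := p2_add_self (cupR (q + 1) z')
    linear_combination p1 + p2
  have hV : H59K.HC (p + (q + 1)) (2 * a + 2 * b)
      (v ^ 2 * shf Empty p (cupR q v' + z')) := HC_prod h1.sq hg'c
  have hW : H59K.HC (p + 1 + q) (2 * a + 2 * b) (z * shf Empty (p + 1) (v' ^ 2)) :=
    HC_prod h2.HC h1'.sq
  have cV := cupR_prod h1.sq.cu h1.sq.cl hg'c.cu hg'c.cl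
  have cW := cupR_prod h2.HC.cu h2.HC.cl h1'.sq.cu h1'.sq.cl
  have bV := Bd_prod_right h1.sq.sq hcg'
  have bW := Bd_prod_left (h2.cup hF) h1'.sq.sq
  have E0a := Bd_prod_left h3 hgc
  have E0b := Bd_prod_right hf'c h3'
  rw [show p + (q + 1) = p + 1 + q by omega] at hV cV
  rw [show p + (q + 2) = p + 1 + q + 1 by omega,
    show 2 * (2 * a) + 2 * (2 * b) = 2 * (2 * a + 2 * b) by ring] at bV
  rw [show p + 1 + 1 + q = p + 1 + q + 1 by omega,
    show 2 * (2 * a) + 2 * (2 * b) = 2 * (2 * a + 2 * b) by ring] at bW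
  rw [show p + 1 + (q + 1) = p + 1 + q + 1 by omega] at E0a E0b
  have E1 := Bd_cup_add hV hW
  refine ⟨2 * a + 2 * b, v ^ 2 * shf Empty p (cupR q v' + z') + z * shf Empty (p + 1) (v' ^ 2),
    z ^ 2 * shf Empty (p + 1) (z' ^ 2), rfl, hV.add hW, ?_, ?_⟩
  · have := h2.sq.mul h2'.sq
    rw [show 2 * (2 * a) + 2 * (2 * b) = 2 * (2 * a + 2 * b) by ring,
      show p + 1 + (q + 1) = p + 1 + q + 1 by omega] at this
    exact this
  · have E := (((E0a.add E0b).sq.add E1).add bV).add bW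
    refine Eq.mp (congrArg _ ?_) E
    rw [cV, cW, cupR_sq, cupR_sq]
    simp only [map_add, map_pow]
    generalize cupR (p + 1 + q) _ = X
    generalize cupR p v = A
    generalize shf Empty (p + 1) (cupR q v') = B
    generalize shf Empty (p + 1) z' = C
    generalize shf Empty (p + 1) g = G
    generalize shf Empty (p + 1 + 1) v' = V
    generalize shf Empty p (cupR (q + 1) (cupR q v' + z')) = C1
    generalize cupR (p + 1) z = C2
    linear_combination (2 * (A + z) ^ 2 * G ^ 2 + f * G * (A + z) * (B + C)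
      + 2 * f * G ^ 2 * (A + z) + 2 * (A + z) ^ 2 * (B + C) * G + (A ^ 2 + A * z) * (B + C) ^ 2
      + z ^ 2 * B * C + z ^ 2 * B ^ 2 + v ^ 4 * C1 + C2 * V ^ 4) * two_RR

/-- eventually of the form `Sq¹ v + z` -/
def EvT (F : (n : ℕ) → Set (Z n)) (s : ℕ) (t : ℤ) (f : RR Empty) : Prop :=
  ∃ i : ℕ, TR F s (2 ^ i * t) (f ^ 2 ^ i)

theorem up_TR {i k : ℕ} (hik : i ≤ k) (h : TR F s (2 ^ i * t) (f ^ 2 ^ i)) :
    TR F s (2 ^ k * t) (f ^ 2 ^ k) := by
  obtain ⟨c, rfl⟩ := Nat.exists_eq_add_of_le hik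
  have h1 := h.pow c
  rw [← pow_mul, ← pow_add, ← mul_assoc, ← pow_add, add_comm c i] at h1
  exact h1

theorem EvT.add (hf : EvT F s t f) (hg : EvT F s t g) : EvT F s t (f + g) := by
  obtain ⟨i, hi⟩ := hf
  obtain ⟨k, hk⟩ := hg
  refine ⟨max i k, ?_⟩
  rw [W624.Stz.add_pow0]
  exact (up_TR (le_max_left _ _) hi).add (up_TR (le_max_right _ _) hk)

theorem EvT.mul (hF : ∀ n, ∀ f ∈ F n, cl (Sq1 n f) = 0) {p q : ℕ} (hf : EvT F p t f)
    (hg : EvT F q u g) : EvT F (p + 1 + q) (t + u) (f * shf Empty (p + 1) g) := by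
  obtain ⟨i, hi⟩ := hf
  obtain ⟨k, hk⟩ := hg
  refine ⟨max i k + 1, ?_⟩
  have := (up_TR (le_max_left i k) hi).mul hF (up_TR (le_max_right i k) hk)
  rw [map_pow, ← mul_pow, ← pow_mul, ← mul_add, ← mul_assoc, ← pow_succ, ← pow_succ'] at this
  exact this

theorem EvT.pow (a : ℕ) (hf : EvT F s t f) : EvT F s (2 ^ a * t) (f ^ 2 ^ a) := by
  obtain ⟨i, hi⟩ := hf
  refine ⟨i, ?_⟩
  have := hi.pow a
  have e1 : (f ^ 2 ^ i) ^ 2 ^ a = (f ^ 2 ^ a) ^ 2 ^ i := by rw [← pow_mul, ← pow_mul, mul_comm]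
  have e2 : (2 : ℤ) ^ a * (2 ^ i * t) = 2 ^ i * (2 ^ a * t) := by ring
  rwa [e1, e2] at this

theorem EvT.pl (h : PlR F (s + 1) t f) : EvT F s t f := by
  refine ⟨1, t, 0, f ^ 2, by rw [pow_one], HC.zero', ?_, ?_⟩
  · rw [pow_one]; exact h.sq
  · rw [cupR_zero, zero_add, pow_one, pow_one, p2_add_self]
    exact Bd.zero

theorem EvT.bd (h : Bd (s + 1) t f) : EvT F s t f := EvT.pl (PlR.bd h)

theorem EvT.cup (h : H59K.HC s t f) : EvT F s (2 * t) (cupR s f) := by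
  refine ⟨0, t, f, 0, by rw [pow_zero, one_mul], h, PlR.zero, ?_⟩
  rw [pow_zero, pow_zero, pow_one, add_zero, p2_add_self]
  exact Bd.zero

theorem EvT.congr_Eqv {s t t' : ℕ} {x y : Z (s + 1)} (hx : IsHom (s + 1) t x.1)
    (hy : IsHom (s + 1) t' y.1) (h : Eqv (cl x) (cl y)) (hp : EvT F s (t' : ℤ) (jo y.1)) :
    EvT F s (t : ℤ) (jo x.1) := by
  obtain ⟨i, k, hik⟩ := h
  rw [Sq0_iter, Sq0_iter] at hik
  have hx' := isHom_iter x hx i
  have hy' := isHom_iter y hy k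
  obtain ⟨l, hl⟩ := hp
  by_cases hd : 2 ^ i * t = 2 ^ k * t'
  · rw [← hd] at hy'
    have h1 := (cl_eq_iff_Bd hx' hy').mp hik
    rw [jo_sq_iter, jo_sq_iter] at h1
    have h2 := h1.pow_add l
    rw [← pow_mul, ← pow_mul, ← pow_add, ← pow_add] at h2
    refine ⟨i + l, ?_⟩
    have h3 : TR F s (2 ^ (k + l) * (t' : ℤ)) (jo y.1 ^ 2 ^ (k + l)) :=
      up_TR (by omega) hl
    have e1 : (2 : ℤ) ^ (k + l) * (t' : ℤ) = 2 ^ (i + l) * (t : ℤ) := by
      have : ((2 ^ i * t : ℕ) : ℤ) = ((2 ^ k * t' : ℕ) : ℤ) := by rw [hd]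
      push_cast at this
      rw [pow_add, pow_add]
      linear_combination (-2 ^ l) * this
    have e2 : (2 : ℤ) ^ l * ((2 ^ i * t : ℕ) : ℤ) = 2 ^ (i + l) * (t : ℤ) := by
      push_cast
      ring
    rw [e1] at h3
    rw [e2] at h2
    exact h3.congr h2
  · have h1 := isB_of_ne hx' hy' hd ((cl_eq_iff _ _).mp hik)
    rw [jo_sq_iter] at h1
    push_cast at h1
    obtain ⟨m, hm⟩ := EvT.bd (F := F) h1
    refine ⟨m + i, ?_⟩
    rwa [← pow_mul, ← pow_add, ← mul_assoc, ← pow_add, add_comm i m] at hm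

theorem EvT_of_Dec (hF : ∀ n, ∀ f ∈ F n, cl (Sq1 n f) = 0) {n t : ℕ} {z : Cob n}
    (h : Dec (fun _ => 0) n t z) :
    (∀ m, m + 1 < n → ∀ (t : ℕ) (x : Z (m + 1)), IsHom (m + 1) t x.1 →
      Nil (cl (Sq1 (m + 1) x)) → EvT F m (t : ℤ) (jo x.1)) →
      ∀ s, n = s + 1 → EvT F s (t : ℤ) (jo z) := by
  induction h with
  | bd n t z hz hB =>
    intro _ s hs
    subst hs
    exact EvT.bd ((Bd_iff hz).mp hB)
  | sq1 n t v hv =>
    intro _ s hs
    obtain rfl : n = s := by omega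
    rw [jo_cup]
    push_cast
    exact EvT.cup (HC_jo v hv)
  | prod p q t u a y x hy hx _ hny hnx =>
    intro ih s hs
    obtain rfl : s = p + 1 + q := by omega
    have h1 := (ih p (by omega) t y hy hny).pow a
    have h2 := ih q (by omega) u x hx hnx
    have h3 := h1.mul hF h2
    rw [jo_mul, jo_pow]
    push_cast
    exact h3
  | add n t z z' _ _ ih1 ih2 =>
    intro ih s hs
    rw [jo_add]
    exact (ih1 ih s hs).add (ih2 ih s hs)

end tr

section gen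

/-- the converse -/
theorem nil_of_EvT {F : (n : ℕ) → Set (Z n)} (hF : ∀ n, ∀ f ∈ F n, cl (Sq1 n f) = 0) {s t : ℕ}
    {x : Z (s + 1)} (hx : IsHom (s + 1) t x.1) (h : EvT F s (t : ℤ) (jo x.1)) :
    Nil (cl (Sq1 (s + 1) x)) := by
  obtain ⟨i, u, v, z, h0, h1, h2, h3⟩ := h
  rw [Nil_sq1_iff x hx]
  refine ⟨i, ?_⟩
  rw [h0] at h2 h3
  have hxc := (HC_jo x hx).pow i
  rw [h0] at hxc
  have c1 := cup_congr hxc ((HC_cup h1).add h2.HC) h3
  have c2 := Bd_cup_add (HC_cup h1) h2.HC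
  have c3 := Bd_cup_cup h1
  have c4 := h2.cup hF
  have c5 := ((c1.add c2).add c3).add c4
  rw [show (2 : ℤ) ^ i * (2 * (t : ℤ)) = 2 * (2 * u) by rw [← h0]; ring, ← cupR_pow]
  refine Eq.mp (congrArg _ ?_) c5
  linear_combination (cupR (s + 1) (cupR s v + z) + cupR (s + 1) (cupR s v)
    + cupR (s + 1) z) * two_RR

open Classical in
/-- the number of squarings which are needed to kill `Sq¹` -/
noncomputable def rho {n : ℕ} (f : Z n) : ℕ :=
  if h : Nil (cl (Sq1 n f)) then h.choose else 0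

theorem rho_spec {n : ℕ} {f : Z n} (h : Nil (cl (Sq1 n f))) :
    cl (Sq1 n ((sqZ n)^[rho f] f)) = 0 := by
  rw [Sq1_iter, ← Sq0_iter, rho, dif_pos h]
  exact h.choose_spec

theorem gen_b : ∃ A F : (n : ℕ) → Set (Z n), (∀ n, (A n).Finite) ∧ (∀ n, (F n).Finite) ∧
    (∀ n, ∀ f ∈ A n, ∃ u, IsHom n u f.1) ∧
    (∀ n, ∀ f ∈ F n, (∃ u, IsHom n u f.1) ∧ cl (Sq1 n f) = 0) ∧
    (∀ s (t : ℕ) (x : Z (s + 1)), IsHom (s + 1) t x.1 → EvP A (s + 1) (t : ℤ) (jo x.1)) ∧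
    (∀ s (t : ℕ) (x : Z (s + 1)), IsHom (s + 1) t x.1 →
      (Nil (cl (Sq1 (s + 1) x)) ↔ EvT F s (t : ℤ) (jo x.1))) := by
  obtain ⟨A, h1, h2, h3, h4⟩ := gen_all
  let F : (n : ℕ) → Set (Z n) := fun n =>
    (fun f => (sqZ n)^[rho f] f) '' {f | f ∈ A n ∧ Nil (cl (Sq1 n f))}
  have hF1 : ∀ n, (F n).Finite := fun n => ((h1 n).subset fun f hf => hf.1).image _
  have hF2 : ∀ n, ∀ f ∈ F n, cl (Sq1 n f) = 0 := by
    rintro n _ ⟨f, ⟨_, hf⟩, rfl⟩
    exact rho_spec hf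
  have hF3 : ∀ n, ∀ f ∈ F n, ∃ u, IsHom n u f.1 := by
    rintro n _ ⟨f, ⟨hf, _⟩, rfl⟩
    obtain ⟨u, hu⟩ := h2 n f hf
    exact ⟨_, isHom_iter f hu _⟩
  refine ⟨A, F, h1, hF1, h2, fun n f hf => ⟨hF3 n f hf, hF2 n f hf⟩, h3,
    fun s t x hx => ⟨?_, nil_of_EvT hF2 hx⟩⟩
  induction s using Nat.strong_induction_on generalizing t with
  | _ s ih =>
    intro hn
    rcases h4 s t x hx with ⟨f, hf, hxf⟩ | h
    · obtain ⟨u, hu⟩ := h2 (s + 1) f hf
      have hnf : Nil (cl (Sq1 (s + 1) f)) := by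
        refine nil_of_Eqv hu hx ?_ hn
        obtain ⟨i, k, hik⟩ := hxf
        exact ⟨k, i, hik.symm⟩
      have hm : (sqZ (s + 1))^[rho f] f ∈ F (s + 1) := ⟨f, ⟨hf, hnf⟩, rfl⟩
      have h5 : PlR F (s + 1) (2 ^ rho f * (u : ℤ)) (jo f.1 ^ 2 ^ rho f) := by
        refine Or.inr ⟨2 ^ 0 * (2 ^ rho f * u), ((sqZ (s + 1))^[rho f] f).1 ^ 2 ^ 0, ?_, ?_,
          Poly.mem s _ 0 _ hm (isHom_iter f hu _)⟩
        · push_cast; ring
        · rw [pow_zero, pow_one, jo_sq_iter]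
      obtain ⟨m, hm⟩ := EvT.pl h5
      refine EvT.congr_Eqv hx hu hxf ⟨rho f + m, ?_⟩
      rwa [← pow_mul, ← pow_add, ← mul_assoc, ← pow_add, add_comm m (rho f)] at hm
    · obtain ⟨u, v, hv, hxv⟩ := h hn
      have hvh : IsHom (s + 1) u v.1 := isHom_of_HC (Dec_spec hv).1
      refine EvT.congr_Eqv hx hvh hxv (EvT_of_Dec hF2 hv (fun m hm t x hx hn => ?_) s rfl)
      exact ih m (by omega) t x hx hn

end gen

end Pool.Agent.H59K
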