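import Pool.Agent.H59K.KY

/-!
# Uniform bounds: monomials
-/

set_option autoImplicit false
set_option linter.unusedSectionVars false

namespace Pool.Agent.H59K

open Pool.Agent.W624.NS
open Pool.Agent.W624.Stz (dd kun cut TT RR IW wF dm cm cm_same cm_ne cm_IW naf_un
  p2_add_self p2_eq_of_add)

section num

/-- a sum of few terms `2 ^ k * d` with bounded `d` which is divisible by a large power of two -/
theorem pow_of_dvd (D l : ℕ) : ∃ C : ℕ, ∀ L : List (ℕ × ℕ), L.length ≤ l →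
    (∀ p ∈ L, 0 < p.2 ∧ p.2 ≤ D) → ∀ i, 2 ^ (C + i) ∣ (L.map fun p => 2 ^ p.1 * p.2).sum →
    ∀ p ∈ L, i ≤ p.1 := by
  induction l with
  | zero =>
    refine ⟨0, fun L hL _ i _ p hp => ?_⟩
    have : L = [] := List.length_eq_zero_iff.mp (Nat.le_zero.mp hL)
    rw [this] at hp
    exact absurd hp List.not_mem_nil
  | succ l ih =>
    obtain ⟨C', hC'⟩ := ih
    refine ⟨C' + (l + 1) * D, fun L hL hD i hd p hp => ?_⟩
    have hne : L.toFinset.Nonempty := ⟨p, List.mem_toFinset.mpr hp⟩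
    obtain ⟨p0, hp0, hmax⟩ := L.toFinset.exists_max_image (fun p => p.1) hne
    rw [List.mem_toFinset] at hp0
    have hperm := List.perm_cons_erase hp0
    have hsum := (hperm.map fun p => 2 ^ p.1 * p.2).sum_eq
    rw [List.map_cons, List.sum_cons] at hsum
    have hlen : (L.erase p0).length ≤ l := by
      rw [List.length_erase_of_mem hp0]
      omega
    rcases le_or_gt (C' + i) p0.1 with h | h
    · have h1 : 2 ^ (C' + i) ∣ ((L.erase p0).map fun p => 2 ^ p.1 * p.2).sum := by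
        have h2 : 2 ^ (C' + i) ∣ (L.map fun p => 2 ^ p.1 * p.2).sum :=
          dvd_trans (pow_dvd_pow 2 (by omega)) hd
        rw [hsum] at h2
        exact (Nat.dvd_add_right ((pow_dvd_pow 2 h).mul_right _)).mp h2
      have h3 := hC' (L.erase p0) hlen (fun q hq => hD q (List.mem_of_mem_erase hq)) i h1
      rcases List.mem_cons.mp (hperm.mem_iff.mp hp) with h4 | h4
      · rw [h4]; omega
      · exact h3 p h4
    · exfalso
      have h1 : (L.map fun p => 2 ^ p.1 * p.2).sum ≤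
          (L.map fun p => 2 ^ p.1 * p.2).length • (2 ^ (C' + i) * D) := by
        refine List.sum_le_card_nsmul _ _ fun x hx => ?_
        obtain ⟨q, hq, rfl⟩ := List.mem_map.mp hx
        refine Nat.mul_le_mul (Nat.pow_le_pow_right (by norm_num) ?_) (hD q hq).2
        have := hmax q (List.mem_toFinset.mpr hq)
        omega
      rw [List.length_map, smul_eq_mul] at h1
      have h2 : 0 < (L.map fun p => 2 ^ p.1 * p.2).sum := by
        rw [hsum]
        have := (hD p0 hp0).1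
        positivity
      have h3 := Nat.le_of_dvd h2 hd
      have h4 : L.length * (2 ^ (C' + i) * D) ≤ (l + 1) * D * 2 ^ (C' + i) := by
        calc L.length * (2 ^ (C' + i) * D) ≤ (l + 1) * (2 ^ (C' + i) * D) :=
              Nat.mul_le_mul_right _ hL
          _ = (l + 1) * D * 2 ^ (C' + i) := by ring
      have h5 : (l + 1) * D < 2 ^ ((l + 1) * D) := Nat.lt_two_pow_self
      have h6 : 2 ^ (C' + (l + 1) * D + i) = 2 ^ ((l + 1) * D) * 2 ^ (C' + i) := by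
        rw [← pow_add]; congr 1; omega
      have h7 : (l + 1) * D * 2 ^ (C' + i) < 2 ^ ((l + 1) * D) * 2 ^ (C' + i) :=
        Nat.mul_lt_mul_of_pos_right h5 (by positivity)
      omega

end num

section mono

variable {F : (n : ℕ) → Set (Z n)}

/-- monomials in the members of families -/
inductive Mo (F : (n : ℕ) → Set (Z n)) : (n t : ℕ) → Cob n → List (ℕ × ℕ) → Prop
  | mem (n t k : ℕ) (f : Z (n + 1)) : f ∈ F (n + 1) → IsHom (n + 1) t f.1 → 0 < t → f.1 ≠ 0 →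
      Mo F (n + 1) (2 ^ k * t) (f.1 ^ 2 ^ k) [(k, t)]
  | mul (p q t u : ℕ) (x : Cob p) (y : Cob q) (L L' : List (ℕ × ℕ)) : Mo F p t x L →
      Mo F q u y L' → Mo F (p + q) (t + u) (mul x y) (L ++ L')

/-- sums of monomials of one degree -/
inductive SM (F : (n : ℕ) → Set (Z n)) (n t : ℕ) : Cob n → Prop
  | bd (z : Cob n) : IsHom n t z → IsB n z → SM F n t z
  | mo (z : Cob n) (L : List (ℕ × ℕ)) : Mo F n t z L → SM F n t z
  | add (x y : Cob n) : SM F n t x → SM F n t y → SM F n t (x + y)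

theorem Mo.len {n t : ℕ} {z : Cob n} {L : List (ℕ × ℕ)} (h : Mo F n t z L) : L.length ≤ n := by
  induction h with
  | mem n t k f _ _ _ _ => simp
  | mul p q t u x y L L' _ _ ih1 ih2 => rw [List.length_append]; omega

theorem Mo.sum {n t : ℕ} {z : Cob n} {L : List (ℕ × ℕ)} (h : Mo F n t z L) :
    (L.map fun p => 2 ^ p.1 * p.2).sum = t := by
  induction h with
  | mem n t k f _ _ _ _ => simp
  | mul p q t u x y L L' _ _ ih1 ih2 => rw [List.map_append, List.sum_append, ih1, ih2]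

theorem Mo.poly {n t : ℕ} {z : Cob n} {L : List (ℕ × ℕ)} (h : Mo F n t z L) : Poly F n t z := by
  induction h with
  | mem n t k f h1 h2 _ _ => exact Poly.mem _ _ _ _ h1 h2
  | mul p q t u x y L L' _ _ ih1 ih2 => exact Poly.mul _ _ _ _ _ _ ih1 ih2

theorem Mo.desq {n t : ℕ} {z : Cob n} {L : List (ℕ × ℕ)} (h : Mo F n t z L) (i : ℕ) :
    (∀ p ∈ L, i ≤ p.1) → ∃ (t' : ℕ) (z' : Cob n), t = 2 ^ i * t' ∧ z = z' ^ 2 ^ i ∧
      Poly F n t' z' := by
  induction h with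
  | mem n t k f h1 h2 _ _ =>
    intro h
    obtain ⟨c, rfl⟩ := Nat.exists_eq_add_of_le (h (k, t) (List.mem_singleton_self _))
    refine ⟨2 ^ c * t, f.1 ^ 2 ^ c, ?_, ?_, Poly.mem _ _ _ _ h1 h2⟩
    · rw [pow_add]; ring
    · rw [← pow_mul, ← pow_add, add_comm c i]
  | mul p q t u x y L L' _ _ ih1 ih2 =>
    intro h
    obtain ⟨t', x', h1, h2, h3⟩ := ih1 fun p hp => h p (List.mem_append_left _ hp)
    obtain ⟨u', y', h4, h5, h6⟩ := ih2 fun p hp => h p (List.mem_append_right _ hp)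
    refine ⟨t' + u', H59K.mul x' y', by rw [h1, h4]; ring, ?_, Poly.mul _ _ _ _ _ _ h3 h6⟩
    rw [h2, h5, H59K.mul, H59K.mul, mul_pow, map_pow, map_pow]

theorem Mo.bound {N D : ℕ} (hD : ∀ m ≤ N, ∀ f ∈ F m, ∀ t, f.1 ≠ 0 → IsHom m t f.1 → t ≤ D)
    {n t : ℕ} {z : Cob n} {L : List (ℕ × ℕ)} (h : Mo F n t z L) :
    n ≤ N → ∀ p ∈ L, 0 < p.2 ∧ p.2 ≤ D := by
  induction h with
  | mem n t k f h1 h2 h3 h4 =>
    intro hn p hp
    rw [List.mem_singleton] at hp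
    rw [hp]
    exact ⟨h3, hD _ hn f h1 t h4 h2⟩
  | mul p q t u x y L L' _ _ ih1 ih2 =>
    intro hn r hr
    rcases List.mem_append.mp hr with h | h
    · exact ih1 (by omega) r h
    · exact ih2 (by omega) r h

theorem exists_D (hfin : ∀ n, (F n).Finite) (N : ℕ) :
    ∃ D, ∀ m ≤ N, ∀ f ∈ F m, ∀ t, f.1 ≠ 0 → IsHom m t f.1 → t ≤ D := by
  have h1 : ∀ m, ∃ D, ∀ f ∈ F m, ∀ t, f.1 ≠ 0 → IsHom m t f.1 → t ≤ D := by
    intro m
    have h2 : ∀ f : Z m, ∃ D, ∀ t, f.1 ≠ 0 → IsHom m t f.1 → t ≤ D := by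
      intro f
      by_cases hf : ∃ t, IsHom m t f.1
      · obtain ⟨t0, ht0⟩ := hf
        refine ⟨t0, fun t h0 ht => ?_⟩
        have h3 : MvPolynomial.IsWeightedHomogeneous (R := ZMod 2)
          (fun p : Fin m × ℕ => 2 ^ (p.2 + 1) - 1) f.1 t := ht
        have h4 : MvPolynomial.IsWeightedHomogeneous (R := ZMod 2)
          (fun p : Fin m × ℕ => 2 ^ (p.2 + 1) - 1) f.1 t0 := ht0
        exact (h3.inj_right h0 h4).le
      · exact ⟨0, fun t _ ht => absurd ⟨t, ht⟩ hf⟩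
    choose D hD using h2
    refine ⟨∑ f ∈ (hfin m).toFinset, D f, fun f hf t h0 ht => (hD f t h0 ht).trans ?_⟩
    exact Finset.single_le_sum (fun _ _ => Nat.zero_le _) ((hfin m).mem_toFinset.mpr hf)
  choose D hD using h1
  refine ⟨∑ m ∈ Finset.range (N + 1), D m, fun m hm f hf t h0 ht => (hD m f hf t h0 ht).trans ?_⟩
  exact Finset.single_le_sum (fun _ _ => Nat.zero_le _) (Finset.mem_range.mpr (by omega))

theorem SM.HC {n t : ℕ} {x : Cob n} (h : SM F n t x) : H59K.HC n (t : ℤ) (jo x) := by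
  induction h with
  | bd z hz hB => exact ((Bd_iff hz).mp hB).HC
  | mo z L h => exact h.poly.HC
  | add x y _ _ ih1 ih2 => rw [jo_add]; exact ih1.add ih2

theorem mul_add_left {p q : ℕ} (x x' : Cob p) (y : Cob q) :
    H59K.mul (x + x') y = H59K.mul x y + H59K.mul x' y := by
  apply jo_inj
  rw [jo_add, jo_mul, jo_mul, jo_mul, jo_add, add_mul]

theorem mul_add_right {p q : ℕ} (x : Cob p) (y y' : Cob q) :
    H59K.mul x (y + y') = H59K.mul x y + H59K.mul x y' := by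
  apply jo_inj
  rw [jo_add, jo_mul, jo_mul, jo_mul, jo_add, map_add, mul_add]

theorem SM.mul {p q t u : ℕ} {x : Cob p} {y : Cob q} (hx : SM F p t x) (hy : SM F q u y) :
    SM F (p + q) (t + u) (H59K.mul x y) := by
  induction hx with
  | bd z hz hB =>
    have h1 := Bd_prod_left ((Bd_iff hz).mp hB) hy.HC
    have h2 := isHom_mul hz (isHom_of_HC hy.HC)
    refine SM.bd _ h2 (isB_of_Bd h2 ?_)
    rw [jo_mul]
    push_cast
    exact h1
  | mo z L hz =>
    induction hy with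
    | bd z' hz' hB =>
      have h1 := Bd_prod_right hz.poly.HC ((Bd_iff hz').mp hB)
      have h2 := isHom_mul (isHom_of_HC hz.poly.HC) hz'
      refine SM.bd _ h2 (isB_of_Bd h2 ?_)
      rw [jo_mul]
      push_cast
      exact h1
    | mo z' L' hz' => exact SM.mo _ _ (Mo.mul _ _ _ _ _ _ _ _ hz hz')
    | add y y' _ _ ih1 ih2 => rw [mul_add_right]; exact SM.add _ _ ih1 ih2
  | add x x' _ _ ih1 ih2 => rw [mul_add_left]; exact SM.add _ _ ih1 ih2

theorem Poly.SM {n t : ℕ} {x : Cob n} (h : Poly F n t x) : H59K.SM F n t x := by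
  induction h with
  | bd n t z hz hB => exact SM.bd _ hz hB
  | mem n t k f hf hh =>
    have hk : IsHom (n + 1) (2 ^ k * t) (f.1 ^ 2 ^ k) := by
      have := isHom_iter f hh k
      rwa [sqZ_iter] at this
    rcases Nat.eq_zero_or_pos t with h0 | h0
    · have h1 : cl f = 0 := cl_deg0 n f (by rw [h0] at hh; exact hh)
      have h2 := (Bd_iff hh).mp (cl_eq_zero.mp h1)
      refine SM.bd _ hk (isB_of_Bd hk ?_)
      rw [jo_pow]
      push_cast
      exact h2.pow k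
    · by_cases hf0 : f.1 = 0
      · rw [hf0, zero_pow (by positivity)] at hk ⊢
        exact SM.bd _ hk (isB_zero _)
      · exact SM.mo _ _ (Mo.mem _ _ _ _ hf hh h0 hf0)
  | mul p q t u x y _ _ ih1 ih2 => exact ih1.mul ih2
  | add n t x y _ _ ih1 ih2 => exact SM.add _ _ ih1 ih2

/-- a polynomial in a degree which is divisible by a large power of two is a power -/
theorem desq_PlR (hfin : ∀ n, (F n).Finite) (n : ℕ) : ∃ C : ℕ, ∀ (i : ℕ) (T : ℤ) (f : RR Empty),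
    (2 : ℤ) ^ C ∣ T → PlR F n (2 ^ i * T) f →
    ∃ g, PlR F n T g ∧ Bd n (2 ^ i * T) (f + g ^ 2 ^ i) := by
  obtain ⟨D, hD⟩ := exists_D hfin n
  obtain ⟨C, hC⟩ := pow_of_dvd D n
  refine ⟨C, fun i T f hT hf => ?_⟩
  rcases hf with rfl | ⟨t', x, h1, rfl, h3⟩
  · exact ⟨0, PlR.zero, by rw [zero_add, zero_pow (by positivity)]; exact Bd.zero⟩
  have hd : 2 ^ (C + i) ∣ t' := by
    have h4 : (2 : ℤ) ^ (C + i) ∣ (t' : ℤ) := by
      rw [h1, pow_add, mul_comm]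
      exact mul_dvd_mul_left _ hT
    exact_mod_cast h4
  rw [← h1]
  have h5 := h3.SM
  clear h3
  induction h5 with
  | bd z hz hB =>
    refine ⟨0, PlR.zero, ?_⟩
    rw [zero_pow (by positivity), add_zero]
    exact (Bd_iff hz).mp hB
  | mo z L hz =>
    have h6 := hC L hz.len (hz.bound hD le_rfl) i (by rw [hz.sum]; exact hd)
    obtain ⟨t'', z', e1, e2, e3⟩ := hz.desq i h6
    refine ⟨jo z', Or.inr ⟨t'', z', ?_, rfl, e3⟩, ?_⟩
    · have h7 : (2 : ℤ) ^ i * (t'' : ℤ) = 2 ^ i * T := by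
        rw [← h1, e1]; push_cast; ring
      exact mul_left_cancel₀ (by positivity) h7
    · rw [e2, jo_pow, p2_add_self]
      exact Bd.zero
  | add x y _ _ ih1 ih2 =>
    obtain ⟨g1, hg1, hb1⟩ := ih1
    obtain ⟨g2, hg2, hb2⟩ := ih2
    refine ⟨g1 + g2, hg1.add hg2, ?_⟩
    have h8 := hb1.add hb2
    rw [W624.Stz.add_pow0, jo_add]
    refine Eq.mp (congrArg _ ?_) h8
    ring

end mono

section uni

variable {F : (n : ℕ) → Set (Z n)}

theorem nilR (n : ℕ) : ∃ r : ℕ, ∀ (i T : ℕ) (f : RR Empty), HC n (T : ℤ) f →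
    Bd n (2 ^ i * (T : ℤ)) (f ^ 2 ^ i) → Bd n (2 ^ r * (T : ℤ)) (f ^ 2 ^ r) := by
  obtain ⟨r, hr⟩ := nil_bound n
  refine ⟨r, fun i T f hf hB => ?_⟩
  obtain ⟨x, rfl, hx⟩ := exists_Z hf
  have h1 : Nil (cl x) := (Nil_iff x hx).mpr ⟨i, hB⟩
  exact (iter_zero_iff x hx r).mp (hr _ h1)

theorem uni_EvP (hfin : ∀ n, (F n).Finite) (s : ℕ) : ∃ I : ℕ, ∀ (t : ℕ) (x : Z (s + 1)),
    IsHom (s + 1) t x.1 → EvP F (s + 1) (t : ℤ) (jo x.1) → ∀ j, I ≤ j →
    PlR F (s + 1) (2 ^ j * (t : ℤ)) (jo x.1 ^ 2 ^ j) := by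
  obtain ⟨C, hC⟩ := desq_PlR hfin (s + 1)
  obtain ⟨r, hr⟩ := nilR (s + 1)
  refine ⟨C + r, fun t x hx ⟨i0, h0⟩ j hj => ?_⟩
  rcases le_or_gt i0 (C + r) with h | h
  · exact up_PlR (h.trans hj) h0
  refine up_PlR hj ?_
  obtain ⟨i, rfl⟩ := Nat.exists_eq_add_of_le (show C ≤ i0 by omega)
  have e1 : (2 : ℤ) ^ (C + i) * (t : ℤ) = 2 ^ i * (2 ^ C * (t : ℤ)) := by rw [pow_add]; ring
  have e2 : jo x.1 ^ 2 ^ (C + i) = (jo x.1 ^ 2 ^ C) ^ 2 ^ i := by rw [← pow_mul, ← pow_add]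
  rw [e1, e2] at h0
  obtain ⟨g, hg, hB⟩ := hC i _ _ (dvd_mul_right _ _) h0
  rw [← W624.Stz.add_pow0] at hB
  have h2 : HC (s + 1) ((2 ^ C * t : ℕ) : ℤ) (jo x.1 ^ 2 ^ C + g) := by
    push_cast
    exact ((HC_jo x hx).pow C).add hg.HC
  have h3 := hr i (2 ^ C * t) _ h2 (by push_cast; exact hB)
  rw [W624.Stz.add_pow0] at h3
  push_cast at h3
  have h4 := (hg.pow r).congr h3
  rwa [← mul_assoc, ← pow_add, add_comm r C, ← pow_mul, ← pow_add] at h4

theorem uni_EvT (hfin : ∀ n, (F n).Finite) (s : ℕ) : ∃ I : ℕ, ∀ (t : ℕ) (x : Z (s + 1)),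
    IsHom (s + 1) t x.1 → EvT F s (t : ℤ) (jo x.1) → ∀ j, I ≤ j →
    TR F s (2 ^ j * (t : ℤ)) (jo x.1 ^ 2 ^ j) := by
  obtain ⟨C, hC⟩ := desq_PlR hfin (s + 1)
  obtain ⟨r, hr⟩ := nilR (s + 1)
  obtain ⟨m, hm⟩ := exists_Stab (s + 3)
  refine ⟨C + m + 1 + r, fun t x hx ⟨i0, h0⟩ j hj => ?_⟩
  rcases le_or_gt i0 (C + m + 1 + r) with h | h
  · exact up_TR (h.trans hj) h0
  rcases Nat.eq_zero_or_pos t with ht | ht
  · have h1 : cl x = 0 := cl_deg0 s x (by rw [ht] at hx; exact hx)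
    have h2 := (Bd_iff hx).mp (cl_eq_zero.mp h1)
    refine up_TR (show 1 ≤ j by omega) ?_
    refine ⟨t, 0, jo x.1 ^ 2 ^ 1, by rw [pow_one], HC.zero', PlR.bd (h2.pow 1), ?_⟩
    rw [cupR_zero, zero_add, p2_add_self]
    exact Bd.zero
  refine up_TR hj ?_
  obtain ⟨i, rfl⟩ := Nat.exists_eq_add_of_le (show C + m + 1 ≤ i0 by omega)
  obtain ⟨u, v, z, e0, hv, hz, hB⟩ := h0
  set T : ℤ := 2 ^ (C + m) * (t : ℤ) with hT
  have hT0 : T ≠ 0 := by positivity
  have hu : u = 2 ^ i * T := by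
    have : 2 * u = 2 * (2 ^ i * T) := by
      rw [← e0, hT, pow_add, pow_add]; ring
    linarith
  have hv' : ∃ v', HC s T v' ∧ Bd s (2 ^ i * T) (v + v' ^ 2 ^ i) := by
    rw [hu] at hv
    cases s with
    | zero =>
      refine ⟨0, HC.zero', ?_⟩
      rw [HC_level0 (by positivity) hv, zero_pow (by positivity), add_zero]
      exact Bd.zero
    | succ s =>
      exact surj_iter hm hT0 (by rw [hT, pow_add]; exact ((dvd_mul_left _ _).mul_right _)) i v hv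
  obtain ⟨v', hv1, hv2⟩ := hv'
  rw [hu] at hv
  have e1 : (2 : ℤ) ^ (C + m + 1 + i) * (t : ℤ) = 2 ^ i * (2 * T) := by
    rw [hT, pow_add, pow_add]; ring
  rw [e1] at hz hB
  obtain ⟨z', hz1, hz2⟩ := hC i (2 * T) z (by
    rw [hT, pow_add]
    exact (((dvd_mul_right _ _).mul_right _)).mul_left _) hz
  have c1 := cup_congr hv (hv1.pow i) hv2
  rw [cupR_pow, show (2 : ℤ) * (2 ^ i * T) = 2 ^ i * (2 * T) by ring] at c1
  have E := (hB.add c1).add hz2
  set f := jo x.1 ^ 2 ^ (C + m + 1) with hf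
  have e2 : jo x.1 ^ 2 ^ (C + m + 1 + i) = f ^ 2 ^ i := by rw [hf, ← pow_mul, ← pow_add]
  rw [e2] at E
  have e3 : ((2 ^ (C + m + 1) * t : ℕ) : ℤ) = 2 * T := by
    rw [hT]; push_cast; rw [pow_succ]; ring
  have h2 : HC (s + 1) ((2 ^ (C + m + 1) * t : ℕ) : ℤ) (f + (cupR s v' + z')) := by
    have h5 := (HC_jo x hx).pow (C + m + 1)
    have e4 : (2 : ℤ) ^ (C + m + 1) * (t : ℤ) = 2 * T := by rw [← e3]; push_cast; rfl
    rw [e4] at h5
    rw [e3]
    exact h5.add ((HC_cup hv1).add hz1.HC)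
  have h3 := hr i _ _ h2 (by
    rw [e3, W624.Stz.add_pow0, W624.Stz.add_pow0]
    refine Eq.mp (congrArg _ ?_) E
    linear_combination (cupR s v + z) * two_RR)
  rw [e3, W624.Stz.add_pow0, W624.Stz.add_pow0, ← cupR_pow] at h3
  have e5 : (2 : ℤ) ^ (C + m + 1 + r) * (t : ℤ) = 2 ^ r * (2 * T) := by
    rw [hT, pow_add, pow_add]; ring
  have e6 : jo x.1 ^ 2 ^ (C + m + 1 + r) = f ^ 2 ^ r := by rw [hf, ← pow_mul, ← pow_add]
  rw [e5, e6]
  exact ⟨2 ^ r * T, v' ^ 2 ^ r, z' ^ 2 ^ r, by ring, hv1.pow r, hz1.pow r, h3⟩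

end uni

end Pool.Agent.H59K
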