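import Pool.Agent.H59K.KZ

/-!
# Finite generation: the theorem
-/

set_option autoImplicit false
set_option linter.unusedSectionVars false

namespace Pool.Agent.H59K

open Pool.Agent.W624.NS
open Pool.Agent.W624.Stz (dd kun cut TT RR IW wF dm cm cm_same cm_ne cm_IW naf_un
  p2_add_self p2_eq_of_add PU)

section src

/-- the sources of the differentials which end in `x_j` vanish for large `j` -/
theorem src_zero (s : ℕ) : ∃ J : ℕ, ∀ j, J ≤ j → ∀ r, 2 ≤ r → r ≤ s → ∀ (t u : ℕ)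
    (y : Z (s - r)), IsHom (s - r) u y.1 → u + r = 2 ^ j * t + 1 → cl y = 0 := by
  have h : ∀ r : ℕ, ∃ R, 2 ≤ r → PU R (s - r) 0 (1 - (r : ℤ)) := by
    intro r
    by_cases hr : 2 ≤ r
    · obtain ⟨R, hR⟩ := (W624.Stz.main_ind (s - r)).1 0 (1 - (r : ℤ)) (by push_cast; omega)
      exact ⟨R, fun _ => hR⟩
    · exact ⟨0, fun h => absurd h hr⟩
  choose R hR using h
  refine ⟨∑ r ∈ Finset.range (s + 1), R r, fun j hj r hr hrs t u y hy hu => ?_⟩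
  have h1 : R r ≤ j :=
    (Finset.single_le_sum (fun _ _ => Nat.zero_le _) (Finset.mem_range.mpr (by omega))).trans hj
  have h2 : W624.Stz.Ex (kun : Empty → W624.Stz.Kd) (s - r) (u : ℤ) 0 0 := by
    refine ((hR r hr).mono h1) Empty 0 (by simp) (u : ℤ) ⟨(t : ℤ), ?_⟩
    have h3 : ((u + r : ℕ) : ℤ) = ((2 ^ j * t + 1 : ℕ) : ℤ) := by rw [hu]
    push_cast at h3
    linarith
  have h3 := HC_jo y hy
  obtain ⟨g, hg1, hg2⟩ := h2 (jo y.1) h3.TT h3.cl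
  exact cl_eq_zero.mpr (isB_of_Bd hy ⟨g, hg1, hg2⟩)

end src

section fin

theorem Poly_of_PlR {F : (n : ℕ) → Set (Z n)} {n t : ℕ} {x : Cob n}
    (h : PlR F n (t : ℤ) (jo x)) : Poly F n t x := by
  rcases h with h | ⟨t', x', h1, h2, h3⟩
  · have : x = 0 := jo_inj (h.trans jo_zero.symm)
    rw [this]
    exact Poly.bd _ _ _ (MvPolynomial.isWeightedHomogeneous_zero _ _ _) (isB_zero _)
  · have h4 : t' = t := by exact_mod_cast h1
    rw [← jo_inj h2, ← h4]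
    exact h3

theorem TR_iff {F : (n : ℕ) → Set (Z n)} {s t : ℕ} {x : Cob (s + 1)} (hx : IsHom (s + 1) t x) :
    TR F s (t : ℤ) (jo x) ↔ ∃ (u : ℕ) (v : Z s) (z : Cob (s + 1)), t = 2 * u ∧ IsHom s u v.1 ∧
      Poly F (s + 1) (2 * u) z ∧ IsB (s + 1) (x - (cupSq s v.1 + z)) := by
  constructor
  · rintro ⟨u, v, z, h0, h1, h2, h3⟩
    obtain ⟨u', rfl⟩ := Int.eq_ofNat_of_zero_le (show 0 ≤ u by omega)
    obtain ⟨v', rfl, hv⟩ := exists_Z h1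
    obtain ⟨z', rfl, hz⟩ := exists_Z h2.HC
    have ht : t = 2 * u' := by omega
    subst ht
    refine ⟨u', v', z'.1, rfl, hv, Poly_of_PlR h2, isB_of_Bd (t := 2 * u') ?_ ?_⟩
    · rw [isHom_iff] at hx hz ⊢
      rw [jo_sub, jo_add]
      exact hx.add (((isHom_iff _).mp (isHom_cup hv)).add hz)
    · rw [jo_sub, jo_add, jo_cup]
      exact h3
  · rintro ⟨u, v, z, rfl, h1, h2, h3⟩
    have hz := h2.HC
    have hz' : IsHom (s + 1) (2 * u) z := isHom_of_HC hz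
    refine ⟨u, jo v.1, jo z, by push_cast; rfl, HC_jo v h1, Or.inr ⟨_, z, rfl, rfl, h2⟩, ?_⟩
    have h4 : IsHom (s + 1) (2 * u) (x - (cupSq s v.1 + z)) := by
      rw [isHom_iff] at hx hz' ⊢
      rw [jo_sub, jo_add]
      exact hx.add (((isHom_iff _).mp (isHom_cup h1)).add hz')
    have h5 := (Bd_iff h4).mp h3
    rw [jo_sub, jo_add, jo_cup] at h5
    exact h5

/-- **finite generation** -/
theorem fin_gen : ∃ A F : (n : ℕ) → Set (Z n),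
    (∀ n, (A n).Finite ∧ (F n).Finite ∧ (∀ f ∈ A n, ∃ u, IsHom n u f.1) ∧
      ∀ f ∈ F n, (∃ u, IsHom n u f.1) ∧ cl (Sq1 n f) = 0) ∧
    ∀ s : ℕ, ∃ J : ℕ, ∀ (t : ℕ) (x : Z (s + 1)), IsHom (s + 1) t x.1 → ∀ j, J ≤ j →
      Poly A (s + 1) (2 ^ j * t) (x.1 ^ 2 ^ j) ∧
      (∀ r, 2 ≤ r → r ≤ s + 1 → ∀ (u : ℕ) (y : Z (s + 1 - r)), IsHom (s + 1 - r) u y.1 →
        u + r = 2 ^ j * t + 1 → cl y = 0) ∧
      ∀ d₂ : (n : ℕ) → Ext n → Ext (n + 2), Bruner d₂ →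
        (d₂ (s + 1) ((Sq0 (s + 1))^[j] (cl x)) = 0 ↔
          ∃ (u : ℕ) (v : Z s) (z : Cob (s + 1)), 2 ^ j * t = 2 * u ∧ IsHom s u v.1 ∧
            Poly F (s + 1) (2 * u) z ∧ IsB (s + 1) (x.1 ^ 2 ^ j - (cupSq s v.1 + z))) := by
  obtain ⟨A, F, h1, h2, h3, h4, h5, h6⟩ := gen_b
  refine ⟨A, F, fun n => ⟨h1 n, h2 n, h3 n, h4 n⟩, fun s => ?_⟩
  obtain ⟨J1, hJ1⟩ := uni_EvP h1 s
  obtain ⟨J2, hJ2⟩ := uni_EvT h2 s
  obtain ⟨J3, hJ3⟩ := src_zero (s + 1)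
  obtain ⟨J4, hJ4⟩ := d2_crit (s + 1)
  refine ⟨J1 + J2 + J3 + J4, fun t x hx j hj => ⟨?_, ?_, ?_⟩⟩
  · refine Poly_of_PlR ?_
    rw [jo_pow]
    push_cast
    exact hJ1 t x hx (h5 s t x hx) j (by omega)
  · intro r hr hrs u y hy hu
    exact hJ3 j (by omega) r hr hrs t u y hy hu
  · intro d₂ hd
    have hxj : IsHom (s + 1) (2 ^ j * t) (x.1 ^ 2 ^ j) := by
      have := isHom_iter x hx j
      rwa [sqZ_iter] at this
    have h7 := TR_iff (F := F) hxj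
    rw [hJ4 d₂ hd t x hx j (by omega), h6 s t x hx]
    have h8 : EvT F s (t : ℤ) (jo x.1) ↔ TR F s ((2 ^ j * t : ℕ) : ℤ) (jo (x.1 ^ 2 ^ j)) := by
      rw [jo_pow]
      push_cast
      exact ⟨fun h => hJ2 t x hx h j (by omega), fun h => ⟨j, h⟩⟩
    exact h8.trans h7

end fin

end Pool.Agent.H59K
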