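import Pool.Agent.H59K.KZ2

/-!
# The line one
-/

set_option autoImplicit false
set_option linter.unusedSectionVars false

namespace Pool.Agent.H59K

open MvPolynomial Finset
open Pool.Agent.W624.NS hiding IsHom

section one

/-- plain polynomial rings -/
abbrev M1 := MvPolynomial (Fin 1 × ℕ) (ZMod 2)
/-- plain polynomial rings -/
abbrev M2 := MvPolynomial (Fin 2 × ℕ) (ZMod 2)

/-- a variable or one -/
noncomputable def vr {n : ℕ} (a : Fin n) : ℕ → MvPolynomial (Fin n × ℕ) (ZMod 2)
  | 0 => 1
  | m + 1 => X (a, m)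

/-- the coproduct of a variable -/
noncomputable def cpr (n : ℕ) : M2 := ∑ i ∈ range (n + 1), vr 0 (n - i) ^ (2 ^ i) * vr 1 i

/-- coproduct -/
noncomputable def del : M1 →+* M2 := eval₂Hom C fun p => cpr (p.2 + 1)
/-- left inclusion -/
noncomputable def inl : M1 →+* M2 := eval₂Hom C fun p => X (0, p.2)
/-- right inclusion -/
noncomputable def inr : M1 →+* M2 := eval₂Hom C fun p => X (1, p.2)
/-- augmentation on the left -/
noncomputable def aug : M2 →+* M1 := eval₂Hom C fun p => if p.1 = 0 then 0 else X (0, p.2)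
/-- augmentation -/
noncomputable def aug0 : M1 →+* M1 := eval₂Hom C fun _ => 0

theorem pd_vr1 (i n : ℕ) : pderiv ((0 : Fin 2), i) (vr (n := 2) 1 n) = 0 := by
  cases n with
  | zero => exact pderiv_one
  | succ n => exact pderiv_X_of_ne (by simp)

theorem pd_cpr (i n : ℕ) : pderiv ((0 : Fin 2), i) (cpr (n + 1)) = if n = i then 1 else 0 := by
  rw [cpr, sum_range_succ', map_add, map_sum]
  have h1 : ∀ l ∈ range (n + 1), pderiv ((0 : Fin 2), i)
      (vr (n := 2) 0 (n + 1 - (l + 1)) ^ (2 ^ (l + 1)) * vr 1 (l + 1)) = 0 := by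
    intro l _
    rw [pderiv_mul, pd_vr1, mul_zero, add_zero, pderiv_pow]
    have h2 : ((2 ^ (l + 1) : ℕ) : M2) = 0 := by
      have : ((2 : ℕ) : M2) = 0 := CharP.cast_eq_zero _ 2
      rw [pow_succ, Nat.cast_mul, this, mul_zero]
    rw [h2, zero_mul, zero_mul, zero_mul]
  rw [sum_eq_zero h1, zero_add]
  change pderiv ((0 : Fin 2), i) (X ((0 : Fin 2), n) ^ 2 ^ 0 * 1) = _
  rw [pow_zero, pow_one, mul_one]
  by_cases h : n = i
  · subst h; rw [if_pos rfl, pderiv_X_self]
  · rw [if_neg h, pderiv_X_of_ne]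
    simpa using h

theorem pd_del (i : ℕ) (x : M1) : pderiv ((0 : Fin 2), i) (del x)
    = del (pderiv ((0 : Fin 1), i) x) := by
  induction x using MvPolynomial.induction_on with
  | C a =>
    rw [pderiv_C, map_zero]
    have : del (C a) = C a := eval₂Hom_C _ _ _
    rw [this, pderiv_C]
  | add p q hp hq => rw [map_add, map_add, map_add, map_add, hp, hq]
  | mul_X p n hp =>
    obtain ⟨a, n⟩ := n
    obtain rfl : a = 0 := Subsingleton.elim _ _
    have h1 : del (X ((0 : Fin 1), n)) = cpr (n + 1) := eval₂Hom_X' _ _ _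
    rw [map_mul, pderiv_mul, hp, h1, pd_cpr, pderiv_mul, map_add, map_mul, map_mul, h1]
    congr 2
    by_cases h : n = i
    · subst h; rw [if_pos rfl, pderiv_X_self, map_one]
    · rw [if_neg h, pderiv_X_of_ne, map_zero]
      simpa using h

theorem pd_inl (i : ℕ) (x : M1) : pderiv ((0 : Fin 2), i) (inl x)
    = inl (pderiv ((0 : Fin 1), i) x) := by
  induction x using MvPolynomial.induction_on with
  | C a =>
    rw [pderiv_C, map_zero]
    have : inl (C a) = C a := eval₂Hom_C _ _ _
    rw [this, pderiv_C]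
  | add p q hp hq => rw [map_add, map_add, map_add, map_add, hp, hq]
  | mul_X p n hp =>
    obtain ⟨a, n⟩ := n
    obtain rfl : a = 0 := Subsingleton.elim _ _
    have h1 : inl (X ((0 : Fin 1), n)) = X (0, n) := eval₂Hom_X' _ _ _
    rw [map_mul, pderiv_mul, hp, h1, pderiv_mul, map_add, map_mul, map_mul, h1]
    congr 2
    by_cases h : n = i
    · subst h; rw [pderiv_X_self, pderiv_X_self, map_one]
    · rw [pderiv_X_of_ne, pderiv_X_of_ne, map_zero]
      · simpa using h
      · simpa using h

theorem pd_inr (i : ℕ) (x : M1) : pderiv ((0 : Fin 2), i) (inr x) = 0 := by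
  induction x using MvPolynomial.induction_on with
  | C a =>
    have : inr (C a) = C a := eval₂Hom_C _ _ _
    rw [this, pderiv_C]
  | add p q hp hq => rw [map_add, map_add, hp, hq, add_zero]
  | mul_X p n hp =>
    have h1 : inr (X n) = X (1, n.2) := eval₂Hom_X' _ _ _
    rw [map_mul, pderiv_mul, hp, h1, pderiv_X_of_ne (by simp), zero_mul, mul_zero, add_zero]

theorem aug_inl (x : M1) : aug (inl x) = aug0 x := by
  have : aug.comp inl = aug0 := by
    refine MvPolynomial.ringHom_ext (fun a => ?_) (fun p => ?_)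
    · simp [aug, inl, aug0]
    · simp [aug, inl, aug0]
  exact DFunLike.congr_fun this x

theorem aug_cpr (n : ℕ) : aug (cpr (n + 1)) = X (0, n) := by
  rw [cpr, sum_range_succ, map_add, map_sum]
  have h1 : ∀ l ∈ range (n + 1), aug (vr (n := 2) 0 (n + 1 - l) ^ (2 ^ l) * vr 1 l) = 0 := by
    intro l hl
    obtain ⟨c, hc⟩ : ∃ c, n + 1 - l = c + 1 := ⟨n - l, by have := mem_range.mp hl; omega⟩
    rw [hc, map_mul, map_pow]
    have : aug (vr (n := 2) 0 (c + 1)) = 0 := by
      change aug (X ((0 : Fin 2), c)) = 0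
      simp [aug]
    rw [this, zero_pow (by positivity), zero_mul]
  rw [sum_eq_zero h1, zero_add, Nat.sub_self]
  change aug ((1 : M2) ^ 2 ^ (n + 1) * X ((1 : Fin 2), n)) = _
  rw [one_pow, one_mul]
  simp [aug]

theorem aug_del (x : M1) : aug (del x) = x := by
  have : aug.comp del = RingHom.id M1 := by
    refine MvPolynomial.ringHom_ext (fun a => ?_) (fun p => ?_)
    · simp [aug, del]
    · obtain ⟨a, n⟩ := p
      obtain rfl : a = 0 := Subsingleton.elim _ _
      have h1 : del (X ((0 : Fin 1), n)) = cpr (n + 1) := eval₂Hom_X' _ _ _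
      rw [RingHom.comp_apply, h1, aug_cpr]
      rfl
  exact DFunLike.congr_fun this x

theorem aug0_eq (x : M1) : aug0 x = C (constantCoeff x) := by
  have : aug0 = (C : ZMod 2 →+* M1).comp constantCoeff := by
    refine MvPolynomial.ringHom_ext (fun a => ?_) (fun p => ?_)
    · simp [aug0]
    · simp [aug0]
  exact DFunLike.congr_fun this x

/-- the partial derivatives of a primitive element are constants -/
theorem pd_const {x : M1} (h : inr x + del x + inl x = 0) (i : ℕ) :
    ∃ c : ZMod 2, pderiv ((0 : Fin 1), i) x = C c := by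
  have h1 := congrArg (pderiv ((0 : Fin 2), i)) h
  rw [map_add, map_add, pd_inr, pd_del, pd_inl, zero_add, map_zero] at h1
  have h2 := congrArg aug h1
  rw [map_add, aug_del, aug_inl, aug0_eq, map_zero] at h2
  have h3 := CharTwo.add_eq_zero.mp h2
  exact ⟨_, h3⟩

theorem inr_inj : Function.Injective inr := by
  have : aug.comp inr = RingHom.id M1 := by
    refine MvPolynomial.ringHom_ext (fun a => ?_) (fun p => ?_)
    · simp [aug, inr]
    · obtain ⟨a, n⟩ := p
      obtain rfl : a = 0 := Subsingleton.elim _ _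
      simp [aug, inr]
  intro x y hxy
  have h1 := DFunLike.congr_fun this x
  have h2 := DFunLike.congr_fun this y
  rw [RingHom.comp_apply] at h1 h2
  rw [← show (RingHom.id M1) x = x from rfl, ← h1, hxy, h2]
  rfl

/-- the weights -/
abbrev w1 : Fin 1 × ℕ → ℕ := fun p => 2 ^ (p.2 + 1) - 1

theorem pos_of_pow (i : ℕ) : 2 ^ (i + 1) - 1 + 1 = 2 * 2 ^ i := by
  have : 0 < 2 ^ i := by positivity
  rw [pow_succ]; omega

theorem supp_cases {x : M1} (h : inr x + del x + inl x = 0) {m : Fin 1 × ℕ →₀ ℕ}
    (hm : m ∈ x.support) (i : ℕ) (hi : m (0, i) % 2 = 1) : m = Finsupp.single (0, i) 1 := by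
  obtain ⟨c, hc⟩ := pd_const h i
  obtain ⟨m', rfl⟩ : ∃ m' : Fin 1 × ℕ →₀ ℕ, m = m' + Finsupp.single (0, i) 1 := by
    refine ⟨m - Finsupp.single (0, i) 1, (tsub_add_cancel_of_le ?_).symm⟩
    rw [Finsupp.single_le_iff]
    omega
  have h1 := congrArg (coeff m') hc
  have h3 : ((m' (0, i) : ℕ) : ZMod 2) + 1 = 1 := by
    rw [Finsupp.add_apply, Finsupp.single_eq_same] at hi
    have h6 : (((m' (0, i) + 1 : ℕ)) : ZMod 2) = (((m' (0, i) + 1) % 2 : ℕ) : ZMod 2) := by simp
    rw [hi] at h6
    push_cast at h6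
    exact h6
  rw [coeff_pderiv, h3, mul_one, coeff_C] at h1
  have h7 := mem_support_iff.mp hm
  have h8 : (0 : Fin 1 × ℕ →₀ ℕ) = m' := by
    by_contra hne
    rw [if_neg hne] at h1
    exact h7 h1
  rw [← h8, zero_add]

theorem even_weight {m : Fin 1 × ℕ →₀ ℕ} (h : ∀ i, m (0, i) % 2 = 0) :
    2 • m.mapRange (· / 2) (Nat.zero_div 2) = m := by
  ext p
  obtain ⟨a, n⟩ := p
  obtain rfl : a = 0 := Subsingleton.elim _ _
  rw [Finsupp.smul_apply, Finsupp.mapRange_apply, smul_eq_mul]
  have := h n
  omega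

theorem not_prim (i : ℕ) (h : cpr (i + 2) = X (0, i + 1) + X (1, i + 1)) : False := by
  let ev : M2 →+* ZMod 2 := eval₂Hom (RingHom.id _) fun p =>
    if p = (0, 0) ∨ p = (1, i) then 1 else 0
  have h1 := congrArg ev h
  have e0 : ev (X (0, i + 1)) = 0 := by simp [ev]
  have e1 : ev (X (1, i + 1)) = 0 := by simp [ev]
  rw [map_add, e0, e1, add_zero, cpr, map_sum, sum_eq_single (i + 1)] at h1
  · rw [show i + 2 - (i + 1) = 0 + 1 by omega] at h1
    have e2 : ev (vr (n := 2) 0 (0 + 1)) = 1 := by
      change ev (X ((0 : Fin 2), 0)) = 1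
      simp [ev]
    have e3 : ev (vr (n := 2) 1 (i + 1)) = 1 := by
      change ev (X ((1 : Fin 2), i)) = 1
      simp [ev]
    rw [map_mul, map_pow, e2, e3, one_pow, one_mul] at h1
    exact one_ne_zero h1
  · intro l hl hne
    have hl' := mem_range.mp hl
    rw [map_mul, map_pow]
    rcases Nat.lt_or_ge l (i + 1) with h2 | h2
    · have e2 : ev (vr (n := 2) 0 (i + 2 - l)) = 0 := by
        obtain ⟨c, hc⟩ : ∃ c, i + 2 - l = c + 1 + 1 := ⟨i - l, by omega⟩
        rw [hc]
        change ev (X ((0 : Fin 2), c + 1)) = 0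
        simp [ev]
      rw [e2, zero_pow (by positivity), zero_mul]
    · have h3 : l = i + 1 + 1 := by omega
      have e3 : ev (vr (n := 2) 1 l) = 0 := by
        rw [h3]
        change ev (X ((1 : Fin 2), i + 1)) = 0
        simp [ev]
      rw [e3, mul_zero]
  · intro h2
    exact absurd (mem_range.mpr (by omega)) h2

/-- the primitive elements -/
theorem prim_class (t : ℕ) : 0 < t → ∀ x : M1, inr x + del x + inl x = 0 →
    IsWeightedHomogeneous w1 x t → x = 0 ∨ ∃ i : ℕ, x = X (0, 0) ^ 2 ^ i := by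
  induction t using Nat.strong_induction_on with
  | _ t ih =>
  intro ht x hx hh
  by_cases h0 : x = 0
  · exact Or.inl h0
  right
  rcases Nat.even_or_odd' t with ⟨u, hu | hu⟩
  · -- even degree
    have hev : ∀ m ∈ x.support, ∀ i, m (0, i) % 2 = 0 := by
      intro m hm i
      by_contra hne
      have h1 := supp_cases hx hm i (by omega)
      have h2 := hh (mem_support_iff.mp hm)
      rw [h1, Finsupp.weight_single, one_smul] at h2
      have h3 := pos_of_pow i
      change 2 ^ (i + 1) - 1 = t at h2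
      omega
    let y : M1 := ∑ m ∈ x.support, monomial (m.mapRange (· / 2) (Nat.zero_div 2)) (coeff m x)
    have hy : y ^ 2 = x := by
      have h1 : y ^ 2 = ∑ m ∈ x.support,
          (monomial (m.mapRange (· / 2) (Nat.zero_div 2)) (coeff m x) : M1) ^ 2 :=
        sum_pow_char 2 _ _
      rw [h1]
      conv_rhs => rw [← support_sum_monomial_coeff x]
      refine sum_congr rfl fun m hm => ?_
      rw [monomial_pow, even_weight (hev m hm)]
      have : ∀ c : ZMod 2, c ^ 2 = c := by decide
      rw [this]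
    have hyh : IsWeightedHomogeneous w1 y u := by
      refine (weightedHomogeneousSubmodule (ZMod 2) w1 u).sum_mem fun m hm => ?_
      refine isWeightedHomogeneous_monomial _ _ _ ?_
      have h1 := hh (mem_support_iff.mp hm)
      rw [← even_weight (hev m hm), map_nsmul, smul_eq_mul] at h1
      omega
    have hyp : inr y + del y + inl y = 0 := by
      have h1 : (inr y + del y + inl y) ^ 2 = 0 := by
        rw [CharTwo.add_sq, CharTwo.add_sq, ← map_pow, ← map_pow, ← map_pow, hy, hx]
      exact (pow_eq_zero_iff two_ne_zero).mp h1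
    rcases ih u (by omega) (by omega) y hyp hyh with h1 | ⟨i, hi⟩
    · exfalso
      apply h0
      rw [← hy, h1, zero_pow two_ne_zero]
    · exact ⟨i + 1, by rw [← hy, hi, ← pow_mul, pow_succ]⟩
  · -- odd degree
    have hodd : ∀ m ∈ x.support, ∃ i, m = Finsupp.single (0, i) 1 ∧ 2 ^ (i + 1) - 1 = t := by
      intro m hm
      by_cases hne : ∀ i, m (0, i) % 2 = 0
      · exfalso
        have h1 := hh (mem_support_iff.mp hm)
        rw [← even_weight hne, map_nsmul, smul_eq_mul] at h1
        omega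
      · obtain ⟨i, hi⟩ := not_forall.mp hne
        have h1 := supp_cases hx hm i (by omega)
        have h2 := hh (mem_support_iff.mp hm)
        rw [h1, Finsupp.weight_single, one_smul] at h2
        exact ⟨i, h1, h2⟩
    obtain ⟨m0, hm0⟩ := support_nonempty.mpr h0
    obtain ⟨i, hi, hit⟩ := hodd m0 hm0
    have hsupp : x.support = {Finsupp.single ((0 : Fin 1), i) 1} := by
      ext m
      rw [mem_singleton]
      constructor
      · intro hm
        obtain ⟨k, hk, hkt⟩ := hodd m hm
        have h1 := pos_of_pow i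
        have h2 := pos_of_pow k
        have h3 : 2 ^ k = 2 ^ i := by omega
        have h4 := Nat.pow_right_injective le_rfl h3
        rw [hk, h4]
      · intro hm
        rw [hm, ← hi]
        exact hm0
    have hx2 : x = X (0, i) := by
      have h1 : coeff (Finsupp.single ((0 : Fin 1), i) 1) x ≠ 0 := by
        rw [← mem_support_iff, hsupp]
        exact mem_singleton_self _
      have h2 : ∀ c : ZMod 2, c ≠ 0 → c = 1 := by decide
      conv_lhs => rw [← support_sum_monomial_coeff x]
      rw [hsupp, sum_singleton, h2 _ h1]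
      rfl
    cases i with
    | zero => exact ⟨0, by rw [hx2, pow_zero, pow_one]⟩
    | succ i =>
      exfalso
      refine not_prim i ?_
      rw [hx2] at hx
      have e1 : del (X ((0 : Fin 1), i + 1)) = cpr (i + 2) := eval₂Hom_X' _ _ _
      have e2 : inl (X ((0 : Fin 1), i + 1)) = X (0, i + 1) := eval₂Hom_X' _ _ _
      have e3 : inr (X ((0 : Fin 1), i + 1)) = X (1, i + 1) := eval₂Hom_X' _ _ _
      rw [e1, e2, e3] at hx
      have h1 := CharTwo.add_eq_zero.mp hx
      rw [← CharTwo.add_eq_zero] at h1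
      have h2 : (X (1, i + 1) : M2) + cpr (i + 2) + X (0, i + 1) = 0 := hx
      have h3 := CharTwo.add_self_eq_zero (X (1, i + 1) : M2)
      have h4 := CharTwo.add_self_eq_zero (X (0, i + 1) : M2)
      linear_combination h2 - h3 - h4

end one

end Pool.Agent.H59K
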