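import Pool.Agent.H59K.MA

/-!
# The line one, `Sq¹`
-/

set_option autoImplicit false
set_option linter.unusedSectionVars false

namespace Pool.Agent.H59K

open Pool.Agent.W624.NS
open Pool.Agent.W624.Stz (dd kun cut TT RR IW)

section

theorem face10 (x : Cob 1) : (face 1 0 x : Cob 2) = (inr x : M2) := by
  have h : (fun p : Fin 1 × ℕ => (if (p.1 : ℕ) + 1 < 0 then ξ p.1.castSucc (p.2 + 1) else
    if 0 ≤ (p.1 : ℕ) then ξ p.1.succ (p.2 + 1) else coprod p.1 (p.2 + 1) : Cob 2))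
    = fun p => (MvPolynomial.X (1, p.2) : M2) := by
    funext p
    obtain ⟨a, n⟩ := p
    obtain rfl : a = 0 := Subsingleton.elim _ _
    rfl
  change MvPolynomial.eval₂Hom (MvPolynomial.C : ZMod 2 →+* M2) _ (x : M1) = _
  exact congrArg (fun f => (MvPolynomial.eval₂Hom (MvPolynomial.C : ZMod 2 →+* M2) f (x : M1))) h

theorem face12 (x : Cob 1) : (face 1 2 x : Cob 2) = (inl x : M2) := by
  have h : (fun p : Fin 1 × ℕ => (if (p.1 : ℕ) + 1 < 2 then ξ p.1.castSucc (p.2 + 1) else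
    if 2 ≤ (p.1 : ℕ) then ξ p.1.succ (p.2 + 1) else coprod p.1 (p.2 + 1) : Cob 2))
    = fun p => (MvPolynomial.X (0, p.2) : M2) := by
    funext p
    obtain ⟨a, n⟩ := p
    obtain rfl : a = 0 := Subsingleton.elim _ _
    rfl
  change MvPolynomial.eval₂Hom (MvPolynomial.C : ZMod 2 →+* M2) _ (x : M1) = _
  exact congrArg (fun f => (MvPolynomial.eval₂Hom (MvPolynomial.C : ZMod 2 →+* M2) f (x : M1))) h

theorem vr_eq {n : ℕ} (a : Fin n) (m : ℕ) : (ξ a m : Cob n) = vr a m := by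
  cases m <;> rfl

theorem face11 (x : Cob 1) : (face 1 1 x : Cob 2) = (del x : M2) := by
  have h : (fun p : Fin 1 × ℕ => (if (p.1 : ℕ) + 1 < 1 then ξ p.1.castSucc (p.2 + 1) else
    if 1 ≤ (p.1 : ℕ) then ξ p.1.succ (p.2 + 1) else coprod p.1 (p.2 + 1) : Cob 2))
    = fun p => (cpr (p.2 + 1) : M2) := by
    funext p
    obtain ⟨a, n⟩ := p
    obtain rfl : a = 0 := Subsingleton.elim _ _
    change coprod 0 (n + 1) = _
    rw [coprod, cpr]
    refine Finset.sum_congr rfl fun i _ => ?_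
    rw [vr_eq, vr_eq]
    rfl
  change MvPolynomial.eval₂Hom (MvPolynomial.C : ZMod 2 →+* M2) _ (x : M1) = _
  exact congrArg (fun f => (MvPolynomial.eval₂Hom (MvPolynomial.C : ZMod 2 →+* M2) f (x : M1))) h

/-- the cocycles of the line one -/
theorem line_one {t : ℕ} (ht : 0 < t) (x : Z 1) (hx : IsHom 1 t x.1) :
    x.1 = 0 ∨ ∃ i, x = hZ i := by
  have h1 : (face 1 0 x.1 + face 1 1 x.1 + face 1 2 x.1 : Cob 2) = 0 := by
    have h2 := x.2
    rw [dC, Finset.sum_range_succ, Finset.sum_range_succ, Finset.sum_range_succ,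
      Finset.sum_range_zero, zero_add] at h2
    exact h2
  have h2 : (inr (x.1 : M1) + del (x.1 : M1) + inl (x.1 : M1) : M2) = 0 := by
    rw [face10, face11, face12] at h1
    exact h1
  rcases prim_class t ht x.1 h2 hx with h | ⟨i, hi⟩
  · exact Or.inl h
  · exact Or.inr ⟨i, Subtype.ext hi⟩

theorem line_one_nil {t : ℕ} (ht : 0 < t) (x : Z 1) (hx : IsHom 1 t x.1)
    (h : Nil (cl (Sq1 1 x))) : x.1 = 0 := by
  rcases line_one ht x hx with h0 | ⟨i, rfl⟩
  · exact h0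
  · exfalso
    have h1 : hZ i = (sqZ 1)^[i] (hZ 0) := by rw [hZ_iter, zero_add]
    rw [h1, Sq1_iter, nil_sq_iter] at h
    exact not_nil_sq1_h0 h

end

end Pool.Agent.H59K
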