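import Pool.Agent.H59K.MB

/-!
# Counting
-/

set_option autoImplicit false
set_option linter.unusedSectionVars false

namespace Pool.Agent.H59K

open Finset

section num

/-- sums of at most `n` terms `2 ^ k * d` with `k ≤ K`, `d ≤ D` -/
def FS (K D : ℕ) : ℕ → Finset ℕ
  | 0 => {0}
  | n + 1 => (FS K D n ×ˢ (range (K + 1) ×ˢ range (D + 1))).image fun p => 2 ^ p.2.1 * p.2.2 + p.1

theorem FS_card (K D n : ℕ) : (FS K D n).card ≤ ((K + 1) * (D + 1)) ^ n := by
  induction n with
  | zero => rw [FS, card_singleton, pow_zero]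
  | succ n ih =>
    rw [FS]
    refine card_image_le.trans ?_
    rw [card_product, card_product, card_range, card_range, pow_succ]
    exact Nat.mul_le_mul_right _ ih

theorem mem_FS {K D : ℕ} (n : ℕ) : ∀ L : List (ℕ × ℕ), L.length ≤ n →
    (∀ p ∈ L, 0 < p.2 ∧ p.2 ≤ D) → (L.map fun p => 2 ^ p.1 * p.2).sum < 2 ^ (K + 1) →
    (L.map fun p => 2 ^ p.1 * p.2).sum ∈ FS K D n := by
  induction n with
  | zero =>
    intro L hL _ _
    rw [List.length_eq_zero_iff.mp (Nat.le_zero.mp hL)]
    exact mem_singleton_self _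
  | succ n ih =>
    intro L hL hD hs
    rw [FS, mem_image]
    cases L with
    | nil =>
      refine ⟨(0, (0, 0)), ?_, by simp⟩
      rw [mem_product, mem_product]
      refine ⟨?_, mem_range.mpr (Nat.succ_pos K), mem_range.mpr (Nat.succ_pos D)⟩
      have := ih [] (Nat.zero_le _) (fun p hp => absurd hp List.not_mem_nil) (by simp)
      simpa using this
    | cons p L =>
      rw [List.map_cons, List.sum_cons] at hs ⊢
      have h1 := hD p List.mem_cons_self
      have h2 : p.1 < K + 1 := by
        have h3 : 2 ^ p.1 ≤ 2 ^ p.1 * p.2 := Nat.le_mul_of_pos_right _ h1.1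
        exact (Nat.pow_lt_pow_iff_right (by norm_num : 1 < 2)).mp (by omega)
      refine ⟨((L.map fun p => 2 ^ p.1 * p.2).sum, (p.1, p.2)), ?_, rfl⟩
      rw [mem_product, mem_product]
      refine ⟨ih L (by simpa using hL) (fun q hq => hD q (List.mem_cons_of_mem _ hq)) (by omega),
        mem_range.mpr h2, mem_range.mpr (Nat.lt_succ_of_le h1.2)⟩

/-- sums of powers of two in blocks -/
def blk (M : ℕ) (a : ℕ → ℕ) (n : ℕ) : ℕ := ∑ l ∈ range n, 2 ^ (l * M + a l)

theorem blk_succ (M : ℕ) (a : ℕ → ℕ) (n : ℕ) :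
    blk M a (n + 1) = 2 ^ a 0 + 2 ^ M * blk M (fun l => a (l + 1)) n := by
  rw [blk, sum_range_succ', blk, mul_sum, add_comm, zero_mul, zero_add]
  congr 1
  refine sum_congr rfl fun l _ => ?_
  rw [← pow_add]
  congr 1
  ring

theorem blk_lt {M : ℕ} (n : ℕ) : ∀ a : ℕ → ℕ, (∀ l < n, a l < M) → blk M a n < 2 ^ (n * M) := by
  induction n with
  | zero => intro a _; simp [blk]
  | succ n ih =>
    intro a ha
    rw [blk_succ]
    have h1 := ih (fun l => a (l + 1)) fun l hl => ha (l + 1) (by omega)
    have h2 : 2 ^ a 0 < 2 ^ M := Nat.pow_lt_pow_right (by norm_num) (ha 0 (by omega))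
    have h3 : 2 ^ ((n + 1) * M) = 2 ^ M * 2 ^ (n * M) := by rw [← pow_add]; congr 1; ring
    rw [h3]
    calc 2 ^ a 0 + 2 ^ M * blk M (fun l => a (l + 1)) n
        < 2 ^ M + 2 ^ M * blk M (fun l => a (l + 1)) n := by omega
      _ = 2 ^ M * (blk M (fun l => a (l + 1)) n + 1) := by ring
      _ ≤ 2 ^ M * 2 ^ (n * M) := Nat.mul_le_mul_left _ h1

theorem blk_inj {M : ℕ} (n : ℕ) : ∀ a b : ℕ → ℕ, (∀ l < n, a l < M) → (∀ l < n, b l < M) →
    blk M a n = blk M b n → ∀ l < n, a l = b l := by
  induction n with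
  | zero => intro a b _ _ _ l hl; omega
  | succ n ih =>
    intro a b ha hb h
    rw [blk_succ, blk_succ] at h
    have h1 : 2 ^ a 0 < 2 ^ M := Nat.pow_lt_pow_right (by norm_num) (ha 0 (by omega))
    have h2 : 2 ^ b 0 < 2 ^ M := Nat.pow_lt_pow_right (by norm_num) (hb 0 (by omega))
    have h3 : 2 ^ a 0 = 2 ^ b 0 := by
      have h4 := congrArg (· % 2 ^ M) h
      simp only [Nat.add_mul_mod_self_left] at h4
      rwa [Nat.mod_eq_of_lt h1, Nat.mod_eq_of_lt h2] at h4
    have h5 : blk M (fun l => a (l + 1)) n = blk M (fun l => b (l + 1)) n := by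
      have : 2 ^ M * blk M (fun l => a (l + 1)) n = 2 ^ M * blk M (fun l => b (l + 1)) n := by
        omega
      exact Nat.eq_of_mul_eq_mul_left (by positivity) this
    intro l hl
    cases l with
    | zero => exact Nat.pow_right_injective le_rfl h3
    | succ l =>
      exact ih _ _ (fun l hl => ha (l + 1) (by omega)) (fun l hl => hb (l + 1) (by omega)) h5 l
        (by omega)

theorem insertIdx_app {β : Type*} (W1 W2 : List β) (w : β) :
    (W1 ++ W2).insertIdx W1.length w = W1 ++ w :: W2 := by
  induction W1 with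
  | nil => rfl
  | cons a W1 ih =>
    rw [List.length_cons, List.cons_append, List.insertIdx_succ_cons, ih, List.cons_append]

/-- the number of lists with a given sum is bounded -/
theorem lists_bound {α : Type*} (Φ : Finset α) (d : α → ℕ) (D : ℕ)
    (hd : ∀ a ∈ Φ, 0 < d a ∧ d a ≤ D) (N : ℕ) : ∃ B : ℕ, ∀ T : ℕ, ∃ S : Finset (List (ℕ × α)),
    S.card ≤ B ∧ ∀ W : List (ℕ × α), W.length ≤ N → (∀ w ∈ W, w.2 ∈ Φ) →
      (W.map fun w => 2 ^ w.1 * d w.2).sum = T → W ∈ S := by
  classical
  induction N with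
  | zero =>
    refine ⟨1, fun T => ⟨{[]}, by simp, fun W hW _ _ => ?_⟩⟩
    rw [List.length_eq_zero_iff.mp (Nat.le_zero.mp hW)]
    exact mem_singleton_self _
  | succ N ih =>
    obtain ⟨B, hB⟩ := ih
    choose S hS1 hS2 using hB
    set R := (N + 1) * D with hR
    refine ⟨1 + (N + 1) * ((R + 1) * Φ.card) * B, fun T => ?_⟩
    let I : Finset (ℕ × (ℕ × α)) :=
      range (N + 1) ×ˢ ((Finset.Icc (Nat.log 2 T - R) (Nat.log 2 T)) ×ˢ Φ)
    refine ⟨{[]} ∪ I.biUnion fun p => (S (T - 2 ^ p.2.1 * d p.2.2)).image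
      fun W => W.insertIdx p.1 p.2, ?_, ?_⟩
    · refine (card_union_le _ _).trans ?_
      rw [card_singleton]
      refine Nat.add_le_add_left ?_ 1
      refine card_biUnion_le.trans ?_
      have h1 : ∀ p ∈ I, ((S (T - 2 ^ p.2.1 * d p.2.2)).image
          fun W => W.insertIdx p.1 p.2).card ≤ B := fun p _ => card_image_le.trans (hS1 _)
      refine (sum_le_card_nsmul _ _ _ h1).trans ?_
      rw [smul_eq_mul]
      refine Nat.mul_le_mul_right _ ?_
      rw [card_product, card_product, card_range, Nat.card_Icc]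
      refine Nat.mul_le_mul_left _ (Nat.mul_le_mul_right _ ?_)
      omega
    · intro W hW hΦ hT
      rw [mem_union]
      cases hWn : W with
      | nil => left; exact mem_singleton_self _
      | cons w0 W0 =>
      right
      -- the largest term
      have hne : W.toFinset.Nonempty := ⟨w0, List.mem_toFinset.mpr (by rw [hWn]; simp)⟩
      obtain ⟨w, hw, hmax⟩ := W.toFinset.exists_max_image (fun w => 2 ^ w.1 * d w.2) hne
      rw [List.mem_toFinset] at hw
      have hwd := hd _ (hΦ w hw)
      have h1 : (W.map fun w => 2 ^ w.1 * d w.2).sum ≤ (W.map fun w => 2 ^ w.1 * d w.2).length •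
          (2 ^ w.1 * d w.2) := by
        refine List.sum_le_card_nsmul _ _ fun x hx => ?_
        obtain ⟨q, hq, rfl⟩ := List.mem_map.mp hx
        exact hmax q (List.mem_toFinset.mpr hq)
      rw [List.length_map, smul_eq_mul, hT] at h1
      have h2 : 2 ^ w.1 * d w.2 ≤ T := by
        rw [← hT]
        exact List.single_le_sum (fun _ _ => Nat.zero_le _) _ (List.mem_map.mpr ⟨w, hw, rfl⟩)
      have h3 : 2 ^ w.1 ≤ T := le_trans (Nat.le_mul_of_pos_right _ hwd.1) h2
      have hT0 : T ≠ 0 := by
        have : 0 < 2 ^ w.1 := by positivity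
        omega
      have h4 : w.1 ≤ Nat.log 2 T := Nat.le_log_of_pow_le (by norm_num) h3
      have h5 : T ≤ R * 2 ^ w.1 := by
        calc T ≤ W.length * (2 ^ w.1 * d w.2) := h1
          _ ≤ (N + 1) * (2 ^ w.1 * D) :=
              Nat.mul_le_mul hW (Nat.mul_le_mul_left _ hwd.2)
          _ = R * 2 ^ w.1 := by rw [hR]; ring
      have h6 : T < 2 ^ (R + w.1) := by
        rw [pow_add]
        exact lt_of_le_of_lt h5 (Nat.mul_lt_mul_of_pos_right Nat.lt_two_pow_self (by positivity))
      have h7 : Nat.log 2 T < R + w.1 := Nat.log_lt_of_lt_pow hT0 h6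
      obtain ⟨W1, W2, hWW⟩ := List.append_of_mem hw
      rw [← hWn, mem_biUnion]
      refine ⟨(W1.length, w), ?_, ?_⟩
      · rw [mem_product, mem_product]
        refine ⟨mem_range.mpr ?_, Finset.mem_Icc.mpr ⟨?_, h4⟩, hΦ w hw⟩
        swap
        · change Nat.log 2 T - R ≤ w.1
          omega
        rw [hWW, List.length_append, List.length_cons] at hW
        change W1.length < N + 1
        omega
      · rw [mem_image]
        refine ⟨W1 ++ W2, hS2 _ _ ?_ ?_ ?_, ?_⟩
        · rw [hWW, List.length_append, List.length_cons] at hW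
          rw [List.length_append]
          omega
        · intro q hq
          refine hΦ q ?_
          rw [hWW]
          rcases List.mem_append.mp hq with h | h
          · exact List.mem_append_left _ h
          · exact List.mem_append_right _ (List.mem_cons_of_mem _ h)
        · rw [hWW, List.map_append, List.sum_append, List.map_cons, List.sum_cons] at hT
          rw [List.map_append, List.sum_append]
          change _ = T - 2 ^ w.1 * d w.2
          omega
        · change (W1 ++ W2).insertIdx W1.length w = W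
          rw [hWW, insertIdx_app]

end num

end Pool.Agent.H59K
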