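import Pool.Agent.H59K.MC

/-!
# Monomials as lists
-/

set_option autoImplicit false
set_option linter.unusedSectionVars false

namespace Pool.Agent.H59K

open MvPolynomial Finset
open Pool.Agent.W624.NS
open Pool.Agent.W624.Stz (dd kun cut TT RR IW Vr p2_add_self)

section shift

variable {K : Type}

theorem shf_shf (a b : ℕ) (f : RR K) : shf K a (shf K b f) = shf K (a + b) f := by
  have : (shf K a).comp (shf K b) = shf K (a + b) := by
    apply algHom_ext
    intro v
    cases v with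
    | x c n => rw [AlgHom.comp_apply, shf_x, shf_x, shf_x, add_assoc, add_comm b a]
    | s c n => rw [AlgHom.comp_apply, shf_s, shf_s, shf_s, add_assoc, add_comm b a]
    | y c n => rw [AlgHom.comp_apply, shf_y, shf_y, shf_y]
  exact DFunLike.congr_fun this f

theorem shf_zero (f : RR K) : shf K 0 f = f := by
  have : shf K 0 = AlgHom.id _ _ := by
    apply algHom_ext
    intro v
    cases v with
    | x c n => rw [shf_x]; rfl
    | s c n => rw [shf_s]; rfl
    | y c n => rw [shf_y]; rfl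
  rw [this]
  rfl

end shift

section lists

variable {F : (n : ℕ) → Set (Z n)}

/-- cocycles of all lines -/
abbrev AL := Σ n, Z n

open Classical in
/-- the degree -/
noncomputable def dgr (a : AL) : ℕ := if h : ∃ t, IsHom a.1 t a.2.1 then h.choose else 0

theorem hom_unique {n t u : ℕ} {x : Cob n} (h0 : x ≠ 0) (h1 : IsHom n t x) (h2 : IsHom n u x) :
    t = u := by
  have h3 : IsWeightedHomogeneous (R := ZMod 2)
    (fun p : Fin n × ℕ => 2 ^ (p.2 + 1) - 1) x t := h1
  have h4 : IsWeightedHomogeneous (R := ZMod 2)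
    (fun p : Fin n × ℕ => 2 ^ (p.2 + 1) - 1) x u := h2
  exact h3.inj_right h0 h4

theorem dgr_eq {a : AL} {t : ℕ} (h0 : a.2.1 ≠ 0) (h : IsHom a.1 t a.2.1) : dgr a = t := by
  have h1 : ∃ t, IsHom a.1 t a.2.1 := ⟨t, h⟩
  rw [dgr, dif_pos h1]
  exact hom_unique h0 h1.choose_spec h

/-- the product of a list -/
noncomputable def prodR : List (ℕ × AL) → RR Empty
  | [] => 1
  | w :: W => jo w.2.2.1 ^ 2 ^ w.1 * shf Empty w.2.1 (prodR W)

/-- the line of a list -/
def lineW : List (ℕ × AL) → ℕ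
  | [] => 0
  | w :: W => w.2.1 + lineW W

theorem lineW_append (W W' : List (ℕ × AL)) : lineW (W ++ W') = lineW W + lineW W' := by
  induction W with
  | nil => rw [List.nil_append, lineW, zero_add]
  | cons w W ih => rw [List.cons_append, lineW, lineW, ih, add_assoc]

theorem prodR_append (W W' : List (ℕ × AL)) :
    prodR (W ++ W') = prodR W * shf Empty (lineW W) (prodR W') := by
  induction W with
  | nil => rw [List.nil_append, prodR, lineW, one_mul, shf_zero]
  | cons w W ih =>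
    rw [List.cons_append, prodR, prodR, lineW, ih, map_mul, shf_shf, mul_assoc]

/-- the letters of monomials -/
def Phi (F : (n : ℕ) → Set (Z n)) (N : ℕ) : Set AL :=
  {a | a.1 ≤ N ∧ a.2 ∈ F a.1 ∧ a.2.1 ≠ 0 ∧ 0 < dgr a}

theorem Phi_finite (hfin : ∀ n, (F n).Finite) (N : ℕ) : (Phi F N).Finite := by
  have h1 : (⋃ m ∈ Set.Iic N, (fun f : Z m => (⟨m, f⟩ : AL)) '' F m).Finite :=
    (Set.finite_Iic N).biUnion fun m _ => (hfin m).image _
  refine h1.subset ?_
  rintro ⟨m, f⟩ ⟨h2, h3, _⟩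
  exact Set.mem_biUnion (show m ∈ Set.Iic N from h2) ⟨f, h3, rfl⟩

theorem Mo.list {n t : ℕ} {z : Cob n} {L : List (ℕ × ℕ)} (h : Mo F n t z L) :
    ∃ W : List (ℕ × AL), jo z = prodR W ∧ lineW W = n ∧ (∀ w ∈ W, w.2 ∈ Phi F n) ∧
      (W.map fun w => 2 ^ w.1 * dgr w.2).sum = t ∧ W.length ≤ n := by
  induction h with
  | mem n t k f h1 h2 h3 h4 =>
    have h5 : dgr ⟨n + 1, f⟩ = t := dgr_eq (a := ⟨n + 1, f⟩) h4 h2
    refine ⟨[(k, ⟨n + 1, f⟩)], ?_, ?_, ?_, ?_, ?_⟩
    · rw [prodR, prodR, map_one, mul_one, jo_pow]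
    · rw [lineW, lineW, add_zero]
    · intro w hw
      rw [List.mem_singleton] at hw
      rw [hw]
      refine ⟨le_rfl, h1, h4, ?_⟩
      rw [h5]; exact h3
    · rw [List.map_cons, List.map_nil, List.sum_cons, List.sum_nil, add_zero]
      change 2 ^ k * dgr ⟨n + 1, f⟩ = _
      rw [h5]
    · simp
  | mul p q t u x y L L' _ _ ih1 ih2 =>
    obtain ⟨W, a1, a2, a3, a4, a5⟩ := ih1
    obtain ⟨W', b1, b2, b3, b4, b5⟩ := ih2
    refine ⟨W ++ W', ?_, ?_, ?_, ?_, ?_⟩
    · rw [prodR_append, jo_mul, a1, b1, a2]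
    · rw [lineW_append, a2, b2]
    · intro w hw
      rcases List.mem_append.mp hw with h | h
      · obtain ⟨c1, c2⟩ := a3 w h
        exact ⟨by omega, c2⟩
      · obtain ⟨c1, c2⟩ := b3 w h
        exact ⟨by omega, c2⟩
    · rw [List.map_append, List.sum_append, a4, b4]
    · rw [List.length_append]; omega

theorem mono_bound (hfin : ∀ n, (F n).Finite) (n : ℕ) : ∃ B : ℕ, ∀ T : ℕ,
    ∃ S : Finset (RR Empty), S.card ≤ B ∧ ∀ (z : Cob n) (L : List (ℕ × ℕ)), Mo F n T z L →
      jo z ∈ S := by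
  classical
  set Φ := (Phi_finite hfin n).toFinset with hΦ
  have hD : ∀ a ∈ Φ, 0 < dgr a ∧ dgr a ≤ ∑ b ∈ Φ, dgr b := by
    intro a ha
    refine ⟨((Phi_finite hfin n).mem_toFinset.mp ha).2.2.2, ?_⟩
    exact single_le_sum (fun _ _ => Nat.zero_le _) ha
  obtain ⟨B, hB⟩ := lists_bound Φ dgr _ hD n
  refine ⟨B, fun T => ?_⟩
  obtain ⟨S, hS1, hS2⟩ := hB T
  refine ⟨S.image prodR, card_image_le.trans hS1, fun z L h => ?_⟩
  obtain ⟨W, h1, _, h3, h4, h5⟩ := h.list
  rw [mem_image]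
  exact ⟨W, hS2 W h5 (fun w hw => (Phi_finite hfin n).mem_toFinset.mpr (h3 w hw)) h4, h1.symm⟩

theorem PlR.SM_or {n T : ℕ} {f : RR Empty} (h : PlR F n (T : ℤ) f) :
    f = 0 ∨ ∃ x : Cob n, jo x = f ∧ SM F n T x := by
  rcases h with h | ⟨t', x, h1, h2, h3⟩
  · exact Or.inl h
  · right
    have : t' = T := by exact_mod_cast h1
    subst this
    exact ⟨x, h2, h3.SM⟩

/-- the number of polynomials of a given degree is bounded -/
theorem class_bound (hfin : ∀ n, (F n).Finite) (n : ℕ) : ∃ B : ℕ, ∀ T : ℕ,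
    ∃ S : Finset (RR Empty), S.card ≤ B ∧ ∀ f, PlR F n (T : ℤ) f → ∃ g ∈ S, Bd n (T : ℤ) (f + g) := by
  classical
  obtain ⟨B, hB⟩ := mono_bound hfin n
  refine ⟨2 ^ B, fun T => ?_⟩
  obtain ⟨S0, hS1, hS2⟩ := hB T
  let Λ : (S0 → ZMod 2) → RR Empty := fun c => ∑ g : S0, c g • g.1
  refine ⟨(univ : Finset (S0 → ZMod 2)).image Λ, ?_, ?_⟩
  · refine card_image_le.trans ?_
    rw [card_univ, Fintype.card_fun, Fintype.card_coe, ZMod.card]
    exact Nat.pow_le_pow_right (by norm_num) hS1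
  · intro f hf
    rcases hf.SM_or with rfl | ⟨x, rfl, hx⟩
    · refine ⟨Λ 0, mem_image_of_mem _ (mem_univ _), ?_⟩
      have : Λ 0 = 0 := sum_eq_zero fun g _ => zero_smul _ _
      rw [this, add_zero]
      exact Bd.zero
    · clear hf
      induction hx with
      | bd z hz hB =>
        refine ⟨Λ 0, mem_image_of_mem _ (mem_univ _), ?_⟩
        have : Λ 0 = 0 := sum_eq_zero fun g _ => zero_smul _ _
        rw [this, add_zero]
        exact (Bd_iff hz).mp hB
      | mo z L hz =>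
        have h1 := hS2 z L hz
        refine ⟨Λ (Pi.single ⟨jo z, h1⟩ 1), mem_image_of_mem _ (mem_univ _), ?_⟩
        have : Λ (Pi.single ⟨jo z, h1⟩ 1) = jo z := by
          change ∑ g : S0, (Pi.single (M := fun _ => ZMod 2) ⟨jo z, h1⟩ 1 : S0 → ZMod 2) g • g.1 = _
          rw [sum_eq_single ⟨jo z, h1⟩]
          · rw [Pi.single_eq_same, one_smul]
          · intro g _ hg
            rw [Pi.single_eq_of_ne hg, zero_smul]
          · intro h
            exact absurd (mem_univ _) h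
        rw [this, p2_add_self]
        exact Bd.zero
      | add x y _ _ ih1 ih2 =>
        obtain ⟨g1, hg1, hb1⟩ := ih1
        obtain ⟨g2, hg2, hb2⟩ := ih2
        obtain ⟨c1, _, rfl⟩ := mem_image.mp hg1
        obtain ⟨c2, _, rfl⟩ := mem_image.mp hg2
        refine ⟨Λ (c1 + c2), mem_image_of_mem _ (mem_univ _), ?_⟩
        have : Λ (c1 + c2) = Λ c1 + Λ c2 := by
          change ∑ g : S0, (c1 + c2) g • g.1 = ∑ g : S0, c1 g • g.1 + ∑ g : S0, c2 g • g.1
          rw [← sum_add_distrib]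
          exact sum_congr rfl fun g _ => by rw [Pi.add_apply, add_smul]
        rw [this, jo_add]
        refine Eq.mp (congrArg _ ?_) (hb1.add hb2)
        ring

theorem PlR.mono_or {n T : ℕ} {f : RR Empty} (h : PlR F n (T : ℤ) f) :
    (∃ (z : Cob n) (L : List (ℕ × ℕ)), Mo F n T z L) ∨ Bd n (T : ℤ) f := by
  rcases h.SM_or with rfl | ⟨x, rfl, hx⟩
  · exact Or.inr Bd.zero
  · clear h
    induction hx with
    | bd z hz hB => exact Or.inr ((Bd_iff hz).mp hB)
    | mo z L hz => exact Or.inl ⟨z, L, hz⟩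
    | add x y _ _ ih1 ih2 =>
      rcases ih1 with h | h
      · exact Or.inl h
      rcases ih2 with h' | h'
      · exact Or.inl h'
      right
      rw [jo_add]
      exact h.add h'

/-- monomials in `Sq¹`-closed cocycles have few factors -/
theorem Mo.len_lt (hF : ∀ n, ∀ f ∈ F n, cl (Sq1 n f) = 0) {n t : ℕ} {z : Cob n}
    {L : List (ℕ × ℕ)} (h : Mo F n t z L) : L.length < n := by
  induction h with
  | mem n t k f h1 h2 h3 h4 =>
    cases n with
    | zero =>
      exfalso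
      exact h4 (line_one_nil h3 f h2 ⟨0, hF 1 f h1⟩)
    | succ n => simp
  | mul p q t u x y L L' _ _ ih1 ih2 => rw [List.length_append]; omega

end lists

end Pool.Agent.H59K
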