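import Pool.Agent.H59K.MD

/-!
# Almost all families
-/

set_option autoImplicit false
set_option linter.unusedSectionVars false

namespace Pool.Agent.H59K

open Finset
open Pool.Agent.W624.NS
open Pool.Agent.W624.Stz (dd kun cut TT RR IW Vr p2_add_self)

section exc

theorem shift_sum (c : ℕ) (L : List (ℕ × ℕ)) :
    ((L.map fun p => (p.1 + c, p.2)).map fun p => 2 ^ p.1 * p.2).sum
      = 2 ^ c * (L.map fun p => 2 ^ p.1 * p.2).sum := by
  induction L with
  | nil => simp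
  | cons p L ih =>
    rw [List.map_cons, List.map_cons, List.sum_cons, ih, List.map_cons, List.sum_cons, mul_add]
    congr 1
    change 2 ^ (p.1 + c) * p.2 = _
    rw [pow_add]; ring

theorem shift_mem {c D : ℕ} {L : List (ℕ × ℕ)} (h : ∀ p ∈ L, 0 < p.2 ∧ p.2 ≤ D) :
    ∀ p ∈ L.map (fun p => (p.1 + c, p.2)), 0 < p.2 ∧ p.2 ≤ D := by
  intro p hp
  obtain ⟨q, hq, rfl⟩ := List.mem_map.mp hp
  exact h q hq

theorem exc_deg (s : ℕ) : ∃ M D : ℕ, ∀ (t : ℕ) (x : Z (s + 1)), IsHom (s + 1) t x.1 →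
    ¬ Nil (cl x) → Nil (cl (Sq1 (s + 1) x)) → ∃ L : List (ℕ × ℕ), L.length ≤ s ∧
      (∀ p ∈ L, 0 < p.2 ∧ p.2 ≤ D) ∧ (L.map fun p => 2 ^ p.1 * p.2).sum = 2 ^ M * t := by
  obtain ⟨A, F, h1, h2, h3, h4, h5, h6⟩ := gen_b
  obtain ⟨J, hJ⟩ := uni_EvT h2 s
  obtain ⟨DF, hDF⟩ := exists_D h2 (s + 1)
  obtain ⟨DA, hDA⟩ := exists_D h1 s
  have hI : ∃ I : ℕ, ∀ s', s = s' + 1 → ∀ (t : ℕ) (x : Z (s' + 1)), IsHom (s' + 1) t x.1 →
      EvP A (s' + 1) (t : ℤ) (jo x.1) →
      PlR A (s' + 1) (2 ^ I * (t : ℤ)) (jo x.1 ^ 2 ^ I) := by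
    cases s with
    | zero => exact ⟨0, fun s' h => by omega⟩
    | succ s' =>
      obtain ⟨I, hI⟩ := uni_EvP h1 s'
      refine ⟨I, fun s'' h => ?_⟩
      obtain rfl : s' = s'' := by omega
      exact fun t x hx h => hI t x hx h I le_rfl
  obtain ⟨I, hI⟩ := hI
  refine ⟨I + J, DA + DF, fun t x hx hn hq => ?_⟩
  have hT := hJ t x hx ((h6 s t x hx).mp hq) J le_rfl
  obtain ⟨u, v, z, e0, hv, hz, hB⟩ := hT
  have ht : 0 < t := by
    rcases Nat.eq_zero_or_pos t with h | h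
    · exfalso
      apply hn
      rw [cl_deg0 s x (by rw [h] at hx; exact hx)]
      exact nil_zero _
    · exact h
  have hz' : PlR F (s + 1) ((2 ^ J * t : ℕ) : ℤ) z := by push_cast; exact hz
  rcases hz'.mono_or with ⟨z', L, hL⟩ | hzB
  · refine ⟨L.map fun p => (p.1 + I, p.2), ?_, shift_mem fun p hp => ?_, ?_⟩
    · rw [List.length_map]
      have := hL.len_lt (fun n f hf => (h4 n f hf).2)
      omega
    · have := hL.bound hDF le_rfl p hp
      omega
    · rw [shift_sum, hL.sum, pow_add, mul_assoc]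
  · push_cast at hzB
    have hB' : Bd (s + 1) (2 ^ J * (t : ℤ)) (jo x.1 ^ 2 ^ J + cupR s v) := by
      have := hB.add hzB
      refine Eq.mp (congrArg _ ?_) this
      linear_combination z * two_RR
    cases s with
    | zero =>
      exfalso
      apply hn
      rw [Nil_iff x hx]
      refine ⟨J, ?_⟩
      have hu : u ≠ 0 := by
        rintro rfl
        have : (2 : ℤ) ^ J * (t : ℤ) ≠ 0 := by positivity
        exact this (by rw [e0]; ring)
      rw [HC_level0 hu hv, cupR_zero, add_zero] at hB'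
      exact hB'
    | succ s' =>
      have hu0 : 0 ≤ u := by
        have : (0 : ℤ) ≤ 2 ^ J * (t : ℤ) := by positivity
        omega
      obtain ⟨u', rfl⟩ := Int.eq_ofNat_of_zero_le hu0
      obtain ⟨v', rfl, hv'⟩ := exists_Z hv
      have hP := hI s' rfl u' v' hv' (h5 s' u' v' hv')
      have hP' : PlR A (s' + 1) ((2 ^ I * u' : ℕ) : ℤ) (jo v'.1 ^ 2 ^ I) := by
        push_cast; exact hP
      have e0' : 2 ^ J * t = 2 * u' := by exact_mod_cast e0
      rcases hP'.mono_or with ⟨z', L, hL⟩ | hvB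
      · refine ⟨L.map fun p => (p.1 + 1, p.2), ?_, shift_mem fun p hp => ?_, ?_⟩
        · rw [List.length_map]
          exact hL.len
        · have := hL.bound hDA le_rfl p hp
          omega
        · rw [shift_sum, hL.sum, pow_add, mul_assoc, e0']
          ring
      · exfalso
        apply hn
        rw [Nil_iff x hx]
        refine ⟨J + I, ?_⟩
        have h7 := Bd_cup hvB
        rw [cupR_pow] at h7
        have h8 := hB'.pow_add I
        rw [← pow_mul, ← pow_add] at h8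
        have e1 : (2 : ℤ) * ((2 ^ I * u' : ℕ) : ℤ) = 2 ^ I * (2 ^ J * (t : ℤ)) := by
          rw [e0]; push_cast; ring
        rw [e1] at h7
        have h9 := h8.add h7
        have e2 : (2 : ℤ) ^ (J + I) * (t : ℤ) = 2 ^ I * (2 ^ J * (t : ℤ)) := by
          rw [pow_add]; ring
        rw [e2]
        refine Eq.mp (congrArg _ ?_) h9
        linear_combination (cupR (s' + 1) (jo v'.1)) ^ 2 ^ I * two_RR

/-- the number of families of one degree is bounded -/
theorem fam_bound (s : ℕ) : ∃ J0 : ℕ, ∀ J, J0 ≤ J → ∃ B : ℕ, ∀ t : ℕ,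
    ({y : Ext (s + 1) | ∃ x : Z (s + 1), IsHom (s + 1) t x.1 ∧ (Sq0 (s + 1))^[J] (cl x) = y}).Finite ∧
    ({y : Ext (s + 1) | ∃ x : Z (s + 1), IsHom (s + 1) t x.1 ∧
      (Sq0 (s + 1))^[J] (cl x) = y}).ncard ≤ B := by
  classical
  obtain ⟨A, F, h1, h2, h3, h4, h5, h6⟩ := gen_b
  obtain ⟨J0, hJ0⟩ := uni_EvP h1 s
  refine ⟨J0, fun J hJ => ?_⟩
  obtain ⟨B, hB⟩ := class_bound h1 (s + 1)
  refine ⟨B, fun t => ⟨?_, ?_⟩⟩
  · have h := (finite_cocycles (s + 1) t).image (fun x => (Sq0 (s + 1))^[J] (cl x))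
    refine h.subset ?_
    rintro y ⟨x, hx, rfl⟩
    exact ⟨x, hx, rfl⟩
  · obtain ⟨S, hS1, hS2⟩ := hB (2 ^ J * t)
    have hg : ∀ y : Ext (s + 1), ∃ g : RR Empty,
        (∃ x : Z (s + 1), IsHom (s + 1) t x.1 ∧ (Sq0 (s + 1))^[J] (cl x) = y) →
        g ∈ S ∧ ∃ x : Z (s + 1), IsHom (s + 1) t x.1 ∧ (Sq0 (s + 1))^[J] (cl x) = y ∧
          Bd (s + 1) ((2 ^ J * t : ℕ) : ℤ) (jo x.1 ^ 2 ^ J + g) := by
      intro y
      by_cases hy : ∃ x : Z (s + 1), IsHom (s + 1) t x.1 ∧ (Sq0 (s + 1))^[J] (cl x) = y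
      · obtain ⟨x, hx, hxy⟩ := hy
        have hP := hJ0 t x hx (h5 s t x hx) J hJ
        obtain ⟨g, hg1, hg2⟩ := hS2 (jo x.1 ^ 2 ^ J) (by push_cast; exact hP)
        exact ⟨g, fun _ => ⟨hg1, x, hx, hxy, hg2⟩⟩
      · exact ⟨0, fun h => absurd h hy⟩
    choose g hg using hg
    refine le_trans ?_ hS1
    rw [← Set.ncard_coe_finset]
    refine Set.ncard_le_ncard_of_injOn g (fun y hy => (hg y hy).1) ?_ S.finite_toSet
    intro y hy y' hy' hgg
    obtain ⟨_, x, hx, hxy, hb⟩ := hg y hy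
    obtain ⟨_, x', hx', hxy', hb'⟩ := hg y' hy'
    rw [← hgg] at hb'
    rw [← hxy, ← hxy', Sq0_iter, Sq0_iter, cl_eq_iff_Bd (isHom_iter x hx J) (isHom_iter x' hx' J),
      jo_sq_iter, jo_sq_iter]
    have := hb.add hb'
    refine Eq.mp (congrArg _ ?_) this
    linear_combination (g y) * two_RR

end exc

end Pool.Agent.H59K
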