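import Pool.Agent.H59K.ME
import Pool.Agent.H59K.KDefs4

/-!
# Almost all families: the bounds
-/

set_option autoImplicit false
set_option linter.unusedSectionVars false

namespace Pool.Agent.H59K

open Finset
open Pool.Agent.W624.NS
open Pool.Agent.W624.Stz (dd kun cut TT RR IW Vr p2_add_self)

section low

theorem isHom_mon' (n : ℕ) (i : ℕ → ℕ) :
    IsHom (n + 1) (∑ k ∈ range (n + 1), 2 ^ i k) (mon n i).1 := by
  induction n with
  | zero =>
    rw [sum_range_one]
    exact isHom_hZ _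
  | succ n ih =>
    rw [sum_range_succ]
    exact isHom_mul ih (isHom_hZ _)

/-- the exponents of a monomial -/
def exs (s M' : ℕ) (a : ℕ → ℕ) (k : ℕ) : ℕ := (s - k) * M' + a (s - k)

theorem sum_exs (s M' : ℕ) (a : ℕ → ℕ) :
    ∑ k ∈ range (s + 1), 2 ^ exs s M' a k = blk M' a (s + 1) := by
  have h := sum_range_reflect (fun l => 2 ^ (l * M' + a l)) (s + 1)
  rw [Nat.add_sub_cancel] at h
  exact h

theorem gap_exs {s M A : ℕ} {a : ℕ → ℕ} (ha : ∀ l < s + 1, a l < M) :
    ∀ k < s, exs s (M + A) a (k + 1) + A ≤ exs s (M + A) a k := by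
  intro k hk
  obtain ⟨c, hc⟩ : ∃ c, s - k = c + 1 := ⟨s - k - 1, by omega⟩
  have hc' : s - (k + 1) = c := by omega
  rw [exs, exs, hc, hc']
  have := ha c (by omega)
  rw [add_mul, one_mul]
  omega

/-- many families -/
theorem many_fam (s : ℕ) : ∃ A : ℕ, ∀ J M X : ℕ, 2 ^ ((s + 1) * (M + A)) ≤ X →
    (Fam (s + 1) J X).Finite → M ^ (s + 1) ≤ (Fam (s + 1) J X).ncard := by
  classical
  obtain ⟨A, hA⟩ := mon_not_nil s
  refine ⟨A, fun J M X hX hfin => ?_⟩
  let ext : (Fin (s + 1) → Fin M) → ℕ → ℕ := fun a l => if h : l < s + 1 then (a ⟨l, h⟩ : ℕ) else 0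
  have hext : ∀ a, ∀ l < s + 1, ext a l < M := by
    intro a l hl
    simp only [ext, dif_pos hl]
    exact (a ⟨l, hl⟩).2
  let Y : (Fin (s + 1) → Fin M) → Ext (s + 1) := fun a =>
    (Sq0 (s + 1))^[J] (cl (mon s (exs s (M + A) (ext a))))
  have hhom : ∀ a, IsHom (s + 1) (blk (M + A) (ext a) (s + 1)) (mon s (exs s (M + A) (ext a))).1 := by
    intro a
    rw [← sum_exs]
    exact isHom_mon' _ _
  have hnn : ∀ a, ¬ Nil (cl (mon s (exs s (M + A) (ext a)))) := fun a =>
    (hA _ (gap_exs (hext a))).1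
  have hnY : ∀ a, ¬ Nil (Y a) := by
    intro a h
    refine hnn a ?_
    change Nil ((Sq0 (s + 1))^[J] (cl _)) at h
    rw [Sq0_iter, nil_sq_iter] at h
    exact h
  have hmem : ∀ a, Y a ∈ Fam (s + 1) J X := by
    intro a
    refine ⟨hnY a, blk (M + A) (ext a) (s + 1), _, ?_, hhom a, rfl⟩
    have := blk_lt (M := M + A) (s + 1) (ext a) fun l hl => by
      have := hext a l hl
      omega
    omega
  have hinj : Function.Injective Y := by
    intro a b hab
    by_cases hd : blk (M + A) (ext a) (s + 1) = blk (M + A) (ext b) (s + 1)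
    · have h1 := blk_inj (M := M + A) (s + 1) (ext a) (ext b)
        (fun l hl => by have := hext a l hl; omega) (fun l hl => by have := hext b l hl; omega) hd
      funext l
      apply Fin.ext
      have h2 := h1 l.1 l.2
      simp only [ext, dif_pos l.2] at h2
      exact h2
    · exfalso
      have ha := isHom_iter _ (hhom a) J
      have hb := isHom_iter _ (hhom b) J
      have hne : 2 ^ J * blk (M + A) (ext a) (s + 1) ≠ 2 ^ J * blk (M + A) (ext b) (s + 1) :=
        fun h => hd (Nat.eq_of_mul_eq_mul_left (by positivity) h)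
      have hab' : (Sq0 (s + 1))^[J] (cl (mon s (exs s (M + A) (ext a))))
          = (Sq0 (s + 1))^[J] (cl (mon s (exs s (M + A) (ext b)))) := hab
      rw [Sq0_iter, Sq0_iter] at hab'
      have h1 := isB_of_ne ha hb hne ((cl_eq_iff _ _).mp hab')
      have h2 : cl ((sqZ (s + 1))^[J] (mon s (exs s (M + A) (ext a)))) = 0 :=
        cl_eq_zero.mpr (isB_of_Bd ha h1)
      apply hnn a
      refine ⟨J, ?_⟩
      rw [Sq0_iter]
      exact h2
  have hcard : ((univ : Finset (Fin (s + 1) → Fin M)).image Y).card = M ^ (s + 1) := by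
    rw [card_image_of_injective _ hinj, card_univ, Fintype.card_fun, Fintype.card_fin,
      Fintype.card_fin]
  rw [← hcard, ← Set.ncard_coe_finset]
  refine Set.ncard_le_ncard ?_ hfin
  intro y hy
  rw [coe_image, coe_univ, Set.image_univ] at hy
  obtain ⟨a, rfl⟩ := hy
  exact hmem a

end low

section up

theorem Fam_finite (s J X : ℕ) : (Fam s J X).Finite := by
  have h : (⋃ t ∈ Set.Iic X, (fun x : Z s => (Sq0 s)^[J] (cl x)) '' {x : Z s | IsHom s t x.1}).Finite :=
    (Set.finite_Iic X).biUnion fun t _ => (finite_cocycles s t).image _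
  refine h.subset ?_
  rintro y ⟨_, t, x, ht, hx, rfl⟩
  exact Set.mem_biUnion (show t ∈ Set.Iic X from ht) ⟨x, hx, rfl⟩

/-- the exceptional families -/
def Exc' (s J X : ℕ) : Set (Ext s) :=
  {y | y ∈ Fam s J X ∧ ∃ d₂ : (n : ℕ) → Ext n → Ext (n + 2), Bruner d₂ ∧
    ∃ j, d₂ s ((Sq0 s)^[j] y) = 0}

/-- few exceptional families -/
theorem few_exc (s : ℕ) : ∃ J0 : ℕ, ∀ J, J0 ≤ J → ∃ M D B : ℕ, ∀ X : ℕ,
    (Exc' (s + 1) J X).ncard ≤ B * ((M + Nat.log 2 X + 1) * (D + 1)) ^ s := by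
  classical
  obtain ⟨J1, hJ1⟩ := fam_bound s
  obtain ⟨J2, hJ2⟩ := d2_crit (s + 1)
  obtain ⟨M, D, hMD⟩ := exc_deg s
  refine ⟨J1 + J2, fun J hJ => ?_⟩
  obtain ⟨B, hB⟩ := hJ1 J (by omega)
  refine ⟨M, D, B, fun X => ?_⟩
  set K := M + Nat.log 2 X with hK
  let cls : ℕ → Set (Ext (s + 1)) := fun t =>
    {y : Ext (s + 1) | ∃ x : Z (s + 1), IsHom (s + 1) t x.1 ∧ (Sq0 (s + 1))^[J] (cl x) = y}
  let E := (FS K D s).image (fun T => T / 2 ^ M)
  have hsub : Exc' (s + 1) J X ⊆ ⋃ t ∈ E, cls t := by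
    rintro y ⟨⟨hny, t, x, htX, hx, hxy⟩, d₂, hd, j, hj⟩
    have hn : ¬ Nil (cl x) := by
      intro h
      apply hny
      rw [← hxy, Sq0_iter, nil_sq_iter]
      exact h
    have hq : Nil (cl (Sq1 (s + 1) x)) := by
      rw [← hxy, ← Function.iterate_add_apply] at hj
      exact (hJ2 d₂ hd t x hx (j + J) (by omega)).mp hj
    obtain ⟨L, hL1, hL2, hL3⟩ := hMD t x hx hn hq
    have hX0 : X ≠ 0 := by
      rintro rfl
      obtain rfl : t = 0 := by omega
      apply hn
      rw [cl_deg0 s x hx]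
      exact nil_zero _
    have hlt : 2 ^ M * t < 2 ^ (K + 1) := by
      have h1 : X < 2 ^ (Nat.log 2 X + 1) := Nat.lt_pow_succ_log_self (by norm_num) X
      rw [hK, add_assoc, pow_add]
      exact Nat.mul_lt_mul_of_pos_left (by omega) (by positivity)
    have h2 := mem_FS (K := K) s L hL1 hL2 (by rw [hL3]; exact hlt)
    rw [hL3] at h2
    have h3 : t ∈ E := by
      refine mem_image.mpr ⟨2 ^ M * t, h2, ?_⟩
      exact Nat.mul_div_cancel_left _ (by positivity)
    exact Set.mem_biUnion h3 ⟨x, hx, hxy⟩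
  have hfin : (⋃ t ∈ E, cls t).Finite := E.finite_toSet.biUnion fun t _ => (hB t).1
  refine (Set.ncard_le_ncard hsub hfin).trans ?_
  have h4 : (⋃ t ∈ E, cls t).ncard ≤ ∑ t ∈ E, (cls t).ncard := by
    have : ∀ E' : Finset ℕ, (⋃ t ∈ E', cls t).ncard ≤ ∑ t ∈ E', (cls t).ncard := by
      intro E'
      induction E' using Finset.induction_on with
      | empty => simp
      | insert a E' ha ih =>
        rw [sum_insert ha, Finset.set_biUnion_insert]
        exact (Set.ncard_union_le _ _).trans (Nat.add_le_add_left ih _)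
    exact this E
  refine h4.trans ?_
  refine (sum_le_card_nsmul _ _ B fun t _ => (hB t).2).trans ?_
  rw [smul_eq_mul, mul_comm]
  refine Nat.mul_le_mul_left _ ?_
  exact card_image_le.trans (FS_card K D s)

end up

end Pool.Agent.H59K
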