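import Pool.Agent.H59K.MF

/-!
# Almost all families: two-sided bounds
-/

set_option autoImplicit false
set_option linter.unusedSectionVars false

namespace Pool.Agent.H59K

open Finset
open Pool.Agent.W624.NS
open Pool.Agent.W624.Stz (dd kun cut TT RR IW Vr p2_add_self)

section deg

/-- degrees of non-nilpotent classes -/
theorem all_deg (s : ℕ) : ∃ M D : ℕ, ∀ (t : ℕ) (x : Z (s + 1)), IsHom (s + 1) t x.1 →
    ¬ Nil (cl x) → ∃ L : List (ℕ × ℕ), L.length ≤ s + 1 ∧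
      (∀ p ∈ L, 0 < p.2 ∧ p.2 ≤ D) ∧ (L.map fun p => 2 ^ p.1 * p.2).sum = 2 ^ M * t := by
  obtain ⟨A, F, h1, h2, h3, h4, h5, h6⟩ := gen_b
  obtain ⟨I, hI⟩ := uni_EvP h1 s
  obtain ⟨D, hD⟩ := exists_D h1 (s + 1)
  refine ⟨I, D, fun t x hx hn => ?_⟩
  have hP := hI t x hx (h5 s t x hx) I le_rfl
  have hP' : PlR A (s + 1) ((2 ^ I * t : ℕ) : ℤ) (jo x.1 ^ 2 ^ I) := by push_cast; exact hP
  rcases hP'.mono_or with ⟨z', L, hL⟩ | hB
  · exact ⟨L, hL.len, hL.bound hD le_rfl, hL.sum⟩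
  · exfalso
    apply hn
    rw [Nil_iff x hx]
    refine ⟨I, ?_⟩
    push_cast at hB
    exact hB

end deg

section up

/-- the families with nilpotent `Sq¹` -/
def ExcN (s J X : ℕ) : Set (Ext s) :=
  {y | ¬ Nil y ∧ ∃ (t : ℕ) (x : Z s), t ≤ X ∧ IsHom s t x.1 ∧ Nil (cl (Sq1 s x)) ∧
    (Sq0 s)^[J] (cl x) = y}

theorem ExcN_sub (s J X : ℕ) : ExcN s J X ⊆ Fam s J X := by
  rintro y ⟨h1, t, x, h2, h3, _, h4⟩
  exact ⟨h1, t, x, h2, h3, h4⟩

/-- counting with degrees -/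
theorem count_gen {s n J M D B : ℕ} {P : Z (s + 1) → Prop}
    (hB : ∀ t : ℕ, ({y : Ext (s + 1) | ∃ x : Z (s + 1), IsHom (s + 1) t x.1 ∧
        (Sq0 (s + 1))^[J] (cl x) = y}).Finite ∧
      ({y : Ext (s + 1) | ∃ x : Z (s + 1), IsHom (s + 1) t x.1 ∧
        (Sq0 (s + 1))^[J] (cl x) = y}).ncard ≤ B)
    (hMD : ∀ (t : ℕ) (x : Z (s + 1)), IsHom (s + 1) t x.1 → ¬ Nil (cl x) → P x →
      ∃ L : List (ℕ × ℕ), L.length ≤ n ∧ (∀ p ∈ L, 0 < p.2 ∧ p.2 ≤ D) ∧
        (L.map fun p => 2 ^ p.1 * p.2).sum = 2 ^ M * t) (X : ℕ) :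
    {y : Ext (s + 1) | ¬ Nil y ∧ ∃ (t : ℕ) (x : Z (s + 1)), t ≤ X ∧ IsHom (s + 1) t x.1 ∧ P x ∧
      (Sq0 (s + 1))^[J] (cl x) = y}.ncard ≤ B * ((M + Nat.log 2 X + 1) * (D + 1)) ^ n := by
  classical
  set K := M + Nat.log 2 X with hK
  let cls : ℕ → Set (Ext (s + 1)) := fun t =>
    {y : Ext (s + 1) | ∃ x : Z (s + 1), IsHom (s + 1) t x.1 ∧ (Sq0 (s + 1))^[J] (cl x) = y}
  let E := (FS K D n).image (fun T => T / 2 ^ M)
  have hsub : {y : Ext (s + 1) | ¬ Nil y ∧ ∃ (t : ℕ) (x : Z (s + 1)), t ≤ X ∧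
      IsHom (s + 1) t x.1 ∧ P x ∧ (Sq0 (s + 1))^[J] (cl x) = y} ⊆ ⋃ t ∈ E, cls t := by
    rintro y ⟨hny, t, x, htX, hx, hP, hxy⟩
    have hn : ¬ Nil (cl x) := by
      intro h
      apply hny
      rw [← hxy, Sq0_iter, nil_sq_iter]
      exact h
    obtain ⟨L, hL1, hL2, hL3⟩ := hMD t x hx hn hP
    have hX0 : X ≠ 0 := by
      rintro rfl
      obtain rfl : t = 0 := by omega
      apply hn
      rw [cl_deg0 s x hx]
      exact nil_zero _
    have hlt : 2 ^ M * t < 2 ^ (K + 1) := by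
      have h1 : X < 2 ^ (Nat.log 2 X + 1) := Nat.lt_pow_succ_log_self (by norm_num) X
      rw [hK, add_assoc, pow_add]
      exact Nat.mul_lt_mul_of_pos_left (by omega) (by positivity)
    have h2 := mem_FS (K := K) n L hL1 hL2 (by rw [hL3]; exact hlt)
    rw [hL3] at h2
    have h3 : t ∈ E := by
      refine mem_image.mpr ⟨2 ^ M * t, h2, ?_⟩
      exact Nat.mul_div_cancel_left _ (by positivity)
    exact Set.mem_biUnion h3 ⟨x, hx, hxy⟩
  have hfin : (⋃ t ∈ E, cls t).Finite := E.finite_toSet.biUnion fun t _ => (hB t).1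
  refine (Set.ncard_le_ncard hsub hfin).trans ?_
  have h4 : (⋃ t ∈ E, cls t).ncard ≤ ∑ t ∈ E, (cls t).ncard := by
    have : ∀ E' : Finset ℕ, (⋃ t ∈ E', cls t).ncard ≤ ∑ t ∈ E', (cls t).ncard := by
      intro E'
      induction E' using Finset.induction_on with
      | empty => simp
      | insert a E' ha ih =>
        rw [sum_insert ha, Finset.set_biUnion_insert]
        exact (Set.ncard_union_le _ _).trans (Nat.add_le_add_left ih _)
    exact this E
  refine h4.trans ?_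
  refine (sum_le_card_nsmul _ _ B fun t _ => (hB t).2).trans ?_
  rw [smul_eq_mul, mul_comm]
  refine Nat.mul_le_mul_left _ ?_
  exact card_image_le.trans (FS_card K D n)

/-- upper bounds -/
theorem upper (s : ℕ) : ∃ J0 : ℕ, ∀ J, J0 ≤ J → ∃ M D B : ℕ, ∀ X : ℕ,
    (Fam (s + 1) J X).ncard ≤ B * ((M + Nat.log 2 X + 1) * (D + 1)) ^ (s + 1) ∧
    (ExcN (s + 1) J X).ncard ≤ B * ((M + Nat.log 2 X + 1) * (D + 1)) ^ s := by
  obtain ⟨J1, hJ1⟩ := fam_bound s
  obtain ⟨M, D, hMD⟩ := exc_deg s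
  obtain ⟨M', D', hMD'⟩ := all_deg s
  refine ⟨J1, fun J hJ => ?_⟩
  obtain ⟨B, hB⟩ := hJ1 J hJ
  have mono : ∀ (a b c d n X : ℕ), a ≤ b → c ≤ d →
      B * ((a + Nat.log 2 X + 1) * (c + 1)) ^ n ≤ B * ((b + Nat.log 2 X + 1) * (d + 1)) ^ n := by
    intro a b c d n X hab hcd
    exact Nat.mul_le_mul_left _ (Nat.pow_le_pow_left (Nat.mul_le_mul (by omega) (by omega)) _)
  refine ⟨M + M', D + D', B, fun X => ⟨?_, ?_⟩⟩
  · have h := count_gen (P := fun _ => True) hB (fun t x hx hn _ => hMD' t x hx hn) X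
    refine le_trans (le_of_eq ?_) (h.trans (mono _ _ _ _ _ _ (by omega) (by omega)))
    congr 1
    ext y
    simp [Fam]
  · have h := count_gen (P := fun x => Nil (cl (Sq1 (s + 1) x))) hB
      (fun t x hx hn hq => hMD t x hx hn hq) X
    exact h.trans (mono _ _ _ _ _ _ (by omega) (by omega))

/-- many exceptional families -/
theorem many_exc (s : ℕ) : ∃ A : ℕ, ∀ J M X : ℕ, 2 ^ ((s + 1) * (M + A) + 1) ≤ X →
    M ^ (s + 1) ≤ (ExcN (s + 2) J X).ncard := by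
  classical
  obtain ⟨A, hA⟩ := mon_not_nil s
  refine ⟨A, fun J M X hX => ?_⟩
  let ext : (Fin (s + 1) → Fin M) → ℕ → ℕ := fun a l => if h : l < s + 1 then (a ⟨l, h⟩ : ℕ) else 0
  have hext : ∀ a, ∀ l < s + 1, ext a l < M := by
    intro a l hl
    simp only [ext, dif_pos hl]
    exact (a ⟨l, hl⟩).2
  let v : (Fin (s + 1) → Fin M) → Z (s + 2) := fun a =>
    Sq1 (s + 1) (mon s (exs s (M + A) (ext a)))
  let Y : (Fin (s + 1) → Fin M) → Ext (s + 2) := fun a => (Sq0 (s + 2))^[J] (cl (v a))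
  have hhom0 : ∀ a, IsHom (s + 1) (blk (M + A) (ext a) (s + 1))
      (mon s (exs s (M + A) (ext a))).1 := by
    intro a
    rw [← sum_exs]
    exact isHom_mon' _ _
  have hhom : ∀ a, IsHom (s + 2) (2 * blk (M + A) (ext a) (s + 1)) (v a).1 := fun a =>
    isHom_sq1 _ (hhom0 a)
  have hnn : ∀ a, ¬ Nil (cl (v a)) := fun a => (hA _ (gap_exs (hext a))).2
  have hq : ∀ a, Nil (cl (Sq1 (s + 2) (v a))) := by
    intro a
    rw [Nil_sq1_iff _ (hhom a)]
    refine ⟨0, ?_⟩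
    have h1 := Bd_cup_cup (HC_jo _ (hhom0 a))
    rw [pow_zero, one_mul, pow_zero, pow_one]
    change Bd _ _ (cupR (s + 2) (jo (Sq1 (s + 1) (mon s (exs s (M + A) (ext a)))).1))
    rw [jo_Sq1]
    push_cast
    exact h1
  have hnY : ∀ a, ¬ Nil (Y a) := by
    intro a h
    refine hnn a ?_
    change Nil ((Sq0 (s + 2))^[J] (cl _)) at h
    rw [Sq0_iter, nil_sq_iter] at h
    exact h
  have hmem : ∀ a, Y a ∈ ExcN (s + 2) J X := by
    intro a
    refine ⟨hnY a, 2 * blk (M + A) (ext a) (s + 1), v a, ?_, hhom a, hq a, rfl⟩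
    have := blk_lt (M := M + A) (s + 1) (ext a) fun l hl => by
      have := hext a l hl
      omega
    rw [pow_succ] at hX
    omega
  have hinj : Function.Injective Y := by
    intro a b hab
    by_cases hd : blk (M + A) (ext a) (s + 1) = blk (M + A) (ext b) (s + 1)
    · have h1 := blk_inj (M := M + A) (s + 1) (ext a) (ext b)
        (fun l hl => by have := hext a l hl; omega) (fun l hl => by have := hext b l hl; omega) hd
      funext l
      apply Fin.ext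
      have h2 := h1 l.1 l.2
      simp only [ext, dif_pos l.2] at h2
      exact h2
    · exfalso
      have ha := isHom_iter _ (hhom a) J
      have hb := isHom_iter _ (hhom b) J
      have hne : 2 ^ J * (2 * blk (M + A) (ext a) (s + 1))
          ≠ 2 ^ J * (2 * blk (M + A) (ext b) (s + 1)) :=
        fun h => hd (by
          have := Nat.eq_of_mul_eq_mul_left (show 0 < 2 ^ J by positivity) h
          omega)
      have hab' : (Sq0 (s + 2))^[J] (cl (v a)) = (Sq0 (s + 2))^[J] (cl (v b)) := hab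
      rw [Sq0_iter, Sq0_iter] at hab'
      have h1 := isB_of_ne ha hb hne ((cl_eq_iff _ _).mp hab')
      have h2 : cl ((sqZ (s + 2))^[J] (v a)) = 0 := cl_eq_zero.mpr (isB_of_Bd ha h1)
      apply hnn a
      refine ⟨J, ?_⟩
      rw [Sq0_iter]
      exact h2
  have hcard : ((univ : Finset (Fin (s + 1) → Fin M)).image Y).card = M ^ (s + 1) := by
    rw [card_image_of_injective _ hinj, card_univ, Fintype.card_fun, Fintype.card_fin,
      Fintype.card_fin]
  rw [← hcard, ← Set.ncard_coe_finset]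
  refine Set.ncard_le_ncard ?_ ((Fam_finite _ _ _).subset (ExcN_sub _ _ _))
  intro y hy
  rw [coe_image, coe_univ, Set.image_univ] at hy
  obtain ⟨a, rfl⟩ := hy
  exact hmem a

/-- the exceptional families are those of the `d₂`-cycles -/
theorem exc_iff (s : ℕ) : ∃ J0 : ℕ, ∀ J, J0 ≤ J → ∀ X : ℕ,
    ∀ d₂ : (n : ℕ) → Ext n → Ext (n + 2), Bruner d₂ → ∀ y ∈ Fam s J X, ∀ j,
      (d₂ s ((Sq0 s)^[j] y) = 0 ↔ y ∈ ExcN s J X) := by
  obtain ⟨J0, hJ0⟩ := d2_crit s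
  refine ⟨J0, fun J hJ X d₂ hd y hy j => ?_⟩
  constructor
  · intro h
    obtain ⟨hny, t, x, htX, hx, hxy⟩ := hy
    rw [← hxy, ← Function.iterate_add_apply] at h
    exact ⟨hny, t, x, htX, hx, (hJ0 d₂ hd t x hx (j + J) (by omega)).mp h, hxy⟩
  · rintro ⟨hny, t, x, htX, hx, hq, hxy⟩
    rw [← hxy, ← Function.iterate_add_apply]
    exact (hJ0 d₂ hd t x hx (j + J) (by omega)).mpr hq

end up

end Pool.Agent.H59K
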