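import Pool.Agent.H59K.MH

/-!
# Almost all families: the theorem
-/

set_option autoImplicit false
set_option linter.unusedSectionVars false

namespace Pool.Agent.H59K

open Finset
open Pool.Agent.W624.NS

theorem low_real (n A : ℕ) (hn : 0 < n) : ∃ X₀ : ℕ, ∀ X : ℕ, X₀ ≤ X →
    ∃ M : ℕ, 2 ^ (n * (M + A) + 1) ≤ X ∧ 1 / (2 * (n : ℝ)) * Real.log X ≤ M := by
  refine ⟨⌈Real.exp (2 * n * (2 + A))⌉₊, fun X hX => ?_⟩
  have hn' : (1 : ℝ) ≤ n := by exact_mod_cast hn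
  have hA0 : (0 : ℝ) ≤ (A : ℝ) := Nat.cast_nonneg A
  have hXe : Real.exp (2 * n * (2 + A)) ≤ X := (Nat.le_ceil _).trans (by exact_mod_cast hX)
  have hX1 : (1 : ℝ) ≤ X := by
    refine le_trans ?_ hXe
    rw [Real.one_le_exp_iff]
    positivity
  have hX0 : X ≠ 0 := by
    rintro rfl
    norm_num at hX1
  have hlog : (2 * n * (2 + A) : ℝ) ≤ Real.log X := by
    rw [Real.le_log_iff_exp_le (by linarith)]
    exact hXe
  have hl2' : Real.log 2 ≤ 1 := by linarith [Real.log_two_lt_d9]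
  set N := Nat.log 2 X with hN
  have hup : Real.log X ≤ (N + 1 : ℝ) := by
    have h1 : X < 2 ^ (N + 1) := Nat.lt_pow_succ_log_self (by norm_num) X
    have h2 : (X : ℝ) ≤ (2 : ℝ) ^ (N + 1) := by exact_mod_cast h1.le
    have h3 := Real.log_le_log (by linarith) h2
    rw [Real.log_pow] at h3
    push_cast at h3
    nlinarith
  have hN1 : 1 ≤ N := by
    have : (1 : ℝ) ≤ N := by nlinarith
    exact_mod_cast this
  have hfl : (Real.log X / n - 2 : ℝ) ≤ (((N - 1) / n : ℕ) : ℝ) := by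
    have h1 : N ≤ ((N - 1) / n + 1) * n := by
      have h2 := Nat.div_add_mod (N - 1) n
      have h3 := Nat.mod_lt (N - 1) hn
      rw [add_mul, one_mul, mul_comm]
      omega
    have h2 : (N : ℝ) ≤ ((((N - 1) / n : ℕ) : ℝ) + 1) * n := by exact_mod_cast h1
    rw [sub_le_iff_le_add, div_le_iff₀ (by linarith)]
    nlinarith
  have hq : 2 * (2 + (A : ℝ)) ≤ Real.log X / n := by
    rw [le_div_iff₀ (by linarith)]
    nlinarith
  have hNA : A ≤ (N - 1) / n := by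
    have : (A : ℝ) ≤ (((N - 1) / n : ℕ) : ℝ) := by linarith
    exact_mod_cast this
  obtain ⟨m, hm⟩ := Nat.exists_eq_add_of_le hNA
  refine ⟨m, ?_, ?_⟩
  · refine le_trans (Nat.pow_le_pow_right (by norm_num) ?_) (Nat.pow_log_le_self 2 hX0)
    rw [add_comm m A, ← hm, mul_comm]
    have := Nat.div_mul_le_self (N - 1) n
    omega
  · have h3 : (((N - 1) / n : ℕ) : ℝ) = (A : ℝ) + m := by exact_mod_cast hm
    have h4 : 1 / (2 * (n : ℝ)) * Real.log X = (Real.log X / n) / 2 := by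
      field_simp
    rw [h4]
    linarith

theorem up_real (M D B n : ℕ) : ∃ X₀ : ℕ, ∀ X : ℕ, X₀ ≤ X →
    ((B * ((M + Nat.log 2 X + 1) * (D + 1)) ^ n : ℕ) : ℝ) ≤
      (B * ((M + 3) * (D + 1)) ^ n : ℝ) * Real.log X ^ n := by
  refine ⟨⌈Real.exp 1⌉₊, fun X hX => ?_⟩
  have hXe : Real.exp 1 ≤ X := (Nat.le_ceil _).trans (by exact_mod_cast hX)
  have hX1 : (1 : ℝ) ≤ X := le_trans (by rw [Real.one_le_exp_iff]; norm_num) hXe
  have hX0 : X ≠ 0 := by
    rintro rfl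
    norm_num at hX1
  have hlog : (1 : ℝ) ≤ Real.log X := by
    rw [Real.le_log_iff_exp_le (by linarith)]
    exact hXe
  have hl2 : (1 / 2 : ℝ) ≤ Real.log 2 := by linarith [Real.log_two_gt_d9]
  have hlo : (Nat.log 2 X : ℝ) ≤ 2 * Real.log X := by
    have h1 : 2 ^ Nat.log 2 X ≤ X := Nat.pow_log_le_self 2 hX0
    have h2 : (2 : ℝ) ^ Nat.log 2 X ≤ (X : ℝ) := by exact_mod_cast h1
    have h3 := Real.log_le_log (by positivity) h2
    rw [Real.log_pow] at h3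
    nlinarith [Nat.cast_nonneg (α := ℝ) (Nat.log 2 X)]
  push_cast
  rw [mul_assoc, ← mul_pow]
  refine mul_le_mul_of_nonneg_left ?_ (Nat.cast_nonneg B)
  refine pow_le_pow_left₀ (by positivity) ?_ _
  have h3 : ((M : ℝ) + Nat.log 2 X + 1) ≤ (M + 3) * Real.log X := by
    nlinarith [Nat.cast_nonneg (α := ℝ) M]
  calc ((M : ℝ) + Nat.log 2 X + 1) * (D + 1) ≤ ((M + 3) * Real.log X) * (D + 1) :=
        mul_le_mul_of_nonneg_right h3 (by positivity)
    _ = (M + 3) * (D + 1) * Real.log X := by ring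

/-- **almost all families**, with two-sided bounds -/
theorem two_sided (s : ℕ) : ∃ (J : ℕ) (c C : ℝ) (X₀ : ℕ), 0 < c ∧ ∀ X : ℕ, X₀ ≤ X →
    (Fam (s + 2) J X).Finite ∧
    c * Real.log X ^ (s + 2) ≤ (Fam (s + 2) J X).ncard ∧
    (Fam (s + 2) J X).ncard ≤ C * Real.log X ^ (s + 2) ∧
    ∃ E ⊆ Fam (s + 2) J X,
      c * Real.log X ^ (s + 1) ≤ E.ncard ∧ E.ncard ≤ C * Real.log X ^ (s + 1) ∧
      ∀ d₂ : (n : ℕ) → Ext n → Ext (n + 2), Bruner d₂ → ∀ y ∈ Fam (s + 2) J X, ∀ j,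
        (d₂ (s + 2) ((Sq0 (s + 2))^[j] y) = 0 ↔ y ∈ E) := by
  obtain ⟨A1, hA1⟩ := many_fam (s + 1)
  obtain ⟨A2, hA2⟩ := many_exc s
  obtain ⟨J1, hJ1⟩ := upper (s + 1)
  obtain ⟨J2, hJ2⟩ := exc_iff (s + 2)
  obtain ⟨M, D, B, hup⟩ := hJ1 (J1 + J2) (by omega)
  obtain ⟨X1, hX1⟩ := low_real (s + 2) A1 (by omega)
  obtain ⟨X2, hX2⟩ := low_real (s + 1) A2 (by omega)
  obtain ⟨X3, hX3⟩ := up_real M D B (s + 2)
  obtain ⟨X4, hX4⟩ := up_real M D B (s + 1)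
  set c1 : ℝ := (1 / (2 * ((s + 2 : ℕ) : ℝ))) ^ (s + 2) with hc1
  set c2 : ℝ := (1 / (2 * ((s + 1 : ℕ) : ℝ))) ^ (s + 1) with hc2
  set C1 : ℝ := B * ((M + 3) * (D + 1)) ^ (s + 2) with hC1
  set C2 : ℝ := B * ((M + 3) * (D + 1)) ^ (s + 1) with hC2
  have pc1 : 0 < c1 := by rw [hc1]; positivity
  have pc2 : 0 < c2 := by rw [hc2]; positivity
  refine ⟨J1 + J2, min c1 c2, max C1 C2, X1 + X2 + X3 + X4 + 1, lt_min pc1 pc2, fun X hX => ?_⟩
  have hL : 0 ≤ Real.log X := Real.log_nonneg (by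
    have : 1 ≤ X := by omega
    exact_mod_cast this)
  have hfin := Fam_finite (s + 2) (J1 + J2) X
  have hlow : ∀ (n M : ℕ) (c : ℝ), 0 < n → c = (1 / (2 * (n : ℝ))) ^ n → min c1 c2 ≤ c →
      1 / (2 * (n : ℝ)) * Real.log X ≤ M → min c1 c2 * Real.log X ^ n ≤ ((M ^ n : ℕ) : ℝ) := by
    intro n M c hn hc hmin h
    calc min c1 c2 * Real.log X ^ n ≤ c * Real.log X ^ n :=
          mul_le_mul_of_nonneg_right hmin (by positivity)
      _ = (1 / (2 * (n : ℝ)) * Real.log X) ^ n := by rw [hc, mul_pow]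
      _ ≤ (M : ℝ) ^ n := pow_le_pow_left₀ (by positivity) h _
      _ = ((M ^ n : ℕ) : ℝ) := by push_cast; rfl
  refine ⟨hfin, ?_, ?_, ExcN (s + 2) (J1 + J2) X, ExcN_sub _ _ _, ?_, ?_, ?_⟩
  · obtain ⟨m, hm1, hm2⟩ := hX1 X (by omega)
    refine (hlow (s + 2) m c1 (by omega) hc1 (min_le_left _ _) hm2).trans ?_
    have e : (s + 1 + 1) * (m + A1) ≤ (s + 2) * (m + A1) + 1 := Nat.le_succ _
    have h := hA1 (J1 + J2) m X (le_trans (Nat.pow_le_pow_right (by norm_num) e) hm1) hfin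
    exact_mod_cast h
  · have h := (hup X).1
    have h2 : ((Fam (s + 2) (J1 + J2) X).ncard : ℝ)
        ≤ ((B * ((M + Nat.log 2 X + 1) * (D + 1)) ^ (s + 2) : ℕ) : ℝ) := by exact_mod_cast h
    refine h2.trans ((hX3 X (by omega)).trans ?_)
    exact mul_le_mul_of_nonneg_right (le_max_left _ _) (by positivity)
  · obtain ⟨m, hm1, hm2⟩ := hX2 X (by omega)
    refine (hlow (s + 1) m c2 (by omega) hc2 (min_le_right _ _) hm2).trans ?_
    have h := hA2 (J1 + J2) m X hm1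
    exact_mod_cast h
  · have h := (hup X).2
    have h2 : ((ExcN (s + 2) (J1 + J2) X).ncard : ℝ)
        ≤ ((B * ((M + Nat.log 2 X + 1) * (D + 1)) ^ (s + 1) : ℕ) : ℝ) := by exact_mod_cast h
    refine h2.trans ((hX4 X (by omega)).trans ?_)
    exact mul_le_mul_of_nonneg_right (le_max_right _ _) (by positivity)
  · intro d₂ hd y hy j
    exact hJ2 (J1 + J2) (by omega) X d₂ hd y hy j

end Pool.Agent.H59K
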