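import Pool.Agent.H59K.MI

/-!
# The exceptional classes are of the form `Sq¹ v`, up to few exceptions
-/

set_option autoImplicit false
set_option linter.unusedSectionVars false

namespace Pool.Agent.H59K

open Finset
open Pool.Agent.W624.NS
open Pool.Agent.W624.Stz (dd kun cut TT RR IW Vr p2_add_self)

/-- monomials in `Sq¹`-closed cocycles: each factor uses two lines -/
theorem Mo.len_two {F : (n : ℕ) → Set (Z n)} (hF : ∀ n, ∀ f ∈ F n, cl (Sq1 n f) = 0) {n t : ℕ}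
    {z : Cob n} {L : List (ℕ × ℕ)} (h : Mo F n t z L) : 2 * L.length ≤ n := by
  induction h with
  | mem n t k f h1 h2 h3 h4 =>
    cases n with
    | zero =>
      exfalso
      exact h4 (line_one_nil h3 f h2 ⟨0, hF 1 f h1⟩)
    | succ n =>
      rw [List.length_singleton]
      omega
  | mul p q t u x y L L' _ _ ih1 ih2 => rw [List.length_append]; omega

theorem exc_two (s : ℕ) : ∃ J0 : ℕ, ∀ J, J0 ≤ J → ∃ M D : ℕ, ∀ (t : ℕ) (x : Z (s + 1)),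
    IsHom (s + 1) t x.1 → ¬ Nil (cl x) → (Nil (cl (Sq1 (s + 1) x)) ∧
      ¬ ∃ (u : ℕ) (v : Z s), IsHom s u v.1 ∧ (Sq0 (s + 1))^[J] (cl x) = cl (Sq1 s v)) →
    ∃ L : List (ℕ × ℕ), L.length ≤ (s + 1) / 2 ∧
      (∀ p ∈ L, 0 < p.2 ∧ p.2 ≤ D) ∧ (L.map fun p => 2 ^ p.1 * p.2).sum = 2 ^ M * t := by
  obtain ⟨A, F, h1, h2, h3, h4, h5, h6⟩ := gen_b
  obtain ⟨J0, hJ0⟩ := uni_EvT h2 s
  obtain ⟨D, hD⟩ := exists_D h2 (s + 1)
  refine ⟨J0, fun J hJ => ⟨J, D, fun t x hx hn hq => ?_⟩⟩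
  obtain ⟨hq, hv0⟩ := hq
  obtain ⟨u, v, z, e0, hv, hz, hB⟩ := hJ0 t x hx ((h6 s t x hx).mp hq) J hJ
  have hz' : PlR F (s + 1) ((2 ^ J * t : ℕ) : ℤ) z := by push_cast; exact hz
  rcases hz'.mono_or with ⟨z', L, hL⟩ | hzB
  · refine ⟨L, ?_, hL.bound hD le_rfl, hL.sum⟩
    have := hL.len_two (fun n f hf => (h4 n f hf).2)
    omega
  · exfalso
    push_cast at hzB
    have hB' : Bd (s + 1) (2 ^ J * (t : ℤ)) (jo x.1 ^ 2 ^ J + cupR s v) := by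
      have := hB.add hzB
      refine Eq.mp (congrArg _ ?_) this
      linear_combination z * two_RR
    have hu0 : 0 ≤ u := by
      have : (0 : ℤ) ≤ 2 ^ J * (t : ℤ) := by positivity
      omega
    obtain ⟨u', rfl⟩ := Int.eq_ofNat_of_zero_le hu0
    obtain ⟨v', rfl, hv'⟩ := exists_Z hv
    have e0' : 2 ^ J * t = 2 * u' := by exact_mod_cast e0
    apply hv0
    refine ⟨u', v', hv', ?_⟩
    have hs := isHom_sq1 v' hv'
    rw [← e0'] at hs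
    rw [Sq0_iter, cl_eq_iff_Bd (isHom_iter x hx J) hs, jo_sq_iter, jo_Sq1]
    push_cast
    exact hB'

/-- **almost all families**, final form -/
theorem final_form (s : ℕ) : ∃ (J : ℕ) (c C : ℝ) (X₀ : ℕ), 0 < c ∧ ∀ X : ℕ, X₀ ≤ X →
    (Fam (s + 2) J X).Finite ∧
    c * Real.log X ^ (s + 2) ≤ (Fam (s + 2) J X).ncard ∧
    (Fam (s + 2) J X).ncard ≤ C * Real.log X ^ (s + 2) ∧
    ∃ E ⊆ Fam (s + 2) J X,
      c * Real.log X ^ (s + 1) ≤ E.ncard ∧ E.ncard ≤ C * Real.log X ^ (s + 1) ∧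
      ({y | y ∈ E ∧ ¬ ∃ (u : ℕ) (v : Z (s + 1)), IsHom (s + 1) u v.1 ∧
        y = cl (Sq1 (s + 1) v)}.ncard : ℝ) ≤ C * Real.log X ^ ((s + 2) / 2) ∧
      ∀ d₂ : (n : ℕ) → Ext n → Ext (n + 2), Bruner d₂ → ∀ y ∈ Fam (s + 2) J X, ∀ j,
        (d₂ (s + 2) ((Sq0 (s + 2))^[j] y) = 0 ↔ y ∈ E) := by
  obtain ⟨A1, hA1⟩ := many_fam (s + 1)
  obtain ⟨A2, hA2⟩ := many_exc s
  obtain ⟨J1, hJ1⟩ := upper (s + 1)
  obtain ⟨J2, hJ2⟩ := exc_iff (s + 2)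
  obtain ⟨J3, hJ3⟩ := exc_two (s + 1)
  obtain ⟨J4, hJ4⟩ := fam_bound (s + 1)
  set J := J1 + J2 + J3 + J4 with hJd
  obtain ⟨M, D, B, hup⟩ := hJ1 J (by omega)
  obtain ⟨M', D', hMD'⟩ := hJ3 J (by omega)
  obtain ⟨B', hB'⟩ := hJ4 J (by omega)
  obtain ⟨X1, hX1⟩ := low_real (s + 2) A1 (by omega)
  obtain ⟨X2, hX2⟩ := low_real (s + 1) A2 (by omega)
  obtain ⟨X3, hX3⟩ := up_real M D B (s + 2)
  obtain ⟨X4, hX4⟩ := up_real M D B (s + 1)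
  obtain ⟨X5, hX5⟩ := up_real M' D' B' ((s + 2) / 2)
  set c1 : ℝ := (1 / (2 * ((s + 2 : ℕ) : ℝ))) ^ (s + 2) with hc1
  set c2 : ℝ := (1 / (2 * ((s + 1 : ℕ) : ℝ))) ^ (s + 1) with hc2
  set C1 : ℝ := B * ((M + 3) * (D + 1)) ^ (s + 2) with hC1
  set C2 : ℝ := B * ((M + 3) * (D + 1)) ^ (s + 1) with hC2
  set C3 : ℝ := B' * ((M' + 3) * (D' + 1)) ^ ((s + 2) / 2) with hC3
  have pc1 : 0 < c1 := by rw [hc1]; positivity
  have pc2 : 0 < c2 := by rw [hc2]; positivity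
  refine ⟨J, min c1 c2, max (max C1 C2) C3, X1 + X2 + X3 + X4 + X5 + 1, lt_min pc1 pc2,
    fun X hX => ?_⟩
  have hL : 0 ≤ Real.log X := Real.log_nonneg (by
    have : 1 ≤ X := by omega
    exact_mod_cast this)
  have hfin := Fam_finite (s + 2) J X
  have hlow : ∀ (n M : ℕ) (c : ℝ), 0 < n → c = (1 / (2 * (n : ℝ))) ^ n → min c1 c2 ≤ c →
      1 / (2 * (n : ℝ)) * Real.log X ≤ M → min c1 c2 * Real.log X ^ n ≤ ((M ^ n : ℕ) : ℝ) := by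
    intro n M c hn hc hmin h
    calc min c1 c2 * Real.log X ^ n ≤ c * Real.log X ^ n :=
          mul_le_mul_of_nonneg_right hmin (by positivity)
      _ = (1 / (2 * (n : ℝ)) * Real.log X) ^ n := by rw [hc, mul_pow]
      _ ≤ (M : ℝ) ^ n := pow_le_pow_left₀ (by positivity) h _
      _ = ((M ^ n : ℕ) : ℝ) := by push_cast; rfl
  refine ⟨hfin, ?_, ?_, ExcN (s + 2) J X, ExcN_sub _ _ _, ?_, ?_, ?_, ?_⟩
  · obtain ⟨m, hm1, hm2⟩ := hX1 X (by omega)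
    refine (hlow (s + 2) m c1 (by omega) hc1 (min_le_left _ _) hm2).trans ?_
    have e : (s + 1 + 1) * (m + A1) ≤ (s + 2) * (m + A1) + 1 := Nat.le_succ _
    have h := hA1 J m X (le_trans (Nat.pow_le_pow_right (by norm_num) e) hm1) hfin
    exact_mod_cast h
  · have h := (hup X).1
    have h2 : ((Fam (s + 2) J X).ncard : ℝ)
        ≤ ((B * ((M + Nat.log 2 X + 1) * (D + 1)) ^ (s + 2) : ℕ) : ℝ) := by exact_mod_cast h
    refine h2.trans ((hX3 X (by omega)).trans ?_)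
    exact mul_le_mul_of_nonneg_right ((le_max_left _ _).trans (le_max_left _ _)) (by positivity)
  · obtain ⟨m, hm1, hm2⟩ := hX2 X (by omega)
    refine (hlow (s + 1) m c2 (by omega) hc2 (min_le_right _ _) hm2).trans ?_
    have h := hA2 J m X hm1
    exact_mod_cast h
  · have h := (hup X).2
    have h2 : ((ExcN (s + 2) J X).ncard : ℝ)
        ≤ ((B * ((M + Nat.log 2 X + 1) * (D + 1)) ^ (s + 1) : ℕ) : ℝ) := by exact_mod_cast h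
    refine h2.trans ((hX4 X (by omega)).trans ?_)
    exact mul_le_mul_of_nonneg_right ((le_max_right _ _).trans (le_max_left _ _)) (by positivity)
  · have h := count_gen (s := s + 1) (n := (s + 1 + 1) / 2) (J := J)
      (P := fun x => Nil (cl (Sq1 (s + 1 + 1) x)) ∧ ¬ ∃ (u : ℕ) (v : Z (s + 1)),
        IsHom (s + 1) u v.1 ∧ (Sq0 (s + 1 + 1))^[J] (cl x) = cl (Sq1 (s + 1) v)) hB' hMD' X
    have hsub : {y | y ∈ ExcN (s + 2) J X ∧ ¬ ∃ (u : ℕ) (v : Z (s + 1)), IsHom (s + 1) u v.1 ∧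
        y = cl (Sq1 (s + 1) v)} ⊆ {y : Ext (s + 1 + 1) | ¬ Nil y ∧
        ∃ (t : ℕ) (x : Z (s + 1 + 1)), t ≤ X ∧ IsHom (s + 1 + 1) t x.1 ∧
        (Nil (cl (Sq1 (s + 1 + 1) x)) ∧ ¬ ∃ (u : ℕ) (v : Z (s + 1)),
        IsHom (s + 1) u v.1 ∧ (Sq0 (s + 1 + 1))^[J] (cl x) = cl (Sq1 (s + 1) v)) ∧
        (Sq0 (s + 1 + 1))^[J] (cl x) = y} := by
      rintro y ⟨⟨hny, t, x, ht, hx, hq, hxy⟩, hv⟩
      refine ⟨hny, t, x, ht, hx, ⟨hq, ?_⟩, hxy⟩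
      rintro ⟨u, v, hv1, hv2⟩
      exact hv ⟨u, v, hv1, hxy ▸ hv2⟩
    have hfin2 : {y : Ext (s + 1 + 1) | ¬ Nil y ∧
        ∃ (t : ℕ) (x : Z (s + 1 + 1)), t ≤ X ∧ IsHom (s + 1 + 1) t x.1 ∧
        (Nil (cl (Sq1 (s + 1 + 1) x)) ∧ ¬ ∃ (u : ℕ) (v : Z (s + 1)),
        IsHom (s + 1) u v.1 ∧ (Sq0 (s + 1 + 1))^[J] (cl x) = cl (Sq1 (s + 1) v)) ∧
        (Sq0 (s + 1 + 1))^[J] (cl x) = y}.Finite := by
      refine hfin.subset ?_
      rintro y ⟨h1, t, x, h2, h3, _, h4⟩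
      exact ⟨h1, t, x, h2, h3, h4⟩
    have h' := (Set.ncard_le_ncard hsub hfin2).trans h
    have h2 : ({y | y ∈ ExcN (s + 2) J X ∧ ¬ ∃ (u : ℕ) (v : Z (s + 1)), IsHom (s + 1) u v.1 ∧
        y = cl (Sq1 (s + 1) v)}.ncard : ℝ)
        ≤ ((B' * ((M' + Nat.log 2 X + 1) * (D' + 1)) ^ ((s + 2) / 2) : ℕ) : ℝ) := by
      exact_mod_cast h'
    refine h2.trans ((hX5 X (by omega)).trans ?_)
    exact mul_le_mul_of_nonneg_right (le_max_right _ _) (by positivity)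
  · intro d₂ hd y hy j
    exact hJ2 J (by omega) X d₂ hd y hy j

end Pool.Agent.H59K
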