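import Pool.Agent.H59K.S4

/-!
# Project D3: the piece MON

Polynomials on the line `m + 1` in members of finitely many families, of a degree which is not a sum
of at most `m` numbers `2 ^ k * d` with bounded `d`, are monomials in the Hopf classes.
-/

set_option autoImplicit false
set_option linter.unusedSectionVars false

namespace Pool.Agent.H59K

open MvPolynomial Finset
open Pool.Agent.W624.NS
open Pool.Agent.W624.Stz (dd kun cut TT RR IW Vr p2_add_self)

section prodH

/-- the product of the Hopf classes with the exponents in the list -/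
noncomputable def prodH : List ℕ → RR Empty
  | [] => 1
  | i :: I => jo (hZ i).1 * shf Empty 1 (prodH I)

/-- the degree -/
def sumH (I : List ℕ) : ℕ := (I.map fun i => 2 ^ i).sum

theorem sumH_nil : sumH [] = 0 := rfl

theorem sumH_cons (i : ℕ) (I : List ℕ) : sumH (i :: I) = 2 ^ i + sumH I := by
  rw [sumH, sumH, List.map_cons, List.sum_cons]

theorem sumH_append (I J : List ℕ) : sumH (I ++ J) = sumH I + sumH J := by
  rw [sumH, sumH, sumH, List.map_append, List.sum_append]

theorem sumH_perm {I J : List ℕ} (h : I.Perm J) : sumH I = sumH J := (h.map _).sum_eq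

theorem prodH_append (I J : List ℕ) :
    prodH (I ++ J) = prodH I * shf Empty I.length (prodH J) := by
  induction I with
  | nil => rw [List.nil_append, prodH, List.length_nil, one_mul, shf_zero]
  | cons w W ih =>
    rw [List.cons_append, prodH, prodH, List.length_cons, ih, map_mul, shf_shf, mul_assoc,
      add_comm 1 W.length]

theorem HC_one0 : HC 0 0 (1 : RR Empty) :=
  ⟨map_one _, IW.one' _, dd_one_even rfl⟩

theorem HC_h (i : ℕ) : HC 1 ((2 : ℤ) ^ i) (jo (hZ i).1) := by
  have h := HC_jo (hZ i) (isHom_hZ i)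
  push_cast at h
  exact h

theorem HC_prodH (I : List ℕ) : HC I.length (sumH I : ℤ) (prodH I) := by
  induction I with
  | nil =>
    rw [sumH_nil, prodH]
    exact_mod_cast HC_one0
  | cons i I ih =>
    have h := HC_prod (HC_h i) ih
    rw [prodH, List.length_cons, sumH_cons, add_comm I.length 1]
    push_cast
    exact h

theorem Bd_perm (hc : S_COMM) {I J : List ℕ} (h : I.Perm J) :
    Bd I.length (sumH I : ℤ) (prodH I + prodH J) := by
  induction h with
  | nil =>
    rw [p2_add_self]
    exact Bd.zero
  | cons i _ ih =>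
    rename_i I J hp
    have h := Bd_prod_right (HC_h i) ih
    rw [prodH, prodH, ← mul_add, ← map_add, List.length_cons, sumH_cons, add_comm I.length 1]
    push_cast
    exact h
  | swap i j I =>
    have h := Bd_prod_left (hc 1 1 _ _ _ _ (HC_h j) (HC_h i)) (HC_prodH I)
    rw [List.length_cons, List.length_cons, sumH_cons, sumH_cons, prodH, prodH, prodH, prodH]
    have e1 : (((2 : ℕ) ^ j + (2 ^ i + sumH I) : ℕ) : ℤ) = 2 ^ j + 2 ^ i + (sumH I : ℤ) := by
      push_cast; ring
    have e2 : I.length + 1 + 1 = 1 + 1 + I.length := by omega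
    rw [e1, e2]
    refine Eq.mp (congrArg _ ?_) h
    rw [map_mul, map_mul, shf_shf]
    ring
  | trans h1 _ ih1 ih2 =>
    rw [← h1.length_eq, ← sumH_perm h1] at ih2
    exact ih1.trans ih2

theorem prodH_single (i : ℕ) : prodH [i] = jo (hZ i).1 := by
  rw [prodH, prodH, map_one, mul_one]

theorem prodH_range (n : ℕ) (i : ℕ → ℕ) :
    prodH ((List.range (n + 1)).map i) = jo (mon n i).1 := by
  induction n with
  | zero =>
    change prodH [i 0] = jo (hZ (i 0)).1
    exact prodH_single _
  | succ n ih =>
    change _ = jo (mulZ (mon n i) (hZ (i (n + 1)))).1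
    rw [List.range_succ, List.map_append, prodH_append, ih, List.length_map, List.length_range,
      jo_mulZ, List.map_cons, List.map_nil, prodH_single]

theorem sumH_range (n : ℕ) (i : ℕ → ℕ) :
    sumH ((List.range n).map i) = ∑ k ∈ range n, 2 ^ i k := by
  induction n with
  | zero => rfl
  | succ n ih =>
    rw [List.range_succ, List.map_append, sumH_append, ih, sum_range_succ, List.map_cons,
      List.map_nil, sumH_cons, sumH_nil, add_zero]

end prodH

section top

variable {F : (n : ℕ) → Set (Z n)}

/-- monomials with as many factors as possible -/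
theorem Mo.top {n t : ℕ} {z : Cob n} {L : List (ℕ × ℕ)} (h : Mo F n t z L) :
    L.length = n → ∃ I : List ℕ, I.length = n ∧ sumH I = t ∧ jo z = prodH I := by
  induction h with
  | mem n t k f h1 h2 h3 h4 =>
    intro hL
    have hn : n = 0 := by
      rw [List.length_singleton] at hL
      omega
    subst hn
    rcases line_one h3 f h2 with h0 | ⟨i, rfl⟩
    · exact absurd h0 h4
    have ht : t = 2 ^ i := hom_unique h4 h2 (isHom_hZ i)
    refine ⟨[i + k], rfl, ?_, ?_⟩
    · rw [sumH_cons, sumH_nil, add_zero, ht, pow_add, mul_comm]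
    · rw [prodH_single, jo_pow, jo_hZ, jo_hZ, ← pow_mul, ← pow_add]
  | mul p q t u x y L L' hx hy ih1 ih2 =>
    intro hL
    rw [List.length_append] at hL
    have l1 := hx.len
    have l2 := hy.len
    obtain ⟨I, a1, a2, a3⟩ := ih1 (by omega)
    obtain ⟨J, b1, b2, b3⟩ := ih2 (by omega)
    refine ⟨I ++ J, ?_, ?_, ?_⟩
    · rw [List.length_append, a1, b1]
    · rw [sumH_append, a2, b2]
    · rw [prodH_append, jo_mul, a3, b3, a1]

end top

section num

/-- the gaps of a decreasing list are large, or its sum has few terms -/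
theorem gap_or (G : ℕ) (I : List ℕ) (hs : I.Pairwise (· ≥ ·)) :
    I.IsChain (fun a b => b + G ≤ a) ∨
    ∃ L : List (ℕ × ℕ), L.length + 1 = I.length ∧ (∀ p ∈ L, 0 < p.2 ∧ p.2 ≤ 1 + 2 ^ G) ∧
      (L.map fun p => 2 ^ p.1 * p.2).sum = sumH I := by
  induction I with
  | nil => exact Or.inl List.isChain_nil
  | cons a I ih =>
    cases I with
    | nil => exact Or.inl (List.isChain_singleton a)
    | cons b I =>
      rw [List.pairwise_cons] at hs
      have hab : b ≤ a := hs.1 b (List.mem_cons_self ..)
      by_cases hg : b + G ≤ a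
      · rcases ih hs.2 with h | ⟨L, h1, h2, h3⟩
        · exact Or.inl (List.isChain_cons_cons.mpr ⟨hg, h⟩)
        · refine Or.inr ⟨(a, 1) :: L, ?_, ?_, ?_⟩
          · rw [List.length_cons, h1, List.length_cons, List.length_cons, List.length_cons]
          · intro p hp
            rcases List.mem_cons.mp hp with rfl | hp
            · exact ⟨Nat.one_pos, by simp⟩
            · exact h2 p hp
          · rw [List.map_cons, List.sum_cons, h3, mul_one, ← sumH_cons]
      · right
        refine ⟨(b, 1 + 2 ^ (a - b)) :: (I.map fun i => (i, 1)), ?_, ?_, ?_⟩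
        · simp
        · intro p hp
          rcases List.mem_cons.mp hp with rfl | hp
          · refine ⟨by positivity, ?_⟩
            exact Nat.add_le_add_left (Nat.pow_le_pow_right (by norm_num) (by omega)) 1
          · obtain ⟨i, _, rfl⟩ := List.mem_map.mp hp
            exact ⟨Nat.one_pos, by simp⟩
        · rw [List.map_cons, List.sum_cons, List.map_map]
          have e : ((fun p : ℕ × ℕ => 2 ^ p.1 * p.2) ∘ fun i => (i, 1)) = fun i => 2 ^ i := by
            funext i
            simp
          rw [e]
          change 2 ^ b * (1 + 2 ^ (a - b)) + sumH I = _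
          rw [sumH_cons, sumH_cons, mul_add, ← pow_add, mul_one,
            show b + (a - b) = a by omega]
          ring

theorem sum_lt (m : ℕ) (i : ℕ → ℕ) (h : ∀ k < m, i (k + 1) + 1 ≤ i k) :
    ∑ k ∈ range (m + 1), 2 ^ i k < 2 ^ (i 0 + 1) := by
  induction m generalizing i with
  | zero =>
    rw [sum_range_succ, sum_range_zero, zero_add]
    exact Nat.pow_lt_pow_right (by norm_num) (Nat.lt_succ_self _)
  | succ m ih =>
    rw [sum_range_succ']
    have h1 := ih (fun k => i (k + 1)) (fun k hk => h (k + 1) (by omega))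
    have h2 : (2 : ℕ) ^ (i 1 + 1) ≤ 2 ^ i 0 :=
      Nat.pow_le_pow_right (by norm_num) (h 0 (by omega))
    have h3 : (2 : ℕ) ^ (i 0 + 1) = 2 ^ i 0 + 2 ^ i 0 := by rw [pow_succ]; ring
    simp only [zero_add] at h1
    omega

theorem le_sum (m : ℕ) (i : ℕ → ℕ) : 2 ^ i 0 ≤ ∑ k ∈ range (m + 1), 2 ^ i k :=
  single_le_sum (f := fun k => 2 ^ i k) (fun _ _ => Nat.zero_le _)
    (mem_range.mpr (Nat.succ_pos m))

/-- sums of distinct powers of two -/
theorem exps_unique (m : ℕ) (i i' : ℕ → ℕ) (h : ∀ k < m, i (k + 1) + 1 ≤ i k)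
    (h' : ∀ k < m, i' (k + 1) + 1 ≤ i' k)
    (he : ∑ k ∈ range (m + 1), 2 ^ i k = ∑ k ∈ range (m + 1), 2 ^ i' k) :
    ∀ k ≤ m, i k = i' k := by
  have h0 : ∀ (m : ℕ) (i i' : ℕ → ℕ), (∀ k < m, i (k + 1) + 1 ≤ i k) →
      (∑ k ∈ range (m + 1), 2 ^ i k = ∑ k ∈ range (m + 1), 2 ^ i' k) → i' 0 ≤ i 0 := by
    intro m i i' h he
    by_contra hlt
    push Not at hlt
    have h1 := sum_lt m i h
    have h2 := le_sum m i'
    have h3 : (2 : ℕ) ^ (i 0 + 1) ≤ 2 ^ i' 0 := Nat.pow_le_pow_right (by norm_num) hlt
    omega
  induction m generalizing i i' with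
  | zero =>
    intro k hk
    obtain rfl : k = 0 := by omega
    exact le_antisymm (h0 0 i' i h' he.symm) (h0 0 i i' h he)
  | succ m ih =>
    have e0 : i 0 = i' 0 := le_antisymm (h0 _ i' i h' he.symm) (h0 _ i i' h he)
    rw [sum_range_succ', sum_range_succ' (fun k => 2 ^ i' k), e0] at he
    have h1 := ih (fun k => i (k + 1)) (fun k => i' (k + 1)) (fun k hk => h (k + 1) (by omega))
      (fun k hk => h' (k + 1) (by omega)) (Nat.add_right_cancel he)
    intro k hk
    cases k with
    | zero => exact e0
    | succ k => exact h1 k (by omega)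

end num

theorem mon_aux (hc : S_COMM) (F : (n : ℕ) → Set (Z n)) (hfin : ∀ n, (F n).Finite) (m G : ℕ) :
    ∃ D : ℕ, ∀ (T : ℕ) (x : Cob (m + 1)), SM F (m + 1) T x →
    (∃ L : List (ℕ × ℕ), L.length ≤ m ∧ (∀ p ∈ L, 0 < p.2 ∧ p.2 ≤ D) ∧
      (L.map fun p => 2 ^ p.1 * p.2).sum = T) ∨
    Bd (m + 1) (T : ℤ) (jo x) ∨
    ∃ i : ℕ → ℕ, (∀ k < m, i (k + 1) + (G + 1) ≤ i k) ∧ ∑ k ∈ range (m + 1), 2 ^ i k = T ∧
      Bd (m + 1) (T : ℤ) (jo x + jo (mon m i).1) := by
  obtain ⟨D, hD⟩ := exists_D hfin (m + 1)
  refine ⟨D + (1 + 2 ^ (G + 1)), fun T x hx => ?_⟩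
  induction hx with
  | bd z hz hB => exact Or.inr (Or.inl ((Bd_iff hz).mp hB))
  | mo z L hz =>
    have hlen := hz.len
    rcases Nat.lt_or_ge m L.length with hm | hm
    · obtain ⟨I, a1, a2, a3⟩ := hz.top (by omega)
      have hperm : (I.mergeSort fun a b => decide (b ≤ a)).Perm I := List.mergeSort_perm _ _
      obtain ⟨J, hJ⟩ : ∃ J, J = I.mergeSort fun a b => decide (b ≤ a) := ⟨_, rfl⟩
      have hsort : J.Pairwise (· ≥ ·) := by
        have := List.pairwise_mergeSort (le := fun a b : ℕ => decide (b ≤ a))
          (fun a b c h1 h2 => by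
            simp only [decide_eq_true_eq] at h1 h2 ⊢
            omega)
          (fun a b => by
            simp only [Bool.or_eq_true, decide_eq_true_eq]
            omega) I
        rw [hJ]
        refine this.imp fun {a b} h => ?_
        simpa using h
      rw [← hJ] at hperm
      have hlJ : J.length = m + 1 := hperm.length_eq.trans a1
      have hsJ : sumH J = T := (sumH_perm hperm).trans a2
      rcases gap_or (G + 1) J hsort with hch | ⟨L', h1, h2, h3⟩
      · have hJr : J = (List.range (m + 1)).map fun k => J.getD k 0 := by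
          apply List.ext_getElem
          · simp [hlJ]
          · intro k hk1 hk2
            rw [List.getElem_map, List.getElem_range, List.getD_eq_getElem _ _ hk1]
        refine Or.inr (Or.inr ⟨fun k => J.getD k 0, ?_, ?_, ?_⟩)
        · intro k hk
          have h4 := List.isChain_iff_getElem.mp hch k (by omega)
          simp only [List.getD_eq_getElem _ _ (show k < J.length by omega),
            List.getD_eq_getElem _ _ (show k + 1 < J.length by omega)]
          exact h4
        · rw [← sumH_range, ← hJr, hsJ]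
        · rw [← prodH_range, ← hJr, a3]
          have h5 := Bd_perm hc hperm.symm
          rw [a1, a2] at h5
          exact h5
      · left
        refine ⟨L', by omega, fun p hp => ?_, by rw [h3, hsJ]⟩
        have := h2 p hp
        exact ⟨this.1, this.2.trans (Nat.le_add_left _ _)⟩
    · left
      refine ⟨L, hm, fun p hp => ?_, hz.sum⟩
      have := hz.bound hD le_rfl p hp
      exact ⟨this.1, this.2.trans (Nat.le_add_right _ _)⟩
  | add x y _ _ ih1 ih2 =>
    rcases ih1 with h | h | ⟨i, g1, g2, g3⟩
    · exact Or.inl h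
    · rcases ih2 with h' | h' | ⟨i', g1', g2', g3'⟩
      · exact Or.inl h'
      · right; left
        rw [jo_add]
        exact h.add h'
      · right; right
        refine ⟨i', g1', g2', ?_⟩
        rw [jo_add, add_assoc]
        exact h.add g3'
    · rcases ih2 with h' | h' | ⟨i', g1', g2', g3'⟩
      · exact Or.inl h'
      · right; right
        refine ⟨i, g1, g2, ?_⟩
        rw [jo_add, add_right_comm]
        exact g3.add h'
      · right; left
        have e : mon m i = mon m i' := by
          refine mon_congr m i i' (exps_unique m i i' ?_ ?_ (g2.trans g2'.symm))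
          · intro k hk
            have := g1 k hk
            omega
          · intro k hk
            have := g1' k hk
            omega
        rw [← e] at g3'
        have h1 := g3.add g3'
        rw [jo_add]
        refine Eq.mp (congrArg _ ?_) h1
        have h2 := p2_add_self (jo (mon m i).1)
        calc jo x + jo (mon m i).1 + (jo y + jo (mon m i).1)
            = jo x + jo y + (jo (mon m i).1 + jo (mon m i).1) := by ring
          _ = jo x + jo y := by rw [h2, add_zero]

/-- **The piece MON.** -/
theorem t_MON (hc : S_COMM) : S_MON := by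
  intro F hfin m G
  obtain ⟨D, hD⟩ := mon_aux hc F hfin m G
  refine ⟨D, fun T f hf => ?_⟩
  rcases hf.SM_or with rfl | ⟨x, rfl, hx⟩
  · exact Or.inr (Or.inl Bd.zero)
  rcases hD T x hx with h | h | ⟨i, h1, h2, h3⟩
  · exact Or.inl h
  · exact Or.inr (Or.inl h)
  · refine Or.inr (Or.inr ⟨i, fun k hk => ?_, h2, h3⟩)
    have := h1 k hk
    omega

end Pool.Agent.H59K
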