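import Mathlib

/-!
# Words: the cup-`i` products of cochains on lists of vertices
-/

set_option autoImplicit false

namespace Pool.Agent.H59K.Wd

open Finset

variable {A B : Type*} [CommRing A] [CommRing B] {α β : Type*}

/-- prefix a vertex -/
def pre (F : List α → A) (m : α) : List α → A := fun l => F (m :: l)

/-- The sum over all words: each vertex is taken by the first cochain only, or by both, and then the
roles of the two cochains are exchanged. -/
def WW : (List α → A) → (List α → A) → List α → A
  | F, G, [] => F [] * G []
  | F, G, m :: L => WW (pre F m) G L + WW (pre G m) (pre F m) L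

/-- the differential -/
def dL (F : List α → A) : List α → A := fun l => ∑ i ∈ range l.length, F (l.eraseIdx i)

theorem CC_nil (F G : List α → A) : WW F G [] = F [] * G [] := by rw [WW]

theorem CC_cons (F G : List α → A) (m : α) (L : List α) :
    WW F G (m :: L) = WW (pre F m) G L + WW (pre G m) (pre F m) L := by rw [WW]

theorem dL_nil (F : List α → A) : dL F [] = 0 := by simp [dL]

theorem dL_cons (F : List α → A) (m : α) (L : List α) :
    dL F (m :: L) = F L + dL (pre F m) L := by
  rw [dL, dL, List.length_cons, sum_range_succ', add_comm, List.eraseIdx_cons_zero]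
  rfl

theorem pre_dL (F : List α → A) (m : α) : pre (dL F) m = F + dL (pre F m) := by
  funext L
  exact dL_cons F m L

theorem pre_add (F G : List α → A) (m : α) : pre (F + G) m = pre F m + pre G m := rfl

theorem dL_add (F G : List α → A) : dL (F + G) = dL F + dL G := by
  funext L
  simp only [dL, Pi.add_apply, sum_add_distrib]

theorem CC_add_left (F F' G : List α → A) (L : List α) :
    WW (F + F') G L = WW F G L + WW F' G L ∧ WW G (F + F') L = WW G F L + WW G F' L := by
  induction L generalizing F F' G with
  | nil =>
    simp only [CC_nil, Pi.add_apply]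
    constructor <;> ring
  | cons m L ih =>
    simp only [CC_cons, pre_add]
    constructor
    · rw [(ih _ _ _).1, (ih _ _ _).2]; ring
    · rw [(ih _ _ _).2, (ih _ _ _).1]; ring

theorem CC_addl (F F' G : List α → A) (L : List α) :
    WW (F + F') G L = WW F G L + WW F' G L := (CC_add_left F F' G L).1

theorem CC_addr (F F' G : List α → A) (L : List α) :
    WW G (F + F') L = WW G F L + WW G F' L := (CC_add_left F F' G L).2

theorem CC_smul (c : A) (F G : List α → A) (L : List α) :
    WW (fun l => c * F l) G L = c * WW F G L ∧ WW G (fun l => c * F l) L = c * WW G F L := by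
  induction L generalizing F G with
  | nil => simp only [CC_nil]; constructor <;> ring
  | cons m L ih =>
    simp only [CC_cons]
    have e : ∀ F : List α → A, pre (fun l => c * F l) m = fun l => c * pre F m l := fun F => rfl
    simp only [e]
    constructor
    · rw [(ih _ _).1, (ih _ _).2]; ring
    · rw [(ih _ _).2, (ih _ _).1]; ring

/-- **Steenrod's formula** -/
theorem steenrod (h2 : (2 : A) = 0) (F G : List α → A) (L : List α) :
    dL (WW F G) L = WW (dL F) G L + WW F (dL G) L + WW F G L + WW G F L := by
  induction L generalizing F G with
  | nil =>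
    simp only [CC_nil, dL_nil]
    linear_combination (-(F [] * G [])) * h2
  | cons m L ih =>
    have e : pre (WW F G) m = WW (pre F m) G + WW (pre G m) (pre F m) := by
      funext l
      exact CC_cons F G m l
    rw [dL_cons, e, dL_add, Pi.add_apply, ih, ih]
    simp only [CC_cons, pre_dL, CC_addl, CC_addr]
    linear_combination (-(WW (pre G m) F L)) * h2

theorem dL_dL (h2 : (2 : A) = 0) (F : List α → A) (L : List α) : dL (dL F) L = 0 := by
  induction L generalizing F with
  | nil => exact dL_nil _
  | cons m L ih =>
    rw [dL_cons, pre_dL, dL_add, Pi.add_apply, ih]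
    linear_combination dL F L * h2

/-- the value depends on the sublists only -/
theorem CC_congr {F F' G G' : List α → A} {L : List α} (hF : ∀ l, l.Sublist L → F l = F' l)
    (hG : ∀ l, l.Sublist L → G l = G' l) : WW F G L = WW F' G' L := by
  induction L generalizing F F' G G' with
  | nil => rw [CC_nil, CC_nil, hF [] (List.Sublist.refl _), hG [] (List.Sublist.refl _)]
  | cons m L ih =>
    rw [CC_cons, CC_cons]
    congr 1
    · exact ih (fun l hl => hF _ (hl.cons_cons m)) (fun l hl => hG _ (hl.cons m))
    · exact ih (fun l hl => hG _ (hl.cons_cons m)) (fun l hl => hF _ (hl.cons_cons m))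

theorem CC_map (σ : β → α) (F G : List α → A) (L : List β) :
    WW F G (L.map σ) = WW (fun l => F (l.map σ)) (fun l => G (l.map σ)) L := by
  induction L generalizing F G with
  | nil => rfl
  | cons m L ih =>
    rw [List.map_cons, CC_cons, CC_cons, ih, ih]
    rfl

theorem CC_hom (θ : A →+* B) (F G : List α → A) (L : List α) :
    θ (WW F G L) = WW (fun l => θ (F l)) (fun l => θ (G l)) L := by
  induction L generalizing F G with
  | nil => exact map_mul θ _ _
  | cons m L ih => rw [CC_cons, CC_cons, map_add, ih, ih]; rfl

/-- one of the two cochains takes the last vertex -/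
theorem CC_last {F G : List α → A} {x : α} {L : List α}
    (hF : ∀ l, l.Sublist L → F (l ++ [x]) = 0) (hG : ∀ l, l.Sublist L → G (l ++ [x]) = 0) :
    WW F G (L ++ [x]) = 0 := by
  induction L generalizing F G with
  | nil =>
    rw [List.nil_append, CC_cons, CC_nil, CC_nil]
    have h1 := hF [] (List.Sublist.refl _)
    have h2 := hG [] (List.Sublist.refl _)
    rw [List.nil_append] at h1 h2
    change F [x] * G [] + G [x] * F [x] = 0
    rw [h1, h2]
    ring
  | cons m L ih =>
    rw [List.cons_append, CC_cons]
    have e1 : ∀ l, l.Sublist L → pre F m (l ++ [x]) = 0 := fun l hl => hF _ (hl.cons_cons m)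
    have e2 : ∀ l, l.Sublist L → pre G m (l ++ [x]) = 0 := fun l hl => hG _ (hl.cons_cons m)
    rw [ih e1 (fun l hl => hG _ (hl.cons m)), ih e2 e1, add_zero]

/-- the differential depends on the sublists only -/
theorem dL_congr {F F' : List α → A} {L : List α} (hF : ∀ l, l.Sublist L → F l = F' l) :
    dL F L = dL F' L :=
  sum_congr rfl fun i _ => hF _ (List.eraseIdx_sublist L i)

end Pool.Agent.H59K.Wd
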