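import Pool.Agent.H59K.NA
import Pool.Agent.H59K.MJ

/-!
# Values of cochains on lists of vertices
-/

set_option autoImplicit false
set_option linter.unusedSectionVars false

namespace Pool.Agent.H59K

open Finset MvPolynomial Pool.Agent.W624.Stz Wd

section paths

variable {M : Type*} [Monoid M]

/-- product of the group elements between two vertices -/
def pr (γ : ℕ → M) (i : ℕ) : ℕ → M
  | 0 => 1
  | k + 1 => pr γ i k * γ (i + k)

theorem pr_zero (γ : ℕ → M) (i : ℕ) : pr γ i 0 = 1 := rfl

theorem pr_one (γ : ℕ → M) (i : ℕ) : pr γ i 1 = γ i := by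
  rw [pr, pr, one_mul, add_zero]

theorem pr_add (γ : ℕ → M) (i a b : ℕ) : pr γ i (a + b) = pr γ i a * pr γ (i + a) b := by
  induction b with
  | zero => rw [add_zero, pr_zero, mul_one]
  | succ b ih => rw [← add_assoc, pr, ih, pr, mul_assoc, add_assoc i a b]

/-- the path from `i` to `j` -/
def pa (γ : ℕ → M) (i j : ℕ) : M := pr γ i (j - i)

theorem pa_self (γ : ℕ → M) (i : ℕ) : pa γ i i = 1 := by rw [pa, Nat.sub_self, pr_zero]

theorem pa_succ (γ : ℕ → M) (i : ℕ) : pa γ i (i + 1) = γ i := by
  rw [pa, Nat.add_sub_cancel_left, pr_one]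

theorem pa_mul (γ : ℕ → M) {i j k : ℕ} (h1 : i ≤ j) (h2 : j ≤ k) :
    pa γ i j * pa γ j k = pa γ i k := by
  rw [pa, pa, pa, show k - i = (j - i) + (k - j) by omega, pr_add, show i + (j - i) = j by omega]

/-- pull back along a map of vertices -/
def pb (σ : ℕ → ℕ) (γ : ℕ → M) : ℕ → M := fun k => pa γ (σ k) (σ (k + 1))

theorem pa_pb {σ : ℕ → ℕ} (hσ : Monotone σ) (γ : ℕ → M) {i j : ℕ} (h : i ≤ j) :
    pa (pb σ γ) i j = pa γ (σ i) (σ j) := by
  obtain ⟨k, rfl⟩ := Nat.exists_eq_add_of_le h
  induction k with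
  | zero => rw [add_zero, pa_self, pa_self]
  | succ k ih =>
    rw [← add_assoc, ← pa_mul (pb σ γ) (show i ≤ i + k by omega) (show i + k ≤ i + k + 1 by omega),
      ih (by omega), pa_succ, pb, pa_mul γ (hσ (by omega)) (hσ (by omega))]

/-- the point of a list of vertices -/
def pt (γ : ℕ → M) (l : List ℕ) : ℕ → M :=
  fun k => if k + 1 < l.length then pa γ (l.getD k 0) (l.getD (k + 1) 0) else 1

/-- increasing lists -/
def Inc (l : List ℕ) : Prop := l.Pairwise (· < ·)

theorem Inc.get {l : List ℕ} (h : Inc l) {i j : ℕ} (hij : i < j) (hj : j < l.length) :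
    l.getD i 0 < l.getD j 0 := by
  rw [List.getD_eq_getElem _ _ (by omega), List.getD_eq_getElem _ _ hj]
  exact List.pairwise_iff_getElem.mp h i j (by omega) hj hij

theorem Inc.sub {l l' : List ℕ} (h : Inc l) (h' : l'.Sublist l) : Inc l' := h.sublist h'

theorem inc_range (n : ℕ) : Inc (List.range n) := List.pairwise_lt_range

theorem pt_map {σ : ℕ → ℕ} (hσ : Monotone σ) (γ : ℕ → M) {l : List ℕ} (hl : Inc l) :
    pt γ (l.map σ) = pt (pb σ γ) l := by
  funext k
  rw [pt, pt, List.length_map]
  split_ifs with hk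
  · rw [pa_pb hσ γ (hl.get (Nat.lt_succ_self k) hk).le]
    rw [List.getD_eq_getElem _ _ (by rw [List.length_map]; omega),
      List.getD_eq_getElem _ _ (by rw [List.length_map]; omega),
      List.getD_eq_getElem _ _ (by omega), List.getD_eq_getElem _ _ (by omega),
      List.getElem_map, List.getElem_map]
  · rfl

theorem getD_erase (l : List ℕ) (j k : ℕ) :
    (l.eraseIdx j).getD k 0 = if k < j then l.getD k 0 else l.getD (k + 1) 0 := by
  rw [List.getD_eq_getElem?_getD, List.getElem?_eraseIdx]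
  split_ifs
  · rw [List.getD_eq_getElem?_getD]
  · rw [List.getD_eq_getElem?_getD]

end paths

section vals

/-- the ring -/
abbrev R0 := RR Empty

/-- the group -/
abbrev G0 := Tg R0

/-- the value of the cochain `x` of the line `p` on a list of vertices -/
noncomputable def val (p : ℕ) (x : R0) (γ : ℕ → G0) (l : List ℕ) : R0 :=
  if l.length = p + 1 then ev (fst0 (pt γ l)) x else 0

theorem val_nil (p : ℕ) (x : R0) (γ : ℕ → G0) : val p x γ [] = 0 := by
  rw [val, if_neg (by simp)]

theorem val_add (p : ℕ) (x x' : R0) (γ : ℕ → G0) : val p (x + x') γ = val p x γ + val p x' γ := by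
  funext l
  rw [Pi.add_apply, val, val, val]
  split_ifs
  · exact map_add _ _ _
  · rw [add_zero]

theorem val_pow (p : ℕ) (x : R0) (γ : ℕ → G0) (i : ℕ) (l : List ℕ) :
    val p (x ^ 2 ^ i) γ l = val p x γ l ^ 2 ^ i := by
  rw [val, val]
  split_ifs
  · exact map_pow _ _ _
  · exact (zero_pow (by positivity)).symm

theorem mT_pr (θ : R0 →ₐ[ZMod 2] R0) (γ : ℕ → G0) (i k : ℕ) :
    mT θ (pr γ i k) = pr (fun a => mT θ (γ a)) i k := by
  induction k with
  | zero => exact mT_one θ
  | succ k ih => rw [pr, pr, mT_mul, ih]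

theorem mP_fst0 (θ : R0 →ₐ[ZMod 2] R0) (γ : ℕ → G0) :
    mP θ (fst0 γ) = fst0 (fun a => mT θ (γ a)) := by
  refine Prod.ext rfl ?_
  funext c
  exact c.elim

theorem mT_pt (θ : R0 →ₐ[ZMod 2] R0) (γ : ℕ → G0) (l : List ℕ) :
    (fun a => mT θ (pt γ l a)) = pt (fun a => mT θ (γ a)) l := by
  funext a
  rw [pt, pt]
  split_ifs
  · exact mT_pr θ γ _ _
  · exact mT_one θ

theorem val_hom (θ : R0 →ₐ[ZMod 2] R0) (p : ℕ) (x : R0) (γ : ℕ → G0) (l : List ℕ) :
    θ (val p x γ l) = val p x (fun a => mT θ (γ a)) l := by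
  rw [val, val]
  split_ifs
  · rw [ev_map, mP_fst0, mT_pt]
  · exact map_zero θ

theorem val_map {σ : ℕ → ℕ} (hσ : Monotone σ) (p : ℕ) (x : R0) (γ : ℕ → G0) {l : List ℕ}
    (hl : Inc l) : val p x γ (l.map σ) = val p x (pb σ γ) l := by
  rw [val, val, List.length_map, pt_map hσ γ hl]

theorem val_range {n : ℕ} {z : R0} (hz : cut Empty n z = z) :
    val n z (uni Empty).1 (List.range (n + 1)) = z := by
  rw [val, if_pos (by simp)]
  have h : ev (fst0 (pt (uni Empty).1 (List.range (n + 1)))) z = ev (uni Empty) z := by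
    refine dep_of_cut hz _ _ ⟨fun a ha => ?_, Subsingleton.elim _ _⟩
    change pt (uni Empty).1 (List.range (n + 1)) a = (uni Empty).1 a
    rw [pt, List.length_range, if_pos (by omega), List.getD_eq_getElem _ _ (by simp; omega),
      List.getD_eq_getElem _ _ (by simp; omega), List.getElem_range, List.getElem_range, pa_succ]
  rw [h, ev_uni]

/-- faces and erasing a vertex -/
theorem val_face {p j : ℕ} (hj : j < p + 2) {x : R0} (hx : cut Empty p x = x) (γ : ℕ → G0)
    {l : List ℕ} (hl : Inc l) (hlen : l.length = p + 2) :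
    val (p + 1) (ev (fc (act (kun : Empty → Kd)) p j (uni Empty)) x) γ l
      = val p x γ (l.eraseIdx j) := by
  have hlen' : (l.eraseIdx j).length = p + 1 := by
    rw [List.length_eraseIdx, if_pos (by omega)]; omega
  rw [val, if_pos (by omega), val, if_pos hlen', ev_map, mP_fc, mP_uni]
  refine dep_of_cut hx _ _ ⟨fun a ha => ?_, Subsingleton.elim _ _⟩
  change _ = pt γ (l.eraseIdx j) a
  have e0 : pt γ (l.eraseIdx j) a = pa γ (if a < j then l.getD a 0 else l.getD (a + 1) 0)
      (if a + 1 < j then l.getD (a + 1) 0 else l.getD (a + 2) 0) := by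
    rw [pt, hlen', if_pos (by omega), getD_erase, getD_erase]
  have e1 : ∀ b, b < p + 1 → pt γ l b = pa γ (l.getD b 0) (l.getD (b + 1) 0) := by
    intro b hb
    rw [pt, hlen, if_pos (by omega)]
  rw [e0]
  rcases Nat.eq_zero_or_pos j with rfl | hj0
  · rw [fc_zero]
    change pt γ l (a + 1) = _
    rw [e1 _ (by omega), if_neg (by omega), if_neg (by omega)]
  · obtain ⟨j, rfl⟩ : ∃ k, j = k + 1 := ⟨j - 1, by omega⟩
    rcases Nat.lt_or_ge j p with hjs | hjs
    · rw [fc_mid _ hjs]
      change mrg j (pt γ l) a = _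
      rcases lt_trichotomy a j with h | h | h
      · rw [mrg_lt h, e1 _ (by omega), if_pos (by omega), if_pos (by omega)]
      · subst h
        rw [mrg_eq, e1 _ (by omega), e1 _ (by omega), if_pos (by omega), if_neg (by omega),
          pa_mul γ (hl.get (Nat.lt_succ_self _) (by omega)).le
            (hl.get (Nat.lt_succ_self _) (by omega)).le]
      · rw [mrg_gt h, e1 _ (by omega), if_neg (by omega), if_neg (by omega)]
    · rw [fc_last _ (by omega)]
      change pt γ l a = _
      rw [e1 _ (by omega), if_pos (by omega), if_pos (by omega)]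

/-- the differential -/
theorem del_val {p : ℕ} {x : R0} (hx : cut Empty p x = x) (γ : ℕ → G0) {l : List ℕ} (hl : Inc l) :
    dL (val p x γ) l = val (p + 1) (dd (kun : Empty → Kd) p x) γ l := by
  by_cases hlen : l.length = p + 2
  · have h1 : val (p + 1) (dd (kun : Empty → Kd) p x) γ l
        = ∑ j ∈ range (p + 2), val (p + 1) (ev (fc (act (kun : Empty → Kd)) p j (uni Empty)) x) γ l := by
      rw [dd_apply, val, if_pos hlen, map_sum]
      refine sum_congr rfl fun j _ => ?_
      rw [val, if_pos hlen]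
    rw [h1, dL, hlen]
    refine sum_congr rfl fun j hj => ?_
    rw [mem_range] at hj
    exact (val_face hj hx γ hl hlen).symm
  · rw [val, if_neg hlen, dL]
    refine sum_eq_zero fun j hj => ?_
    rw [mem_range] at hj
    rw [val, if_neg]
    rw [List.length_eraseIdx, if_pos hj]
    omega

end vals

end Pool.Agent.H59K
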