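import Pool.Agent.H59K.NA

/-!
# The Cartan formula for products with a primitive element, in terms of lists
-/

set_option autoImplicit false

namespace Pool.Agent.H59K.Wd

open Finset

variable {A : Type*} [CommRing A] {α : Type*}

/-- value at the last vertex -/
def yl (y : α → A) (l : List α) : A := (l.getLast?.map y).getD 0

theorem yl_nil (y : α → A) : yl y [] = 0 := rfl

theorem yl_snoc (y : α → A) (l : List α) (b : α) : yl y (l ++ [b]) = y b := by
  rw [yl, List.getLast?_append, List.getLast?_singleton]
  rfl

theorem yl_sq (y : α → A) (l : List α) : yl (fun a => y a ^ 2) l = yl y l ^ 2 := by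
  rcases List.eq_nil_or_concat' l with rfl | ⟨l, b, rfl⟩
  · rw [yl_nil, yl_nil]; ring
  · rw [yl_snoc, yl_snoc]

/-- the product with the coboundary of `y` -/
def mu (F : List α → A) (y : α → A) : List α → A :=
  fun l => F l.dropLast * (yl y l + yl y l.dropLast)

/-- the product with `y` -/
def yF (F : List α → A) (y : α → A) : List α → A := fun l => yl y l * F l

theorem CC_zero_left (F : List α → A) (L : List α) :
    WW (fun _ => 0) F L = 0 ∧ WW F (fun _ => 0) L = 0 := by
  induction L generalizing F with
  | nil => rw [CC_nil, CC_nil]; constructor <;> ring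
  | cons m L ih =>
    rw [CC_cons, CC_cons]
    have e : pre (fun _ : List α => (0 : A)) m = fun _ => 0 := rfl
    rw [e]
    constructor
    · rw [(ih F).1, (ih (pre F m)).2, add_zero]
    · rw [(ih (pre F m)).2, (ih (pre F m)).1, add_zero]

theorem CC_zero_of {F G : List α → A} {L : List α} (h : ∀ l, l.Sublist L → F l = 0) :
    WW F G L = 0 ∧ WW G F L = 0 := by
  constructor
  · rw [CC_congr h (fun _ _ => rfl)]; exact (CC_zero_left G L).1
  · rw [CC_congr (fun _ _ => rfl) h]; exact (CC_zero_left G L).2

theorem dL_yF (h2 : (2 : A) = 0) (F : List α → A) (y : α → A) (l : List α) :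
    dL (yF F y) l = yl y l * dL F l + mu F y l := by
  rcases List.eq_nil_or_concat' l with rfl | ⟨l, b, rfl⟩
  · rw [dL_nil, dL_nil, mu, yl_nil, List.dropLast_nil, yl_nil]; ring
  · rw [dL, dL, mu, List.dropLast_concat, yl_snoc, List.length_append, List.length_singleton,
      sum_range_succ, sum_range_succ]
    have e1 : ∀ i ∈ range l.length, (l ++ [b]).eraseIdx i = l.eraseIdx i ++ [b] := by
      intro i hi
      rw [mem_range] at hi
      exact List.eraseIdx_append_of_lt_length hi _
    have e2 : (l ++ [b]).eraseIdx l.length = l := by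
      rw [List.eraseIdx_append_of_length_le le_rfl]
      simp
    have e3 : ∑ i ∈ range l.length, yF F y ((l ++ [b]).eraseIdx i)
        = y b * ∑ i ∈ range l.length, F ((l ++ [b]).eraseIdx i) := by
      rw [mul_sum]
      refine sum_congr rfl fun i hi => ?_
      rw [e1 i hi, yF, yl_snoc]
    rw [e3, e2, yF]
    linear_combination (-(F l * y b)) * h2

/-- twisted by the difference to the value at the last vertex of `l` -/
def Xr (X : List α → A) (y : α → A) (l : List α) : List α → A :=
  fun l' => X l' * (yl y l' + yl y l)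

theorem yF_split (h2 : (2 : A) = 0) (X : List α → A) (y : α → A) (l : List α) :
    yF X y = (fun l' => yl y l * X l') + Xr X y l := by
  funext l'
  rw [Pi.add_apply, yF, Xr]
  linear_combination (-(yl y l * X l')) * h2

theorem CC_Xr (h2 : (2 : A) = 0) (X : List α → A) (y : α → A) (l : List α) :
    WW (Xr X y l) (Xr X y l) l = 0 := by
  rcases List.eq_nil_or_concat' l with rfl | ⟨l, b, rfl⟩
  · rw [CC_nil, Xr, yl_nil]; ring
  · refine CC_last (fun l' _ => ?_) (fun l' _ => ?_) <;>
    · rw [Xr, yl_snoc, yl_snoc]
      linear_combination (X (l' ++ [b]) * y b) * h2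

/-- the correction terms -/
def UU (X : List α → A) (y : α → A) : List α → A := fun l => WW X (Xr X y l) l

/-- the correction terms -/
def TT' (X : List α → A) (y : α → A) : List α → A := fun l => WW (Xr X y l) (mu X y) l

/-- **Cartan formula** -/
theorem cartan (h2 : (2 : A) = 0) (X : List α → A) (y : α → A) (L : List α)
    (hX : ∀ l, l.Sublist L → dL X l = 0) :
    WW (mu X y) (mu X y) L = mu (WW X X) (fun a => y a ^ 2) L + mu (mu (WW X X) y) y L
      + dL (mu (UU X y) y + TT' X y) L := by
  set B := yF X y with hB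
  set S := WW X X with hS
  have dd0 : ∀ F : List α → A, dL (dL F) = fun _ => 0 := fun F => by
    funext l; exact dL_dL h2 F l
  have hE : ∀ l, l.Sublist L → dL B l = mu X y l := by
    intro l hl
    rw [hB, dL_yF h2, hX l hl, mul_zero, zero_add]
  have hS0 : ∀ l, l.Sublist L → dL S l = 0 := by
    intro l hl
    have h := steenrod h2 X X l
    rw [(CC_zero_of fun l' hl' => hX l' (hl'.trans hl)).1,
      (CC_zero_of fun l' hl' => hX l' (hl'.trans hl)).2] at h
    rw [hS, h]
    linear_combination (WW X X l) * h2
  have hXB : WW X B = yF S y + UU X y := by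
    funext l
    rw [hB, yF_split h2 X y l, CC_addr, (CC_smul _ _ _ _).2]
    rfl
  -- the primitive of the square
  have key : WW (mu X y) (mu X y) L = dL (fun l => WW B (dL B) l + WW B B l) L := by
    have e1 := steenrod h2 B (dL B) L
    have e2 := steenrod h2 B B L
    rw [dd0, (CC_zero_left _ _).2] at e1
    have e3 : dL (fun l => WW B (dL B) l + WW B B l) L = dL (WW B (dL B)) L + dL (WW B B) L := by
      have := congrFun (dL_add (WW B (dL B)) (WW B B)) L
      exact this
    rw [e3, e1, e2, ← CC_congr hE hE]
    linear_combination (-(WW B (dL B) L + WW (dL B) B L + WW B B L)) * h2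
  have hH : ∀ l, l.Sublist L → WW B (dL B) l + WW B B l
      = (yF S (fun a => y a ^ 2) + yF (mu S y + dL (UU X y)) y + TT' X y) l := by
    intro l hl
    set c := yl y l with hc
    have e1 : WW B B l = c ^ 2 * S l + c * (WW X (Xr X y l) l + WW (Xr X y l) X l) := by
      rw [hB, yF_split h2 X y l, CC_addl, CC_addr, CC_addr, CC_Xr h2, (CC_smul _ _ _ _).1,
        (CC_smul _ _ _ _).2, (CC_smul _ _ _ _).1, (CC_smul _ _ _ _).2, hS]
      ring
    have e2 : WW B (dL B) l = c * WW X (dL B) l + TT' X y l := by
      have e : WW B (dL B) l = WW (fun l' => c * X l') (dL B) l + WW (Xr X y l) (dL B) l := by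
        rw [← CC_addl, ← yF_split h2 X y l]
      rw [e, (CC_smul _ _ _ _).1]
      congr 1
      exact CC_congr (fun _ _ => rfl) fun l' hl' => hE l' (hl'.trans hl)
    have e3 : WW X (dL B) l = dL (WW X B) l + (WW X (Xr X y l) l + WW (Xr X y l) X l) := by
      have h := steenrod h2 X B l
      rw [(CC_zero_of fun l' hl' => hX l' (hl'.trans hl)).1] at h
      have h3 : WW X B l = c * S l + WW X (Xr X y l) l := by
        rw [hB, yF_split h2 X y l, CC_addr, (CC_smul _ _ _ _).2]
      have h4 : WW B X l = c * S l + WW (Xr X y l) X l := by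
        rw [hB, yF_split h2 X y l, CC_addl, (CC_smul _ _ _ _).1]
      linear_combination (-1 : A) * h - h3 - h4 +
        (-(c * S l) - WW X (Xr X y l) l - WW (Xr X y l) X l) * h2
    have e4 : dL (WW X B) l = mu S y l + dL (UU X y) l := by
      rw [hXB, dL_add, Pi.add_apply, dL_yF h2, hS0 l hl, mul_zero, zero_add]
    rw [e1, e2, e3, e4, Pi.add_apply, Pi.add_apply, yF, yF, yl_sq, Pi.add_apply, ← hc]
    linear_combination (c * (WW X (Xr X y l) l + WW (Xr X y l) X l)) * h2
  have hW : dL (mu S y + dL (UU X y)) L = 0 := by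
    rw [dL_add, Pi.add_apply, dd0, add_zero]
    have : dL (mu S y) L = dL (dL (yF S y)) L := by
      refine dL_congr fun l hl => ?_
      rw [dL_yF h2, hS0 l hl, mul_zero, zero_add]
    rw [this, dd0]
  have hU : mu (dL (UU X y)) y L = dL (mu (UU X y) y) L := by
    have e : mu (UU X y) y = dL (yF (UU X y) y) + yF (dL (UU X y)) y := by
      funext l
      rw [Pi.add_apply, dL_yF h2, yF]
      linear_combination (-(yl y l * dL (UU X y) l)) * h2
    rw [e, dL_add, Pi.add_apply, dd0, zero_add, dL_yF h2, dd0, mul_zero, zero_add]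
  have hmu : mu (mu S y + dL (UU X y)) y L = mu (mu S y) y L + mu (dL (UU X y)) y L := by
    simp only [mu, Pi.add_apply]; ring
  rw [key, dL_congr hH, dL_add, dL_add, Pi.add_apply, Pi.add_apply, dL_yF h2, dL_yF h2,
    hS0 L (List.Sublist.refl _), hW, hmu, hU, dL_add, Pi.add_apply]
  ring

end Pool.Agent.H59K.Wd
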