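import Pool.Agent.H59K.NB
import Pool.Agent.H59K.NC

/-!
# Natural functions on lists of vertices, and the Steenrod squares
-/

set_option autoImplicit false
set_option linter.unusedSectionVars false

namespace Pool.Agent.H59K

open Finset MvPolynomial Pool.Agent.W624.Stz Wd

section natural

/-- the universal sequence -/
noncomputable abbrev γu : ℕ → G0 := (uni Empty).1

/-- natural functions -/
structure Ntl (N : (ℕ → G0) → List ℕ → R0) : Prop where
  hom : ∀ (θ : R0 →ₐ[ZMod 2] R0) (γ : ℕ → G0) (l : List ℕ),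
    θ (N γ l) = N (fun a => mT θ (γ a)) l
  map : ∀ (σ : ℕ → ℕ), Monotone σ → ∀ (γ : ℕ → G0) (l : List ℕ), Inc l → Inc (l.map σ) →
    N γ (l.map σ) = N (pb σ γ) l

theorem Ntl.val (p : ℕ) (x : R0) : Ntl (val p x) :=
  ⟨fun θ γ l => val_hom θ p x γ l, fun _ hσ γ _ hl _ => val_map hσ p x γ hl⟩

theorem Ntl.add {N N' : (ℕ → G0) → List ℕ → R0} (h : Ntl N) (h' : Ntl N') :
    Ntl (fun γ => N γ + N' γ) :=
  ⟨fun θ γ l => by rw [Pi.add_apply, map_add, h.hom, h'.hom]; rfl,
    fun σ hσ γ l hl hl' => by rw [Pi.add_apply, h.map σ hσ γ l hl hl', h'.map σ hσ γ l hl hl']; rfl⟩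

theorem Ntl.WW {N N' : (ℕ → G0) → List ℕ → R0} (h : Ntl N) (h' : Ntl N') :
    Ntl (fun γ => WW (N γ) (N' γ)) := by
  refine ⟨fun θ γ l => ?_, fun σ hσ γ l hl hl' => ?_⟩
  · have e := CC_hom (θ : R0 →+* R0) (N γ) (N' γ) l
    refine e.trans (CC_congr (fun l' _ => h.hom θ γ l') (fun l' _ => h'.hom θ γ l'))
  · rw [CC_map]
    exact CC_congr (fun l' hs => h.map σ hσ γ l' (hl.sub hs) (hl'.sub (hs.map σ)))
      (fun l' hs => h'.map σ hσ γ l' (hl.sub hs) (hl'.sub (hs.map σ)))

/-- the vertices of a list as a monotone function -/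
def vf (l : List ℕ) (n : ℕ) (k : ℕ) : ℕ := l.getD (min k n) 0

theorem vf_mono {l : List ℕ} (hl : Inc l) {n : ℕ} (hn : l.length = n + 1) : Monotone (vf l n) := by
  intro a b hab
  rcases Nat.eq_or_lt_of_le (min_le_min_right n hab) with h | h
  · rw [vf, vf, h]
  · exact (hl.get h (by rw [hn]; exact Nat.lt_succ_of_le (min_le_right _ _))).le

theorem vf_map {l : List ℕ} {n : ℕ} (hn : l.length = n + 1) :
    (List.range (n + 1)).map (vf l n) = l := by
  refine List.ext_getElem (by simp [hn]) fun i h1 h2 => ?_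
  rw [List.getElem_map, List.getElem_range, vf, min_eq_left (by omega),
    List.getD_eq_getElem _ _ h2]

theorem vf_pb {l : List ℕ} {n : ℕ} (hn : l.length = n + 1) (γ : ℕ → G0) :
    pb (vf l n) γ = pt γ l := by
  funext k
  rw [pb, pt]
  split_ifs with hk
  · rw [vf, vf, min_eq_left (by omega), min_eq_left (by omega)]
  · rw [vf, vf, min_eq_right (by omega), min_eq_right (by omega), pa_self]

/-- values of a natural function are values of a cochain -/
theorem Ntl.ev {N : (ℕ → G0) → List ℕ → R0} (h : Ntl N) {n : ℕ} (γ : ℕ → G0) {l : List ℕ}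
    (hl : Inc l) (hn : l.length = n + 1) :
    ev (fst0 (pt γ l)) (N γu (List.range (n + 1))) = N γ l := by
  have e1 := h.hom (W624.Stz.ev (fst0 (pt γ l))) γu (List.range (n + 1))
  have e2 : (fun a => mT (W624.Stz.ev (fst0 (pt γ l))) (γu a)) = pt γ l := by
    have := mP_uni (fst0 (pt γ l))
    exact congrArg Prod.fst this
  rw [e1, e2, ← vf_pb hn γ, ← h.map (vf l n) (vf_mono hl hn) γ _ (inc_range _)
    (by rw [vf_map hn]; exact hl), vf_map hn]

theorem Ntl.val_eq {N : (ℕ → G0) → List ℕ → R0} (h : Ntl N) {n : ℕ} (γ : ℕ → G0) {l : List ℕ}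
    (hl : Inc l) (hn : l.length = n + 1) :
    H59K.val n (N γu (List.range (n + 1))) γ l = N γ l := by
  rw [H59K.val, if_pos hn, h.ev γ hl hn]

theorem Ntl.cu {N : (ℕ → G0) → List ℕ → R0} (h : Ntl N) (n : ℕ) :
    cut Empty n (N γu (List.range (n + 1))) = N γu (List.range (n + 1)) := by
  have e : cpt n (uni Empty) = fst0 (pt γu (List.range (n + 1))) := by
    refine Prod.ext ?_ (Subsingleton.elim _ _)
    funext k
    change (if k < n then (uni Empty).1 k else 1) = pt γu (List.range (n + 1)) k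
    rw [pt, List.length_range]
    by_cases hk : k < n
    · rw [if_pos hk, if_pos (by omega), List.getD_eq_getElem _ _ (by simp; omega),
        List.getD_eq_getElem _ _ (by simp; omega), List.getElem_range, List.getElem_range, pa_succ]
    · rw [if_neg hk, if_neg (by omega)]
  rw [cut, e, h.ev γu (inc_range _) (by simp)]

theorem cut_dd {n : ℕ} {f : R0} (hf : cut Empty n f = f) :
    cut Empty (n + 1) (dd (kun : Empty → Kd) n f) = dd kun n f := by
  rw [dd_apply, map_sum]
  refine sum_congr rfl fun i _ => ?_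
  apply cut_of_dep
  intro z z' hz
  have h1 : ∀ z : Pt Empty (RR Empty),
      W624.Stz.ev z (W624.Stz.ev (fc (act (kun : Empty → Kd)) n i (uni Empty)) f)
        = W624.Stz.ev (fc (act (kun : Empty → Kd)) n i z) f := by
    intro z
    rw [ev_map, mP_fc, mP_uni]
  simp only [h1]
  exact dep_of_cut hf _ _ (agr_fc hz)

/-- the differential of the cochain of a natural function -/
theorem Ntl.dd {N : (ℕ → G0) → List ℕ → R0} (h : Ntl N) (n : ℕ) :
    dd (kun : Empty → Kd) n (N γu (List.range (n + 1))) = dL (N γu) (List.range (n + 2)) := by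
  have e1 := del_val (h.cu n) γu (inc_range (n + 2))
  rw [val_range (cut_dd (h.cu n))] at e1
  rw [← e1, dL, dL]
  refine sum_congr rfl fun i hi => ?_
  rw [mem_range, List.length_range] at hi
  refine h.val_eq γu ((inc_range _).sub (List.eraseIdx_sublist _ _)) ?_
  rw [List.length_eraseIdx, List.length_range, if_pos hi]
  omega

end natural

section squares

/-- the cup-`i` product of a cochain of the line `p` and one of the line `q`, with value in the line
`n = p + q - i` -/
noncomputable def cupA (p q n : ℕ) (x y : R0) : R0 :=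
  WW (val p x γu) (val q y γu) (List.range (n + 1))

/-- the cup-`(2 p - n)` square -/
noncomputable def sqR (p n : ℕ) (x : R0) : R0 := cupA p p n x x

theorem two_R0 : (2 : R0) = 0 := by
  rw [← one_add_one_eq_two]; exact p2_add_self _

theorem cupA_ntl (p q : ℕ) (x y : R0) : Ntl (fun γ => WW (val p x γ) (val q y γ)) :=
  (Ntl.val p x).WW (Ntl.val q y)

theorem cupA_cut (p q n : ℕ) (x y : R0) : cut Empty n (cupA p q n x y) = cupA p q n x y :=
  (cupA_ntl p q x y).cu n

theorem cupA_addl (p q n : ℕ) (x x' y : R0) :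
    cupA p q n (x + x') y = cupA p q n x y + cupA p q n x' y := by
  rw [cupA, val_add, CC_addl]; rfl

theorem cupA_addr (p q n : ℕ) (x y y' : R0) :
    cupA p q n x (y + y') = cupA p q n x y + cupA p q n x y' := by
  rw [cupA, val_add, CC_addr]; rfl

/-- Steenrod's formula -/
theorem cupA_dd {p q n : ℕ} {x y : R0} (hx : cut Empty p x = x) (hy : cut Empty q y = y) :
    dd (kun : Empty → Kd) n (cupA p q n x y)
      = cupA (p + 1) q (n + 1) (dd kun p x) y + cupA p (q + 1) (n + 1) x (dd kun q y)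
        + cupA p q (n + 1) x y + cupA q p (n + 1) y x := by
  have e1 := (cupA_ntl p q x y).dd n
  have e2 := steenrod two_R0 (val p x γu) (val q y γu) (List.range (n + 2))
  have hI : ∀ l, l.Sublist (List.range (n + 2)) → Inc l := fun l hl => (inc_range _).sub hl
  rw [CC_congr (F := dL (val p x γu)) (F' := val (p + 1) (dd kun p x) γu)
    (fun l hl => del_val hx γu (hI l hl)) (fun _ _ => rfl),
    CC_congr (G := dL (val q y γu)) (G' := val (q + 1) (dd kun q y) γu) (fun _ _ => rfl)
    (fun l hl => del_val hy γu (hI l hl))] at e2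
  exact e1.trans e2

theorem val_zero (p : ℕ) (l : List ℕ) : val p (0 : R0) γu l = 0 := by
  rw [val]
  split_ifs
  · exact map_zero _
  · rfl

theorem cupA_zl (p q n : ℕ) (y : R0) : cupA p q n 0 y = 0 :=
  (CC_zero_of fun l _ => val_zero p l).1

theorem cupA_zr (p q n : ℕ) (x : R0) : cupA p q n x 0 = 0 :=
  (CC_zero_of fun l _ => val_zero q l).2

theorem val_TT {p : ℕ} {t : ℤ} {x : R0} (hx : TT kun p t (0 : Empty → ℕ) 0 x) (l : List ℕ) :
    IW (wF (kun : Empty → Kd)) (val p x γu l) (t, ((0 : Empty → ℕ), 0)) := by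
  rw [val]
  split_ifs
  · have hpr : ∀ i k, PMw (wF (kun : Empty → Kd)) ((0 : Empty → ℕ), 1) (pr γu i k) := by
      intro i k
      induction k with
      | zero => exact PMw_one _ _
      | succ k ih => exact PMw_mul _ _ _ _ ih (uni_PM kun _ _ _)
    refine IW_ev (z := fst0 (pt γu l)) (fun a => ?_) ?_ hx.iw
    · change PMw _ _ (pt γu l a)
      rw [pt]
      split_ifs
      · exact hpr _ _
      · exact PMw_one _ _
    · exact fun c => c.elim
  · exact IW.zero' _ _

theorem CC_IW {F G : List ℕ → R0} {a b : ℤ × ((Empty → ℕ) × ℕ)}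
    (hF : ∀ l, IW (wF (kun : Empty → Kd)) (F l) a) (hG : ∀ l, IW (wF (kun : Empty → Kd)) (G l) b)
    (L : List ℕ) : IW (wF (kun : Empty → Kd)) (WW F G L) (a + b) := by
  have main : ∀ (L : List ℕ) (F G : List ℕ → R0) (a b : ℤ × ((Empty → ℕ) × ℕ)),
      (∀ l, IW (wF (kun : Empty → Kd)) (F l) a) → (∀ l, IW (wF (kun : Empty → Kd)) (G l) b) →
      IW (wF (kun : Empty → Kd)) (WW F G L) (a + b) := by
    intro L
    induction L with
    | nil => intro F G a b hF hG; rw [CC_nil]; exact (hF _).mul (hG _)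
    | cons m L ih =>
      intro F G a b hF hG
      rw [CC_cons]
      refine (ih _ _ a b (fun l => hF _) hG).add ?_
      have := ih _ _ b a (fun l => hG (m :: l)) (fun l => hF (m :: l))
      rwa [add_comm b a] at this
  exact main L F G a b hF hG

theorem cupA_TT {p q n : ℕ} {t u : ℤ} {x y : R0} (hx : TT kun p t (0 : Empty → ℕ) 0 x)
    (hy : TT kun q u (0 : Empty → ℕ) 0 y) :
    TT kun n (t + u) (0 : Empty → ℕ) 0 (cupA p q n x y) := by
  refine ⟨cupA_cut p q n x y, ?_⟩
  have h := CC_IW (val_TT hx) (val_TT hy) (List.range (n + 1))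
  have e : (t, ((0 : Empty → ℕ), 0)) + (u, ((0 : Empty → ℕ), 0)) = (t + u, ((0 : Empty → ℕ), 0)) := by
    refine Prod.ext rfl (Prod.ext ?_ rfl)
    exact Subsingleton.elim _ _
  rwa [e] at h

/-- the square of a cocycle is a cocycle -/
theorem HC_sqR {p n : ℕ} {t : ℤ} {x : R0} (hx : HC p t x) : HC n (2 * t) (sqR p n x) := by
  have h := cupA_TT (n := n) hx.TT hx.TT
  rw [← two_mul] at h
  refine ⟨h.cu, h.iw, ?_⟩
  rw [sqR, cupA_dd hx.cu hx.cu, hx.cl, cupA_zl, cupA_zr, zero_add, zero_add]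
  exact p2_add_self _

/-- additivity -/
theorem sqR_add {p n : ℕ} {t : ℤ} {x y : R0} (hx : HC p t x) (hy : HC p t y) :
    Bd (n + 1) (2 * t) (sqR p (n + 1) (x + y) + (sqR p (n + 1) x + sqR p (n + 1) y)) := by
  refine ⟨cupA p p n x y, ?_, ?_⟩
  · rw [two_mul]; exact cupA_TT hx.TT hy.TT
  · change dd kun n (cupA p p n x y) = _
    rw [cupA_dd hx.cu hy.cu, hx.cl, hy.cl, cupA_zl, cupA_zr, sqR, sqR, sqR,
      cupA_addl, cupA_addr, cupA_addr]
    linear_combination (-(cupA p p (n + 1) x x + cupA p p (n + 1) y y)) * two_R0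

/-- the square of a coboundary is a coboundary -/
theorem sqR_dd {p n : ℕ} {t : ℤ} {b : R0} (hb : TT kun p t (0 : Empty → ℕ) 0 b) :
    Bd (n + 1) (2 * t) (sqR (p + 1) (n + 1) (dd kun p b)) := by
  have hd : dd (kun : Empty → Kd) (p + 1) (dd kun p b) = 0 := dd_dd _ hb.cu
  have hbt : TT kun (p + 1) t (0 : Empty → ℕ) 0 (dd kun p b) := hb.dd naf_un
  refine ⟨cupA p (p + 1) n b (dd kun p b) + cupA p p n b b, ?_, ?_⟩
  · rw [two_mul]; exact (cupA_TT hb hbt).add (cupA_TT hb hb)
  · change dd kun n (_ + _) = _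
    rw [map_add, cupA_dd hb.cu hbt.cu, cupA_dd hb.cu hb.cu, hd, cupA_zr, sqR]
    linear_combination (cupA p (p + 1) (n + 1) b (dd kun p b)
      + cupA (p + 1) p (n + 1) (dd kun p b) b + cupA p p (n + 1) b b) * two_R0

theorem sqR_pow {p n : ℕ} (x : R0) (i : ℕ) : sqR p n (x ^ 2 ^ i) = sqR p n x ^ 2 ^ i := by
  have h := CC_hom ((frobenius R0 2) ^ i) (val p x γu) (val p x γu) (List.range (n + 1))
  have e : ∀ z : R0, ((frobenius R0 2) ^ i) z = z ^ 2 ^ i := by
    intro z
    rw [← iterateFrobenius_eq_pow, iterateFrobenius_def]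
  rw [e] at h
  rw [sqR, sqR, cupA, cupA, h]
  refine CC_congr (fun l _ => ?_) (fun l _ => ?_) <;>
  · rw [val_pow, e]

end squares

end Pool.Agent.H59K
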