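import Pool.Agent.H59K.ND

/-!
# The Cartan formula for products with a primitive element
-/

set_option autoImplicit false
set_option linter.unusedSectionVars false

namespace Pool.Agent.H59K

open Finset MvPolynomial Pool.Agent.W624.Stz Wd

section prim

/-- value on a group element -/
noncomputable def cg (c : R0) (a : G0) : R0 := ev (fst0 (fun _ => a)) c

theorem cg_dep {c : R0} (hc : cut Empty 1 c = c) (γ : ℕ → G0) : ev (fst0 γ) c = cg c (γ 0) := by
  refine dep_of_cut hc _ _ ⟨fun a ha => ?_, Subsingleton.elim _ _⟩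
  obtain rfl : a = 0 := by omega
  rfl

theorem cg_mul {c : R0} (hc : cut Empty 1 c = c) (hd : dd (kun : Empty → Kd) 1 c = 0) (a b : G0) :
    cg c (a * b) = cg c a + cg c b := by
  set γ : ℕ → G0 := fun k => if k = 0 then a else b with hγ
  have h := congrArg (ev (fst0 γ)) hd
  rw [map_zero, dd_apply, map_sum, sum_range_succ, sum_range_succ, sum_range_one, ev_map, ev_map,
    ev_map, mP_fc, mP_fc, mP_fc, mP_uni, fc_zero, fc_mid _ (by omega), fc_last _ (by omega)] at h
  have e0 : ev ((fun k => (fst0 γ).1 (k + 1), (fst0 γ).2) : Pt Empty R0) c = cg c b := by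
    have := cg_dep hc (fun k => γ (k + 1))
    rw [show γ (0 + 1) = b from if_neg (by omega)] at this
    exact this
  have e1 : ev ((mrg 0 (fst0 γ).1, (fst0 γ).2) : Pt Empty R0) c = cg c (a * b) := by
    have := cg_dep hc (mrg 0 γ)
    rw [mrg_eq, show γ 0 = a from if_pos rfl, show γ (0 + 1) = b from if_neg (by omega)] at this
    exact this
  have e2 : ev (((fst0 γ).1, act (kun : Empty → Kd) ((fst0 γ).1 1) (fst0 γ).2) : Pt Empty R0) c
      = cg c a := by
    have := cg_dep hc γ
    rw [show γ 0 = a from if_pos rfl] at this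
    rw [← this]
    refine congrArg (fun z => ev z c) (Prod.ext rfl (Subsingleton.elim _ _))
  rw [e0, e1, e2] at h
  linear_combination h - (cg c b + cg c a) * two_R0

theorem cg_one {c : R0} (hc : cut Empty 1 c = c) (hd : dd (kun : Empty → Kd) 1 c = 0) :
    cg c 1 = 0 := by
  have := cg_mul hc hd 1 1
  rw [mul_one] at this
  exact left_eq_add.mp this

theorem cg_hom (θ : R0 →ₐ[ZMod 2] R0) (c : R0) (a : G0) : θ (cg c a) = cg c (mT θ a) := by
  rw [cg, ev_map, mP_fst0]; rfl

/-- last vertex -/
def la (l : List ℕ) : ℕ := l.getLastD 0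

theorem la_snoc (l : List ℕ) (b : ℕ) : la (l ++ [b]) = b := by simp [la]

theorem la_map {l : List ℕ} (h : l ≠ []) (σ : ℕ → ℕ) : la (l.map σ) = σ (la l) := by
  rcases List.eq_nil_or_concat' l with rfl | ⟨l, b, rfl⟩
  · exact absurd rfl h
  · rw [List.map_append, List.map_cons, List.map_nil, la_snoc, la_snoc]

theorem le_la {l : List ℕ} (hl : Inc l) {a : ℕ} (ha : a ∈ l) : a ≤ la l := by
  rcases List.eq_nil_or_concat' l with rfl | ⟨l, b, rfl⟩
  · simp at ha
  · rw [la_snoc]
    rcases List.mem_append.mp ha with h | h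
    · exact (List.pairwise_append.mp hl).2.2 a h b (by simp) |>.le
    · rw [List.mem_singleton] at h
      exact h.le

theorem la_le {l l' : List ℕ} (hl : Inc l) (h : l'.Sublist l) (h' : l' ≠ []) : la l' ≤ la l := by
  rcases List.eq_nil_or_concat' l' with rfl | ⟨m, b, rfl⟩
  · exact absurd rfl h'
  · rw [la_snoc]
    exact le_la hl (h.subset (by simp))

/-- the primitive function of `c` on the vertices -/
noncomputable def yc (c : R0) (γ : ℕ → G0) (j : ℕ) : R0 := cg c (pa γ 0 j)

theorem yc_sub {c : R0} (hc : cut Empty 1 c = c) (hd : dd (kun : Empty → Kd) 1 c = 0)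
    (γ : ℕ → G0) {i j : ℕ} (h : i ≤ j) : cg c (pa γ i j) = yc c γ i + yc c γ j := by
  have := cg_mul hc hd (pa γ 0 i) (pa γ i j)
  rw [pa_mul γ (Nat.zero_le _) h] at this
  rw [yc, yc]
  linear_combination this - (cg c (pa γ 0 j) - cg c (pa γ i j)) * two_R0

theorem yl_la (y : ℕ → R0) {l : List ℕ} (h : l ≠ []) : yl y l = y (la l) := by
  rcases List.eq_nil_or_concat' l with rfl | ⟨l, b, rfl⟩
  · exact absurd rfl h
  · rw [yl_snoc, la_snoc]

theorem yl_sub {c : R0} (hc : cut Empty 1 c = c) (hd : dd (kun : Empty → Kd) 1 c = 0)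
    (γ : ℕ → G0) {l l' : List ℕ} (hl : Inc l) (hs : l'.Sublist l) (h' : l' ≠ []) :
    cg c (pa γ (la l') (la l)) = yl (yc c γ) l' + yl (yc c γ) l := by
  have hne : l ≠ [] := by
    rintro rfl
    exact h' (List.sublist_nil.mp hs)
  rw [yc_sub hc hd γ (la_le hl hs h'), yl_la _ h', yl_la _ hne]

/-- values of a product -/
theorem val_mul {c : R0} (hc : cut Empty 1 c = c) (hd : dd (kun : Empty → Kd) 1 c = 0)
    {n : ℕ} {w : R0} (hw : cut Empty n w = w) (γ : ℕ → G0) {l : List ℕ} (hl : Inc l) :
    val (n + 1) (w * shf Empty n c) γ l = mu (val n w γ) (yc c γ) l := by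
  rcases List.eq_nil_or_concat' l with rfl | ⟨l, b, rfl⟩
  · rw [val_nil, mu, List.dropLast_nil, val_nil, zero_mul]
  rw [mu, List.dropLast_concat]
  by_cases hlen : l.length = n + 1
  · have hne : l ≠ [] := by rintro rfl; simp at hlen
    rw [val, if_pos (by simp [hlen]), val, if_pos hlen, map_mul, ev_shf]
    congr 1
    · refine dep_of_cut hw _ _ ⟨fun a ha => ?_, Subsingleton.elim _ _⟩
      change pt γ (l ++ [b]) a = pt γ l a
      rw [pt, pt, List.length_append, List.length_singleton, hlen, if_pos (by omega),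
        if_pos (by omega)]
      congr 1
      · rw [List.getD_append _ _ _ _ (by omega)]
      · rw [List.getD_append _ _ _ _ (by omega)]
    · have e1 : ev (spt n (fst0 (pt γ (l ++ [b])))) c = cg c (pt γ (l ++ [b]) (0 + n)) :=
        (congrArg (fun z => ev z c) (Prod.ext rfl (Subsingleton.elim _ _))).trans
          (cg_dep hc fun k => pt γ (l ++ [b]) (k + n))
      have e2 := yl_sub hc hd γ hl (List.sublist_append_left l [b]) hne
      rw [e1, add_comm (yl _ _), ← e2, zero_add, pt, List.length_append, List.length_singleton, hlen,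
        if_pos (by omega)]
      congr 2
      · rcases List.eq_nil_or_concat' l with rfl | ⟨m, d, rfl⟩
        · exact absurd rfl hne
        · rw [List.length_append, List.length_singleton] at hlen
          have hm : m.length = n := by omega
          rw [la_snoc, List.append_assoc, List.getD_append_right _ _ _ _ (by omega), hm,
            Nat.sub_self]
          rfl
      · rw [la_snoc, List.getD_append_right _ _ _ _ (by omega), hlen, Nat.sub_self]
        rfl
  · rw [val, if_neg (by simp; omega), val, if_neg hlen, zero_mul]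

/-- the natural correction terms -/
noncomputable def NX (p : ℕ) (x c : R0) (γ : ℕ → G0) (l : List ℕ) : List ℕ → R0 :=
  fun l' => val p x γ l' * cg c (pa γ (la l') (la l))

noncomputable def NU (p : ℕ) (x c : R0) (γ : ℕ → G0) (l : List ℕ) : R0 :=
  WW (val p x γ) (NX p x c γ l) l

noncomputable def NT (p : ℕ) (x c : R0) (γ : ℕ → G0) (l : List ℕ) : R0 :=
  WW (NX p x c γ l) (val (p + 1) (x * shf Empty p c) γ) l

noncomputable def NM (p : ℕ) (x c : R0) (γ : ℕ → G0) (l : List ℕ) : R0 :=
  NU p x c γ l.dropLast * cg c (pa γ (la l.dropLast) (la l))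

theorem NX_hom (θ : R0 →ₐ[ZMod 2] R0) (p : ℕ) (x c : R0) (γ : ℕ → G0) (l l' : List ℕ) :
    θ (NX p x c γ l l') = NX p x c (fun a => mT θ (γ a)) l l' := by
  rw [NX, NX, map_mul, val_hom, cg_hom, pa, pa, mT_pr]

theorem NX_map {σ : ℕ → ℕ} (hσ : Monotone σ) (p : ℕ) (x c : R0) (γ : ℕ → G0) {l l' : List ℕ}
    (hl : Inc l) (hs : l'.Sublist l) :
    NX p x c γ (l.map σ) (l'.map σ) = NX p x c (pb σ γ) l l' := by
  rw [NX, NX, val_map hσ p x γ (hl.sub hs)]
  by_cases h' : l' = []
  · subst h'
    rw [val_nil, zero_mul, zero_mul]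
  · have hne : l ≠ [] := by
      rintro rfl
      exact h' (List.sublist_nil.mp hs)
    rw [la_map h', la_map hne, pa_pb hσ γ (la_le hl hs h')]

theorem Ntl_NU (p : ℕ) (x c : R0) : Ntl (NU p x c) := by
  refine ⟨fun θ γ l => ?_, fun σ hσ γ l hl hl' => ?_⟩
  · refine (CC_hom (θ : R0 →+* R0) _ _ l).trans (CC_congr (fun l' _ => val_hom θ p x γ l')
      (fun l' _ => NX_hom θ p x c γ l l'))
  · rw [NU, CC_map]
    exact CC_congr (fun l' hs => val_map hσ p x γ (hl.sub hs))
      (fun l' hs => NX_map hσ p x c γ hl hs)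

theorem Ntl_NT (p : ℕ) (x c : R0) : Ntl (NT p x c) := by
  refine ⟨fun θ γ l => ?_, fun σ hσ γ l hl hl' => ?_⟩
  · refine (CC_hom (θ : R0 →+* R0) _ _ l).trans (CC_congr (fun l' _ => NX_hom θ p x c γ l l')
      (fun l' _ => val_hom θ (p + 1) _ γ l'))
  · rw [NT, CC_map]
    exact CC_congr (fun l' hs => NX_map hσ p x c γ hl hs)
      (fun l' hs => val_map hσ (p + 1) _ γ (hl.sub hs))

theorem NU_nil (p : ℕ) (x c : R0) (γ : ℕ → G0) : NU p x c γ [] = 0 := by
  rw [NU, CC_nil, val_nil, zero_mul]

theorem Ntl_NM (p : ℕ) (x c : R0) : Ntl (NM p x c) := by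
  refine ⟨fun θ γ l => ?_, fun σ hσ γ l hl hl' => ?_⟩
  · rw [NM, NM, map_mul, (Ntl_NU p x c).hom, cg_hom, pa, pa, mT_pr]
  · rw [NM, NM, ← List.map_dropLast]
    have hs : l.dropLast.Sublist l := List.dropLast_sublist l
    rw [(Ntl_NU p x c).map σ hσ γ _ (hl.sub hs) (hl'.sub (hs.map σ))]
    by_cases h' : l.dropLast = []
    · rw [h', NU_nil, zero_mul, zero_mul]
    · have hne : l ≠ [] := by
        rintro rfl
        exact h' rfl
      rw [la_map h', la_map hne, pa_pb hσ γ (la_le hl hs h')]

theorem NU_eq {p : ℕ} {x c : R0} (hc : cut Empty 1 c = c) (hd : dd (kun : Empty → Kd) 1 c = 0)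
    (γ : ℕ → G0) {l : List ℕ} (hl : Inc l) :
    NU p x c γ l = UU (val p x γ) (yc c γ) l := by
  refine CC_congr (fun _ _ => rfl) fun l' hs => ?_
  rw [NX, Xr]
  by_cases h' : l' = []
  · subst h'
    rw [val_nil, zero_mul, zero_mul]
  · rw [yl_sub hc hd γ hl hs h']

theorem NT_eq {p : ℕ} {x c : R0} (hx : cut Empty p x = x) (hc : cut Empty 1 c = c)
    (hd : dd (kun : Empty → Kd) 1 c = 0) (γ : ℕ → G0) {l : List ℕ} (hl : Inc l) :
    NT p x c γ l = TT' (val p x γ) (yc c γ) l := by
  refine CC_congr (fun l' hs => ?_) fun l' hs => val_mul hc hd hx γ (hl.sub hs)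
  rw [NX, Xr]
  by_cases h' : l' = []
  · subst h'
    rw [val_nil, zero_mul, zero_mul]
  · rw [yl_sub hc hd γ hl hs h']

theorem NM_eq {p : ℕ} {x c : R0} (hc : cut Empty 1 c = c) (hd : dd (kun : Empty → Kd) 1 c = 0)
    (γ : ℕ → G0) {l : List ℕ} (hl : Inc l) :
    NM p x c γ l = mu (UU (val p x γ) (yc c γ)) (yc c γ) l := by
  have hs : l.dropLast.Sublist l := List.dropLast_sublist l
  rw [NM, mu, NU_eq hc hd γ (hl.sub hs)]
  by_cases h' : l.dropLast = []
  · have h0 : UU (val p x γ) (yc c γ) [] = 0 := by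
      rw [Wd.UU, CC_nil, val_nil, zero_mul]
    rw [h', h0, zero_mul, zero_mul]
  · rw [yl_sub hc hd γ hl hs h', add_comm (yl _ _)]

theorem cg_IW {c : R0} {e : ℤ} (hc : TT kun 1 e (0 : Empty → ℕ) 0 c) (i j : ℕ) :
    IW (wF (kun : Empty → Kd)) (cg c (pa γu i j)) (e, ((0 : Empty → ℕ), 0)) := by
  have hpr : ∀ i k, PMw (wF (kun : Empty → Kd)) ((0 : Empty → ℕ), 1) (pr γu i k) := by
    intro i k
    induction k with
    | zero => exact PMw_one _ _
    | succ k ih => exact PMw_mul _ _ _ _ ih (uni_PM kun _ _ _)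
  exact IW_ev (z := fst0 fun _ => pa γu i j) (fun a => hpr _ _) (fun c => c.elim) hc.iw

theorem wsum (a b : ℤ) : ((a, ((0 : Empty → ℕ), 0)) : ℤ × ((Empty → ℕ) × ℕ)) +
    (b, ((0 : Empty → ℕ), 0)) = (a + b, ((0 : Empty → ℕ), 0)) := by
  refine Prod.ext rfl (Prod.ext ?_ rfl)
  exact Subsingleton.elim _ _

/-- value of the primitive element -/
theorem shf_cg {c : R0} (hc : cut Empty 1 c = c) (n : ℕ) : shf Empty n c = cg c (γu n) := by
  rw [shf_uni]
  have := cg_dep hc (fun k => γu (k + n))
  rw [zero_add] at this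
  rw [← this]
  exact congrArg (fun z => ev z c) (Prod.ext rfl (Subsingleton.elim _ _))

/-- **Cartan formula for products with a primitive element** -/
theorem sqR_cartan {p n : ℕ} {t e : ℤ} {x c : R0} (hx : HC p t x) (hc : HC 1 e c) :
    Bd (n + 2) (2 * (t + e)) (sqR (p + 1) (n + 2) (x * shf Empty p c) +
      (sqR p (n + 1) x * shf Empty (n + 1) (c ^ 2)
        + sqR p n x * shf Empty n (c * shf Empty 1 c))) := by
  have hI : ∀ {m : ℕ} {l : List ℕ}, l.Sublist (List.range m) → Inc l :=
    fun hl => (inc_range _).sub hl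
  set X := val p x γu with hX
  set y := yc c γu with hy
  have hdX : ∀ l, l.Sublist (List.range (n + 3)) → dL X l = 0 := by
    intro l hl
    rw [hX, del_val hx.cu γu (hI hl), hx.cl, val_zero]
  have key := cartan two_R0 X y (List.range (n + 3)) hdX
  have hN : Ntl (fun γ => NM p x c γ + NT p x c γ) := (Ntl_NM p x c).add (Ntl_NT p x c)
  have hdd := hN.dd (n + 1)
  have e1 : sqR (p + 1) (n + 2) (x * shf Empty p c) = WW (mu X y) (mu X y) (List.range (n + 3)) :=
    CC_congr (fun l hl => val_mul hc.cu hc.cl hx.cu γu (hI hl))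
      (fun l hl => val_mul hc.cu hc.cl hx.cu γu (hI hl))
  have e2 : dL (NM p x c γu + NT p x c γu) (List.range (n + 3))
      = dL (mu (UU X y) y + TT' X y) (List.range (n + 3)) := by
    refine dL_congr fun l hl => ?_
    rw [Pi.add_apply, Pi.add_apply, NM_eq hc.cu hc.cl γu (hI hl),
      NT_eq hx.cu hc.cu hc.cl γu (hI hl)]
  have hr : ∀ m, (List.range (m + 1)).dropLast = List.range m := by
    intro m
    rw [List.range_succ, List.dropLast_concat]
  have hyl : ∀ m, yl y (List.range (m + 1)) = y m := by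
    intro m
    rw [List.range_succ, yl_snoc]
  have hstep : ∀ m, y (m + 1) + y m = shf Empty m c := by
    intro m
    rw [shf_cg hc.cu, add_comm, hy, ← yc_sub hc.cu hc.cl γu (Nat.le_succ m), pa_succ]
  have e3 : mu (WW X X) (fun a => y a ^ 2) (List.range (n + 3))
      = sqR p (n + 1) x * shf Empty (n + 1) (c ^ 2) := by
    rw [mu, hr, yl_sq, yl_sq, hyl, hyl, ← sq_add, hstep, map_pow]
    rfl
  have e4 : mu (mu (WW X X) y) y (List.range (n + 3))
      = sqR p n x * shf Empty n (c * shf Empty 1 c) := by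
    rw [mu, hr, mu, hr, hyl, hyl, hyl, hstep, hstep, map_mul, shf_shf]
    rw [mul_assoc]
    rfl
  refine ⟨(fun γ => NM p x c γ + NT p x c γ) γu (List.range (n + 2)), ⟨hN.cu (n + 1), ?_⟩, ?_⟩
  · have hv := val_TT hx.TT
    have hxc : TT kun (p + 1) (t + e) (0 : Empty → ℕ) 0 (x * shf Empty p c) :=
      TT_prod hx.TT hc.TT
    have hv' := val_TT hxc
    have hNX : ∀ l l', IW (wF (kun : Empty → Kd)) (NX p x c γu l l')
        (t + e, ((0 : Empty → ℕ), 0)) := by
      intro l l'
      have := (hv l').mul (cg_IW hc.TT (la l') (la l))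
      rwa [wsum] at this
    have hNU : ∀ l, IW (wF (kun : Empty → Kd)) (NU p x c γu l)
        (t + (t + e), ((0 : Empty → ℕ), 0)) := by
      intro l
      have := CC_IW hv (hNX l) l
      rwa [wsum] at this
    change IW _ (NM p x c γu (List.range (n + 2)) + NT p x c γu (List.range (n + 2))) _
    refine MvPolynomial.IsWeightedHomogeneous.add ?_ ?_
    · have := (hNU (List.range (n + 2)).dropLast).mul
        (cg_IW hc.TT (la (List.range (n + 2)).dropLast) (la (List.range (n + 2))))
      rw [wsum] at this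
      rw [show 2 * (t + e) = t + (t + e) + e by ring]
      exact this
    · have := CC_IW (hNX (List.range (n + 2))) hv' (List.range (n + 2))
      rw [wsum] at this
      rw [show 2 * (t + e) = (t + e) + (t + e) by ring]
      exact this
  · change dd kun (n + 1) ((fun γ => NM p x c γ + NT p x c γ) γu (List.range (n + 2))) = _
    rw [hdd]
    change dL (NM p x c γu + NT p x c γu) (List.range (n + 3)) = _
    rw [e2, e1, key, e3, e4]
    linear_combination (-(sqR p (n + 1) x * shf Empty (n + 1) (c ^ 2)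
      + sqR p n x * shf Empty n (c * shf Empty 1 c))) * two_R0

/-- the lowest square is the Frobenius -/
theorem sqR_self {p : ℕ} {x : R0} (hx : cut Empty p x = x) : sqR p p x = x ^ 2 := by
  have main : ∀ (L : List ℕ) (F G : List ℕ → R0), (∀ l, l.length ≠ L.length → F l = 0) →
      (∀ l, l.length ≠ L.length → G l = 0) → WW F G L = F L * G L := by
    intro L
    induction L with
    | nil => intro F G _ _; rw [CC_nil]
    | cons m L ih =>
      intro F G hF hG
      rw [CC_cons, ih (pre G m) (pre F m) (fun l hl => hG _ (by simpa using hl))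
        (fun l hl => hF _ (by simpa using hl)),
        (CC_zero_of (F := G) (G := pre F m) fun l hl => hG l (by
          have := hl.length_le
          rw [List.length_cons]; omega)).2, zero_add]
      exact mul_comm _ _
  have h1 : ∀ l, l.length ≠ (List.range (p + 1)).length → val p x γu l = 0 := by
    intro l hl
    rw [List.length_range] at hl
    rw [val, if_neg hl]
  rw [sqR, cupA, main _ _ _ h1 h1]
  have := val_range (n := p) hx
  rw [this, sq]

end prim

end Pool.Agent.H59K
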