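import Pool.Agent.H59K.MJ

/-!
# Project D3 (helper59, MP_701abf_gt): statement of the piece MON

`jo x` is the image of the cochain `x : Cob n` in the big polynomial ring `RR Empty`; `HC n t f`: `f` is
a homogeneous cocycle of the line `n` and degree `t`; `Bd n t f`: `f` is a homogeneous coboundary;
`f * shf Empty a g` is the product `[f | g]` if `f` is on the line `a`; `mon m i` is the product
`h_{i 0} h_{i 1} ⋯ h_{i m}` (class of the cocycle `[ξ₁^(2^i 0) | ⋯ | ξ₁^(2^i m)]`).
-/

set_option autoImplicit false

namespace Pool.Agent.H59K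

open Pool.Agent.W624.NS Finset
open Pool.Agent.W624.Stz (RR)

/-- Commutativity of the product (proved by helper59 in another file). -/
def S_COMM : Prop :=
  ∀ (a b : ℕ) (t u : ℤ) (f g : RR Empty), HC a t f → HC b u g →
    Bd (a + b) (t + u) (f * shf Empty a g + g * shf Empty b f)

/-- Piece MON (file `Pool/Agent/H59K/Mon.lean`, `theorem t_MON (h : S_COMM) : S_MON`).
A polynomial `f` in members of finitely many families, on the line `m + 1`, of degree `T`: either `T` is a
sum of at most `m` numbers `2 ^ k * d` with `0 < d ≤ D`, or `f` is a coboundary, or up to a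
coboundary `f` is the monomial `h_{i 0} ⋯ h_{i m}` with gaps at least `G`.
Proof. By `PlR.SM_or` (MD.lean) and induction on `SM` (KZ.lean) `f` is, up to a coboundary, a sum of monomials
(`Mo F (m + 1) T z L`; `Mo.sum`: the sum of the list `L` is `T`; `Mo.len`: `L.length ≤ m + 1`; `Mo.bound`
with `exists_D`: the multipliers are at most `D₀`). If one of the monomials has `L.length ≤ m`, the first
alternative holds. Otherwise each of them has `m + 1` factors; by induction on `Mo` each factor is on the
line `1` (the number of factors is at most the line in each subproduct), so by `line_one` (MB.lean; line 1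
cocycle `f ≠ 0` of positive degree is `hZ i`; `hZ_iter`, KM.lean) it is `hZ i` for some `i`. So `jo z` is
the product of the `jo (hZ (i k)).1` in some order (a list `I` of `m + 1` exponents, `T = ∑ 2 ^ i`; e.g. define
`prodH : List ℕ → RR Empty`, `prodH (i :: I) = jo (hZ i).1 * shf Empty 1 (prodH I)`; the product of two such is
the one of the appended lists, as in `prodR_append`, MD.lean). If two exponents `i ≤ i'` of the list have
`i' < i + G`, then `2 ^ i + 2 ^ i' = 2 ^ i * (1 + 2 ^ (i' - i))`, so `T` is a sum of `m` numbers with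
multipliers at most `1 + 2 ^ G`: first alternative with `D = D₀ + 2 ^ G + 1`. Otherwise (`G` may be assumed
`≥ 1`) the exponents are distinct with gaps at least `G`; by `h : S_COMM` (adjacent transpositions:
`HC` of the factors by `HC_prod`, `HC_jo`, `isHom_hZ`; `Bd_prod_left`, `Bd_prod_right`, KI.lean) the product is up to
a coboundary the one of the sorted (decreasing) list, and the sorted list is determined by `T` (sums of
distinct powers of two), hence the same for all the monomials in the sum. So up to a coboundary `f` is
a multiple (0 or 1) of `jo (mon m i).1` (`mon`, KDefs.lean: `mon (n+1) i = mulZ (mon n i) (hZ (i (n+1)))`,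
`jo_mulZ` in KM.lean; `jo_add`; in characteristic two `f + f = 0`: `p2_add_self`). -/
def S_MON : Prop :=
  ∀ (F : (n : ℕ) → Set (Z n)), (∀ n, (F n).Finite) → ∀ m G : ℕ, ∃ D : ℕ, ∀ (T : ℕ) (f : RR Empty),
    PlR F (m + 1) (T : ℤ) f →
    (∃ L : List (ℕ × ℕ), L.length ≤ m ∧ (∀ p ∈ L, 0 < p.2 ∧ p.2 ≤ D) ∧
      (L.map fun p => 2 ^ p.1 * p.2).sum = T) ∨
    Bd (m + 1) (T : ℤ) f ∨
    ∃ i : ℕ → ℕ, (∀ k < m, i (k + 1) + G ≤ i k) ∧ ∑ k ∈ range (m + 1), 2 ^ i k = T ∧
      Bd (m + 1) (T : ℤ) (f + jo (mon m i).1)

end Pool.Agent.H59K
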