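import Pool.Agent.H59K.NE
import Pool.Agent.H59K.S4

/-!
# Commutativity of the product
-/

set_option autoImplicit false
set_option linter.unusedSectionVars false

namespace Pool.Agent.H59K

open Finset MvPolynomial Pool.Agent.W624.Stz Wd

section comm

variable {A : Type*} [CommRing A] {α : Type*}

/-- supported in one length -/
def Sup (f : ℕ) (F : List α → A) : Prop := ∀ l, l.length ≠ f → F l = 0

theorem Sup.pre {f : ℕ} {F : List α → A} (h : Sup (f + 1) F) (m : α) : Sup f (Wd.pre F m) :=
  fun l hl => h _ (by simpa using hl)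

theorem Sup.pre0 {F : List α → A} (h : Sup 0 F) (m : α) (l : List α) : Wd.pre F m l = 0 :=
  h _ (by simp)

theorem WW_small : ∀ (L : List α) (f g : ℕ) (F G : List α → A), Sup f F → Sup g G →
    (f + g < L.length ∨ (f + g = L.length ∧ 1 ≤ g)) → WW F G L = 0 := by
  intro L
  induction L with
  | nil => intro f g F G _ _ h; simp at h; omega
  | cons m L ih =>
    intro f g F G hF hG h
    rw [List.length_cons] at h
    rw [CC_cons]
    rcases Nat.eq_zero_or_pos f with rfl | hf
    · rw [(CC_zero_of fun l _ => hF.pre0 m l).1, (CC_zero_of fun l _ => hF.pre0 m l).2, add_zero]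
    obtain ⟨f, rfl⟩ := Nat.exists_eq_add_of_le' hf
    rw [ih f g _ _ (hF.pre m) hG (by omega), zero_add]
    rcases Nat.eq_zero_or_pos g with rfl | hg
    · exact (CC_zero_of fun l _ => hG.pre0 m l).1
    obtain ⟨g, rfl⟩ := Nat.exists_eq_add_of_le' hg
    exact ih g f _ _ (hG.pre m) (hF.pre m) (by omega)

theorem WW_nil_right : ∀ (L : List α) (F G : List α → A), Sup 0 G → WW F G L = F L * G [] := by
  intro L
  induction L with
  | nil => intro F G _; rw [CC_nil]
  | cons m L ih =>
    intro F G hG
    rw [CC_cons, ih _ _ hG, (CC_zero_of fun l _ => hG.pre0 m l).1, add_zero]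
    rfl

theorem WW_first : ∀ (p q : ℕ) (L : List α) (F G : List α → A), Sup (p + 1) F → Sup (q + 1) G →
    L.length = p + q + 1 → WW F G L = F (L.take (p + 1)) * G (L.drop p) := by
  intro p
  induction p with
  | zero =>
    intro q L F G hF hG hL
    cases L with
    | nil => simp at hL
    | cons m L =>
      rw [List.length_cons] at hL
      have h1 : WW (Wd.pre F m) G L = 0 := by
        refine (CC_zero_of fun l hl => hG l ?_).2
        have := hl.length_le
        omega
      rw [CC_cons, h1, zero_add, WW_nil_right L _ _ (hF.pre m)]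
      simp only [Wd.pre, List.take_succ_cons, List.take_zero, List.drop_zero]
      ring
  | succ p ih =>
    intro q L F G hF hG hL
    cases L with
    | nil => simp at hL
    | cons m L =>
      rw [List.length_cons] at hL
      rw [CC_cons, ih q L _ G (hF.pre m) hG (by omega),
        WW_small L q (p + 1) _ _ (hG.pre m) (hF.pre m) (by omega), add_zero]
      rfl

theorem Sup_val (p : ℕ) (x : R0) (γ : ℕ → G0) : Sup (p + 1) (val p x γ) :=
  fun _ hl => if_neg hl

theorem cupA_first {p q : ℕ} {x y : R0} (hx : cut Empty p x = x) (hy : cut Empty q y = y) :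
    cupA p q (p + q) x y = x * shf Empty p y := by
  rw [cupA, WW_first p q _ _ _ (Sup_val p x γu) (Sup_val q y γu) (by simp)]
  have h1 : (List.range (p + q + 1)).take (p + 1) = List.range (p + 1) := by
    rw [List.take_range]
    congr 1
    omega
  rw [h1, val_range hx]
  congr 1
  have h2 : (List.range (p + q + 1)).drop p = (List.range (q + 1)).map (fun k => k + p) := by
    refine List.ext_getElem (by simp; omega) fun i h1 h2 => ?_
    simp only [List.getElem_drop, List.getElem_range, List.getElem_map]
    omega
  have h3 : Monotone fun k : ℕ => k + p := fun a b h => Nat.add_le_add_right h p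
  rw [h2, val_map h3 q y γu (inc_range _)]
  have h4 : pb (fun k : ℕ => k + p) γu = (spt p (uni Empty)).1 := by
    funext k
    rw [pb, show k + 1 + p = k + p + 1 by omega, pa_succ]
    rfl
  rw [h4]
  have h5 := val_range (n := q) hy
  have h6 := congrArg (ev (spt p (uni Empty))) h5
  rw [val_hom, ← shf_uni] at h6
  rw [← h6]
  congr 1
  exact (congrArg Prod.fst (mP_uni (spt p (uni Empty)))).symm

theorem t_COMM : S_COMM := by
  intro a b t u f g hf hg
  have e1 := cupA_first hf.cu hg.cu
  have e2 := cupA_first hg.cu hf.cu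
  rcases Nat.eq_zero_or_pos (a + b) with h0 | h0
  · obtain ⟨rfl, rfl⟩ : a = 0 ∧ b = 0 := by omega
    rw [shf_zero, shf_zero, mul_comm g f, p2_add_self]
    exact Bd.zero
  · obtain ⟨n, hn⟩ := Nat.exists_eq_add_of_le' h0
    have e3 := cupA_dd (n := n) hf.cu hg.cu
    rw [hf.cl, hg.cl, cupA_zl, cupA_zr, zero_add, zero_add] at e3
    rw [hn] at e1 ⊢
    rw [add_comm b a, hn] at e2
    refine ⟨cupA a b n f g, cupA_TT hf.TT hg.TT, ?_⟩
    change dd kun n _ = _
    rw [e3, e1, e2]

end comm

end Pool.Agent.H59K
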