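import Pool.Agent.H59K.NF

/-!
# Iterated squares of products
-/

set_option autoImplicit false
set_option linter.unusedSectionVars false

namespace Pool.Agent.H59K

open Finset MvPolynomial Pool.Agent.W624.Stz Wd

section expand

/-- `Sq¹ Sq¹ v + Sq² Sq⁰ v` -/
noncomputable def Pv (p : ℕ) (v : R0) : R0 := sqR (p + 1) (p + 2) (cupR p v) + sqR p (p + 2) (v ^ 2)

/-- `Sq² Sq¹ v` -/
noncomputable def Qv (p : ℕ) (v : R0) : R0 := sqR (p + 1) (p + 3) (cupR p v)

noncomputable def K2 (c : R0) : R0 := c ^ 2 * shf Empty 1 (c ^ 2)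

noncomputable def K3 (c : R0) : R0 :=
  c * shf Empty 1 c * shf Empty 2 (c ^ 2) + c ^ 2 * shf Empty 1 c * shf Empty 2 c

noncomputable def K4 (c : R0) : R0 := c * shf Empty 1 c * shf Empty 2 c * shf Empty 3 c

theorem Bd.cast {n : ℕ} {t t' : ℤ} {f f' : R0} (h : Bd n t f) (ht : t = t') (hf : f = f') :
    Bd n t' f' := by rw [← ht, ← hf]; exact h

theorem HC.cast {n : ℕ} {t t' : ℤ} {f : R0} (h : H59K.HC n t f) (ht : t = t') :
    H59K.HC n t' f := by rw [← ht]; exact h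

variable {p : ℕ} {t e : ℤ} {v c : R0}

theorem expand_P (hv : HC p t v) (hc : HC 1 e c) (hc1 : cupR 1 c = c * shf Empty 1 c) :
    Bd (p + 3) (4 * (t + e)) (Pv (p + 1) (v * shf Empty p c) +
      (Pv p v * shf Empty (p + 2) (c ^ 4) + cupR p v ^ 2 * shf Empty (p + 1) (K2 c)
        + v ^ 4 * shf Empty p (K3 c))) := by
  have ha : HC (p + 1) (2 * t) (cupR p v) := HC_cup hv
  have hv2 : HC p (2 * t) (v ^ 2) := hv.sq
  have hc2 : HC 1 (2 * e) (c ^ 2) := hc.sq
  have hu : HC (p + 1) (2 * t + e) (v ^ 2 * shf Empty p c) := HC_prod (a := p) (b := 1) hv2 hc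
  have hcup : cupR (p + 1) (v * shf Empty p c)
      = cupR p v * shf Empty (p + 1) (c ^ 2) + v ^ 2 * shf Empty p c * shf Empty (p + 1) c := by
    rw [cupR_prod hv.cu hv.cl hc.cu hc.cl, hc1, map_mul, shf_shf, map_pow, mul_assoc]
  have hb4 := sqR_cartan (p := p) (n := p + 1) hv2 hc2
  have hb3 := Bd_prod_left (a := p + 2) (b := 1) (sqR_cartan (p := p) (n := p) hv2 hc) hc2
  rw [sqR_self hv2.cu] at hb3
  generalize hgu : v ^ 2 * shf Empty p c = u at hu hcup hb3
  generalize hga : cupR p v = a at ha hcup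
  have hf1 : HC (p + 2) (2 * t + 2 * e) (a * shf Empty (p + 1) (c ^ 2)) :=
    HC_prod (a := p + 1) (b := 1) ha hc2
  have hf2 : HC (p + 2) (2 * t + 2 * e) (u * shf Empty (p + 1) c) :=
    (HC_prod (a := p + 1) (b := 1) hu hc).cast (by ring)
  have b0 := sqR_add (n := p + 2) hf1 hf2
  have b1 := sqR_cartan (p := p + 1) (n := p + 1) ha hc2
  have b2 := sqR_cartan (p := p + 1) (n := p + 1) hu hc
  rw [sqR_self ha.cu] at b1
  rw [sqR_self hu.cu] at b2
  have e0 : 2 * (2 * t + 2 * e) = 4 * (t + e) := by ring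
  have e1 : 2 * (2 * t + e + e) = 4 * (t + e) := by ring
  have e2 : 2 * (2 * t + e) + 2 * e = 4 * (t + e) := by ring
  rw [e0] at b0 b1 hb4
  rw [e1] at b2
  rw [e2] at hb3
  have hsum := (((b0.add b1).add b2).add hb3).add hb4
  refine hsum.cast rfl ?_
  rw [Pv, Pv, hcup, hga, mul_pow, ← map_pow, K2, K3]
  simp only [Nat.add_assoc, Nat.reduceAdd]
  generalize sqR (p + 2) (p + 3) (a * shf Empty (p + 1) (c ^ 2) + u * shf Empty (p + 1) c) = X1
  generalize sqR (p + 1) (p + 3) (v ^ 2 * shf Empty p (c ^ 2)) = X2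
  generalize sqR (p + 2) (p + 3) (a * shf Empty (p + 1) (c ^ 2)) = X3
  generalize sqR (p + 2) (p + 3) (u * shf Empty (p + 1) c) = X4
  generalize sqR (p + 1) (p + 2) u = X5
  generalize sqR (p + 1) (p + 2) a = X6
  generalize sqR p (p + 1) (v ^ 2) = X7
  generalize sqR p (p + 2) (v ^ 2) = X8
  rw [← hgu]
  simp only [map_mul, map_pow, map_add, shf_shf, mul_pow, ← pow_mul]
  simp only [Nat.add_assoc, Nat.reduceAdd, Nat.reduceMul]
  linear_combination (X3 + X4 + X5 * (shf Empty (p + 2)) c ^ 2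
    + X7 * (shf Empty (p + 1)) c ^ 2 * (shf Empty (p + 2)) c ^ 2) * two_R0

theorem expand_Q (hv : HC p t v) (hc : HC 1 e c) (hc1 : cupR 1 c = c * shf Empty 1 c) :
    Bd (p + 4) (4 * (t + e)) (Qv (p + 1) (v * shf Empty p c) +
      (Qv p v * shf Empty (p + 3) (c ^ 4) + Pv p v * shf Empty (p + 2) (K2 c)
        + sqR p (p + 1) (v ^ 2) * shf Empty (p + 1) (K3 c) + v ^ 4 * shf Empty p (K4 c))) := by
  have ha : HC (p + 1) (2 * t) (cupR p v) := HC_cup hv
  have hv2 : HC p (2 * t) (v ^ 2) := hv.sq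
  have hc2 : HC 1 (2 * e) (c ^ 2) := hc.sq
  have hcc : HC 2 (2 * e) (c * shf Empty 1 c) := by rw [← hc1]; exact HC_cup hc
  have hu : HC (p + 1) (2 * t + e) (v ^ 2 * shf Empty p c) := HC_prod (a := p) (b := 1) hv2 hc
  have hcup : cupR (p + 1) (v * shf Empty p c)
      = cupR p v * shf Empty (p + 1) (c ^ 2) + v ^ 2 * shf Empty p c * shf Empty (p + 1) c := by
    rw [cupR_prod hv.cu hv.cl hc.cu hc.cl, hc1, map_mul, shf_shf, map_pow, mul_assoc]
  have hb3 := Bd_prod_left (a := p + 3) (b := 1) (sqR_cartan (p := p) (n := p + 1) hv2 hc) hc2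
  have hb4 := Bd_prod_left (a := p + 2) (b := 2) (sqR_cartan (p := p) (n := p) hv2 hc) hcc
  rw [sqR_self hv2.cu] at hb4
  generalize hgu : v ^ 2 * shf Empty p c = u at hu hcup hb3 hb4
  generalize hga : cupR p v = a at ha hcup
  have hf1 : HC (p + 2) (2 * t + 2 * e) (a * shf Empty (p + 1) (c ^ 2)) :=
    HC_prod (a := p + 1) (b := 1) ha hc2
  have hf2 : HC (p + 2) (2 * t + 2 * e) (u * shf Empty (p + 1) c) :=
    (HC_prod (a := p + 1) (b := 1) hu hc).cast (by ring)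
  have b0 := sqR_add (n := p + 3) hf1 hf2
  have b1 := sqR_cartan (p := p + 1) (n := p + 2) ha hc2
  have b2 := sqR_cartan (p := p + 1) (n := p + 2) hu hc
  have e0 : 2 * (2 * t + 2 * e) = 4 * (t + e) := by ring
  have e1 : 2 * (2 * t + e + e) = 4 * (t + e) := by ring
  have e2 : 2 * (2 * t + e) + 2 * e = 4 * (t + e) := by ring
  rw [e0] at b0 b1
  rw [e1] at b2
  rw [e2] at hb3 hb4
  have hsum := (((b0.add b1).add b2).add hb3).add hb4
  refine hsum.cast rfl ?_
  rw [Qv, Qv, Pv, hcup, hga, K2, K3, K4]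
  simp only [Nat.add_assoc, Nat.reduceAdd]
  generalize sqR (p + 2) (p + 4) (a * shf Empty (p + 1) (c ^ 2) + u * shf Empty (p + 1) c) = X1
  generalize sqR (p + 2) (p + 4) (a * shf Empty (p + 1) (c ^ 2)) = X2
  generalize sqR (p + 2) (p + 4) (u * shf Empty (p + 1) c) = X3
  generalize sqR (p + 1) (p + 3) a = X4
  generalize sqR (p + 1) (p + 2) a = X5
  generalize sqR (p + 1) (p + 3) u = X6
  generalize sqR (p + 1) (p + 2) u = X7
  generalize sqR p (p + 1) (v ^ 2) = X8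
  generalize sqR p (p + 2) (v ^ 2) = X9
  simp only [map_mul, map_pow, map_add, shf_shf, mul_pow, ← pow_mul]
  simp only [Nat.add_assoc, Nat.reduceAdd, Nat.reduceMul]
  linear_combination (X2 + X3 + X6 * (shf Empty (p + 3)) c ^ 2
    + X7 * (shf Empty (p + 2)) c * (shf Empty (p + 3)) c) * two_R0

end expand

end Pool.Agent.H59K
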