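import Pool.Agent.H59K.NG

/-!
# Splitting nilpotent sums; non-nilpotence of the iterated squares of products
-/

set_option autoImplicit false
set_option linter.unusedSectionVars false

namespace Pool.Agent.H59K

open Finset MvPolynomial Pool.Agent.W624.Stz Wd

/-- some `2^i`-th power is a coboundary -/
def EvB (n : ℕ) (t : ℤ) (f : R0) : Prop := ∃ i : ℕ, Bd n (2 ^ i * t) (f ^ 2 ^ i)

theorem split_nil (P : ℕ) : ∃ A : ℕ, ∀ (ι : Type) [Fintype ι] (y x : ι → R0) (l b : ι → ℕ)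
    (t a : ℕ), A ≤ a → 0 < t → Function.Injective l → (∀ k, l k + b k = P) →
    (∀ k, HC (l k + 1) (t : ℤ) (y k)) → (∀ k, HC (b k) 4 (x k)) →
    EvB (P + 1) (4 + 2 ^ a * (t : ℤ)) (∑ k, y k ^ 2 ^ a * shf Empty (l k + 1) (x k)) →
    ∀ k, EvB (l k + 1) (t : ℤ) (y k) ∨ EvB (b k) 4 (x k) := by
  obtain ⟨r0, hr0⟩ := nilR (P + 1)
  have he : 2 * ((2 : ℤ) ^ r0 * 4) < 2 ^ (r0 + 4) := by
    have : (0 : ℤ) < 2 ^ r0 := by positivity
    rw [pow_add]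
    linarith
  obtain ⟨r, hr⟩ := multi_term P (r0 + 4) (2 ^ r0 * 4) he
  refine ⟨r0 + 4 + r, fun ι _ y x l b' t a ha ht hinj hlb hy hx' ⟨i, hi⟩ k => ?_⟩
  have hb' : ∀ k, b' k = P - l k := fun k => by have := hlb k; omega
  have hl : ∀ k, l k ≤ P := fun k => by have := hlb k; omega
  have hx : ∀ k, HC (P - l k) 4 (x k) := fun k => by rw [← hb' k]; exact hx' k
  obtain ⟨b, rfl⟩ : ∃ b, a = 4 + b := ⟨a - 4, by omega⟩
  set f : R0 := ∑ k, y k ^ 2 ^ (4 + b) * shf Empty (l k + 1) (x k) with hf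
  have hfH : HC (P + 1) ((4 + 2 ^ (4 + b) * t : ℕ) : ℤ) f := by
    refine HC.sum univ fun k _ => ?_
    have h1 := HC_prod (a := l k + 1) (b := P - l k) ((hy k).pow (4 + b)) (hx k)
    rw [show l k + 1 + (P - l k) = P + 1 by have := hl k; omega] at h1
    refine h1.cast ?_
    push_cast
    ring
  have h2 := hr0 i (4 + 2 ^ (4 + b) * t) f hfH (by push_cast; exact hi)
  obtain ⟨q, hq, hdq⟩ := h2
  have hty : ∀ k, HC (l k + 1) (2 ^ b * (t : ℤ)) (y k ^ 2 ^ b) := fun k => (hy k).pow b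
  have htx : ∀ k, HC (P - l k) (2 ^ r0 * 4) (x k ^ 2 ^ r0) := fun k => (hx k).pow r0
  have h3 := hr (2 ^ b * (t : ℤ)) (by positivity)
    ((pow_dvd_pow 2 (show r ≤ b by omega)).mul_right _) ι (fun k => y k ^ 2 ^ b)
    (fun k => x k ^ 2 ^ r0) l hinj hl hty htx q ?_ ?_ k
  · rw [hb' k]
    rcases h3 with h3 | h3
    · exact Or.inl ⟨b, h3⟩
    · exact Or.inr ⟨r0, h3⟩
  · push_cast at hq
    have e : (2 : ℤ) ^ r0 * 4 + 2 ^ (r0 + 4) * (2 ^ b * t) = 2 ^ r0 * (4 + 2 ^ (4 + b) * t) := by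
      ring
    rw [e]
    exact hq
  · refine Eq.trans hdq ?_
    rw [hf, sum_pow0]
    refine sum_congr rfl fun k _ => ?_
    rw [mul_pow, ← map_pow, ← pow_mul, ← pow_mul, ← pow_add, ← pow_add]
    congr 3
    omega

theorem EvB.congr {n : ℕ} {t : ℤ} {f g : R0} (h : EvB n t f) (hb : Bd n t (f + g)) :
    EvB n t g := by
  obtain ⟨i, hi⟩ := h
  refine ⟨i, ?_⟩
  have h1 := hb.pow i
  rw [W624.Stz.add_pow0, add_comm] at h1
  exact h1.of_add hi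

theorem EvB.sqrt {n : ℕ} {t : ℤ} {f : R0} (h : EvB n (2 * t) (f ^ 2)) : EvB n t f := by
  obtain ⟨i, hi⟩ := h
  refine ⟨i + 1, ?_⟩
  have e1 : (2 : ℤ) ^ (i + 1) * t = 2 ^ i * (2 * t) := by ring
  rw [e1, pow_succ', pow_mul]
  exact hi

theorem EvB.cast {n : ℕ} {t t' : ℤ} {f f' : R0} (h : EvB n t f) (ht : t = t') (hf : f = f') :
    EvB n t' f' := by rw [← ht, ← hf]; exact h

/-- the cocycle of `h₀` -/
noncomputable def x0 : R0 := X (.x 0 0)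

theorem HC_x0 : HC 1 1 x0 := by
  have := HC_jo (hZ 0) (isHom_hZ 0)
  rw [jo_hZ, pow_zero, pow_one] at this
  exact this

theorem cup_x0 : cupR 1 x0 = x0 * shf Empty 1 x0 := by
  rw [x0, cup_h0, shf_x, mul_comm]

theorem HC_K1 : HC 1 4 (x0 ^ 4) := (HC_x0.pow 2).cast (by norm_num)

theorem HC_K2 : HC 2 4 (K2 x0) :=
  (HC_prod (a := 1) (b := 1) HC_x0.sq HC_x0.sq).cast (by norm_num)

theorem HC_K3 : HC 3 4 (K3 x0) :=
  ((HC_prod (a := 2) (b := 1) (HC_prod (a := 1) (b := 1) HC_x0 HC_x0) HC_x0.sq).cast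
    (by norm_num)).add ((HC_prod (a := 2) (b := 1) (HC_prod (a := 1) (b := 1) HC_x0.sq HC_x0)
      HC_x0).cast (by norm_num))

theorem HC_K4 : HC 4 4 (K4 x0) :=
  (HC_prod (a := 3) (b := 1) (HC_prod (a := 2) (b := 1) (HC_prod (a := 1) (b := 1) HC_x0 HC_x0)
    HC_x0) HC_x0).cast (by norm_num)

theorem not_K2 : ¬ EvB 2 4 (K2 x0) := by
  intro h
  have h1 : EvB 2 2 (x0 * shf Empty 1 x0) := EvB.sqrt (h.cast (by norm_num) (by
    rw [K2, mul_pow, map_pow]))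
  obtain ⟨i, hi⟩ := h1
  refine h0sq_not i ?_
  rw [← cup_h0]
  rw [← cup_x0] at hi
  exact hi

variable {p : ℕ} {t : ℤ} {v : R0}

theorem HC_Pv (hv : HC p t v) : HC (p + 2) (4 * t) (Pv p v) :=
  ((HC_sqR (n := p + 2) (HC_cup hv)).cast (by ring)).add
    ((HC_sqR (n := p + 2) hv.sq).cast (by ring))

theorem HC_Qv (hv : HC p t v) : HC (p + 3) (4 * t) (Qv p v) :=
  (HC_sqR (n := p + 3) (HC_cup hv)).cast (by ring)

theorem Pv_pow (i : ℕ) : Pv p (v ^ 2 ^ i) = Pv p v ^ 2 ^ i := by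
  rw [Pv, Pv, W624.Stz.add_pow0, cupR_pow, sqR_pow, ← pow_mul, mul_comm, pow_mul, sqR_pow]

theorem Qv_pow (i : ℕ) : Qv p (v ^ 2 ^ i) = Qv p v ^ 2 ^ i := by
  rw [Qv, Qv, cupR_pow, sqR_pow]

/-- `Sq¹ Sq¹ + Sq² Sq⁰` of a product -/
theorem nonP (q : ℕ) : ∃ A : ℕ, ∀ (t a : ℕ) (v : R0), 0 < t → HC (q + 1) (t : ℤ) v →
    ¬ EvB (q + 2) (2 * (t : ℤ)) (cupR (q + 1) v) → A ≤ a →
    ¬ EvB (q + 4) (4 * (2 ^ a * (t : ℤ) + 1))
      (Pv (q + 2) (v ^ 2 ^ a * shf Empty (q + 1) x0)) := by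
  obtain ⟨A, hA⟩ := split_nil (q + 3)
  refine ⟨A, fun t a v ht hv hn ha hE => ?_⟩
  have hw := hv.pow a
  have h1 := expand_P (p := q + 1) hw HC_x0 cup_x0
  have h2 := hE.congr h1
  rw [Pv_pow, cupR_pow] at h2
  have h3 := hA (Fin 3) ![Pv (q + 1) v, cupR (q + 1) v ^ 2, v ^ 4] ![x0 ^ 4, K2 x0, K3 x0]
    ![q + 2, q + 1, q] ![1, 2, 3] (4 * t) a ha (by omega) ?_ ?_ ?_ ?_ ?_ 1
  · rcases h3 with h3 | h3
    · refine hn (EvB.sqrt (h3.cast ?_ rfl))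
      push_cast
      ring
    · exact not_K2 h3
  · intro i j h
    fin_cases i <;> fin_cases j <;> simp at h ⊢
  · intro k
    fin_cases k <;> simp
  · intro k
    fin_cases k
    · exact (HC_Pv hv).cast (by push_cast; ring)
    · exact (HC_cup hv).sq.cast (by push_cast; ring)
    · exact (hv.pow 2).cast (by push_cast; ring)
  · intro k
    fin_cases k
    · exact HC_K1
    · exact HC_K2
    · exact HC_K3
  · refine h2.cast (by push_cast; ring) ?_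
    rw [Fin.sum_univ_three]
    change _ = Pv (q + 1) v ^ 2 ^ a * shf Empty (q + 2 + 1) (x0 ^ 4) +
      (cupR (q + 1) v ^ 2) ^ 2 ^ a * shf Empty (q + 1 + 1) (K2 x0) +
      (v ^ 4) ^ 2 ^ a * shf Empty (q + 1) (K3 x0)
    rw [← pow_mul v 4, ← pow_mul v _ 4, ← pow_mul, ← pow_mul, mul_comm 4, mul_comm 2 (2 ^ a)]

/-- `Sq² Sq¹` of a product -/
theorem nonQ (q : ℕ) : ∃ A : ℕ, ∀ (t a : ℕ) (v : R0), 0 < t → HC (q + 1) (t : ℤ) v →
    ¬ EvB (q + 3) (4 * (t : ℤ)) (Pv (q + 1) v) → A ≤ a →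
    ¬ EvB (q + 5) (4 * (2 ^ a * (t : ℤ) + 1))
      (Qv (q + 2) (v ^ 2 ^ a * shf Empty (q + 1) x0)) := by
  obtain ⟨A, hA⟩ := split_nil (q + 4)
  refine ⟨A, fun t a v ht hv hn ha hE => ?_⟩
  have hw := hv.pow a
  have h1 := expand_Q (p := q + 1) hw HC_x0 cup_x0
  have h2 := hE.congr h1
  rw [Pv_pow, Qv_pow] at h2
  have h3 := hA (Fin 4) ![Qv (q + 1) v, Pv (q + 1) v, sqR (q + 1) (q + 2) (v ^ 2), v ^ 4]
    ![x0 ^ 4, K2 x0, K3 x0, K4 x0]
    ![q + 3, q + 2, q + 1, q] ![1, 2, 3, 4] (4 * t) a ha (by omega) ?_ ?_ ?_ ?_ ?_ 1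
  · rcases h3 with h3 | h3
    · refine hn (h3.cast ?_ rfl)
      push_cast
      ring
    · exact not_K2 h3
  · intro i j h
    fin_cases i <;> fin_cases j <;> simp at h ⊢
  · intro k
    fin_cases k <;> simp
  · intro k
    fin_cases k
    · exact (HC_Qv hv).cast (by push_cast; ring)
    · exact (HC_Pv hv).cast (by push_cast; ring)
    · exact (HC_sqR (n := q + 2) hv.sq).cast (by push_cast; ring)
    · exact (hv.pow 2).cast (by push_cast; ring)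
  · intro k
    fin_cases k
    · exact HC_K1
    · exact HC_K2
    · exact HC_K3
    · exact HC_K4
  · refine h2.cast (by push_cast; ring) ?_
    rw [Fin.sum_univ_four]
    change _ = Qv (q + 1) v ^ 2 ^ a * shf Empty (q + 3 + 1) (x0 ^ 4) +
      Pv (q + 1) v ^ 2 ^ a * shf Empty (q + 2 + 1) (K2 x0) +
      sqR (q + 1) (q + 2) (v ^ 2) ^ 2 ^ a * shf Empty (q + 1 + 1) (K3 x0) +
      (v ^ 4) ^ 2 ^ a * shf Empty (q + 1) (K4 x0)
    rw [← pow_mul v 4, ← pow_mul v _ 4, ← sqR_pow, ← pow_mul v 2, ← pow_mul v _ 2, mul_comm 4,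
      mul_comm 2 (2 ^ a)]

end Pool.Agent.H59K
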