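import Pool.Agent.H59K.NH

/-!
# Iterated squares of the monomials
-/

set_option autoImplicit false
set_option linter.unusedSectionVars false

namespace Pool.Agent.H59K

open Pool.Agent.W624.NS Finset
open Pool.Agent.W624.Stz (dd kun cut TT RR IW)

/-- the degree of a monomial -/
def Sm (m : ℕ) (i : ℕ → ℕ) : ℕ := ∑ k ∈ range (m + 1), 2 ^ i k

theorem Sm_pos (m : ℕ) (i : ℕ → ℕ) : 0 < Sm m i := by
  rw [Sm, sum_range_succ]
  have : 0 < 2 ^ i m := by positivity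
  omega

theorem isHom_Sm (m : ℕ) (i : ℕ → ℕ) : IsHom (m + 1) (Sm m i) (mon m i).1 := by
  induction m with
  | zero => rw [Sm, sum_range_one]; exact isHom_hZ _
  | succ m ih =>
    rw [Sm, sum_range_succ]
    exact isHom_mul ih (isHom_hZ _)

theorem HC_mon (m : ℕ) (i : ℕ → ℕ) : HC (m + 1) (Sm m i : ℤ) (jo (mon m i).1) :=
  HC_jo _ (isHom_Sm m i)

theorem mon_norm (m A a₀ : ℕ) (i : ℕ → ℕ) (hi : ∀ k < m + 1, i (k + 1) + (A + a₀) ≤ i k) :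
    ∃ i' : ℕ → ℕ, (∀ k < m, i' (k + 1) + A ≤ i' k) ∧
      jo (mon (m + 1) i).1 = (jo (mon m i').1 ^ 2 ^ a₀ * shf Empty (m + 1) x0) ^ 2 ^ i (m + 1) ∧
      (Sm (m + 1) i : ℤ) = 2 ^ i (m + 1) * (2 ^ a₀ * (Sm m i' : ℤ) + 1) := by
  set b := i (m + 1) with hb
  let i' : ℕ → ℕ := fun k => i k - b - a₀
  have hge : ∀ k ≤ m, b + a₀ ≤ i k := by
    intro k hk
    have h1 := gap_mono hi k (by omega)
    have h2 : 1 ≤ m + 1 - k := by omega
    have h3 : 1 * (A + a₀) ≤ (m + 1 - k) * (A + a₀) := Nat.mul_le_mul_right _ h2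
    omega
  refine ⟨i', ?_, ?_, ?_⟩
  · intro k hk
    have h1 := hi k (by omega)
    have h2 := hge (k + 1) (by omega)
    simp only [i']
    omega
  · change jo (mulZ (mon m i) (hZ (i (m + 1)))).1 = _
    have e1 : mon m i = (sqZ (m + 1))^[a₀ + b] (mon m i') := by
      rw [mon_iter]
      refine mon_congr m i _ fun k hk => ?_
      have := hge k hk
      simp only [i']
      omega
    rw [jo_mulZ, e1, jo_hZ, sqZ_iter, jo_pow, mul_pow, ← pow_mul, ← pow_add, ← map_pow]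
    rfl
  · rw [Sm, Sm, sum_range_succ, ← hb]
    push_cast
    rw [mul_add, mul_one, mul_sum, mul_sum]
    congr 1
    refine sum_congr rfl fun k hk => ?_
    rw [← pow_add, ← pow_add]
    congr 1
    have := hge k (by have := mem_range.mp hk; omega)
    simp only [i']
    omega

theorem EvB.root {n : ℕ} {t : ℤ} {f : R0} (b : ℕ) (h : EvB n (2 ^ b * t) (f ^ 2 ^ b)) :
    EvB n t f := by
  obtain ⟨i, hi⟩ := h
  refine ⟨i + b, ?_⟩
  have e1 : (2 : ℤ) ^ (i + b) * t = 2 ^ i * (2 ^ b * t) := by ring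
  rw [e1, pow_add, mul_comm (2 ^ i) (2 ^ b), pow_mul]
  exact hi

theorem monP (m : ℕ) : ∃ A : ℕ, ∀ i : ℕ → ℕ, (∀ k < m + 1, i (k + 1) + A ≤ i k) →
    ¬ EvB (m + 4) (4 * (Sm (m + 1) i : ℤ)) (Pv (m + 2) (jo (mon (m + 1) i).1)) := by
  obtain ⟨A0, hA0⟩ := mon_not_nil m
  obtain ⟨a₀, ha₀⟩ := nonP m
  refine ⟨A0 + a₀, fun i hi hE => ?_⟩
  obtain ⟨i', h1, h2, h3⟩ := mon_norm m A0 a₀ i hi
  refine ha₀ (Sm m i') a₀ _ (Sm_pos _ _) (HC_mon m i') ?_ le_rfl (EvB.root (i (m + 1)) ?_)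
  · intro h
    refine (hA0 i' h1).2 ((Nil_sq1_iff _ (isHom_Sm m i')).mpr ?_)
    exact h
  · rw [← Pv_pow, ← h2]
    refine hE.cast ?_ rfl
    rw [h3]
    ring

theorem monQ (m : ℕ) : ∃ A : ℕ, ∀ i : ℕ → ℕ, (∀ k < m + 2, i (k + 1) + A ≤ i k) →
    ¬ EvB (m + 6) (4 * (Sm (m + 2) i : ℤ)) (Qv (m + 3) (jo (mon (m + 2) i).1)) := by
  obtain ⟨A0, hA0⟩ := monP m
  obtain ⟨a₀, ha₀⟩ := nonQ (m + 1)
  refine ⟨A0 + a₀, fun i hi hE => ?_⟩
  obtain ⟨i', h1, h2, h3⟩ := mon_norm (m + 1) A0 a₀ i hi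
  refine ha₀ (Sm (m + 1) i') a₀ _ (Sm_pos _ _) (HC_mon (m + 1) i') (hA0 i' h1) le_rfl
    (EvB.root (i (m + 2)) ?_)
  rw [← Qv_pow, ← h2]
  refine hE.cast ?_ rfl
  rw [h3]
  ring

end Pool.Agent.H59K
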