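import Pool.Agent.H59K.NI

/-!
# The classes of degree one
-/

set_option autoImplicit false
set_option linter.unusedSectionVars false

namespace Pool.Agent.H59K

open Finset MvPolynomial Pool.Agent.W624.Stz Wd

theorem TT_one' (q : ℕ) : TT kun q 0 (0 : Empty → ℕ) 0 (1 : R0) := by
  refine ⟨map_one _, ?_⟩
  exact isWeightedHomogeneous_one _ _

theorem TT_X {q k : ℕ} (hk : k < q) : TT kun q 1 (0 : Empty → ℕ) 0 (X (.x k 0) : R0) := by
  have h1 := TT_prod (TT_prod (TT_one' k) HC_x0.TT) (TT_one' (q - (k + 1)))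
  rw [show k + 1 + (q - (k + 1)) = q by omega, map_one, mul_one, one_mul, x0, shf_x, add_zero,
    zero_add, zero_add] at h1
  exact h1

theorem lin_mon {m : ℕ} {f : R0} (hf : TT kun m 1 (0 : Empty → ℕ) 0 f) {e : Vr Empty →₀ ℕ}
    (he : coeff e f ≠ 0) : ∃ k < m, e = Finsupp.single (.x k 0) 1 := by
  classical
  have hb := mon_bound hf he
  have hb' : ∀ v, e v ≠ 0 → ∃ k < m, v = .x k 0 ∧ e v = 1 := by
    intro v hv
    obtain ⟨a, n, h1, h2, h3, h4⟩ := hb v hv
    have hn : n = 0 := by omega
    subst hn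
    exact ⟨a, h2, h1, by omega⟩
  have h1 := hf.iw he
  have h2 := wmap (AddMonoidHom.fst ℤ ((Empty → ℕ) × ℕ)) (wF kun) e
  rw [h1] at h2
  simp only [AddMonoidHom.coe_fst] at h2
  rw [Finsupp.weight_apply, Finsupp.sum] at h2
  have h3 : ∑ v ∈ e.support, e v • (wF (kun : Empty → Kd) v).1 = ∑ v ∈ e.support, (1 : ℤ) := by
    refine sum_congr rfl fun v hv => ?_
    obtain ⟨k, _, hv1, hv2⟩ := hb' v (Finsupp.mem_support_iff.mp hv)
    rw [hv2, hv1]
    simp [wF, wG]
  rw [h3, sum_const, nsmul_one] at h2
  have h4 : e.support.card = 1 := by exact_mod_cast h2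
  obtain ⟨v, hv⟩ := card_eq_one.mp h4
  obtain ⟨k, hk, hv1, hv2⟩ := hb' v (Finsupp.mem_support_iff.mp (by rw [hv]; exact mem_singleton_self _))
  refine ⟨k, hk, ?_⟩
  rw [← hv1, ← hv2]
  exact Finsupp.support_subset_singleton.mp hv.le

theorem lin_form {m : ℕ} {f : R0} (hf : TT kun m 1 (0 : Empty → ℕ) 0 f) :
    f = ∑ k ∈ range m, coeff (Finsupp.single (.x k 0) 1) f • (X (.x k 0) : R0) := by
  classical
  ext e
  rw [coeff_sum]
  simp only [coeff_smul, coeff_X, smul_eq_mul, mul_ite, mul_one, mul_zero]
  by_cases he : coeff e f = 0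
  · rw [he]
    symm
    refine sum_eq_zero fun k _ => ?_
    split_ifs with h
    · rw [h, he]
    · rfl
  · obtain ⟨k, hk, h⟩ := lin_mon hf he
    rw [sum_eq_single k]
    · rw [if_pos h.symm, h]
    · intro k' _ hk'
      rw [if_neg]
      rintro h'
      rw [h, Finsupp.single_left_inj one_ne_zero] at h'
      injection h' with h' _
      exact hk' h'
    · intro h'
      exact absurd (mem_range.mpr hk) h'

theorem nsmul_even {n : ℕ} (h : n % 2 = 0) (a : R0) : n • a = 0 := by
  obtain ⟨r, rfl⟩ : ∃ r, n = 2 * r := ⟨n / 2, by omega⟩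
  rw [mul_comm, mul_nsmul', two_nsmul, p2_add_self, nsmul_zero]

theorem nsmul_odd {n : ℕ} (h : n % 2 = 1) (a : R0) : n • a = a := by
  obtain ⟨r, rfl⟩ : ∃ r, n = r + 1 := ⟨n - 1, by omega⟩
  rw [succ_nsmul, nsmul_even (by omega), zero_add]

theorem face_X (m k j : ℕ) (hk : k < m) (hj : j < m + 2) :
    ev (fc (act (kun : Empty → Kd)) m j (uni Empty)) (X (.x k 0) : R0)
      = (if j < k + 2 then (X (.x (k + 1) 0) : R0) else 0) + (if k + 1 ≤ j then X (.x k 0) else 0) := by
  have hcg : ∀ z : Pt Empty R0, ev z (X (.x k 0) : R0) = cg x0 (z.1 k) := by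
    intro z
    rw [cg, x0, ev_X, ev_X]
    rfl
  have hun : ∀ a, cg x0 ((uni Empty).1 a) = X (.x a 0) := by
    intro a
    rw [cg, x0, ev_X]
    rfl
  rw [hcg]
  rcases Nat.eq_zero_or_pos j with rfl | hj0
  · rw [fc_zero, if_pos (by omega), if_neg (by omega), add_zero]
    exact hun (k + 1)
  obtain ⟨i, rfl⟩ : ∃ i, j = i + 1 := ⟨j - 1, by omega⟩
  rcases lt_or_ge i m with hi | hi
  · rw [fc_mid _ hi]
    change cg x0 (mrg i (uni Empty).1 k) = _
    rcases lt_trichotomy k i with h | h | h
    · rw [mrg, if_pos h, hun, if_neg (by omega), if_pos (by omega), zero_add]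
    · subst h
      rw [mrg_eq, cg_mul HC_x0.cu HC_x0.cl, hun, hun, if_pos (by omega), if_pos (by omega), add_comm]
    · rw [mrg_gt h, hun, if_pos (by omega), if_neg (by omega), add_zero]
  · rw [fc_last _ (by omega)]
    change cg x0 ((uni Empty).1 k) = _
    rw [hun, if_neg (by omega), if_pos (by omega), zero_add]

theorem dd_X (m k : ℕ) (hk : k < m) : dd (kun : Empty → Kd) m (X (.x k 0) : R0)
    = (k + 2) • (X (.x (k + 1) 0) : R0) + (m + 1 - k) • (X (.x k 0) : R0) := by
  rw [dd_apply, sum_congr rfl fun j hj => face_X m k j hk (mem_range.mp hj), sum_add_distrib,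
    ← sum_filter, ← sum_filter, sum_const, sum_const]
  congr 2
  · have : (range (m + 2)).filter (fun j => j < k + 2) = range (k + 2) := by
      ext j; simp only [mem_filter, mem_range]; omega
    rw [this, card_range]
  · have : (range (m + 2)).filter (fun j => k + 1 ≤ j) = Ico (k + 1) (m + 2) := by
      ext j; simp only [mem_filter, mem_range, mem_Ico]; omega
    rw [this, Nat.card_Ico]
    omega

theorem coeff_nX (n a b : ℕ) :
    coeff (Finsupp.single (.x a 0 : Vr Empty) 1) (n • (X (.x b 0) : R0))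
      = if b = a then (n : ZMod 2) else 0 := by
  classical
  rw [coeff_smul, coeff_X, nsmul_eq_mul]
  by_cases h : b = a
  · subst h
    rw [if_pos rfl, if_pos rfl, mul_one]
  · rw [if_neg h, if_neg, mul_zero]
    intro h'
    rw [Finsupp.single_left_inj one_ne_zero] at h'
    injection h' with h' _
    exact h h'

theorem lin_key {m : ℕ} {f : R0} (hf : HC m 1 f) (a : ℕ) :
    ∑ k ∈ range m, coeff (Finsupp.single (.x k 0) 1) f *
      ((if k + 1 = a then ((k + 2 : ℕ) : ZMod 2) else 0) +
        (if k = a then ((m + 1 - k : ℕ) : ZMod 2) else 0)) = 0 := by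
  have h1 := hf.cl
  rw [lin_form hf.TT, map_sum] at h1
  have h2 := congrArg (coeff (Finsupp.single (.x a 0 : Vr Empty) 1)) h1
  rw [coeff_sum, coeff_zero] at h2
  refine Eq.trans (sum_congr rfl fun k hk => ?_) h2
  rw [map_smul, coeff_smul, dd_X m k (mem_range.mp hk), coeff_add, coeff_nX, coeff_nX, smul_eq_mul]

theorem cast_even {n : ℕ} (h : n % 2 = 0) : (n : ZMod 2) = 0 := by
  rw [ZMod.natCast_eq_zero_iff]; omega

theorem cast_odd {n : ℕ} (h : n % 2 = 1) : (n : ZMod 2) = 1 := by
  obtain ⟨r, rfl⟩ : ∃ r, n = r + 1 := ⟨n - 1, by omega⟩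
  rw [Nat.cast_succ, cast_even (by omega), zero_add]

/-- there are no classes of degree one on the lines `≥ 2` -/
theorem lin_Bd {m : ℕ} (hm : 2 ≤ m) {f : R0} (hf : HC m 1 f) : Bd m 1 f := by
  classical
  obtain ⟨M, rfl⟩ : ∃ M, m = M + 1 := ⟨m - 1, by omega⟩
  set c : ℕ → ZMod 2 := fun k => coeff (Finsupp.single (.x k 0) 1) f with hc
  have hB : ∀ k < M, Bd (M + 1) 1 ((k + 2) • (X (.x (k + 1) 0) : R0) +
      (M + 1 - k) • (X (.x k 0) : R0)) := fun k hk =>
    ⟨X (.x k 0), TT_X hk, dd_X M k hk⟩
  have hform : f = ∑ k ∈ range (M + 1), c k • ((X (.x k 0) : R0) +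
      ((k + 2) • (X (.x (k + 1) 0) : R0) + (M + 1 + 1 - k) • (X (.x k 0) : R0))) := by
    have h1 := hf.cl
    have h0 := lin_form hf.TT
    have h2 : dd (kun : Empty → Kd) (M + 1) f
        = ∑ k ∈ range (M + 1), c k • ((k + 2) • (X (.x (k + 1) 0) : R0) +
          (M + 1 + 1 - k) • (X (.x k 0) : R0)) := by
      conv_lhs => rw [h0]
      rw [map_sum]
      refine sum_congr rfl fun k hk => ?_
      rw [map_smul, dd_X _ k (mem_range.mp hk)]
    simp only [smul_add (c _) (X _) (_ + _)]
    rw [sum_add_distrib, ← h2, h1, add_zero]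
    exact h0
  rw [hform]
  refine Bd.sum _ fun k hk => ?_
  have hk' := mem_range.mp hk
  rcases Nat.mod_two_eq_zero_or_one M with hM | hM
  · -- odd line
    rcases Nat.mod_two_eq_zero_or_one k with h | h
    · refine Bd.smul _ ?_
      rw [nsmul_even (n := k + 2) (by omega), nsmul_even (n := M + 1 + 1 - k) (by omega), add_zero,
        add_zero]
      rcases Nat.lt_or_ge k M with hlt | hge
      · have := hB k hlt
        rw [nsmul_even (n := k + 2) (by omega), nsmul_odd (n := M + 1 - k) (by omega),
          zero_add] at this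
        exact this
      · have hkM : k = M := by omega
        subst hkM
        have := hB (k - 1) (by omega)
        rw [nsmul_odd (n := k - 1 + 2) (by omega), nsmul_even (n := k + 1 - (k - 1)) (by omega),
          add_zero, show k - 1 + 1 = k by omega] at this
        exact this
    · have h1 := lin_key hf k
      rw [sum_eq_single k, if_neg (by omega), if_pos rfl, zero_add, cast_odd (by omega),
        mul_one] at h1
      · change c k = 0 at h1
        rw [h1, zero_smul]
        exact Bd.zero
      · intro b _ hb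
        rw [if_neg hb, add_zero]
        split_ifs with h2
        · rw [cast_even (by omega), mul_zero]
        · rw [mul_zero]
      · intro h2
        exact absurd hk h2
  · -- even line
    rcases Nat.mod_two_eq_zero_or_one k with h | h
    · rw [nsmul_even (n := k + 2) (by omega), nsmul_odd (n := M + 1 + 1 - k) (by omega), zero_add,
        p2_add_self, smul_zero]
      exact Bd.zero
    · rcases Nat.lt_or_ge k M with hlt | hge
      · refine Bd.smul _ ?_
        have := hB k hlt
        rw [nsmul_odd (n := k + 2) (by omega), nsmul_odd (n := M + 1 - k) (by omega)] at this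
        rw [nsmul_odd (n := k + 2) (by omega), nsmul_even (n := M + 1 + 1 - k) (by omega),
          add_zero, add_comm (X (.x k 0) : R0)]
        exact this
      · have hkM : k = M := by omega
        subst hkM
        have h1 := lin_key hf (k + 1)
        rw [sum_eq_single k, if_pos rfl, if_neg (by omega), add_zero, cast_odd (by omega),
          mul_one] at h1
        · change c k = 0 at h1
          rw [h1, zero_smul]
          exact Bd.zero
        · intro b hb' hb
          rw [if_neg (by omega), if_neg (by have := mem_range.mp hb'; omega), add_zero, mul_zero]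
        · intro h2
          exact absurd hk h2

end Pool.Agent.H59K
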