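import Pool.Agent.H59K.NJ

/-!
# Classes one degree above a degree divisible by a large power of two
-/

set_option autoImplicit false
set_option linter.unusedSectionVars false

namespace Pool.Agent.H59K

open Finset MvPolynomial Pool.Agent.W624.Stz Wd

theorem HC_one_one {f : R0} (hf : HC 1 1 f) : ∃ c : ZMod 2, f = c • x0 := by
  have h := lin_form hf.TT
  rw [sum_range_one] at h
  exact ⟨_, h⟩

theorem h0_div (s : ℕ) : ∃ r, ∀ T : ℤ, T ≠ 0 → (2 : ℤ) ^ r ∣ T → ∀ z, HC (s + 1) (T + 1) z →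
    ∃ w, HC s T w ∧ Bd (s + 1) (T + 1) (z + w * shf Empty s x0) := by
  classical
  obtain ⟨r, hr⟩ := mainc 2 (s + 1) 0 1 (by norm_num)
  refine ⟨r + 2, fun T hT0 hT z hz => ?_⟩
  obtain ⟨t, rfl⟩ : ∃ t, T = 4 * t := by
    obtain ⟨u, rfl⟩ := hT
    exact ⟨2 ^ r * u, by ring⟩
  have ht0 : t ≠ 0 := by rintro rfl; simp at hT0
  have ht : (2 : ℤ) ^ r ∣ t := by
    rw [pow_add, mul_comm] at hT
    exact (mul_dvd_mul_iff_left (by norm_num : (2 : ℤ) ^ 2 ≠ 0)).mp (by simpa using hT)
  obtain ⟨D, hDt, hDB⟩ := exists_Bas t (s + 1)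
  have ht' : D.t0 = t := hDt
  have hG := good_of_Bas hDB (by rw [ht']; exact ht0)
  have hE := hr D (by rw [ht']; exact ht) hG
  have hz' : HC (s + 1) (1 + 2 ^ 2 * D.t0) z := by
    rw [ht']
    exact hz.cast (by ring)
  obtain ⟨x, hx, hx0, hB⟩ := surj_cone hE hz'
  rw [ht', show (1 : ℤ) + 2 ^ 2 * t = 4 * t + 1 by ring] at hB
  have hex : ∀ i, ∃ c : ZMod 2, (D.σ i + 1 = s → x i = c • x0) ∧ (D.σ i + 1 ≠ s → c = 0) := by
    intro i
    by_cases hi : D.σ i + 1 = s
    · have h1 := hx i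
      rw [show s - D.σ i = 1 by omega] at h1
      obtain ⟨c, hc⟩ := HC_one_one h1
      exact ⟨c, fun _ => hc, fun h => absurd hi h⟩
    · exact ⟨0, fun h => absurd h hi, fun _ => rfl⟩
  choose c hc1 hc0 using hex
  have hzi : ∀ i, HC (D.σ i + 1) (4 * t) (D.z i ^ 4) := by
    intro i
    have h2 := (D.hz i).pow 2
    rw [ht'] at h2
    exact h2.cast (by ring)
  refine ⟨∑ i, c i • D.z i ^ 4, ?_, ?_⟩
  · refine HC.sum _ fun i _ => ?_
    by_cases hi : D.σ i + 1 = s
    · have := hzi i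
      rw [hi] at this
      exact this.smul _
    · rw [hc0 i hi, zero_smul]
      exact HC.zero'
  · have h1 : Bd (s + 1) (4 * t + 1)
        (∑ i, (D.z i ^ 2 ^ 2 * shf Empty (D.σ i + 1) (x i) + c i • D.z i ^ 4 * shf Empty s x0)) := by
      refine Bd.sum _ fun i _ => ?_
      have h4 : D.z i ^ 2 ^ 2 = D.z i ^ 4 := by norm_num
      rw [h4]
      rcases lt_trichotomy (D.σ i + 1) s with h | h | h
      · rw [hc0 i (by omega), zero_smul, zero_mul, add_zero]
        have h5 := Bd_prod_right (hzi i) (lin_Bd (by omega) (hx i))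
        rw [show D.σ i + 1 + (s - D.σ i) = s + 1 by omega] at h5
        exact h5
      · rw [hc1 i h, h, map_smul, mul_smul_comm, smul_mul_assoc, p2_add_self]
        exact Bd.zero
      · rw [hc0 i (by omega), zero_smul, zero_mul, add_zero]
        have h6 : x i = 0 := by
          rcases Nat.lt_or_ge s (D.σ i) with h7 | h7
          · exact hx0 i h7
          · have h8 := hx i
            rw [show s - D.σ i = 0 by omega] at h8
            exact HC_level0 one_ne_zero h8
        rw [h6, map_zero, mul_zero]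
        exact Bd.zero
    have h2 := hB.add h1
    refine h2.cast rfl ?_
    rw [sum_add_distrib, ← sum_mul]
    linear_combination (∑ i, D.z i ^ 2 ^ 2 * shf Empty (D.σ i + 1) (x i)) * two_R0

end Pool.Agent.H59K
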