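import Pool.Agent.H59K.NK

/-!
# The cup-`(s-1)` square by words
-/

set_option autoImplicit false
set_option linter.unusedSectionVars false

namespace Pool.Agent.H59K

open Finset MvPolynomial Pool.Agent.W624.Stz Wd

section words

variable {A : Type*} [CommRing A] {α : Type*}

theorem WW_gt {g : ℕ} {F G : List α → A} {L : List α} (hG : Sup g G) (h : L.length < g) :
    WW F G L = 0 ∧ WW G F L = 0 := by
  have h1 : ∀ l, l.Sublist L → G l = 0 := fun l hl => hG l (by have := hl.length_le; omega)
  exact ⟨(CC_zero_of h1).2, (CC_zero_of h1).1⟩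

theorem WW_full : ∀ (L : List α) (F G : List α → A), Sup L.length F → Sup L.length G →
    WW F G L = F L * G L := by
  intro L
  induction L with
  | nil => intro F G _ _; rw [CC_nil]
  | cons m L ih =>
    intro F G hF hG
    rw [CC_cons, ih (pre G m) (pre F m) (hG.pre m) (hF.pre m),
      (WW_gt hG (by rw [List.length_cons]; omega)).1, zero_add]
    exact mul_comm _ _

theorem WW_one : ∀ (L : List α) (f : ℕ) (F G : List α → A), f + 1 = L.length → Sup f F →
    Sup L.length G →
    WW F G L = ∑ k ∈ range L.length, (if k % 2 = 1 then F (L.eraseIdx k) * G L else 0) ∧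
    WW G F L = ∑ k ∈ range L.length, (if k % 2 = 0 then F (L.eraseIdx k) * G L else 0) := by
  intro L
  induction L with
  | nil => intro f F G h; simp at h
  | cons m L ih =>
    intro f F G hf hF hG
    rw [List.length_cons] at hf hG ⊢
    obtain rfl : f = L.length := by omega
    rw [CC_cons, CC_cons, (WW_gt hG (by omega)).1, zero_add, sum_range_succ', sum_range_succ',
      WW_full L _ _ (hG.pre m) hF]
    simp only [List.eraseIdx_cons_succ, List.eraseIdx_cons_zero]
    rw [if_neg (show ¬ 0 % 2 = 1 by norm_num), add_zero]
    rcases Nat.eq_zero_or_pos L.length with h0 | h0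
    · have hL : L = [] := List.length_eq_zero_iff.mp h0
      subst hL
      have h1 : ∀ l, pre F m l = 0 := fun l => hF _ (by simp)
      rw [(CC_zero_of fun l _ => h1 l).1, (CC_zero_of fun l _ => h1 l).2]
      simp [pre, mul_comm]
    · obtain ⟨n, hn⟩ := Nat.exists_eq_add_of_le' h0
      have hF' : Sup n (pre F m) := by
        have := hF
        rw [hn] at this
        exact this.pre m
      obtain ⟨h1, h2⟩ := ih n (pre F m) (pre G m) hn.symm hF' (hG.pre m)
      rw [h1, h2]
      constructor
      · refine sum_congr rfl fun k _ => ?_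
        by_cases hk : k % 2 = 0
        · rw [if_pos hk, if_pos (by omega)]; rfl
        · rw [if_neg hk, if_neg (by omega)]
      · rw [add_comm]
        congr 1
        · refine sum_congr rfl fun k _ => ?_
          by_cases hk : k % 2 = 1
          · rw [if_pos hk, if_pos (by omega)]; rfl
          · rw [if_neg hk, if_neg (by omega)]
        · rw [mul_comm]; rfl

theorem WW_two : ∀ (L : List α) (f : ℕ) (F G : List α → A), f + 1 = L.length → Sup f F → Sup f G →
    WW F G L = ∑ j ∈ range L.length, ∑ i ∈ range j,
      (if i % 2 = 1 ∧ j % 2 = 1 then F (L.eraseIdx i) * G (L.eraseIdx j) else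
        if i % 2 = 0 ∧ j % 2 = 0 then F (L.eraseIdx j) * G (L.eraseIdx i) else 0) := by
  intro L
  induction L with
  | nil => intro f F G h; simp at h
  | cons m L ih =>
    intro f F G hf hF hG
    rw [List.length_cons] at hf ⊢
    obtain rfl : f = L.length := by omega
    rw [CC_cons, sum_range_succ', range_zero, sum_empty, add_zero]
    rcases Nat.eq_zero_or_pos L.length with h0 | h0
    · have hL : L = [] := List.length_eq_zero_iff.mp h0
      subst hL
      have h1 : ∀ l, pre F m l = 0 := fun l => hF _ (by simp)
      rw [(CC_zero_of fun l _ => h1 l).1, (CC_zero_of fun l _ => h1 l).2]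
      simp
    · obtain ⟨n, hn⟩ := Nat.exists_eq_add_of_le' h0
      have hF' : Sup n (pre F m) := by
        have := hF
        rw [hn] at this
        exact this.pre m
      have hG' : Sup n (pre G m) := by
        have := hG
        rw [hn] at this
        exact this.pre m
      rw [(WW_one L n (pre F m) G hn.symm hF' hG).1, ih n (pre G m) (pre F m) hn.symm hG' hF',
        ← sum_add_distrib]
      refine sum_congr rfl fun j _ => ?_
      rw [sum_range_succ']
      simp only [List.eraseIdx_cons_succ, List.eraseIdx_cons_zero]
      rw [add_comm]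
      congr 1
      · refine sum_congr rfl fun i _ => ?_
        by_cases h1 : i % 2 = 1 ∧ j % 2 = 1
        · rw [if_pos h1, if_neg (by omega), if_pos (by omega)]
          exact mul_comm _ _
        · by_cases h2 : i % 2 = 0 ∧ j % 2 = 0
          · rw [if_neg h1, if_pos h2, if_pos (by omega)]
            exact mul_comm _ _
          · rw [if_neg h1, if_neg h2, if_neg (by omega), if_neg (by omega)]
      · by_cases h1 : j % 2 = 1
        · rw [if_pos h1, if_neg (by omega), if_pos ⟨trivial, by omega⟩]; rfl
        · rw [if_neg h1, if_neg (by omega), if_neg (by omega)]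

end words

theorem cut_fc {p j : ℕ} (hj : j < p + 2) {x : R0} (hx : cut Empty p x = x) :
    cut Empty (p + 1) (ev (fc (act (kun : Empty → Kd)) p j (uni Empty)) x)
      = ev (fc (act (kun : Empty → Kd)) p j (uni Empty)) x := by
  apply cut_of_dep
  intro z z' hz
  simp only [ev_map, mP_fc, mP_uni]
  exact dep_of_cut hx _ _ (agr_fc hz)

theorem sqR_eq_cup {p : ℕ} {x : R0} (hx : cut Empty p x = x) : sqR p (p + 1) x = cupR p x := by
  have hfc : ∀ j < p + 2, val p x γu ((List.range (p + 2)).eraseIdx j)
      = ev (fc (act kun) p j (uni Empty)) x := by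
    intro j hj
    rw [← val_face hj hx γu (inc_range (p + 2)) (by simp)]
    exact val_range (n := p + 1) (cut_fc hj hx)
  rw [sqR, cupA, WW_two (List.range (p + 2)) (p + 1) _ _ (by simp) (Sup_val p x γu)
    (Sup_val p x γu), List.length_range, cupR, PS]
  refine sum_congr rfl fun j hj => sum_congr rfl fun i hi => ?_
  have hj' := mem_range.mp hj
  have hi' := mem_range.mp hi
  rw [hfc j hj', hfc i (by omega)]
  by_cases h1 : i % 2 = 1 ∧ j % 2 = 1
  · rw [if_pos h1, if_pos (by omega)]
  · by_cases h2 : i % 2 = 0 ∧ j % 2 = 0
    · rw [if_neg h1, if_pos h2, if_pos (by omega), mul_comm]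
    · rw [if_neg h1, if_neg h2, if_neg (by omega)]

end Pool.Agent.H59K
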