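import Pool.Agent.H59K.NL

/-!
# Definition of the cup-`i` products on the cobar complex
-/

set_option autoImplicit false
set_option linter.unusedSectionVars false

namespace Pool.Agent.H59K

open Pool.Agent.W624.NS

/-- Steenrod's cup-`i` products on the cobar complex, by recursion: a word of length `r` describes
the vertices `n + 1 - r, …, n` (in this order) of the `n`-simplex. Each vertex `v` belongs to both
cochains (first term: the two cochains exchange their roles) or only to the first one (second term:
the coface with the number `v` is applied to the other one). At the end both cochains have to be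
of degree `n`, and they are multiplied. -/
noncomputable def cupW (n : ℕ) : ℕ → (p : ℕ) → Cob p → (q : ℕ) → Cob q → Cob n
  | 0, p, a, q, b => if h : p = n ∧ q = n then (h.1 ▸ a) * (h.2 ▸ b) else 0
  | r + 1, p, a, q, b => cupW n r q b p a + cupW n r p a (q + 1) (face q (n - r) b)

/-- The cochain `x ∪_{s-k} x`, of degree `s + k`, for a cochain `x` of degree `s`. -/
noncomputable def sqC (s k : ℕ) (x : Cob s) : Cob (s + k) := cupW (s + k) (s + k + 1) s x s x

section link

open Finset MvPolynomial Pool.Agent.W624.Stz Wd

theorem jo_face {s j : ℕ} (hj : j < s + 2) (x : Cob s) :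
    jo (face s j x) = ev (fc (act (kun : Empty → Kd)) s j (uni Empty)) (jo x) := by
  have h1 := W624.NS.face_eq s ⟨j, hj⟩ (x : W624.ND.Cob s)
  refine Eq.trans (congrArg (io (s + 1)) h1) ?_
  exact io_cf s ⟨j, hj⟩ _

theorem range_app (v r : ℕ) : List.range v ++ List.range' v r = List.range (v + r) := by
  rw [List.range_eq_range', List.range_eq_range']
  have := List.range'_append (s := 0) (m := v) (n := r) (step := 1)
  simpa using this

theorem jo_cupW (n : ℕ) : ∀ r, r ≤ n + 1 → ∀ (p : ℕ) (a : Cob p) (q : ℕ) (b : Cob q),
    jo (cupW n r p a q b) = WW (fun l => val p (jo a) γu (List.range (n + 1 - r) ++ l))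
      (fun l => val q (jo b) γu (List.range (n + 1 - r) ++ l)) (List.range' (n + 1 - r) r) := by
  intro r
  induction r with
  | zero =>
    intro _ p a q b
    rw [cupW, List.range'_zero, CC_nil, List.append_nil, Nat.sub_zero]
    by_cases hp : p = n
    · by_cases hq : q = n
      · subst hp
        subst hq
        rw [dif_pos ⟨rfl, rfl⟩, jo_mul']
        rw [show val q (jo a) γu (List.range (q + 1)) = jo a from val_range (jo_cut a),
          show val q (jo b) γu (List.range (q + 1)) = jo b from val_range (jo_cut b)]
      · rw [dif_neg (fun h => hq h.2), val, val, if_neg (c := _ = q + 1) (by simp; omega), mul_zero]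
        exact jo_zero
    · rw [dif_neg (fun h => hp h.1), val, if_neg (c := _ = p + 1) (by simp; omega), zero_mul]
      exact jo_zero
  | succ r ih =>
    intro hr p a q b
    have hv : n + 1 - (r + 1) = n - r := by omega
    have hv' : n + 1 - r = n - r + 1 := by omega
    rw [cupW, jo_add, ih (by omega), ih (by omega), hv, hv', List.range'_succ, CC_cons, add_comm]
    set v := n - r with hvd
    have hpre : ∀ (p : ℕ) (a : Cob p), pre (fun l => val p (jo a) γu (List.range v ++ l)) v
        = fun l => val p (jo a) γu (List.range (v + 1) ++ l) := by
      intro p a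
      funext l
      rw [List.range_succ, List.append_assoc]
      rfl
    rw [hpre, hpre]
    congr 1
    refine CC_congr (fun l _ => rfl) fun l hl => ?_
    have hI : Inc (List.range (v + 1) ++ l) := by
      refine (inc_range (v + 1 + r)).sub ?_
      rw [← range_app (v + 1) r]
      exact List.Sublist.append (List.Sublist.refl _) hl
    by_cases hlen : v + l.length = q + 1
    · rw [jo_face (by omega), val_face (by omega) (jo_cut b) γu hI (by simp; omega)]
      congr 1
      rw [List.eraseIdx_append_of_lt_length (by simp), List.range_succ,
        List.eraseIdx_append_of_length_le (by simp)]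
      simp
    · rw [val, val, if_neg (by simp; omega), if_neg (by simp; omega)]

theorem jo_sqC (s k : ℕ) (x : Cob s) : jo (sqC s k x) = sqR s (s + k) (jo x) := by
  rw [sqC, jo_cupW _ _ le_rfl, Nat.sub_self, sqR, cupA, ← List.range_eq_range']
  rfl

end link

end Pool.Agent.H59K
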