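import Pool.Agent.H59K.NM

/-!
# Definitions of the statements: `Sq²` and the formulas for the differentials `d₂`, `d₃`
-/

set_option autoImplicit false
set_option linter.unusedSectionVars false

namespace Pool.Agent.H59K

open Pool.Agent.W624.NS

section lemmas

open Finset MvPolynomial Pool.Agent.W624.Stz Wd

theorem jo_h0 (s : ℕ) (x : Cob s) : jo (mulH0 s x) = jo x * shf Empty s x0 := by
  have h1 := W624.NS.mulH0_eq s (x : W624.ND.Cob s)
  have h2 := io_mh s (x : W624.ND.Cob s)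
  refine (congrArg (io (s + 1)) h1).trans (h2.trans ?_)
  rw [x0, shf_x, zero_add, mul_comm]
  rfl

theorem dd_sqR {p n : ℕ} {x : R0} (hx : cut Empty p x = x)
    (hd : dd (kun : Empty → Kd) p x = 0) : dd (kun : Empty → Kd) n (sqR p n x) = 0 := by
  rw [sqR, cupA_dd hx hx, hd, cupA_zl, cupA_zr, zero_add, zero_add]
  exact p2_add_self _

theorem dC_sqC (s k : ℕ) {x : Cob s} (hx : dC s x = 0) : dC (s + k) (sqC s k x) = 0 := by
  apply jo_inj
  rw [jo_dC, jo_sqC, jo_zero]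
  exact dd_sqR (jo_cut x) (by rw [← jo_dC, hx, jo_zero])

theorem dC_add (s : ℕ) {x y : Cob s} (hx : dC s x = 0) (hy : dC s y = 0) : dC s (x + y) = 0 := by
  apply jo_inj
  rw [jo_dC, jo_add, map_add, ← jo_dC, ← jo_dC, hx, hy, jo_zero, add_zero]

end lemmas

/-- The cocycle `x ∪_{s-2} x` of degree `s + 2`, which represents `Sq²` of the class of `x`. -/
noncomputable def Sq2 (s : ℕ) (x : Z s) : Z (s + 2) := ⟨sqC s 2 x.1, dC_sqC s 2 x.2⟩

/-- The sum of two cocycles. -/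
noncomputable def addZ {s : ℕ} (x y : Z s) : Z s := ⟨x.1 + y.1, dC_add s x.2 y.2⟩

/-- The differential `d₂` is linear over `h₀`: `d₂ (h₀ x) = h₀ (d₂ x)`. -/
def H0Lin (d₂ : (n : ℕ) → Ext n → Ext (n + 2)) : Prop :=
  ∀ (n : ℕ) (x : Ext n), d₂ (n + 1) (h0 n x) = h0 (n + 2) (d₂ n x)

/-- Bruner's formula `d₃ (Sq¹ x) = Sq² (d₂ x)`, modulo the image of `d₂`, for the classes `x` of
internal degree `t` divisible by four; `d₃ n` is a function on `Ext^n` with values in `Ext^(n+3)`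
(of interest only on the kernel of `d₂` and modulo the image of `d₂`). -/
def Bruner3 (d₂ : (n : ℕ) → Ext n → Ext (n + 2)) (d₃ : (n : ℕ) → Ext n → Ext (n + 3)) : Prop :=
  ∀ (n t : ℕ) (x : Z n) (y : Z (n + 2)), 4 ∣ t → IsHom n t x.1 → IsHom (n + 2) (t + 1) y.1 →
    cl y = d₂ n (cl x) →
    ∃ (w : Z (n + 2)) (u : Z (n + 4)), IsHom (n + 2) (2 * t + 1) w.1 ∧ cl u = d₂ (n + 2) (cl w) ∧
      d₃ (n + 1) (cl (Sq1 n x)) = cl (addZ (Sq2 (n + 2) y) u)

/-- `d₃ x` is not zero on the `E₃`-page, for the class `x` of the line `s` and of internal degree `t`: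
it is not in the image of `d₂`. -/
def D3ne (d₂ : (n : ℕ) → Ext n → Ext (n + 2)) (d₃ : (n : ℕ) → Ext n → Ext (n + 3)) (s t : ℕ)
    (x : Ext s) : Prop :=
  ∀ w : Z (s + 1), IsHom (s + 1) (t + 1) w.1 → d₃ s x ≠ d₂ (s + 1) (cl w)

end Pool.Agent.H59K
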