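import Pool.Agent.H59K.NN

/-!
# The classes `Sq¹ v` do not survive to `E₄`
-/

set_option autoImplicit false
set_option linter.unusedSectionVars false

namespace Pool.Agent.H59K

open Pool.Agent.W624.NS
open Pool.Agent.W624.Stz (dd kun cut TT RR IW)

theorem jo_Sq2 {s : ℕ} (x : Z s) : jo (Sq2 s x).1 = sqR s (s + 2) (jo x.1) := jo_sqC s 2 x.1

theorem jo_h0Z {s : ℕ} (x : Z s) : jo (h0Z s x).1 = jo x.1 * shf Empty s x0 := jo_h0 s x.1

theorem isHom_of_jo {s t : ℕ} {x : Cob s} {f : R0} (h : HC s (t : ℤ) f) (e : jo x = f) :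
    IsHom s t x := by
  rw [← e] at h
  exact (isHom_iff x).mpr h.iw

/-- `d₂` of the classes of degree one above a degree divisible by a large power of two -/
theorem d2_one_above (m : ℕ) : ∃ r : ℕ, ∀ (d₂ : (n : ℕ) → Ext n → Ext (n + 2)), Bruner d₂ →
    H0Lin d₂ → ∀ t : ℕ, 0 < t → 2 ^ r ∣ t → ∀ w : Z (m + 2), IsHom (m + 2) (4 * t + 1) w.1 →
    ∃ (S : R0) (ŵ : Z (m + 4)), HC (m + 2) (4 * (t : ℤ)) S ∧ cl ŵ = d₂ (m + 2) (cl w) ∧
      jo ŵ.1 = S * shf Empty (m + 2) (x0 * shf Empty 1 x0) := by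
  obtain ⟨r1, h1⟩ := h0_div (m + 1)
  obtain ⟨r2, h2⟩ := surj_line m
  refine ⟨r1 + r2, fun d₂ hd hl t ht hdvd w hw => ?_⟩
  have ht' : (0 : ℤ) < t := by exact_mod_cast ht
  have hdvd' : (2 : ℤ) ^ (r1 + r2) ∣ (t : ℤ) := by exact_mod_cast hdvd
  have hwH : HC (m + 2) (4 * (t : ℤ) + 1) (jo w.1) := by
    have := HC_jo w hw
    push_cast at this
    exact this
  obtain ⟨w1, hw1, hB1⟩ := h1 (4 * (t : ℤ)) (by omega)
    (((pow_dvd_pow 2 (by omega)).trans hdvd').mul_left _) (jo w.1) hwH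
  obtain ⟨w2, hw2, hB2⟩ := h2 (2 * (t : ℤ)) (by omega)
    (((pow_dvd_pow 2 (by omega)).trans hdvd').mul_left _) w1 (hw1.cast (by ring))
  obtain ⟨W, hW1, hW2⟩ := exists_Z (n := m + 1) (t := 2 * t) (f := w2) (by push_cast; exact hw2)
  have hcl : cl w = h0 (m + 1) (Sq0 (m + 1) (cl W)) := by
    change cl w = cl (h0Z (m + 1) (sqZ (m + 1) W))
    have hsq : HC (m + 1) (4 * (t : ℤ)) (w2 ^ 2) := hw2.sq.cast (by ring)
    have hp : HC (m + 2) (4 * (t : ℤ) + 1) (w2 ^ 2 * shf Empty (m + 1) x0) :=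
      HC_prod (a := m + 1) (b := 1) hsq HC_x0
    have hj : jo (h0Z (m + 1) (sqZ (m + 1) W)).1 = w2 ^ 2 * shf Empty (m + 1) x0 := by
      rw [jo_h0Z]
      change jo (W.1 ^ 2) * _ = _
      rw [jo_pow, hW1]
    have hh : IsHom (m + 2) (4 * t + 1) (h0Z (m + 1) (sqZ (m + 1) W)).1 :=
      isHom_of_jo (t := 4 * t + 1) (hp.cast (by push_cast; ring)) hj
    rw [cl_eq_iff_Bd hw hh, hj]
    have hB3 := Bd_prod_left (a := m + 1) (b := 1) hB2 HC_x0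
    have hB4 := hB1.add (hB3.cast (t' := 4 * (t : ℤ) + 1) (by ring) rfl)
    push_cast
    refine hB4.cast rfl ?_
    linear_combination (w1 * shf Empty (m + 1) x0) * two_R0
  refine ⟨cupR (m + 1) w2, h0Z (m + 3) (h0Z (m + 2) (Sq1 (m + 1) W)),
    (HC_cup hw2).cast (by ring), ?_, ?_⟩
  · rw [hcl, hl (m + 1), hd (m + 1) (2 * t) W (even_two_mul t) hW2]
    rfl
  · rw [jo_h0Z, jo_h0Z, jo_Sq1, hW1, map_mul, shf_shf, mul_assoc]

theorem x0sq_not : ¬ Bd 1 2 (x0 ^ 2) := by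
  rintro ⟨g, hg, hdg⟩
  have h1 : dd (kun : Empty → Pool.Agent.W624.Stz.Kd) 0 g = 0 := dd_zero_level hg.cu
  have h2 : dd (kun : Empty → Pool.Agent.W624.Stz.Kd) 0 g = x0 ^ 2 := hdg
  rw [h1] at h2
  exact pow_ne_zero _ (MvPolynomial.X_ne_zero _) h2.symm

/-- a sum `h₁ Q + h₀² S` -/
theorem two_term (m : ℕ) : ∃ r : ℕ, ∀ t : ℤ, t ≠ 0 → (2 : ℤ) ^ r ∣ t → ∀ Q S : R0,
    HC (m + 3) (8 * t) Q → HC (m + 2) (8 * t) S →
    Bd (m + 4) (8 * t + 2) (Q * shf Empty (m + 3) (x0 ^ 2)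
      + S * shf Empty (m + 2) (x0 * shf Empty 1 x0)) →
    Bd (m + 3) (8 * t) Q := by
  obtain ⟨r1, hr1⟩ := exists_Stab (m + 6)
  obtain ⟨r3, hr3⟩ := exists_Stab (m + 5)
  obtain ⟨r2, hr2⟩ := multi_term (m + 3) 3 2 (by norm_num)
  refine ⟨r1 + r2 + r3, fun t ht0 hdvd Q S hQ hS hB => ?_⟩
  have hd1 : (2 : ℤ) ^ r1 ∣ t := (pow_dvd_pow 2 (by omega)).trans hdvd
  have hd2 : (2 : ℤ) ^ r2 ∣ t := (pow_dvd_pow 2 (by omega)).trans hdvd
  have hd3 : (2 : ℤ) ^ r3 ∣ t := (pow_dvd_pow 2 (by omega)).trans hdvd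
  obtain ⟨q, hq1, hq2⟩ := surj_iter (s := m + 2) (m := r1) hr1 ht0 hd1 3 Q (hQ.cast (by ring))
  obtain ⟨s, hs1, hs2⟩ := surj_iter (s := m + 1) (m := r3) hr3 ht0 hd3 3 S (hS.cast (by ring))
  have hcc : HC 2 2 (x0 * shf Empty 1 x0) := (HC_prod (a := 1) (b := 1) HC_x0 HC_x0).cast
    (by norm_num)
  have hx2 : HC 1 2 (x0 ^ 2) := HC_x0.sq.cast (by norm_num)
  have hB1 := Bd_prod_left (a := m + 3) (b := 1) hq2 hx2
  have hB2 := Bd_prod_left (a := m + 2) (b := 2) hs2 hcc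
  have e8 : (2 : ℤ) ^ 3 * t + 2 = 8 * t + 2 := by norm_num
  rw [e8] at hB1 hB2
  have hB3 := (hB.add hB1).add hB2
  obtain ⟨g, hg, hdg⟩ := hB3
  have hk := hr2 t ht0 hd2 (Fin 2) ![q, s] ![x0 ^ 2, x0 * shf Empty 1 x0] ![m + 2, m + 1]
    ?_ ?_ ?_ ?_ g ?_ ?_ 0
  · rcases hk with hk | hk
    · have h1 : Bd (m + 3) (2 ^ 3 * t) (q ^ 2 ^ 3) := Bd.pow 3 hk
      have h2 := hq2.of_add h1
      exact h2.cast (by norm_num) rfl
    · exfalso
      refine x0sq_not ?_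
      have hk' : Bd (m + 3 - (m + 2)) 2 (x0 ^ 2) := hk
      rwa [show m + 3 - (m + 2) = 1 by omega] at hk'
  · intro i j h
    fin_cases i <;> fin_cases j <;> simp at h ⊢
  · intro k
    fin_cases k <;> simp
  · intro k
    fin_cases k
    · exact hq1
    · exact hs1
  · intro k
    fin_cases k
    · change HC (m + 3 - (m + 2)) 2 (x0 ^ 2)
      rw [show m + 3 - (m + 2) = 1 by omega]
      exact hx2
    · change HC (m + 3 - (m + 1)) 2 (x0 * shf Empty 1 x0)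
      rw [show m + 3 - (m + 1) = 2 by omega]
      exact hcc
  · have e : (2 : ℤ) + 2 ^ 3 * t = 8 * t + 2 := by ring
    rw [e]
    exact hg
  · refine Eq.trans hdg ?_
    rw [Fin.sum_univ_two]
    change _ = q ^ 2 ^ 3 * shf Empty (m + 2 + 1) (x0 ^ 2) +
      s ^ 2 ^ 3 * shf Empty (m + 1 + 1) (x0 * shf Empty 1 x0)
    linear_combination (Q * shf Empty (m + 3) (x0 ^ 2) +
      S * shf Empty (m + 2) (x0 * shf Empty 1 x0)) * two_R0

/-- **the classes `Sq¹ (Sq⁰ x)` do not survive to `E₄`**, if `Sq² Sq¹ x ≠ 0` -/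
theorem e3_main (m : ℕ) : ∃ r : ℕ, ∀ (d₂ : (n : ℕ) → Ext n → Ext (n + 2))
    (d₃ : (n : ℕ) → Ext n → Ext (n + 3)), Bruner d₂ → H0Lin d₂ → Bruner3 d₂ d₃ →
    ∀ t : ℕ, 0 < t → 2 ^ r ∣ t → ∀ x : Z m, IsHom m t x.1 →
    ¬ Bd (m + 3) (4 * (t : ℤ)) (Qv m (jo x.1)) →
    D3ne d₂ d₃ (m + 1) (4 * t) (cl (Sq1 m (sqZ m x))) := by
  obtain ⟨r1, hr1⟩ := two_term m
  obtain ⟨r2, hr2⟩ := d2_one_above m
  refine ⟨r1 + r2 + 1, fun d₂ d₃ hd hl h3 t ht hdvd x hx hQ w hw heq => ?_⟩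
  obtain ⟨T, rfl⟩ : ∃ T, t = 2 * T := by
    obtain ⟨c, rfl⟩ := hdvd
    exact ⟨2 ^ (r1 + r2) * c, by ring⟩
  have hT : 2 ^ (r1 + r2) ∣ T := by
    rw [pow_succ, mul_comm] at hdvd
    exact Nat.dvd_of_mul_dvd_mul_left (by norm_num) hdvd
  have hT0 : 0 < T := by omega
  have hTz : (2 : ℤ) ^ (r1 + r2) ∣ (T : ℤ) := by exact_mod_cast hT
  set f := jo x.1 with hf
  have hxH : HC m ((2 * T : ℕ) : ℤ) f := HC_jo x hx
  push_cast at hxH
  have ha : HC (m + 1) (4 * (T : ℤ)) (cupR m f) := (HC_cup hxH).cast (by ring)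
  -- the class `d₂ (Sq⁰ x)`
  set y : Z (m + 2) := h0Z (m + 1) (Sq1 m x) with hy
  have hjy : jo y.1 = cupR m f * shf Empty (m + 1) x0 := by
    rw [hy, jo_h0Z, jo_Sq1]
  have hyH : HC (m + 2) (4 * (T : ℤ) + 1) (cupR m f * shf Empty (m + 1) x0) :=
    HC_prod (a := m + 1) (b := 1) ha HC_x0
  have hyhom : IsHom (m + 2) (2 * (2 * T) + 1) y.1 :=
    isHom_of_jo (t := 2 * (2 * T) + 1) (hyH.cast (by push_cast; ring)) hjy
  have hcy : cl y = d₂ m (cl (sqZ m x)) := (hd m (2 * T) x (even_two_mul T) hx).symm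
  have hsq : IsHom m (2 * (2 * T)) (sqZ m x).1 := by
    have := isHom_iter x hx 1
    rwa [pow_one, Function.iterate_one] at this
  obtain ⟨w', u, hw', hu, hd3⟩ := h3 m (2 * (2 * T)) (sqZ m x) y ⟨T, by ring⟩ hsq hyhom hcy
  obtain ⟨S, v, hS, hv, hjv⟩ := hr2 d₂ hd hl (2 * T) ht
    ((pow_dvd_pow 2 (by omega)).trans (hT.mul_left 2)) w hw
  obtain ⟨S', v', hS', hv', hjv'⟩ := hr2 d₂ hd hl (2 * T) ht
    ((pow_dvd_pow 2 (by omega)).trans (hT.mul_left 2)) w' (by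
      have e : 4 * (2 * T) + 1 = 2 * (2 * (2 * T)) + 1 := by ring
      rw [e]; exact hw')
  have q1 : cl (addZ (Sq2 (m + 2) y) u) = cl v := by
    rw [← hd3, heq, ← hv]
  have q2 : cl u = cl v' := by rw [hu, hv']
  rw [cl_eq_iff] at q1 q2
  have q3 := isB_sub q1 q2
  have e3 : (addZ (Sq2 (m + 2) y) u).1 - v.1 - (u.1 - v'.1) = (Sq2 (m + 2) y).1 - (v.1 - v'.1) := by
    change (Sq2 (m + 2) y).1 + u.1 - v.1 - (u.1 - v'.1) = _
    ring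
  rw [e3] at q3
  have hcc : HC 2 2 (x0 * shf Empty 1 x0) := (HC_prod (a := 1) (b := 1) HC_x0 HC_x0).cast
    (by norm_num)
  have hvH : ∀ R : R0, HC (m + 2) (4 * ((2 * T : ℕ) : ℤ)) R →
      HC (m + 4) (8 * (T : ℤ) + 2) (R * shf Empty (m + 2) (x0 * shf Empty 1 x0)) := fun R hR =>
    (HC_prod (a := m + 2) (b := 2) hR hcc).cast (by push_cast; ring)
  have hqH : HC (m + 4) (8 * (T : ℤ) + 2)
      (sqR (m + 2) (m + 4) (cupR m f * shf Empty (m + 1) x0)) :=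
    (HC_sqR (n := m + 4) hyH).cast (by ring)
  have ez : jo ((Sq2 (m + 2) y).1 - (v.1 - v'.1))
      = sqR (m + 2) (m + 4) (cupR m f * shf Empty (m + 1) x0)
        + (S * shf Empty (m + 2) (x0 * shf Empty 1 x0)
          + S' * shf Empty (m + 2) (x0 * shf Empty 1 x0)) := by
    rw [jo_sub, jo_sub, jo_Sq2, hjy, hjv, hjv']
  have hz : IsHom (m + 4) (8 * T + 2) ((Sq2 (m + 2) y).1 - (v.1 - v'.1)) :=
    isHom_of_jo (t := 8 * T + 2) ((hqH.add ((hvH S hS).add (hvH S' hS'))).cast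
      (by push_cast; ring)) ez
  have q4 := (Bd_iff hz).mp q3
  rw [ez] at q4
  have c1 := sqR_cartan (p := m + 1) (n := m + 2) ha HC_x0
  have c2 := Bd_prod_left (a := m + 2) (b := 2) (Bd_cup_cup hxH) hcc
  rw [sqR_eq_cup ha.cu] at c1
  have c3 := (q4.cast (t' := 8 * (T : ℤ) + 2) (by push_cast; ring) rfl).add
    (c1.cast (t' := 8 * (T : ℤ) + 2) (by ring) rfl)
  have c4 := c3.add (c2.cast (t' := 8 * (T : ℤ) + 2) (by ring) rfl)
  refine hQ ?_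
  have hQv : HC (m + 3) (8 * (T : ℤ)) (Qv m f) := (HC_Qv hxH).cast (by ring)
  have hSS : HC (m + 2) (8 * (T : ℤ)) (S + S') := (hS.add hS').cast (by push_cast; ring)
  refine (hr1 (T : ℤ) (by exact_mod_cast hT0.ne') ((pow_dvd_pow 2 (by omega)).trans hTz) (Qv m f)
    (S + S') hQv hSS (c4.cast rfl ?_)).cast (by push_cast; ring) rfl
  rw [Qv]
  linear_combination (sqR (m + 2) (m + 4) (cupR m f * shf Empty (m + 1) x0)
    + cupR (m + 1) (cupR m f) * shf Empty (m + 2) (x0 * shf Empty 1 x0)) * two_R0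

end Pool.Agent.H59K
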