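import Pool.Agent.H59K.NO
import Pool.Agent.H59K.Mon

/-!
# The exceptional families are the families of `Sq¹` of a monomial, up to few exceptions
-/

set_option autoImplicit false
set_option linter.unusedSectionVars false

namespace Pool.Agent.H59K

open Finset
open Pool.Agent.W624.NS
open Pool.Agent.W624.Stz (dd kun cut TT RR IW Vr p2_add_self)

theorem exc_mon (m G : ℕ) : ∃ J0 : ℕ, ∀ J, J0 ≤ J → ∃ M D : ℕ, ∀ (t : ℕ) (x : Z (m + 4)),
    IsHom (m + 4) t x.1 → ¬ Nil (cl x) → (Nil (cl (Sq1 (m + 4) x)) ∧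
      ¬ ∃ i : ℕ → ℕ, (∀ k < m + 2, i (k + 1) + G ≤ i k) ∧ 2 * Sm (m + 2) i = 2 ^ J * t ∧
        (Sq0 (m + 4))^[J] (cl x) = cl (Sq1 (m + 3) (mon (m + 2) i))) →
    ∃ L : List (ℕ × ℕ), L.length ≤ m + 2 ∧
      (∀ p ∈ L, 0 < p.2 ∧ p.2 ≤ D) ∧ (L.map fun p => 2 ^ p.1 * p.2).sum = 2 ^ M * t := by
  obtain ⟨A, F, h1, h2, h3, h4, h5, h6⟩ := gen_b
  obtain ⟨J1, hJ1⟩ := uni_EvT h2 (m + 3)
  obtain ⟨I, hI⟩ := uni_EvP h1 (m + 2)
  obtain ⟨DF, hDF⟩ := exists_D h2 (m + 4)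
  obtain ⟨DM, hDM⟩ := t_MON t_COMM A h1 (m + 2) G
  refine ⟨J1 + I, fun J hJ => ?_⟩
  obtain ⟨i, rfl⟩ : ∃ i, J = J1 + i := ⟨J - J1, by omega⟩
  refine ⟨J1 + i, DF + DM, fun t x hx hn hq => ?_⟩
  obtain ⟨hq, hv0⟩ := hq
  obtain ⟨u, v, z, e0, hv, hz, hB⟩ := hJ1 t x hx ((h6 (m + 3) t x hx).mp hq) J1 le_rfl
  have hz' : PlR F (m + 4) ((2 ^ J1 * t : ℕ) : ℤ) z := by push_cast; exact hz
  rcases hz'.mono_or with ⟨z', L, hL⟩ | hzB
  · refine ⟨L.map fun p => (p.1 + i, p.2), ?_, shift_mem fun p hp => ?_, ?_⟩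
    · rw [List.length_map]
      have := hL.len_two (fun n f hf => (h4 n f hf).2)
      omega
    · have := hL.bound hDF le_rfl p hp
      omega
    · rw [shift_sum, hL.sum, pow_add]
      ring
  · push_cast at hzB
    have hB' : Bd (m + 4) (2 ^ J1 * (t : ℤ)) (jo x.1 ^ 2 ^ J1 + cupR (m + 3) v) := by
      have := hB.add hzB
      refine Eq.mp (congrArg _ ?_) this
      linear_combination z * two_RR
    have hu0 : 0 ≤ u := by
      have : (0 : ℤ) ≤ 2 ^ J1 * (t : ℤ) := by positivity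
      omega
    obtain ⟨u', rfl⟩ := Int.eq_ofNat_of_zero_le hu0
    obtain ⟨v', rfl, hv'⟩ := exists_Z hv
    have e0' : 2 ^ J1 * t = 2 * u' := by exact_mod_cast e0
    have hP := hI u' v' hv' (h5 (m + 2) u' v' hv') i (by omega)
    have hP' : PlR A (m + 3) ((2 ^ i * u' : ℕ) : ℤ) (jo v'.1 ^ 2 ^ i) := by push_cast; exact hP
    -- the class of the `J`-th member
    have hC : Bd (m + 4) (2 ^ (J1 + i) * (t : ℤ))
        (jo x.1 ^ 2 ^ (J1 + i) + cupR (m + 3) (jo v'.1 ^ 2 ^ i)) := by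
      have h8 := hB'.pow_add i
      rw [← pow_mul, ← pow_add, ← cupR_pow] at h8
      have e2 : (2 : ℤ) ^ (J1 + i) * (t : ℤ) = 2 ^ i * (2 ^ J1 * (t : ℤ)) := by
        rw [pow_add]; ring
      rw [e2]
      exact h8
    rcases hDM (2 ^ i * u') (jo v'.1 ^ 2 ^ i) hP' with ⟨L, hL1, hL2, hL3⟩ | hvB | ⟨e, he1, he2, he3⟩
    · refine ⟨L.map fun p => (p.1 + 1, p.2), ?_, shift_mem fun p hp => ?_, ?_⟩
      · rw [List.length_map]
        exact hL1
      · have := hL2 p hp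
        omega
      · rw [shift_sum, hL3, pow_add, mul_comm (2 ^ J1) (2 ^ i), mul_assoc, e0']
        ring
    · exfalso
      apply hn
      rw [Nil_iff x hx]
      refine ⟨J1 + i, ?_⟩
      have h7 := Bd_cup hvB
      have e1 : (2 : ℤ) * ((2 ^ i * u' : ℕ) : ℤ) = 2 ^ (J1 + i) * (t : ℤ) := by
        push_cast
        rw [pow_add, mul_comm ((2 : ℤ) ^ J1) (2 ^ i), mul_assoc, e0]
        ring
      rw [e1] at h7
      have h9 := hC.add h7
      refine Eq.mp (congrArg _ ?_) h9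
      linear_combination (cupR (m + 3) (jo v'.1 ^ 2 ^ i)) * two_RR
    · exfalso
      apply hv0
      have hS : Sm (m + 2) e = 2 ^ i * u' := he2
      have hdeg : 2 * Sm (m + 2) e = 2 ^ (J1 + i) * t := by
        rw [hS, pow_add, mul_comm (2 ^ J1) (2 ^ i), mul_assoc, e0']
        ring
      refine ⟨e, he1, hdeg, ?_⟩
      have hvH : HC (m + 3) ((2 ^ i * u' : ℕ) : ℤ) (jo v'.1 ^ 2 ^ i) := hP'.HC
      have hmH : HC (m + 3) ((2 ^ i * u' : ℕ) : ℤ) (jo (mon (m + 2) e).1) := by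
        rw [← hS]
        exact HC_mon (m + 2) e
      have h7 := cup_congr hvH hmH he3
      have e1 : (2 : ℤ) * ((2 ^ i * u' : ℕ) : ℤ) = 2 ^ (J1 + i) * (t : ℤ) := by
        push_cast
        rw [pow_add, mul_comm ((2 : ℤ) ^ J1) (2 ^ i), mul_assoc, e0]
        ring
      rw [e1] at h7
      have h9 := hC.add h7
      have hs := isHom_sq1 (mon (m + 2) e) (isHom_Sm (m + 2) e)
      rw [hdeg] at hs
      rw [Sq0_iter, cl_eq_iff_Bd (isHom_iter x hx (J1 + i)) hs, jo_sq_iter, jo_Sq1]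
      push_cast
      refine Eq.mp (congrArg _ ?_) h9
      linear_combination (cupR (m + 3) (jo v'.1 ^ 2 ^ i)) * two_RR

end Pool.Agent.H59K
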