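import Pool.Agent.H59K.NP

/-!
# All but `O((log X)^(n-2))` families do not survive to `E₄`
-/

set_option autoImplicit false
set_option linter.unusedSectionVars false

namespace Pool.Agent.H59K

open Finset
open Pool.Agent.W624.NS
open Pool.Agent.W624.Stz (dd kun cut TT RR IW Vr p2_add_self)

/-- the families of `Sq¹` of the monomials -/
theorem mon_dies (m : ℕ) : ∃ A r : ℕ, ∀ (d₂ : (n : ℕ) → Ext n → Ext (n + 2))
    (d₃ : (n : ℕ) → Ext n → Ext (n + 3)), Bruner d₂ → H0Lin d₂ → Bruner3 d₂ d₃ →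
    ∀ i : ℕ → ℕ, (∀ k < m + 2, i (k + 1) + A ≤ i k) → 2 ^ r ∣ Sm (m + 2) i → ∀ k : ℕ,
    D3ne d₂ d₃ (m + 4) (2 ^ k * (2 * Sm (m + 2) i))
      ((Sq0 (m + 4))^[k] (cl (Sq1 (m + 3) (mon (m + 2) i)))) := by
  obtain ⟨A, hA⟩ := monQ m
  obtain ⟨r, hr⟩ := e3_main (m + 3)
  refine ⟨A + 1, r + 1, fun d₂ d₃ hd hl h3 i hi hdvd k => ?_⟩
  have hge : ∀ l ≤ m + 2, 1 ≤ i l := by
    obtain ⟨i', _, _, h5⟩ := mon_norm (m + 1) 0 1 i (fun l hl => by
      have := hi l hl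
      omega)
    have h6 : 1 ≤ i (m + 2) := by
      by_contra h
      have h0 : i (m + 1 + 1) = 0 := by
        have : i (m + 1 + 1) = i (m + 2) := rfl
        omega
      rw [h0] at h5
      have h7 : (2 : ℤ) ∣ (Sm (m + 2) i : ℤ) := by
        have : (2 : ℕ) ∣ Sm (m + 2) i := (dvd_pow_self 2 (by omega)).trans hdvd
        exact_mod_cast this
      have h8 : (Sm (m + 2) i : ℤ) = 2 ^ 0 * (2 ^ 1 * (Sm (m + 1) i' : ℤ) + 1) := h5
      rw [h8] at h7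
      omega
    intro l hl
    have := gap_mono hi l hl
    omega
  set i' : ℕ → ℕ := fun l => i l + k - 1 with hi'
  have hgap : ∀ l < m + 2, i' (l + 1) + A ≤ i' l := by
    intro l hl
    have h1 := hi l hl
    have h2 := hge (l + 1) (by omega)
    change i (l + 1) + k - 1 + A ≤ i l + k - 1
    omega
  have hS : 2 * Sm (m + 2) i' = 2 ^ k * Sm (m + 2) i := by
    rw [Sm, Sm, mul_sum, mul_sum]
    refine sum_congr rfl fun l hl => ?_
    have h2 := hge l (by have := mem_range.mp hl; omega)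
    rw [← pow_succ', ← pow_add]
    congr 1
    change i l + k - 1 + 1 = k + i l
    omega
  have e1 : mon (m + 2) (fun l => i l + k) = (sqZ (m + 3))^[1] (mon (m + 2) i') := by
    rw [mon_iter]
    refine mon_congr (m + 2) _ _ fun l hl => ?_
    have h2 := hge l hl
    change i l + k = i l + k - 1 + 1
    omega
  have hmon : (Sq0 (m + 4))^[k] (cl (Sq1 (m + 3) (mon (m + 2) i)))
      = cl (Sq1 (m + 3) (sqZ (m + 3) (mon (m + 2) i'))) := by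
    rw [Sq0_iter, ← Sq1_iter, mon_iter, e1]
    rfl
  have hdv : 2 ^ r ∣ Sm (m + 2) i' := by
    have h5 : 2 ^ (r + 1) ∣ 2 * Sm (m + 2) i' := by
      rw [hS]
      exact hdvd.mul_left _
    rw [pow_succ'] at h5
    exact Nat.dvd_of_mul_dvd_mul_left (by norm_num) h5
  have h6 := hr d₂ d₃ hd hl h3 (Sm (m + 2) i') (Sm_pos _ _) hdv (mon (m + 2) i')
    (isHom_Sm (m + 2) i') (fun h => hA i' hgap ⟨0, by simpa using h⟩)
  rw [hmon]
  have e : 2 ^ k * (2 * Sm (m + 2) i) = 4 * Sm (m + 2) i' := by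
    have : 4 * Sm (m + 2) i' = 2 * (2 * Sm (m + 2) i') := by ring
    rw [this, hS]
    ring
  rw [e]
  exact h6

/-- **explicit families** -/
theorem mon_explicit (m : ℕ) : ∃ A J : ℕ, ∀ (d₂ : (n : ℕ) → Ext n → Ext (n + 2))
    (d₃ : (n : ℕ) → Ext n → Ext (n + 3)), Bruner d₂ → H0Lin d₂ → Bruner3 d₂ d₃ →
    ∀ i : ℕ → ℕ, (∀ k < m + 2, i (k + 1) + A ≤ i k) → ∀ j, J ≤ j →
    d₂ (m + 4) ((Sq0 (m + 4))^[j] (cl (Sq1 (m + 3) (mon (m + 2) i)))) = 0 ∧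
    D3ne d₂ d₃ (m + 4) (2 ^ j * (2 * Sm (m + 2) i))
      ((Sq0 (m + 4))^[j] (cl (Sq1 (m + 3) (mon (m + 2) i)))) := by
  obtain ⟨A, r, hdie⟩ := mon_dies m
  obtain ⟨J3, hJ3⟩ := d2_crit (m + 4)
  refine ⟨A, r + J3, fun d₂ d₃ hd hl h3 i hi j hj => ⟨?_, ?_⟩⟩
  · have hs := isHom_sq1 (mon (m + 2) i) (isHom_Sm (m + 2) i)
    rw [hJ3 d₂ hd _ _ hs j (by omega)]
    refine ⟨0, ?_⟩
    rw [Function.iterate_zero, id]
    exact cl_eq_zero.mpr ((Bd_iff (isHom_sq1 _ hs)).mpr (by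
      rw [jo_Sq1, jo_Sq1]
      have h1 := Bd_cup_cup (HC_mon (m + 2) i)
      push_cast
      exact h1))
  · obtain ⟨k, rfl⟩ : ∃ k, j = r + k := ⟨j - r, by omega⟩
    have hS : Sm (m + 2) (fun l => i l + r) = 2 ^ r * Sm (m + 2) i := by
      rw [Sm, Sm, mul_sum]
      exact sum_congr rfl fun l _ => by rw [← pow_add, add_comm]
    have h1 := hdie d₂ d₃ hd hl h3 (fun l => i l + r) (fun l hl => by
      have := hi l hl
      change i (l + 1) + r + A ≤ i l + r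
      omega) (by rw [hS]; exact dvd_mul_right _ _) k
    have e1 : (Sq0 (m + 4))^[k] (cl (Sq1 (m + 3) (mon (m + 2) fun l => i l + r)))
        = (Sq0 (m + 4))^[r + k] (cl (Sq1 (m + 3) (mon (m + 2) i))) := by
      rw [← mon_iter, Sq1_iter, ← Sq0_iter, ← Function.iterate_add_apply, add_comm k r]
    have e2 : 2 ^ k * (2 * Sm (m + 2) fun l => i l + r) = 2 ^ (r + k) * (2 * Sm (m + 2) i) := by
      rw [hS, pow_add]; ring
    rw [e1, e2] at h1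
    exact h1

/-- **the theorem** -/
theorem third (m : ℕ) : ∃ (J : ℕ) (c C : ℝ) (X₀ : ℕ), 0 < c ∧ ∀ X : ℕ, X₀ ≤ X →
    (Fam (m + 4) J X).Finite ∧
    c * Real.log X ^ (m + 4) ≤ (Fam (m + 4) J X).ncard ∧
    ∃ E ⊆ Fam (m + 4) J X, E.ncard ≤ C * Real.log X ^ (m + 2) ∧
      ∀ (d₂ : (n : ℕ) → Ext n → Ext (n + 2)) (d₃ : (n : ℕ) → Ext n → Ext (n + 3)),
        Bruner d₂ → H0Lin d₂ → Bruner3 d₂ d₃ →
        ∀ (t : ℕ) (x : Z (m + 4)), t ≤ X → IsHom (m + 4) t x.1 → ¬ Nil (cl x) →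
          (Sq0 (m + 4))^[J] (cl x) ∉ E → ∀ j, J ≤ j →
          d₂ (m + 4) ((Sq0 (m + 4))^[j] (cl x)) ≠ 0 ∨
            D3ne d₂ d₃ (m + 4) (2 ^ j * t) ((Sq0 (m + 4))^[j] (cl x)) := by
  obtain ⟨A1, hA1⟩ := many_fam (m + 3)
  obtain ⟨A, r, hdie⟩ := mon_dies m
  obtain ⟨J1, hJ1⟩ := exc_mon m A
  obtain ⟨J2, hJ2⟩ := fam_bound (m + 3)
  obtain ⟨J3, hJ3⟩ := d2_crit (m + 4)
  set J := J1 + J2 + J3 + r + 1 with hJd
  obtain ⟨M, D, hMD⟩ := hJ1 J (by omega)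
  obtain ⟨B, hB⟩ := hJ2 J (by omega)
  obtain ⟨X1, hX1⟩ := low_real (m + 4) A1 (by omega)
  obtain ⟨X2, hX2⟩ := up_real M D B (m + 2)
  set c1 : ℝ := (1 / (2 * ((m + 4 : ℕ) : ℝ))) ^ (m + 4) with hc1
  have pc1 : 0 < c1 := by rw [hc1]; positivity
  refine ⟨J, c1, B * ((M + 3) * (D + 1)) ^ (m + 2), X1 + X2 + 1, pc1, fun X hX => ?_⟩
  have hL : 0 ≤ Real.log X := Real.log_nonneg (by
    have : 1 ≤ X := by omega
    exact_mod_cast this)
  have hfin := Fam_finite (m + 4) J X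
  let P : Z (m + 3 + 1) → Prop := fun x => Nil (cl (Sq1 (m + 4) x)) ∧
    ¬ ∃ i : ℕ → ℕ, (∀ k < m + 2, i (k + 1) + A ≤ i k) ∧
      (∃ t, IsHom (m + 4) t x.1 ∧ 2 * Sm (m + 2) i = 2 ^ J * t) ∧
      (Sq0 (m + 4))^[J] (cl x) = cl (Sq1 (m + 3) (mon (m + 2) i))
  refine ⟨hfin, ?_, {y : Ext (m + 3 + 1) | ¬ Nil y ∧ ∃ (t : ℕ) (x : Z (m + 3 + 1)), t ≤ X ∧
    IsHom (m + 3 + 1) t x.1 ∧ P x ∧ (Sq0 (m + 3 + 1))^[J] (cl x) = y}, ?_, ?_, ?_⟩
  · obtain ⟨M', hm1, hm2⟩ := hX1 X (by omega)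
    have e : (m + 3 + 1) * (M' + A1) ≤ (m + 4) * (M' + A1) + 1 := Nat.le_succ _
    have h := hA1 J M' X (le_trans (Nat.pow_le_pow_right (by norm_num) e) hm1) hfin
    calc c1 * Real.log X ^ (m + 4)
        = (1 / (2 * ((m + 4 : ℕ) : ℝ)) * Real.log X) ^ (m + 4) := by rw [hc1, mul_pow]
      _ ≤ (M' : ℝ) ^ (m + 4) := pow_le_pow_left₀ (by positivity) hm2 _
      _ = ((M' ^ (m + 4) : ℕ) : ℝ) := by push_cast; rfl
      _ ≤ _ := by exact_mod_cast h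
  · rintro y ⟨h1, t, x, h2, h3, _, h4⟩
    exact ⟨h1, t, x, h2, h3, h4⟩
  · have h := count_gen (s := m + 3) (n := m + 2) (J := J) (P := P) hB
      (fun t x hx hn hP => hMD t x hx hn ⟨hP.1, fun ⟨i, h1, h2, h3⟩ =>
        hP.2 ⟨i, h1, ⟨t, hx, h2⟩, h3⟩⟩) X
    have h2 : (({y : Ext (m + 3 + 1) | ¬ Nil y ∧ ∃ (t : ℕ) (x : Z (m + 3 + 1)), t ≤ X ∧
        IsHom (m + 3 + 1) t x.1 ∧ P x ∧ (Sq0 (m + 3 + 1))^[J] (cl x) = y}.ncard : ℕ) : ℝ)
        ≤ ((B * ((M + Nat.log 2 X + 1) * (D + 1)) ^ (m + 2) : ℕ) : ℝ) := by exact_mod_cast h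
    exact h2.trans (hX2 X (by omega))
  · intro d₂ d₃ hd hl h3 t x htX hx hn hE j hj
    obtain ⟨k, rfl⟩ : ∃ k, j = J + k := ⟨j - J, by omega⟩
    by_cases hq : Nil (cl (Sq1 (m + 4) x))
    · have hP : ¬ P x := by
        intro hP
        apply hE
        refine ⟨?_, t, x, htX, hx, hP, rfl⟩
        rw [Sq0_iter, nil_sq_iter]
        exact hn
      have hP' : ∃ i : ℕ → ℕ, (∀ k < m + 2, i (k + 1) + A ≤ i k) ∧
          (∃ t, IsHom (m + 4) t x.1 ∧ 2 * Sm (m + 2) i = 2 ^ J * t) ∧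
          (Sq0 (m + 4))^[J] (cl x) = cl (Sq1 (m + 3) (mon (m + 2) i)) := by
        by_contra h
        exact hP ⟨hq, h⟩
      obtain ⟨i, hi1, ⟨t', ht', hi2⟩, hi3⟩ := hP'
      have hx0 : x.1 ≠ 0 := by
        intro h0
        apply hn
        refine ⟨0, ?_⟩
        rw [Function.iterate_zero, id, cl_eq_zero, h0]
        exact isB_zero _
      obtain rfl : t = t' := hom_unique hx0 hx ht'
      have hdv : 2 ^ r ∣ Sm (m + 2) i := by
        have h5 : 2 ^ (r + 1) ∣ 2 * Sm (m + 2) i := by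
          rw [hi2]
          exact (pow_dvd_pow 2 (by omega)).mul_right _
        rw [pow_succ'] at h5
        exact Nat.dvd_of_mul_dvd_mul_left (by norm_num) h5
      have h6 := hdie d₂ d₃ hd hl h3 i hi1 hdv k
      rw [← hi3, ← Function.iterate_add_apply, add_comm k J, hi2] at h6
      have e : 2 ^ (J + k) * t = 2 ^ k * (2 ^ J * t) := by rw [pow_add]; ring
      rw [e]
      exact Or.inr h6
    · left
      intro h0
      exact hq ((hJ3 d₂ hd t x hx (J + k) (by omega)).mp h0)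

end Pool.Agent.H59K
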